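import Pool.Agent.MP_92f1cb_al.H14C.Defs

set_option autoImplicit false

namespace Pool.Agent.MP_92f1cb_al.H14C

open Module MvPolynomial

section Q

variable {R : Type} [CommRing R]

theorem emb_self (I : Ideal R) (f : R) : emb I f I = Ideal.Quotient.mk I f := by
  classical
  simp [emb]

theorem emb_ne {I J : Ideal R} (h : J ≠ I) (f : R) : emb I f J = 0 := by
  classical
  simp [emb, Pi.single_eq_of_ne h]

theorem emb_eq_zero {I : Ideal R} {f : R} : emb I f = 0 ↔ f ∈ I := by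
  constructor
  · intro h
    rw [← Ideal.Quotient.eq_zero_iff_mem, ← emb_self, h]; rfl
  · intro h
    funext J
    by_cases hJ : J = I
    · subst hJ; rw [emb_self, Ideal.Quotient.eq_zero_iff_mem.2 h]; rfl
    · exact emb_ne hJ f

theorem emb_eq_iff {I : Ideal R} {f g : R} : emb I f = emb I g ↔ f - g ∈ I := by
  rw [← emb_eq_zero, map_sub, sub_eq_zero]

theorem algebraMap_mul_emb (I : Ideal R) (r f : R) :
    algebraMap R (QU R) r * emb I f = emb I (r * f) := by
  rw [← Algebra.smul_def, ← map_smul, smul_eq_mul]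

theorem trU_emb {h : R} {I₁ I₂ : Ideal R} (H : ∀ f ∈ I₁, h * f ∈ I₂) (f : R) :
    trU h I₁ I₂ (emb I₁ f) = emb I₂ (h * f) := by
  have H' : I₁ ≤ LinearMap.ker (emb I₂ ∘ₗ LinearMap.mulLeft R h) := fun g hg =>
    emb_eq_zero.2 (H g hg)
  rw [trU, dif_pos H', LinearMap.comp_apply, LinearMap.proj_apply, emb_self]
  rfl

end Q

variable {k : Type} [Field k]

theorem cS_apply (f : R0 k) : cS k f = C f := rfl

theorem eS_C (f : R0 k) : eS k (C f) = f := by simp [eS]

theorem eS_X (l : Fin 3) : eS k (X l) = xv k l := by simp [eS]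

theorem mem_Lalg {l : Matrix (Fin 3) (Fin 3) (KX k)} : l ∈ Lalg k ↔ ∀ i j : Fin 3,
    (j ≤ i → (l i j).IsHomogeneous (i - j)) ∧ (i < j → l i j = 0) := Iff.rfl

theorem lam_apply (l : Lalg k) (i j : Fin 3) :
    lam k l i j = algebraMap (SS k) (UU k) (zS k (l.1 i j)) := rfl

theorem rgt_apply (l : Lalg k) (i j : Fin 3) :
    rgt k l i j = algebraMap (SS k) (UU k) (yS k (l.1 i j)) := rfl

theorem lam_mul_emb (l : Lalg k) (I : Ideal (SS k)) (f : Matrix (Fin 3) (Fin 3) (SS k)) :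
    lam k l * f.map (emb I) = (l.1.map (zS k) * f).map (emb I) := by
  refine Matrix.ext fun i j => ?_
  simp only [Matrix.mul_apply, Matrix.map_apply, lam_apply, algebraMap_mul_emb, map_sum]

theorem emb_mul_rgt (l : Lalg k) (I : Ideal (SS k)) (f : Matrix (Fin 3) (Fin 3) (SS k)) :
    f.map (emb I) * rgt k l = (f * l.1.map (yS k)).map (emb I) := by
  refine Matrix.ext fun i j => ?_
  simp only [Matrix.mul_apply, Matrix.map_apply, rgt_apply, map_sum]
  exact Finset.sum_congr rfl fun c _ => by rw [mul_comm, algebraMap_mul_emb, mul_comm]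

namespace Model

variable {A : Type} [Ring A] [Algebra k A] (M : Model k A)

theorem σ_apply (a : A) : M.σ a = M.inL (M.prL a) := rfl

theorem σ_inL (l : Lalg k) : M.σ (M.inL l) = M.inL l := by rw [σ_apply, M.prL_inL]

theorem σ_inM (μ : Mat k) : M.σ (M.inM μ) = 0 := by rw [σ_apply, M.prL_inM, map_zero]

theorem eq_inM {y : A} (h : M.σ y = 0) : y = M.inM (M.prM y) := by
  conv_lhs => rw [← M.decomp y, ← σ_apply, h, zero_add]

theorem eq_inL {c : A} (h : M.σ c = c) : c = M.inL (M.prL c) := h.symm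

theorem inM_inj {μ ν : Mat k} (h : M.inM μ = M.inM ν) : μ = ν := by
  rw [← M.prM_inM μ, h, M.prM_inM]

theorem sub_σ (a : A) : a - M.σ a = M.inM (M.prM a) := by
  rw [sub_eq_iff_eq_add', σ_apply, M.decomp]

theorem mul_inM (a : A) (μ : Mat k) : a * M.inM μ = M.inM (lam k (M.prL a) * μ) := by
  conv_lhs => rw [← M.decomp a, add_mul, M.L_mul_M, M.M_mul_M, add_zero]

theorem inM_mul (a : A) (μ : Mat k) : M.inM μ * a = M.inM (μ * rgt k (M.prL a)) := by
  conv_lhs => rw [← M.decomp a, mul_add, M.M_mul_L, M.M_mul_M, add_zero]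

theorem split : Split M.σ :=
  ⟨fun a => M.σ_inL _, fun a c ha hc => by rw [M.eq_inM ha, M.eq_inM hc, M.M_mul_M]⟩

theorem mem_YY {I : Ideal (SS k)} {D : Fin 3 → Fin 3 → Submodule k (SS k)} {a : A} :
    a ∈ M.YY I D ↔ ∃ f : Matrix (Fin 3) (Fin 3) (SS k), (∀ i j, f i j ∈ D i j) ∧
      a = M.inM (f.map (emb I)) := Iff.rfl

theorem onM_inM (φ : UU k →ₗ[SS k] UU k) (μ : Mat k) :
    M.onM φ (M.inM μ) = M.inM (μ.map φ) := by
  simp only [onM, LinearMap.comp_apply, M.prM_inM]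
  rfl

theorem bmap_onM (φ : UU k →ₗ[SS k] UU k) : BMap M.σ (M.onM φ) := by
  intro y hy
  obtain ⟨μ, rfl⟩ : ∃ μ, y = M.inM μ := ⟨_, M.eq_inM hy⟩
  refine ⟨by rw [onM_inM, σ_inM], fun a => ⟨?_, ?_⟩⟩
  · rw [mul_inM, onM_inM, onM_inM, mul_inM]
    congr 1
    refine Matrix.ext fun i j => ?_
    simp only [Matrix.mul_apply, Matrix.map_apply, lam_apply, map_sum, ← Algebra.smul_def,
      map_smul]
  · rw [inM_mul, onM_inM, onM_inM, inM_mul]
    congr 1
    refine Matrix.ext fun i j => ?_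
    simp only [Matrix.mul_apply, Matrix.map_apply, rgt_apply, map_sum]
    exact Finset.sum_congr rfl fun c _ => by
      rw [mul_comm, ← Algebra.smul_def, map_smul, Algebra.smul_def, mul_comm]

theorem bmap_tr (h : SS k) (I₁ I₂ : Ideal (SS k)) : BMap M.σ (M.tr h I₁ I₂) := M.bmap_onM _

theorem bmap_mulS (r : SS k) : BMap M.σ (M.mulS r) := M.bmap_onM _

theorem tr_emb {h : SS k} {I₁ I₂ : Ideal (SS k)} (H : ∀ f ∈ I₁, h * f ∈ I₂)
    (f : Matrix (Fin 3) (Fin 3) (SS k)) :
    M.tr h I₁ I₂ (M.inM (f.map (emb I₁))) = M.inM ((h • f).map (emb I₂)) := by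
  rw [tr, onM_inM]
  congr 1
  refine Matrix.ext fun i j => ?_
  simp only [Matrix.map_apply, trU_emb H, Matrix.smul_apply, smul_eq_mul]

theorem mulS_inM (r : SS k) (μ : Mat k) : M.mulS r (M.inM μ) = M.inM (r • μ) := by
  rw [mulS, onM_inM]; rfl

theorem mulS_emb (r : SS k) (I : Ideal (SS k)) (f : Matrix (Fin 3) (Fin 3) (SS k)) :
    M.mulS r (M.inM (f.map (emb I))) = M.inM ((r • f).map (emb I)) := by
  rw [mulS_inM]
  congr 1
  refine Matrix.ext fun i j => ?_
  simp only [Matrix.map_apply, Matrix.smul_apply, map_smul]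

theorem onM_apply (φ : UU k →ₗ[SS k] UU k) (a : A) : M.onM φ a = M.inM ((M.prM a).map φ) := rfl

theorem onM_mul (φ ψ : UU k →ₗ[SS k] UU k) : M.onM φ * M.onM ψ = M.onM (φ ∘ₗ ψ) := by
  refine LinearMap.ext fun a => ?_
  rw [End.mul_apply, onM_apply M ψ, onM_inM, onM_apply, Matrix.map_map]; rfl

theorem mulS_mul (r r' : SS k) : M.mulS (r * r') = M.mulS r * M.mulS r' := by
  rw [mulS, mulS, mulS, onM_mul]
  congr 1
  exact LinearMap.ext fun x => mul_smul r r' x

theorem mulS_onM (r : SS k) (φ : UU k →ₗ[SS k] UU k) :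
    M.mulS r * M.onM φ = M.onM φ * M.mulS r := by
  rw [mulS, onM_mul, onM_mul]
  congr 1
  exact LinearMap.ext fun x => (map_smul φ r x).symm

theorem mulS_add (r r' : SS k) : M.mulS (r + r') = M.mulS r + M.mulS r' := by
  refine LinearMap.ext fun a => ?_
  rw [LinearMap.add_apply, mulS, mulS, mulS, onM_apply, onM_apply, onM_apply, ← map_add]
  congr 1
  exact Matrix.ext fun i j => add_smul r r' _

theorem mulS_smul (c : k) (r : SS k) : M.mulS (c • r) = c • M.mulS r := by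
  refine LinearMap.ext fun a => ?_
  rw [LinearMap.smul_apply, mulS, mulS, onM_apply, onM_apply, ← map_smul]
  congr 1
  exact Matrix.ext fun i j => smul_assoc c r _

theorem mulS_one {y : A} (h : M.σ y = 0) : M.mulS 1 y = y := by
  rw [M.eq_inM h, mulS_inM, one_smul]

end Model

end Pool.Agent.MP_92f1cb_al.H14C
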