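import Pool.Agent.MP_92f1cb_al.H14C.Base2

set_option autoImplicit false

namespace Pool.Agent.MP_92f1cb_al.H14C

open Pool.Agent.MP_92f1cb_al.H14 Module

theorem ex_rotate (hR : SRot) {k A B : Type} [Field k] [Ring A] [Algebra k A] (β : Basis B k A)
    {σ : A →ₐ[k] A} (hσ : Split σ) {Ys : List (Submodule k A)} (hYs : ∀ Y ∈ Ys, Bim σ Y) (j : ℕ)
    (h : Ex (bH β) (SW β σ Ys)) : Ex (bH β) (SW β σ (Ys.rotate j)) := by
  have hk : ∀ φ ∈ List.replicate Ys.length (1 : End k A), KMap σ φ := fun φ hφ => by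
    rw [List.eq_of_mem_replicate hφ]; exact kmap_one
  have := hR k A B β σ hσ Ys (List.replicate Ys.length 1) (List.replicate Ys.length 1) 0 j hYs
    (by simp) (by simp) hk hk (by rw [pow_zero]; exact h)
  rwa [pow_zero] at this

theorem all_slots (hM : SMod) (hR : SRot) {k A B : Type} [Field k] [Ring A] [Algebra k A]
    (β : Basis B k A) (M : Model k A) (I : Ideal (R0 k)) (d : Option (ℕ × ℕ))
    (hgen : ∀ Ys : List (Submodule k A), (∀ Y ∈ Ys, Bim M.σ Y) →
      (∀ Y, IsAff M I Y → Ex (bH β) (SW β M.σ (Y :: Ys))) →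
      Ex (bH β) (SW β M.σ (M.YR I d :: Ys)))
    (haff : ∀ Ys : List (Submodule k A), (∀ Y ∈ Ys, IsAff M I Y) → Ex (bH β) (SW β M.σ Ys))
    (n : ℕ) (As : List (Submodule k A)) (hAs : ∀ Y ∈ As, IsAff M I Y) :
    Ex (bH β) (SW β M.σ (List.replicate n (M.YR I d) ++ As)) := by
  have hb := (hM k A M).2.1
  induction n generalizing As with
  | zero => exact haff As hAs
  | succ n ih =>
    have hbim : ∀ As : List (Submodule k A), (∀ Y ∈ As, IsAff M I Y) →
        ∀ Y ∈ List.replicate n (M.YR I d) ++ As, Bim M.σ Y := by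
      intro As hAs Y hY
      rcases List.mem_append.1 hY with hY | hY
      · rw [List.eq_of_mem_replicate hY]; exact hb _ _
      · obtain ⟨J, _, _, _, _, _, rfl⟩ := hAs Y hY
        exact hb _ _
    rw [List.replicate_succ, List.cons_append]
    refine hgen _ (hbim As hAs) fun Y hY => ?_
    have hAs' : ∀ Z ∈ As ++ [Y], IsAff M I Z := fun Z hZ => by
      rcases List.mem_append.1 hZ with hZ | hZ
      · exact hAs Z hZ
      · rw [List.mem_singleton.1 hZ]; exact hY
    have := ex_rotate hR β M.split (hbim _ hAs') (List.replicate n (M.YR I d) ++ As).length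
      (ih _ hAs')
    rwa [← List.append_assoc, List.rotate_append_length_eq] at this

theorem assemble (hNT : SNT) (hEll : SEll) (hModel : SModel) (hIdem : SIdem) (hM : SMod)
    (hDev : SDev) (hFam : SFam) (hR : SRot) (hCyc : SCyc) (hH1 : SH1) (hW0 : SW0)
    (hT : STrans) (hFin : SFin) (k : Type) [Field k] (hk : NonRoot k) :
    ∃ (A : Type) (_ : Ring A) (_ : Algebra k A) (_ : FiniteDimensional k A)
      (𝒜 : ℕ → Submodule k A) (_ : GradedAlgebra 𝒜) (e : Fin 3 → A),
      DegreeZeroSplit 𝒜 e ∧ HHVanishesAbove k A 0 ∧ ¬ ∃ D, GlDimLE A D := by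
  classical
  obtain ⟨I, hI, hno, hch⟩ := hEll k (hNT k hk)
  obtain ⟨A, _, _, ⟨M⟩⟩ := hModel k
  obtain ⟨a, ha⟩ := hDev k I hI
  have hb := (hM k A M).2.1 I (some (a, a))
  obtain ⟨A₀, _, _, _, ι, 𝒜, _, e, hι, hr, he, hg⟩ := hFin k A M I a hch hb
  let β := Module.Free.chooseBasis k A
  obtain ⟨e', he'⟩ := hIdem k A M
  refine ⟨A₀, inferInstance, inferInstance, inferInstance, 𝒜, inferInstance, e, he, ?_, hg⟩
  refine hT k A _ β M.σ M.split _ hb A₀ ι hι hr (fun m => ?_) (hW0 k A _ β M.σ e' he')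
  refine hH1 k A _ β M.σ M.split _ m hb ?_
  have := all_slots hM hR β M I (some (a, a)) (fun Ys hYs h => ha a a le_rfl le_rfl _ _ _ _
    (hFam k A _ β M Ys hYs) fun J s t h1 h2 h3 => h _ ⟨J, s, t, h1, h2, h3, rfl⟩)
    (hCyc k A _ β M I hno) (m + 1) [] (by simp)
  rwa [List.append_nil] at this

end Pool.Agent.MP_92f1cb_al.H14C
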