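import Pool.Agent.MP_92f1cb_al.H14C.Spec

set_option autoImplicit false

namespace Pool.Agent.MP_92f1cb_al.H14C

open Pool.Agent.MP_92f1cb_al.H14 Module

variable {k A B : Type} [Field k] [Ring A] [Algebra k A] (β : Basis B k A)

theorem ww_nil : ww β [] = ee (0, []) := rfl

theorem ww_cons (a : A) (l : List A) : ww β (a :: l) = cons β a (ww β l) := rfl

theorem ww_concat (l : List A) (a : A) : ww β (l ++ [a]) = snoc β a (ww β l) := wd_concat β l a

theorem om_ww (l : List A) : om (ww β l) = (-1 : k) ^ l.length • ww β l := om_wd β l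

theorem ww_mem_LL (l : List A) : ww β l ∈ LL k 1 B l.length := wd_mem_LL β l

theorem ee_eq_ww (c : ZMod 1) (w : List B) : (ee (c, w) : WW k B) = ww β (w.map β) := by
  rw [Subsingleton.elim c 0]; exact (wd_map_basis β w).symm

theorem ww_ind {P : WW k B → Prop} (hb : ∀ l, P (ww β l)) (h0 : P 0)
    (hadd : ∀ x y, P x → P y → P (x + y)) (hsmul : ∀ (c : k) x, P x → P (c • x))
    (W : WW k B) : P W :=
  ee_ind (fun c w => by rw [ee_eq_ww β]; exact hb _) h0 hadd hsmul W

theorem ww_ext {X : Type} [AddCommGroup X] [Module k X] {f g : WW k B →ₗ[k] X}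
    (h : ∀ l, f (ww β l) = g (ww β l)) (W : WW k B) : f W = g W := by
  induction W using ww_ind β with
  | hb l => exact h l
  | h0 => simp
  | hadd x y hx hy => simp only [map_add, hx, hy]
  | hsmul c x hx => simp only [map_smul, hx]

theorem cons_comm_snoc (a c : A) (W : WW k B) :
    cons β a (snoc β c W) = snoc β c (cons β a W) := cons_snoc β a c W

theorem cons_nil (a : A) : cons β a (ww β []) = snoc β a (ww β []) := cons_nil_eq_snoc β a 0

theorem TH_snoc (a : A) (W : WW k B) : TH k B (snoc β a W) = cons β a (om W) := by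
  rw [TH, TT_snoc β _ a 0 (fun _ _ => rfl), Nat.cast_zero, sh_zero]

theorem TH_nil : TH k B (ww β []) = - ww β [] := TT_nil _ _

theorem TH_concat (l : List A) (a : A) :
    TH k B (ww β (l ++ [a])) = (-1 : k) ^ l.length • ww β (a :: l) := by
  rw [ww_concat, TH_snoc, om_ww, map_smul, ww_cons]

theorem d0_ww_nil : d0 β (ww β []) = 0 := d0_nil β 0

theorem d0_ww_one (a : A) : d0 β (cons β a (ww β [])) = 0 := d0_cons_nil β a 0

theorem bp_ww_nil : bp β (ww β []) = 0 := bp_nil β 0

theorem bH_apply (W : WW k B) : bH β W = bp β W + d0 β (TH k B W) := rfl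

theorem bH_bH (W : WW k B) : bH β (bH β W) = 0 := bb_bb (fun _ _ _ _ => rfl) W

theorem bH_sub_TH (W : WW k B) : bH β (W - TH k B W) = bp β W - TH k B (bp β W) :=
  bb_sub_TT (fun _ _ _ _ => rfl) W

theorem bH_nil : bH β (ww β []) = 0 := by
  rw [bH_apply, bp_ww_nil, TH_nil, map_neg, d0_ww_nil]; simp

theorem bp_one (a : A) : bp β (cons β a (ww β [])) = 0 := by
  rw [bp_cons, d0_ww_one, bp_ww_nil]; simp

theorem d0_TH_one (a : A) : d0 β (TH k B (cons β a (ww β []))) = 0 := d0_TT_cons_nil a 0

theorem bH_one (a : A) : bH β (cons β a (ww β [])) = 0 := by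
  rw [bH_apply, bp_one, d0_TH_one, add_zero]

theorem d0_TH_cons_snoc (a c : A) (W : WW k B) :
    d0 β (TH k B (cons β a (snoc β c W))) = - cons β (c * a) (om W) := by
  rw [cons_snoc, TH_snoc, om_cons, map_neg, map_neg, d0_cons_cons]

theorem om_d0 (W : WW k B) : om (d0 β W) = - d0 β (om W) := om_FF β 0 W

theorem om_bp (W : WW k B) : om (bp β W) = - bp β (om W) := by
  refine ww_ext β (f := om ∘ₗ bp β) (g := - (bp β ∘ₗ om)) (fun l => ?_) W
  induction l with
  | nil => simp [bp_ww_nil, om_ww]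
  | cons a l ih =>
    simp only [LinearMap.comp_apply, LinearMap.neg_apply] at ih ⊢
    rw [ww_cons, bp_cons, map_sub, om_d0, om_cons, om_cons, ih, map_neg, map_neg, map_neg, bp_cons]
    abel

theorem bp_snoc_snoc (a c : A) (W : WW k B) :
    bp β (snoc β c (snoc β a W)) = snoc β c (bp β (snoc β a W)) + snoc β (a * c) (om W) := by
  refine ww_ext β (f := bp β ∘ₗ snoc β c ∘ₗ snoc β a)
    (g := snoc β c ∘ₗ bp β ∘ₗ snoc β a + snoc β (a * c) ∘ₗ om) (fun l => ?_) W
  simp only [LinearMap.comp_apply, LinearMap.add_apply]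
  induction l with
  | nil =>
    rw [← cons_nil, ← cons_snoc, ← cons_nil, bp_cons, d0_cons_cons, bp_one, bp_one, om_ww,
      cons_nil]
    simp
  | cons x l ih =>
    have h1 : d0 β (cons β x (snoc β c (snoc β a (ww β l)))) =
        snoc β c (d0 β (cons β x (snoc β a (ww β l)))) := by
      cases l with
      | nil => rw [← cons_nil, ← cons_snoc, d0_cons_cons, d0_cons_cons, cons_snoc]
      | cons y l =>
        rw [ww_cons, ← cons_snoc, ← cons_snoc, d0_cons_cons, d0_cons_cons, cons_snoc β _ c]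
    rw [ww_cons, ← cons_snoc, ← cons_snoc, bp_cons, bp_cons, ih, h1, om_cons, map_add, map_sub,
      map_neg, cons_snoc β x c, cons_snoc β x (a * c)]
    abel

theorem HdT_nil (F : A →ₗ[k] End k (WW k B)) : HdT β F (ww β []) = 0 := by
  simp [HdT, ww_nil, hdf]

theorem HdT_cons (F : A →ₗ[k] End k (WW k B)) (a : A) (W : WW k B) :
    HdT β F (cons β a W) = F a W := by
  induction a using basis_ind' β with
  | hb x =>
    induction W using ee_ind with
    | hb c w => rw [← ee_cons, Subsingleton.elim c 0]; simp [HdT, hdf]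
    | h0 => simp
    | hadd x y hx hy => simp only [map_add, hx, hy]
    | hsmul c x hx => simp only [map_smul, hx]
  | h0 => simp
  | hadd x y hx hy => simp only [map_add, LinearMap.add_apply, hx, hy]
  | hsmul c x hx => simp only [map_smul, LinearMap.smul_apply, hx]

theorem Hd_nil (φ : End k A) : Hd β φ (ww β []) = 0 := HdT_nil β _

theorem Hd_cons (φ : End k A) (a : A) (W : WW k B) :
    Hd β φ (cons β a W) = cons β (φ a) W := HdT_cons β _ a W

theorem Hd_Hd (φ ψ : End k A) (W : WW k B) : Hd β φ (Hd β ψ W) = Hd β (φ * ψ) W := by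
  refine ww_ext β (f := Hd β φ ∘ₗ Hd β ψ) (fun l => ?_) W
  cases l with
  | nil => simp [Hd_nil]
  | cons a l => simp [ww_cons, Hd_cons]

theorem piL_ww (n : ℕ) (l : List A) :
    piL k B n (ww β l) = if l.length = n then ww β l else 0 := by
  have h := ww_mem_LL β l
  split_ifs with hl
  · exact eq_of_supported (piL k B n) LinearMap.id _ (fun p hp => by
      have : p.2.length = n := hl ▸ hp
      simp [piL, this]) h
  · exact eq_of_supported (piL k B n) 0 _ (fun p hp => by
      have : p.2.length ≠ n := fun h' => hl (h' ▸ hp.symm)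
      simp [piL, this]) h

theorem piL_mem_LL (n : ℕ) (W : WW k B) : piL k B n W ∈ LL k 1 B n := by
  induction W using ee_ind with
  | hb c w =>
    simp only [piL, mk_ee]
    split_ifs with h
    · exact ee_mem h
    · exact Submodule.zero_mem _
  | h0 => simp
  | hadd x y hx hy => rw [map_add]; exact Submodule.add_mem _ hx hy
  | hsmul c x hx => rw [map_smul]; exact Submodule.smul_mem _ c hx

theorem piL_of_mem {n : ℕ} {W : WW k B} (h : W ∈ LL k 1 B n) : piL k B n W = W :=
  eq_of_supported (piL k B n) LinearMap.id _ (fun p hp => by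
    have : p.2.length = n := hp
    simp [piL, this]) h

theorem piL_of_ne {n n' : ℕ} {W : WW k B} (h : W ∈ LL k 1 B n') (hn : n' ≠ n) :
    piL k B n W = 0 :=
  eq_of_supported (piL k B n) 0 _ (fun p hp => by
    have : p.2.length ≠ n := fun h' => hn (h' ▸ hp.symm)
    simp [piL, this]) h

theorem bH_mem_LL {n : ℕ} {W : WW k B} (h : W ∈ LL k 1 B (n + 1)) : bH β W ∈ LL k 1 B n :=
  bb_mem_LL (s := fun _ => ()) (t := fun _ => ()) (fun _ _ _ _ => ⟨rfl, rfl, rfl, rfl⟩) h

theorem piL_bH (n : ℕ) (W : WW k B) : piL k B n (bH β W) = bH β (piL k B (n + 1) W) := by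
  induction W using ww_ind β with
  | hb l =>
    cases l with
    | nil => rw [bH_nil, piL_ww]; simp
    | cons a l =>
      have h : bH β (ww β (a :: l)) ∈ LL k 1 B l.length := bH_mem_LL β (ww_mem_LL β (a :: l))
      rw [piL_ww, List.length_cons]
      by_cases hl : l.length = n
      · subst hl; rw [if_pos rfl, piL_of_mem h]
      · rw [if_neg (by omega), piL_of_ne h hl, map_zero]
  | h0 => simp
  | hadd x y hx hy => simp only [map_add, hx, hy]
  | hsmul c x hx => simp only [map_smul, hx]

variable (σ : A →ₐ[k] A)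

theorem Op_nil_nil : Op β σ [] (ww β []) = ww β [] := by simp [Op, ww_nil, opf]

theorem Op_cons_nil (φ : End k A) (φs : List (End k A)) : Op β σ (φ :: φs) (ww β []) = 0 := by
  simp [Op, ww_nil, opf]

theorem Op_nil_cons (a : A) (W : WW k B) :
    Op β σ [] (cons β a W) = cons β (σ a) (Op β σ [] W) := by
  induction a using basis_ind' β with
  | hb x =>
    induction W using ee_ind with
    | hb c w => rw [← ee_cons]; simp [Op, opf]
    | h0 => simp
    | hadd x y hx hy => simp only [map_add, hx, hy]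
    | hsmul c x hx => simp only [map_smul, hx]
  | h0 => simp
  | hadd x y hx hy => simp only [map_add, LinearMap.add_apply, hx, hy]
  | hsmul c x hx => simp only [map_smul, LinearMap.smul_apply, hx]

theorem Op_cons_cons (φ : End k A) (φs : List (End k A)) (a : A) (W : WW k B) :
    Op β σ (φ :: φs) (cons β a W) =
      cons β (φ (a - σ a)) (Op β σ φs W) + cons β (σ a) (Op β σ (φ :: φs) W) := by
  induction a using basis_ind' β with
  | hb x =>
    induction W using ee_ind with
    | hb c w => rw [← ee_cons]; simp only [Op, mk_ee, opf]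
    | h0 => simp
    | hadd x y hx hy => simp only [map_add, hx, hy]; abel
    | hsmul c x hx => simp only [map_smul, hx, smul_add]
  | h0 => simp
  | hadd x y hx hy =>
    rw [map_add σ, add_sub_add_comm]
    simp only [map_add, LinearMap.add_apply, hx, hy]; abel
  | hsmul c x hx =>
    rw [map_smul σ, ← smul_sub]
    simp only [map_smul, LinearMap.smul_apply, hx, smul_add]

theorem Op_cons_L (φs : List (End k A)) {a : A} (ha : σ a = a) (W : WW k B) :
    Op β σ φs (cons β a W) = cons β a (Op β σ φs W) := by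
  cases φs with
  | nil => rw [Op_nil_cons, ha]
  | cons φ φs => rw [Op_cons_cons, ha]; simp

theorem Op_cons_M (φ : End k A) (φs : List (End k A)) {y : A} (hy : σ y = 0) (W : WW k B) :
    Op β σ (φ :: φs) (cons β y W) = cons β (φ y) (Op β σ φs W) := by
  rw [Op_cons_cons, hy]; simp

theorem Op_nil_M {y : A} (hy : σ y = 0) (W : WW k B) : Op β σ [] (cons β y W) = 0 := by
  rw [Op_nil_cons, hy]; simp

theorem Op_nil_snoc (a : A) (W : WW k B) :
    Op β σ [] (snoc β a W) = snoc β (σ a) (Op β σ [] W) := by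
  refine ww_ext β (f := Op β σ [] ∘ₗ snoc β a) (g := snoc β (σ a) ∘ₗ Op β σ []) (fun l => ?_) W
  simp only [LinearMap.comp_apply]
  induction l with
  | nil => rw [← cons_nil, Op_nil_cons, Op_nil_nil, cons_nil]
  | cons c l ih => rw [ww_cons, ← cons_snoc, Op_nil_cons, Op_nil_cons, ih, cons_snoc]

theorem Op_concat_snoc (φs : List (End k A)) (φ : End k A) (a : A) (W : WW k B) :
    Op β σ (φs ++ [φ]) (snoc β a W) =
      snoc β (φ (a - σ a)) (Op β σ φs W) + snoc β (σ a) (Op β σ (φs ++ [φ]) W) := by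
  refine ww_ext β (f := Op β σ (φs ++ [φ]) ∘ₗ snoc β a)
    (g := snoc β (φ (a - σ a)) ∘ₗ Op β σ φs + snoc β (σ a) ∘ₗ Op β σ (φs ++ [φ])) (fun l => ?_) W
  simp only [LinearMap.comp_apply, LinearMap.add_apply]
  induction l generalizing φs with
  | nil =>
    rw [← cons_nil]
    cases φs with
    | nil => rw [List.nil_append, Op_cons_cons, Op_nil_nil, Op_cons_nil, cons_nil]; simp
    | cons ψ ψs =>
      have : Op β σ (ψs ++ [φ]) (ww β []) = 0 := by
        cases ψs <;> exact Op_cons_nil β σ _ _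
      rw [List.cons_append, Op_cons_cons, this, Op_cons_nil, Op_cons_nil]; simp
  | cons c l ih =>
    rw [ww_cons, ← cons_snoc]
    cases φs with
    | nil =>
      have := ih []
      rw [List.nil_append] at this ⊢
      rw [Op_cons_cons, Op_cons_cons, Op_nil_snoc, this, Op_nil_cons]
      simp only [map_add, cons_snoc]; abel
    | cons ψ ψs =>
      have := ih (ψ :: ψs)
      rw [List.cons_append] at this ⊢
      rw [Op_cons_cons, Op_cons_cons, Op_cons_cons, this, ih ψs]
      simp only [map_add, cons_snoc]; abel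

theorem Op_snoc_L (φs : List (End k A)) {a : A} (ha : σ a = a) (W : WW k B) :
    Op β σ φs (snoc β a W) = snoc β a (Op β σ φs W) := by
  induction φs using List.reverseRecOn with
  | nil => rw [Op_nil_snoc, ha]
  | append_singleton φs φ _ => rw [Op_concat_snoc, ha]; simp

theorem Op_snoc_M (φs : List (End k A)) (φ : End k A) {y : A} (hy : σ y = 0) (W : WW k B) :
    Op β σ (φs ++ [φ]) (snoc β y W) = snoc β (φ y) (Op β σ φs W) := by
  rw [Op_concat_snoc, hy]; simp

theorem om_Op (φs : List (End k A)) (W : WW k B) : om (Op β σ φs W) = Op β σ φs (om W) := by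
  refine ww_ext β (f := om ∘ₗ Op β σ φs) (g := Op β σ φs ∘ₗ om) (fun l => ?_) W
  simp only [LinearMap.comp_apply]
  induction l generalizing φs with
  | nil => cases φs <;> simp [Op_nil_nil, Op_cons_nil, om_ww]
  | cons c l ih =>
    rw [ww_cons, om_cons, map_neg]
    cases φs with
    | nil => rw [Op_nil_cons, Op_nil_cons, om_cons, ih]
    | cons φ φs => rw [Op_cons_cons, Op_cons_cons, map_add, om_cons, om_cons, ih, ih, neg_add]

theorem Op_set_add (φs : List (End k A)) {i : ℕ} (hi : i < φs.length) (φ ψ : End k A) :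
    Op β σ (φs.set i (φ + ψ)) = Op β σ (φs.set i φ) + Op β σ (φs.set i ψ) := by
  refine LinearMap.ext (ww_ext β fun l => ?_)
  rw [LinearMap.add_apply]
  induction l generalizing φs i with
  | nil =>
    match φs, i, hi with
    | χ :: φs, 0, _ => simp [Op_cons_nil]
    | χ :: φs, i + 1, _ => simp [Op_cons_nil]
  | cons c l ih =>
    match φs, i, hi with
    | χ :: φs, 0, hi =>
      have := ih (χ :: φs) hi
      simp only [List.set_cons_zero] at this ⊢
      simp only [ww_cons, Op_cons_cons, this, map_add, LinearMap.add_apply]; abel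
    | χ :: φs, i + 1, hi =>
      have := ih (χ :: φs) hi
      simp only [List.set_cons_succ] at this ⊢
      simp only [ww_cons, Op_cons_cons, this, ih φs (by simpa using hi), map_add]; abel

theorem Op_set_smul (φs : List (End k A)) {i : ℕ} (hi : i < φs.length) (c : k) (φ : End k A) :
    Op β σ (φs.set i (c • φ)) = c • Op β σ (φs.set i φ) := by
  refine LinearMap.ext (ww_ext β fun l => ?_)
  rw [LinearMap.smul_apply]
  induction l generalizing φs i with
  | nil =>
    match φs, i, hi with
    | χ :: φs, 0, _ => simp [Op_cons_nil]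
    | χ :: φs, i + 1, _ => simp [Op_cons_nil]
  | cons a l ih =>
    match φs, i, hi with
    | χ :: φs, 0, hi =>
      have := ih (χ :: φs) hi
      simp only [List.set_cons_zero] at this ⊢
      simp only [ww_cons, Op_cons_cons, this, map_smul, LinearMap.smul_apply, smul_add]
    | χ :: φs, i + 1, hi =>
      have := ih (χ :: φs) hi
      simp only [List.set_cons_succ] at this ⊢
      simp only [ww_cons, Op_cons_cons, this, ih φs (by simpa using hi), map_smul, smul_add]

variable {σ}

theorem Split.sub (hσ : Split σ) (a : A) : σ (a - σ a) = 0 := by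
  rw [map_sub, hσ.idem, sub_self]

theorem BMap.kmap {φ : End k A} (h : BMap σ φ) : KMap σ φ := fun y hy => (h y hy).1

theorem bmap_one : BMap σ (1 : End k A) := fun _ hy => ⟨hy, fun _ => ⟨rfl, rfl⟩⟩

theorem kmap_one : KMap σ (1 : End k A) := fun _ hy => hy

theorem BMap.mul {φ ψ : End k A} (h : BMap σ φ) (h' : BMap σ ψ) : BMap σ (φ * ψ) :=
  fun y hy => ⟨(h _ (h' y hy).1).1, fun a => by
    simp only [End.mul_apply, ((h' y hy).2 a).1, ((h' y hy).2 a).2, ((h _ (h' y hy).1).2 a).1,
      ((h _ (h' y hy).1).2 a).2, and_self]⟩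

theorem Op_mul (hσ : Split σ) (φs ψs : List (End k A)) (hl : φs.length = ψs.length)
    (hψ : ∀ ψ ∈ ψs, KMap σ ψ) :
    Op β σ φs * Op β σ ψs = Op β σ (List.zipWith (· * ·) φs ψs) := by
  refine LinearMap.ext (ww_ext β fun l => ?_)
  rw [End.mul_apply]
  induction l generalizing φs ψs with
  | nil =>
    match φs, ψs, hl with
    | [], [], _ => simp [Op_nil_nil]
    | φ :: φs, ψ :: ψs, _ => simp [Op_cons_nil]
  | cons a l ih =>
    match φs, ψs, hl, hψ with
    | [], [], hl, hψ =>
      have := ih [] [] hl hψ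
      simp only [List.zipWith_nil_left] at this ⊢
      rw [ww_cons, Op_nil_cons, Op_nil_cons, hσ.idem, this]
    | φ :: φs, ψ :: ψs, hl, hψ =>
      have := ih (φ :: φs) (ψ :: ψs) hl hψ
      simp only [List.zipWith_cons_cons] at this ⊢
      rw [ww_cons, Op_cons_cons, Op_cons_cons, map_add,
        Op_cons_M β σ _ _ (hψ ψ (by simp) _ (hσ.sub a)), Op_cons_L β σ _ (hσ.idem a), this,
        ih φs ψs (by simpa using hl) (fun χ hχ => hψ χ (by simp [hχ])), End.mul_apply]

theorem Op_d0 (hσ : Split σ) (φs : List (End k A)) (hφ : ∀ φ ∈ φs, BMap σ φ) (W : WW k B) :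
    Op β σ φs (d0 β W) = d0 β (Op β σ φs W) := by
  refine ww_ext β (f := Op β σ φs ∘ₗ d0 β) (g := d0 β ∘ₗ Op β σ φs) (fun l => ?_) W
  simp only [LinearMap.comp_apply]
  match l, φs, hφ with
  | [], [], _ => simp [d0_ww_nil, Op_nil_nil]
  | [], φ :: φs, _ => simp [d0_ww_nil, Op_cons_nil]
  | [a], [], _ => simp [ww_cons, d0_ww_one, Op_nil_nil, Op_nil_cons]
  | [a], [φ], _ => simp [ww_cons, d0_ww_one, Op_nil_nil, Op_cons_cons, Op_cons_nil]
  | [a], φ :: ψ :: φs, _ => simp [ww_cons, d0_ww_one, Op_cons_cons, Op_cons_nil]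
  | a :: c :: l, [], _ => simp only [ww_cons, d0_cons_cons, Op_nil_cons, map_mul]
  | a :: c :: l, φ :: φs, hφ =>
    have h1 := hφ φ (by simp)
    have e : a * c - σ (a * c) = (a - σ a) * σ c + σ a * (c - σ c) := by
      have := hσ.sq _ _ (hσ.sub a) (hσ.sub c)
      rw [map_mul, ← sub_eq_zero, ← this]; noncomm_ring
    have h2 : d0 β (cons β (φ (a - σ a)) (Op β σ φs (cons β c (ww β l)))) =
        cons β (φ (a - σ a) * σ c) (Op β σ φs (ww β l)) := by
      cases φs with
      | nil => rw [Op_nil_cons, d0_cons_cons]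
      | cons ψ ψs =>
        rw [Op_cons_cons, map_add, map_add, d0_cons_cons, d0_cons_cons,
          hσ.sq _ _ (h1 _ (hσ.sub a)).1 (hφ ψ (by simp) _ (hσ.sub c)).1]
        simp
    rw [ww_cons, ww_cons, d0_cons_cons, Op_cons_cons, Op_cons_cons, Op_cons_cons, map_add, h2,
      map_add, map_add, d0_cons_cons, d0_cons_cons, e, map_add φ, ((h1 _ (hσ.sub a)).2 _).2,
      ((h1 _ (hσ.sub c)).2 _).1, map_add, LinearMap.add_apply, map_mul σ, add_assoc]

theorem Op_bp (hσ : Split σ) (φs : List (End k A)) (hφ : ∀ φ ∈ φs, BMap σ φ) (W : WW k B) :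
    Op β σ φs (bp β W) = bp β (Op β σ φs W) := by
  refine ww_ext β (f := Op β σ φs ∘ₗ bp β) (g := bp β ∘ₗ Op β σ φs) (fun l => ?_) W
  simp only [LinearMap.comp_apply]
  induction l generalizing φs with
  | nil => cases φs <;> simp [bp_ww_nil, Op_nil_nil, Op_cons_nil]
  | cons a l ih =>
    rw [ww_cons, bp_cons, map_sub, Op_d0 β hσ φs hφ]
    cases φs with
    | nil => rw [Op_nil_cons, Op_nil_cons, bp_cons, ih [] hφ]
    | cons φ φs =>
      rw [Op_cons_cons, Op_cons_cons, map_add, map_add, bp_cons, bp_cons, ih _ hφ,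
        ih φs (fun χ hχ => hφ χ (by simp [hχ]))]
      abel

theorem Op_bH_cons (hσ : Split σ) (φs : List (End k A)) (hφ : ∀ φ ∈ φs, BMap σ φ) {y : A}
    (hy : σ y = 0) (W : WW k B) :
    bH β (Op β σ φs (cons β y W)) = Op β σ φs (bH β (cons β y W)) := by
  rw [bH_apply, bH_apply, map_add, Op_bp β hσ φs hφ]
  congr 1
  refine ww_ext β (f := d0 β ∘ₗ TH k B ∘ₗ Op β σ φs ∘ₗ cons β y)
    (g := Op β σ φs ∘ₗ d0 β ∘ₗ TH k B ∘ₗ cons β y) (fun l => ?_) W
  simp only [LinearMap.comp_apply]
  have hm : ∀ a, σ (a * y) = 0 := fun a => by rw [map_mul, hy, mul_zero]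
  induction l using List.reverseRecOn with
  | nil =>
    match φs with
    | [] => simp [Op_nil_M β σ hy, d0_TH_one]
    | [φ] => simp [Op_cons_M β σ _ _ hy, d0_TH_one, Op_nil_nil]
    | φ :: ψ :: φs => simp [Op_cons_M β σ _ _ hy, d0_TH_one, Op_cons_nil]
  | append_singleton l a _ =>
    rw [ww_concat, d0_TH_cons_snoc, map_neg]
    cases φs with
    | nil => simp [Op_nil_M β σ hy, Op_nil_M β σ (hm a)]
    | cons φ φs =>
      have h1 := hφ φ (by simp) y hy
      have e : a * φ y = σ a * φ y := by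
        rw [← sub_eq_zero, ← sub_mul, hσ.sq _ _ (hσ.sub a) h1.1]
      rw [Op_cons_M β σ _ _ hy, Op_cons_M β σ _ _ (hm a), (h1.2 a).1, e, ← om_Op]
      induction φs using List.reverseRecOn with
      | nil => rw [Op_nil_snoc, d0_TH_cons_snoc]
      | append_singleton φs ψ _ =>
        rw [Op_concat_snoc, map_add, map_add, map_add, d0_TH_cons_snoc, d0_TH_cons_snoc,
          hσ.sq _ _ (hφ ψ (by simp) _ (hσ.sub a)).1 h1.1]
        simp

end Pool.Agent.MP_92f1cb_al.H14C
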