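import Pool.Agent.MP_92f1cb_al.H14C.Base

set_option autoImplicit false

namespace Pool.Agent.MP_92f1cb_al.H14C

open Pool.Agent.MP_92f1cb_al.H14 Module

variable {k A B : Type} [Field k] [Ring A] [Algebra k A] {β : Basis B k A} {σ : A →ₐ[k] A}

theorem shape_nil_iff {l : List A} : Shape σ [] l ↔ ∀ a ∈ l, σ a = a := by
  induction l with
  | nil => exact ⟨fun _ => by simp, fun _ => Shape.nil⟩
  | cons a l ih =>
    constructor
    · intro h
      cases h with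
      | consL ha h => simpa using ⟨ha, ih.1 h⟩
    · intro h
      exact Shape.consL (h a (by simp)) (ih.2 fun c hc => h c (by simp [hc]))

theorem Shape.append {Ys Zs : List (Submodule k A)} {l l' : List A} (h : Shape σ Ys l)
    (h' : Shape σ Zs l') : Shape σ (Ys ++ Zs) (l ++ l') := by
  induction h with
  | nil => exact h'
  | consL ha _ ih => exact Shape.consL ha ih
  | consM hy _ ih => exact Shape.consM hy ih

theorem Shape.concatL {Ys : List (Submodule k A)} {l : List A} (h : Shape σ Ys l) {a : A}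
    (ha : σ a = a) : Shape σ Ys (l ++ [a]) := by
  simpa using h.append (Shape.consL ha Shape.nil)

theorem Shape.concatM {Ys : List (Submodule k A)} {l : List A} (h : Shape σ Ys l)
    {Y : Submodule k A} {y : A} (hy : y ∈ Y) : Shape σ (Ys ++ [Y]) (l ++ [y]) :=
  h.append (Shape.consM hy Shape.nil)

theorem Shape.eq_nil {Ys : List (Submodule k A)} (h : Shape σ Ys []) : Ys = [] := by
  cases h; rfl

theorem Shape.of_cons {Ys : List (Submodule k A)} {l : List A} {a : A}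
    (h : Shape σ Ys (a :: l)) :
    (σ a = a ∧ Shape σ Ys l) ∨ ∃ Y Zs, Ys = Y :: Zs ∧ a ∈ Y ∧ Shape σ Zs l := by
  cases h with
  | consL ha h => exact Or.inl ⟨ha, h⟩
  | consM hy h => exact Or.inr ⟨_, _, rfl, hy, h⟩

theorem Shape.of_concat {Ys : List (Submodule k A)} {l : List A} {a : A}
    (h : Shape σ Ys (l ++ [a])) :
    (σ a = a ∧ Shape σ Ys l) ∨ ∃ Zs Y, Ys = Zs ++ [Y] ∧ a ∈ Y ∧ Shape σ Zs l := by
  induction l generalizing Ys with
  | nil =>
    rcases Shape.of_cons h with ⟨ha, h⟩ | ⟨Y, Zs, rfl, ha, h⟩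
    · exact Or.inl ⟨ha, h⟩
    · obtain rfl := h.eq_nil
      exact Or.inr ⟨[], Y, rfl, ha, Shape.nil⟩
  | cons c l ih =>
    rcases Shape.of_cons h with ⟨hc, h⟩ | ⟨Y, Zs, rfl, hc, h⟩
    · rcases ih h with ⟨ha, h⟩ | ⟨Zs, Y, rfl, ha, h⟩
      · exact Or.inl ⟨ha, Shape.consL hc h⟩
      · exact Or.inr ⟨Zs, Y, rfl, ha, Shape.consL hc h⟩
    · rcases ih h with ⟨ha, h⟩ | ⟨Zs, Y', rfl, ha, h⟩
      · exact Or.inl ⟨ha, Shape.consM hc h⟩
      · exact Or.inr ⟨Y :: Zs, Y', rfl, ha, Shape.consM hc h⟩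

theorem Shape.split_last {Ys : List (Submodule k A)} {Y : Submodule k A} {v : List A}
    (h : Shape σ (Ys ++ [Y]) v) :
    ∃ v' y l, v = v' ++ y :: l ∧ Shape σ Ys v' ∧ y ∈ Y ∧ ∀ a ∈ l, σ a = a := by
  induction v using List.reverseRecOn with
  | nil => simpa using h.eq_nil
  | append_singleton v a ih =>
    rcases h.of_concat with ⟨ha, h⟩ | ⟨Zs, Y', he, ha, h⟩
    · obtain ⟨v', y, l, rfl, h1, h2, h3⟩ := ih h
      refine ⟨v', y, l ++ [a], by simp, h1, h2, fun c hc => ?_⟩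
      rcases List.mem_append.1 hc with hc | hc
      · exact h3 c hc
      · rw [List.mem_singleton.1 hc]; exact ha
    · obtain ⟨rfl, rfl⟩ := List.append_singleton_inj.1 he
      exact ⟨v, a, [], rfl, h, ha, by simp⟩

theorem Shape.mono {Ys Zs : List (Submodule k A)} {l : List A} (h : Shape σ Ys l)
    (hle : List.Forall₂ (· ≤ ·) Ys Zs) : Shape σ Zs l := by
  induction h generalizing Zs with
  | nil => cases hle; exact Shape.nil
  | consL ha _ ih => exact Shape.consL ha (ih hle)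
  | consM hy _ ih =>
    cases hle with
    | cons h1 h2 => exact Shape.consM (h1 hy) (ih h2)

theorem ww_mem_CW {Ys : List (Submodule k A)} {l : List A} (h : Shape σ Ys l) :
    ww β l ∈ CW β σ Ys := Submodule.subset_span ⟨l, h, rfl⟩

theorem ww_mem_SW {Y : Submodule k A} {Ys : List (Submodule k A)} {y : A} {l : List A}
    (hy : y ∈ Y) (h : Shape σ Ys l) : ww β (y :: l) ∈ SW β σ (Y :: Ys) :=
  Submodule.subset_span ⟨y, hy, l, h, rfl⟩

theorem CW_map {X : Type} [AddCommGroup X] [Module k X] {Ys : List (Submodule k A)}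
    (f : WW k B →ₗ[k] X) (V : Submodule k X) (h : ∀ l, Shape σ Ys l → f (ww β l) ∈ V)
    {W : WW k B} (hW : W ∈ CW β σ Ys) : f W ∈ V :=
  (Submodule.span_le (p := V.comap f)).2 (by rintro _ ⟨l, hl, rfl⟩; exact h l hl) hW

theorem CW_ext {X : Type} [AddCommGroup X] [Module k X] {Ys : List (Submodule k A)}
    (f g : WW k B →ₗ[k] X) (h : ∀ l, Shape σ Ys l → f (ww β l) = g (ww β l))
    {W : WW k B} (hW : W ∈ CW β σ Ys) : f W = g W := by
  have := CW_map (f - g) ⊥ (fun l hl => by simp [h l hl]) hW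
  simpa [sub_eq_zero] using this

theorem SW_map {X : Type} [AddCommGroup X] [Module k X] {Y : Submodule k A}
    {Ys : List (Submodule k A)} (f : WW k B →ₗ[k] X) (V : Submodule k X)
    (h : ∀ y ∈ Y, ∀ l, Shape σ Ys l → f (cons β y (ww β l)) ∈ V)
    {W : WW k B} (hW : W ∈ SW β σ (Y :: Ys)) : f W ∈ V :=
  (Submodule.span_le (p := V.comap f)).2
    (by rintro _ ⟨y, hy, l, hl, rfl⟩; exact h y hy l hl) hW

theorem SW_ext {X : Type} [AddCommGroup X] [Module k X] {Y : Submodule k A}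
    {Ys : List (Submodule k A)} (f g : WW k B →ₗ[k] X)
    (h : ∀ y ∈ Y, ∀ l, Shape σ Ys l → f (cons β y (ww β l)) = g (cons β y (ww β l)))
    {W : WW k B} (hW : W ∈ SW β σ (Y :: Ys)) : f W = g W := by
  have := SW_map (f - g) ⊥ (fun y hy l hl => by simp [h y hy l hl]) hW
  simpa [sub_eq_zero] using this

theorem cons_mem_CW {Ys : List (Submodule k A)} {a : A} (ha : σ a = a) {W : WW k B}
    (hW : W ∈ CW β σ Ys) : cons β a W ∈ CW β σ Ys :=
  CW_map (cons β a) _ (fun _ hl => ww_mem_CW (Shape.consL ha hl)) hW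

theorem cons_mem_SW {Y : Submodule k A} {Ys : List (Submodule k A)} {y : A} (hy : y ∈ Y)
    {W : WW k B} (hW : W ∈ CW β σ Ys) : cons β y W ∈ SW β σ (Y :: Ys) :=
  CW_map (cons β y) _ (fun _ hl => ww_mem_SW hy hl) hW

theorem snoc_mem_CW_L {Ys : List (Submodule k A)} {a : A} (ha : σ a = a) {W : WW k B}
    (hW : W ∈ CW β σ Ys) : snoc β a W ∈ CW β σ Ys :=
  CW_map (snoc β a) _ (fun _ hl => by rw [← ww_concat]; exact ww_mem_CW (hl.concatL ha)) hW

theorem snoc_mem_CW_M {Y : Submodule k A} {Ys : List (Submodule k A)} {y : A} (hy : y ∈ Y)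
    {W : WW k B} (hW : W ∈ CW β σ Ys) : snoc β y W ∈ CW β σ (Ys ++ [Y]) :=
  CW_map (snoc β y) _ (fun _ hl => by rw [← ww_concat]; exact ww_mem_CW (hl.concatM hy)) hW

theorem om_mem_CW {Ys : List (Submodule k A)} {W : WW k B} (hW : W ∈ CW β σ Ys) :
    om W ∈ CW β σ Ys :=
  CW_map om _ (fun _ hl => by rw [om_ww]; exact Submodule.smul_mem _ _ (ww_mem_CW hl)) hW

theorem SW_le_CW (Ys : List (Submodule k A)) : SW β σ Ys ≤ CW β σ Ys := by
  cases Ys with
  | nil => exact bot_le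
  | cons Y Ys =>
    exact fun W hW => SW_map LinearMap.id _ (fun y hy l hl => ww_mem_CW (Shape.consM hy hl)) hW

theorem CW_mono {Ys Zs : List (Submodule k A)} (hle : List.Forall₂ (· ≤ ·) Ys Zs) :
    CW β σ Ys ≤ CW β σ Zs :=
  fun _ hW => CW_map LinearMap.id _ (fun _ hl => ww_mem_CW (hl.mono hle)) hW

theorem SW_mono {Ys Zs : List (Submodule k A)} (hle : List.Forall₂ (· ≤ ·) Ys Zs) :
    SW β σ Ys ≤ SW β σ Zs := by
  cases hle with
  | nil => exact le_rfl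
  | cons h1 h2 =>
    exact fun _ hW => SW_map LinearMap.id _ (fun y hy l hl => ww_mem_SW (h1 hy) (hl.mono h2)) hW

theorem piL_mem_CW {Ys : List (Submodule k A)} (n : ℕ) {W : WW k B} (hW : W ∈ CW β σ Ys) :
    piL k B n W ∈ CW β σ Ys :=
  CW_map (piL k B n) _ (fun l hl => by
    rw [piL_ww]
    split_ifs
    · exact ww_mem_CW hl
    · exact Submodule.zero_mem _) hW

theorem Hd_mem_SW {Y Y' : Submodule k A} {Ys : List (Submodule k A)} {φ : End k A}
    (h : ∀ y ∈ Y, φ y ∈ Y') {W : WW k B} (hW : W ∈ SW β σ (Y :: Ys)) :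
    Hd β φ W ∈ SW β σ (Y' :: Ys) :=
  SW_map (Hd β φ) _ (fun y hy l hl => by rw [Hd_cons]; exact ww_mem_SW (h y hy) hl) hW

theorem Hd_congr {Y : Submodule k A} {Ys : List (Submodule k A)} {φ ψ : End k A}
    (h : ∀ y ∈ Y, φ y = ψ y) {W : WW k B} (hW : W ∈ SW β σ (Y :: Ys)) :
    Hd β φ W = Hd β ψ W :=
  SW_ext _ _ (fun y hy l _ => by rw [Hd_cons, Hd_cons, h y hy]) hW

theorem Hd_id {Y : Submodule k A} {Ys : List (Submodule k A)} {φ : End k A}
    (h : ∀ y ∈ Y, φ y = y) {W : WW k B} (hW : W ∈ SW β σ (Y :: Ys)) : Hd β φ W = W :=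
  SW_ext _ LinearMap.id (fun y hy l _ => by rw [Hd_cons, h y hy]; rfl) hW

theorem d0_cons_mem_SW (hσ : Split σ) {Y : Submodule k A} {Ys : List (Submodule k A)}
    (hY : Bim σ Y) (hYs : ∀ Z ∈ Ys, Bim σ Z) {y : A} (hy : y ∈ Y) {W : WW k B}
    (hW : W ∈ CW β σ Ys) : d0 β (cons β y W) ∈ SW β σ (Y :: Ys) := by
  refine CW_map (d0 β ∘ₗ cons β y) _ (fun l hl => ?_) hW
  rw [LinearMap.comp_apply]
  cases hl with
  | nil => rw [d0_ww_one]; exact Submodule.zero_mem _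
  | consL ha hl => rw [ww_cons, d0_cons_cons]; exact ww_mem_SW ((hY y hy).2 _).2 hl
  | consM hz hl =>
    rw [ww_cons, d0_cons_cons, hσ.sq _ _ (hY y hy).1 (hYs _ (by simp) _ hz).1]; simp

theorem d0_mem_CW (hσ : Split σ) {Ys : List (Submodule k A)} (hYs : ∀ Z ∈ Ys, Bim σ Z)
    {W : WW k B} (hW : W ∈ CW β σ Ys) : d0 β W ∈ CW β σ Ys := by
  refine CW_map (d0 β) _ (fun l hl => ?_) hW
  cases hl with
  | nil => rw [d0_ww_nil]; exact Submodule.zero_mem _
  | consL ha hl =>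
    rw [ww_cons]
    cases hl with
    | nil => rw [d0_ww_one]; exact Submodule.zero_mem _
    | consL hc hl =>
      rw [ww_cons, d0_cons_cons]
      exact ww_mem_CW (Shape.consL (by rw [map_mul, ha, hc]) hl)
    | consM hz hl =>
      rw [ww_cons, d0_cons_cons]
      exact ww_mem_CW (Shape.consM ((hYs _ (by simp) _ hz).2 _).1 hl)
  | consM hy hl =>
    exact SW_le_CW _ (d0_cons_mem_SW hσ (hYs _ (by simp)) (fun Z hZ => hYs Z (by simp [hZ])) hy
      (ww_mem_CW hl))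

theorem bp_mem_CW (hσ : Split σ) {Ys : List (Submodule k A)} (hYs : ∀ Z ∈ Ys, Bim σ Z)
    {W : WW k B} (hW : W ∈ CW β σ Ys) : bp β W ∈ CW β σ Ys := by
  refine CW_map (bp β) _ (fun l hl => ?_) hW
  clear hW
  induction hl with
  | nil => rw [bp_ww_nil]; exact Submodule.zero_mem _
  | consL ha hl ih =>
    rw [ww_cons, bp_cons]
    exact Submodule.sub_mem _ (d0_mem_CW hσ hYs (ww_mem_CW (Shape.consL ha hl)))
      (cons_mem_CW ha (ih hYs))
  | consM hy hl ih =>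
    rw [ww_cons, bp_cons]
    exact Submodule.sub_mem _ (d0_mem_CW hσ hYs (ww_mem_CW (Shape.consM hy hl)))
      (SW_le_CW _ (cons_mem_SW hy (ih fun Z hZ => hYs Z (by simp [hZ]))))

theorem bH_mem_SW (hσ : Split σ) {Ys : List (Submodule k A)} (hYs : ∀ Z ∈ Ys, Bim σ Z)
    {W : WW k B} (hW : W ∈ SW β σ Ys) : bH β W ∈ SW β σ Ys := by
  cases Ys with
  | nil => rw [(Submodule.mem_bot k).1 hW, map_zero]; exact Submodule.zero_mem _
  | cons Y Ys =>
    have hY := hYs Y (by simp)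
    have hYs' : ∀ Z ∈ Ys, Bim σ Z := fun Z hZ => hYs Z (by simp [hZ])
    refine SW_map (bH β) _ (fun y hy l hl => ?_) hW
    rw [bH_apply, bp_cons]
    refine Submodule.add_mem _ (Submodule.sub_mem _ (d0_cons_mem_SW hσ hY hYs' hy (ww_mem_CW hl))
      (cons_mem_SW hy (bp_mem_CW hσ hYs' (ww_mem_CW hl)))) ?_
    induction l using List.reverseRecOn with
    | nil => rw [d0_TH_one]; exact Submodule.zero_mem _
    | append_singleton l a _ =>
      rw [ww_concat, d0_TH_cons_snoc]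
      rcases hl.of_concat with ⟨_, hl⟩ | ⟨Zs, Z, rfl, ha, _⟩
      · exact Submodule.neg_mem _ (cons_mem_SW ((hY y hy).2 _).1 (om_mem_CW (ww_mem_CW hl)))
      · rw [hσ.sq _ _ (hYs' Z (by simp) _ ha).1 (hY y hy).1]; simp

theorem TH_mem_CW_replicate {Y : Submodule k A} {m : ℕ} {W : WW k B}
    (hW : W ∈ CW β σ (List.replicate m Y)) : TH k B W ∈ CW β σ (List.replicate m Y) := by
  refine CW_map (TH k B) _ (fun l hl => ?_) hW
  induction l using List.reverseRecOn with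
  | nil => rw [TH_nil]; exact Submodule.neg_mem _ (ww_mem_CW hl)
  | append_singleton l a _ =>
    rw [TH_concat]
    refine Submodule.smul_mem _ _ (ww_mem_CW ?_)
    rcases hl.of_concat with ⟨ha, hl⟩ | ⟨Zs, Z, he, ha, hl⟩
    · exact Shape.consL ha hl
    · cases m with
      | zero => simp at he
      | succ m =>
        rw [List.replicate_succ'] at he
        obtain ⟨rfl, rfl⟩ := List.append_singleton_inj.1 he
        exact Shape.consM ha hl

theorem bH_mem_CW_replicate (hσ : Split σ) {Y : Submodule k A} (hY : Bim σ Y) {m : ℕ}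
    {W : WW k B} (hW : W ∈ CW β σ (List.replicate m Y)) :
    bH β W ∈ CW β σ (List.replicate m Y) := by
  have h : ∀ Z ∈ List.replicate m Y, Bim σ Z := fun Z hZ => by
    rw [List.eq_of_mem_replicate hZ]; exact hY
  exact Submodule.add_mem _ (bp_mem_CW hσ h hW) (d0_mem_CW hσ h (TH_mem_CW_replicate hW))

theorem Op_one {Ys : List (Submodule k A)} (hYs : ∀ Z ∈ Ys, ∀ y ∈ Z, σ y = 0) {W : WW k B}
    (hW : W ∈ CW β σ Ys) : Op β σ (List.replicate Ys.length 1) W = W := by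
  refine CW_ext _ LinearMap.id (fun l hl => ?_) hW
  clear hW
  induction hl with
  | nil => exact Op_nil_nil β σ
  | consL ha _ ih => rw [ww_cons, Op_cons_L β σ _ ha, ih hYs]; rfl
  | consM hy _ ih =>
    rw [ww_cons, List.length_cons, List.replicate_succ, Op_cons_M β σ _ _ (hYs _ (by simp) _ hy),
      ih fun Z hZ => hYs Z (by simp [hZ])]
    rfl

theorem Op_eq_zero {Ys : List (Submodule k A)} (hYs : ∀ Z ∈ Ys, ∀ y ∈ Z, σ y = 0)
    {φs : List (End k A)} (hl : φs.length ≠ Ys.length) {W : WW k B} (hW : W ∈ CW β σ Ys) :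
    Op β σ φs W = 0 := by
  refine CW_ext _ 0 (fun l hs => ?_) hW
  clear hW
  rw [LinearMap.zero_apply]
  induction hs generalizing φs with
  | nil =>
    cases φs with
    | nil => simp at hl
    | cons φ φs => exact Op_cons_nil β σ _ _
  | consL ha _ ih => rw [ww_cons, Op_cons_L β σ _ ha, ih hYs hl, map_zero]
  | consM hy _ ih =>
    have h0 := hYs _ (by simp) _ hy
    cases φs with
    | nil => rw [ww_cons, Op_nil_M β σ h0]
    | cons φ φs =>
      rw [ww_cons, Op_cons_M β σ _ _ h0,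
        ih (fun Z hZ => hYs Z (by simp [hZ])) (by simpa using hl), map_zero]

theorem Op_mem_CW {Ys : List (Submodule k A)} (hYs : ∀ Z ∈ Ys, ∀ y ∈ Z, σ y = 0)
    {φs : List (End k A)} (h : List.Forall₂ (fun φ Z => ∀ y ∈ Z, φ y ∈ Z) φs Ys)
    {W : WW k B} (hW : W ∈ CW β σ Ys) : Op β σ φs W ∈ CW β σ Ys := by
  refine CW_map _ _ (fun l hs => ?_) hW
  clear hW
  induction hs generalizing φs with
  | nil => cases h; rw [Op_nil_nil]; exact ww_mem_CW Shape.nil
  | consL ha _ ih => rw [ww_cons, Op_cons_L β σ _ ha]; exact cons_mem_CW ha (ih hYs h)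
  | consM hy _ ih =>
    cases h with
    | cons h1 h2 =>
      rw [ww_cons, Op_cons_M β σ _ _ (hYs _ (by simp) _ hy)]
      exact SW_le_CW _ (cons_mem_SW (h1 _ hy) (ih (fun Z hZ => hYs Z (by simp [hZ])) h2))

theorem Op_mem_SW {Ys : List (Submodule k A)} (hYs : ∀ Z ∈ Ys, ∀ y ∈ Z, σ y = 0)
    {φs : List (End k A)} (h : List.Forall₂ (fun φ Z => ∀ y ∈ Z, φ y ∈ Z) φs Ys)
    {W : WW k B} (hW : W ∈ SW β σ Ys) : Op β σ φs W ∈ SW β σ Ys := by
  cases h with
  | nil => rw [(Submodule.mem_bot k).1 hW, map_zero]; exact Submodule.zero_mem _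
  | cons h1 h2 =>
    refine SW_map _ _ (fun y hy l hl => ?_) hW
    rw [Op_cons_M β σ _ _ (hYs _ (by simp) _ hy)]
    exact cons_mem_SW (h1 _ hy) (Op_mem_CW (fun Z hZ => hYs Z (by simp [hZ])) h2 (ww_mem_CW hl))

theorem Op_bH (hσ : Split σ) {Ys : List (Submodule k A)} (hYs : ∀ Z ∈ Ys, ∀ y ∈ Z, σ y = 0)
    {φs : List (End k A)} (hφ : ∀ φ ∈ φs, BMap σ φ) {W : WW k B} (hW : W ∈ SW β σ Ys) :
    bH β (Op β σ φs W) = Op β σ φs (bH β W) := by
  cases Ys with
  | nil => rw [(Submodule.mem_bot k).1 hW]; simp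
  | cons Y Ys =>
    exact SW_ext (bH β ∘ₗ Op β σ φs) (Op β σ φs ∘ₗ bH β)
      (fun y hy l _ => Op_bH_cons β hσ φs hφ (hYs Y (by simp) y hy) _) hW

theorem Hd_eq_Op {Y : Submodule k A} {Ys : List (Submodule k A)}
    (hYs : ∀ Z ∈ Y :: Ys, ∀ y ∈ Z, σ y = 0) (φ : End k A) {W : WW k B}
    (hW : W ∈ SW β σ (Y :: Ys)) :
    Hd β φ W = Op β σ (φ :: List.replicate Ys.length 1) W :=
  SW_ext _ _ (fun y hy l hl => by
    rw [Hd_cons, Op_cons_M β σ _ _ (hYs Y (by simp) y hy),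
      Op_one (fun Z hZ => hYs Z (by simp [hZ])) (ww_mem_CW hl)]) hW

theorem Hd_bH (hσ : Split σ) {Y : Submodule k A} {Ys : List (Submodule k A)}
    (hYs : ∀ Z ∈ Y :: Ys, Bim σ Z) {φ : End k A} (hφ : BMap σ φ) {W : WW k B}
    (hW : W ∈ SW β σ (Y :: Ys)) : bH β (Hd β φ W) = Hd β φ (bH β W) := by
  have h0 : ∀ Z ∈ Y :: Ys, ∀ y ∈ Z, σ y = 0 := fun Z hZ y hy => (hYs Z hZ y hy).1
  rw [Hd_eq_Op h0 φ hW, Hd_eq_Op h0 φ (bH_mem_SW hσ hYs hW)]
  refine Op_bH hσ h0 (fun ψ hψ => ?_) hW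
  rcases List.mem_cons.1 hψ with rfl | hψ
  · exact hφ
  · rw [List.eq_of_mem_replicate hψ]; exact bmap_one

theorem mem_set_one {P : End k A → Prop} (h1 : P 1) {φ : End k A} (hφ : P φ) (m i : ℕ) :
    ∀ ψ ∈ (List.replicate m (1 : End k A)).set i φ, P ψ := fun ψ hψ => by
  rcases List.mem_or_eq_of_mem_set hψ with h | rfl
  · rw [List.eq_of_mem_replicate h]; exact h1
  · exact hφ

theorem forall₂_set {Ys : List (Submodule k A)} {φ : End k A} (i : ℕ)
    (h : ∀ hi : i < Ys.length, ∀ y ∈ Ys[i], φ y ∈ Ys[i]) :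
    List.Forall₂ (fun (φ : End k A) (Z : Submodule k A) => ∀ y ∈ Z, φ y ∈ Z)
      ((List.replicate Ys.length 1).set i φ) Ys := by
  rw [List.forall₂_iff_get]
  refine ⟨by simp, fun j h1 h2 y hy => ?_⟩
  simp only [List.get_eq_getElem, List.getElem_set, List.getElem_replicate] at hy ⊢
  split_ifs with hij
  · subst hij; exact h h2 y hy
  · exact hy

theorem comm_Sl (hσ : Split σ) {Ys : List (Submodule k A)} (hYs : ∀ Z ∈ Ys, Bim σ Z)
    {φ : End k A} (hφ : BMap σ φ) (i : ℕ) (h : ∀ hi : i < Ys.length, ∀ y ∈ Ys[i], φ y ∈ Ys[i]) :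
    Comm (bH β) (SW β σ Ys) (Sl β σ Ys.length i φ) := fun _ hW =>
  ⟨Op_mem_SW (fun Z hZ y hy => (hYs Z hZ y hy).1) (forall₂_set i h) hW,
    Op_bH hσ (fun Z hZ y hy => (hYs Z hZ y hy).1) (mem_set_one bmap_one hφ _ _) hW⟩

theorem Sl_mul_Sl (hσ : Split σ) (m i j : ℕ) (φ : End k A) {ψ : End k A} (hψ : KMap σ ψ) :
    Sl β σ m i φ * Sl β σ m j ψ = Op β σ (List.zipWith (· * ·)
      ((List.replicate m 1).set i φ) ((List.replicate m 1).set j ψ)) :=
  Op_mul β hσ _ _ (by simp) (mem_set_one kmap_one hψ _ _)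

theorem ses : SSes := by
  intro k A B _ _ _ β σ hσ f g Y₁ Y₂ Y₃ Ys h₁ h₂ h₃ hYs hf hg h
  have c : ∀ {Y : Submodule k A}, Bim σ Y → ∀ Z ∈ Y :: Ys, Bim σ Z := fun hY Z hZ => by
    rcases List.mem_cons.1 hZ with rfl | hZ
    · exact hY
    · exact hYs Z hZ
  -- linear splittings
  obtain ⟨r₀, hr₀⟩ := LinearMap.exists_leftInverse_of_injective (f ∘ₗ Y₁.subtype)
    (LinearMap.ker_eq_bot'.2 fun y hy => Subtype.ext (h.inj _ y.2 hy))
  let r : End k A := Y₁.subtype ∘ₗ r₀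
  have hr : ∀ y ∈ Y₁, r (f y) = y := fun y hy =>
    congrArg Subtype.val (LinearMap.congr_fun hr₀ ⟨y, hy⟩)
  have hrm : ∀ a, r a ∈ Y₁ := fun a => (r₀ a).2
  obtain ⟨s₀, hs₀⟩ := LinearMap.exists_rightInverse_of_surjective
    ((g ∘ₗ Y₂.subtype).codRestrict Y₃ fun y => h.mapG _ y.2) (LinearMap.range_eq_top.2 fun y => by
      obtain ⟨x, hx, he⟩ := h.surj y y.2
      exact ⟨⟨x, hx⟩, Subtype.ext he⟩)
  obtain ⟨p, hp⟩ := LinearMap.exists_leftInverse_of_injective Y₃.subtype Y₃.ker_subtype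
  let s : End k A := Y₂.subtype ∘ₗ s₀ ∘ₗ p
  have hsm : ∀ a, s a ∈ Y₂ := fun a => (s₀ (p a)).2
  have hs : ∀ y ∈ Y₃, g (s y) = y := fun y hy => by
    have h1 : p y = ⟨y, hy⟩ := LinearMap.congr_fun hp ⟨y, hy⟩
    have h2 := congrArg Subtype.val (LinearMap.congr_fun hs₀ ⟨y, hy⟩)
    simpa [s, h1] using h2
  have hsplit : ∀ y ∈ Y₂, f (r (y - s (g y))) + s (g y) = y := fun y hy => by
    obtain ⟨x, hx, he⟩ := (h.ex _ (Y₂.sub_mem hy (hsm (g y)))).1
      (by rw [map_sub, hs _ (h.mapG y hy), sub_self])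
    rw [← he, hr x hx, he]; abel
  refine ⟨⟨fun _ => Hd_mem_SW h.mapF, fun _ => Hd_mem_SW h.mapG, fun x hx h0 => ?_,
    fun x hx => ⟨Hd β s x, Hd_mem_SW (fun y _ => hsm y) hx, ?_⟩, fun x hx => ⟨fun h0 => ?_, ?_⟩⟩,
    bH_bH β, fun _ => bH_mem_SW hσ (c h₁), fun _ => bH_mem_SW hσ (c h₂),
    fun _ => bH_mem_SW hσ (c h₃), fun _ => Hd_bH hσ (c h₁) hf, fun _ => Hd_bH hσ (c h₂) hg⟩
  · have e : Hd β (r * f) x = x := Hd_id (φ := r * f) hr hx
    rw [← Hd_Hd, h0, map_zero] at e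
    exact e.symm
  · rw [Hd_Hd]; exact Hd_id hs hx
  · refine ⟨Hd β (r * (1 - s * g)) x,
      Hd_mem_SW (φ := r * (1 - s * g)) (fun y _ => hrm ((1 - s * g) y)) hx, ?_⟩
    have e : Hd β (f * (r * (1 - s * g))) x + Hd β (s * g) x = x :=
      SW_ext (Hd β (f * (r * (1 - s * g))) + Hd β (s * g)) LinearMap.id (fun y hy l _ => by
        rw [LinearMap.add_apply, Hd_cons, Hd_cons, ← LinearMap.add_apply, ← map_add]
        exact congrArg (fun a => cons β a (ww β l)) (hsplit y hy)) hx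
    rwa [← Hd_Hd β s g, h0, map_zero, add_zero, ← Hd_Hd] at e
  · rintro ⟨y, hy, rfl⟩
    rw [Hd_Hd]
    exact SW_ext _ 0 (fun z hz l _ => by
      rw [Hd_cons, End.mul_apply, (h.ex _ (h.mapF z hz)).2 ⟨z, hz, rfl⟩]; simp) hy

end Pool.Agent.MP_92f1cb_al.H14C
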