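import Pool.Agent.MP_92f1cb_al.H14C.Spec

set_option autoImplicit false

namespace Pool.Agent.MP_92f1cb_al.H14C

open Module

namespace CommR

variable {k X : Type} [Field k] [AddCommGroup X] [Module k X] {b : End k X} {S : Submodule k X}

/-- A commutative algebra of chain maps has a character that kills every element that sends a
given non-trivial cycle to a boundary. -/
theorem char {T : Type} [CommRing T] [Algebra k T] (θ : T →ₐ[k] End k X)
    (hθ : ∀ t, Comm b S (θ t)) {z : X} (hz : ¬ ∃ u ∈ S, b u = z) :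
    ∃ (K : Type) (_ : Field K) (_ : Algebra k K) (π : T →ₐ[k] K),
      ∀ t, (∃ u ∈ S, b u = θ t z) → π t = 0 := by
  let a : Ideal T :=
    { carrier := {t | ∃ u ∈ S, b u = θ t z}
      add_mem' := by
        rintro s t ⟨u, hu, h1⟩ ⟨v, hv, h2⟩
        exact ⟨u + v, S.add_mem hu hv, by rw [map_add, map_add, h1, h2, LinearMap.add_apply]⟩
      zero_mem' := ⟨0, S.zero_mem, by rw [map_zero, map_zero, LinearMap.zero_apply]⟩
      smul_mem' := by
        rintro s t ⟨u, hu, h1⟩
        exact ⟨θ s u, (hθ s u hu).1, by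
          rw [(hθ s u hu).2, h1, smul_eq_mul, map_mul, End.mul_apply]⟩ }
  have ha : a ≠ ⊤ := fun h => hz (by
    obtain ⟨u, hu, h1⟩ : (1 : T) ∈ a := h ▸ Submodule.mem_top
    exact ⟨u, hu, by rw [h1, map_one, End.one_apply]⟩)
  obtain ⟨n, hn, han⟩ := Ideal.exists_le_maximal a ha
  exact ⟨T ⧸ n, Ideal.Quotient.field n, inferInstance, Ideal.Quotient.mkₐ k n,
    fun t ht => Ideal.Quotient.eq_zero_iff_mem.2 (han ht)⟩

theorem adjoin {s : Set (End k X)} (hs : ∀ t ∈ s, Comm b S t) {t : End k X}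
    (ht : t ∈ Algebra.adjoin k s) : Comm b S t := by
  induction ht using Algebra.adjoin_induction with
  | mem t ht => exact hs t ht
  | algebraMap c =>
    intro x hx
    rw [Module.algebraMap_end_apply, Module.algebraMap_end_apply, map_smul]
    exact ⟨S.smul_mem c hx, rfl⟩
  | add t t' _ _ h h' =>
    intro x hx
    rw [LinearMap.add_apply, LinearMap.add_apply, map_add, (h x hx).2, (h' x hx).2]
    exact ⟨S.add_mem (h x hx).1 (h' x hx).1, rfl⟩
  | mul t t' _ _ h h' => exact h.mul h'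

theorem main {R ι T : Type} [CommRing R] [Algebra k R] [CommRing T] [Algebra k T]
    (θ : T →ₐ[k] End k X) (hi : Function.Injective θ) (hθ : ∀ t, Comm b S (θ t))
    (ψ : ι → R →ₗ[k] End k X) (φ : ι → R → T) (hφ : ∀ i r, θ (φ i r) = ψ i r)
    (hm : ∀ i r r', ψ i (r * r') = ψ i r * ψ i r') (h1 : ∀ i, ∀ x ∈ S, ψ i 1 x = x)
    (hE : ¬ Ex b S) :
    ∃ (K : Type) (_ : Field K) (_ : Algebra k K) (χ : ι → R →ₐ[k] K),
      (∀ i r, (∀ x ∈ S, ψ i r x = 0) → χ i r = 0) ∧
      ∀ i j r r' r'' (N : ℕ), Kill b S ((ψ i r - ψ j r' * ψ i r'') ^ N) →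
        χ i r = χ j r' * χ i r'' := by
  obtain ⟨z, hz, hb, hn⟩ : ∃ z ∈ S, b z = 0 ∧ ¬ ∃ u ∈ S, b u = z := by
    by_contra h
    exact hE fun z hz hb => by_contra fun hn => h ⟨z, hz, hb, hn⟩
  obtain ⟨K, _, _, π, hπ⟩ := char θ hθ hn
  let L : ι → R →ₗ[k] T := fun i =>
    { toFun := φ i
      map_add' := fun r r' => hi (by rw [map_add, hφ, hφ, hφ, map_add])
      map_smul' := fun c r => hi (by rw [map_smul, hφ, hφ, map_smul, RingHom.id_apply]) }
  have hone : ∀ i, π (φ i 1) = 1 := fun i => by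
    have := hπ (φ i 1 - 1) ⟨0, S.zero_mem, by
      rw [map_zero, map_sub, hφ, map_one θ, LinearMap.sub_apply, h1 i z hz, End.one_apply, sub_self]⟩
    rwa [map_sub, map_one, sub_eq_zero] at this
  have hmul : ∀ i r r', π (φ i (r * r')) = π (φ i r) * π (φ i r') := fun i r r' => by
    rw [← map_mul]
    exact congrArg π (hi (by rw [map_mul, hφ, hφ, hφ, hm]))
  refine ⟨K, inferInstance, inferInstance,
    fun i => AlgHom.ofLinearMap (π.toLinearMap ∘ₗ L i) (hone i) (hmul i), fun i r h => ?_,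
    fun i j r r' r'' N h => ?_⟩
  · exact hπ (φ i r) ⟨0, S.zero_mem, by rw [map_zero, hφ, h z hz]⟩
  · have h2 := hπ ((φ i r - φ j r' * φ i r'') ^ N) (by
      rw [map_pow, map_sub, map_mul, hφ, hφ, hφ]
      exact h z hz hb)
    rw [map_pow, map_sub, map_mul] at h2
    exact sub_eq_zero.1 (pow_eq_zero_iff'.1 h2).1

end CommR

open scoped IsMulCommutative in
theorem comm : SComm := by
  intro k X R ι _ _ _ _ _ b S ψ hm hc hC h1 hE
  have : IsMulCommutative (Algebra.adjoin k (Set.range fun x : ι × R => ψ x.1 x.2)) :=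
    Algebra.isMulCommutative_adjoin k (by
      rintro _ ⟨x, rfl⟩ _ ⟨y, rfl⟩
      exact hc _ _ _ _)
  exact CommR.main (Algebra.adjoin k (Set.range fun x : ι × R => ψ x.1 x.2)).val
    Subtype.val_injective
    (fun t => CommR.adjoin (by rintro _ ⟨x, rfl⟩; exact hC _ _) t.2) ψ
    (fun i r => ⟨ψ i r, Algebra.subset_adjoin ⟨(i, r), rfl⟩⟩) (fun _ _ => rfl) hm h1 hE

end Pool.Agent.MP_92f1cb_al.H14C
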