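import Pool.Agent.MP_92f1cb_al.H14C.Base2

set_option autoImplicit false

namespace Pool.Agent.MP_92f1cb_al.H14C

open Pool.Agent.MP_92f1cb_al.H14 Module MvPolynomial

namespace CycR

section lists

variable {α : Type}

theorem rot_set (a φ : α) {n p q r : ℕ} (hq : q < n) (h : (q + r) % n = p) :
    ((List.replicate n a).set p φ).rotate r = (List.replicate n a).set q φ := by
  refine List.ext_getElem (by simp) fun i h1 h2 => ?_
  have hi : i < n := by simpa using h2
  simp only [List.getElem_rotate, List.getElem_set, List.getElem_replicate, List.length_set,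
    List.length_replicate]
  refine if_congr ⟨fun e => ?_, fun e => by rw [← h, e]⟩ rfl rfl
  exact Nat.ModEq.eq_of_lt_of_lt (Nat.ModEq.add_right_cancel' r (h.trans e)) hq hi

variable [Monoid α]

theorem zip_same (n i : ℕ) (φ ψ : α) : List.zipWith (· * ·) ((List.replicate n 1).set i φ)
    ((List.replicate n 1).set i ψ) = (List.replicate n 1).set i (φ * ψ) := by
  refine List.ext_getElem (by simp) fun j h1 h2 => ?_
  simp only [List.getElem_zipWith, List.getElem_set, List.getElem_replicate]
  split_ifs <;> simp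

theorem zip_comm (n i j : ℕ) {φ ψ : α} (h : φ * ψ = ψ * φ) :
    List.zipWith (· * ·) ((List.replicate n 1).set i φ) ((List.replicate n 1).set j ψ) =
      List.zipWith (· * ·) ((List.replicate n 1).set j ψ) ((List.replicate n 1).set i φ) := by
  refine List.ext_getElem (by simp) fun l h1 h2 => ?_
  simp only [List.getElem_zipWith, List.getElem_set, List.getElem_replicate]
  split_ifs <;> simp [h]

theorem zip_mem {P : α → Prop} (hm : ∀ a b, P a → P b → P (a * b)) {l l' : List α}
    (h : ∀ a ∈ l, P a) (h' : ∀ a ∈ l', P a) : ∀ a ∈ List.zipWith (· * ·) l l', P a := by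
  intro a ha
  obtain ⟨i, hi, rfl⟩ := List.getElem_of_mem ha
  rw [List.getElem_zipWith]
  exact hm _ _ (h _ (List.getElem_mem _)) (h' _ (List.getElem_mem _))

end lists

variable {k A B : Type} [Field k] [Ring A] [Algebra k A] (β : Basis B k A)

theorem Op_kill {σ : A →ₐ[k] A} {Ys : List (Submodule k A)} (hYs : ∀ Z ∈ Ys, ∀ y ∈ Z, σ y = 0)
    {φs : List (End k A)} {i : ℕ} (h1 : i < φs.length) (h2 : i < Ys.length)
    (h : ∀ y ∈ Ys[i], φs[i] y = 0) {W : WW k B} (hW : W ∈ CW β σ Ys) : Op β σ φs W = 0 := by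
  refine CW_ext _ 0 (fun l hs => ?_) hW
  clear hW
  rw [LinearMap.zero_apply]
  induction hs generalizing φs i with
  | nil => simp at h2
  | consL ha _ ih => rw [ww_cons, Op_cons_L β σ _ ha, ih hYs h1 h2 h, map_zero]
  | consM hy _ ih =>
    cases φs with
    | nil => simp at h1
    | cons φ φs =>
      rw [ww_cons, Op_cons_M β σ _ _ (hYs _ (by simp) _ hy)]
      cases i with
      | zero =>
        have : φ _ = 0 := h _ hy
        rw [this, map_zero, LinearMap.zero_apply]
      | succ i =>
        rw [ih (fun Z hZ => hYs Z (by simp [hZ])) (by simpa using h1) (by simpa using h2) h,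
          map_zero]

variable (M : Model k A)

/-- Multiplication by a polynomial in one slot. -/
noncomputable def psi (n : ℕ) (i : Fin n) : R0 k →ₗ[k] End k (WW k B) where
  toFun r := Sl β M.σ n i (M.mulS (cS k r))
  map_add' r r' := by
    rw [map_add, M.mulS_add]
    exact Op_set_add β M.σ _ (by simp) _ _
  map_smul' c r := by
    rw [map_smul, M.mulS_smul]
    exact Op_set_smul β M.σ _ (by simp) _ _

theorem psi_apply (n : ℕ) (i : Fin n) (r : R0 k) :
    psi β M n i r = Sl β M.σ n i (M.mulS (C r)) := rfl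

theorem mulS_mem (r : R0 k) (J : Ideal (R0 k)) :
    ∀ y ∈ M.YR J none, M.mulS (C r) y ∈ M.YR J none := by
  rintro _ ⟨f, hf, rfl⟩
  refine ⟨_, fun i j => ?_, M.mulS_emb _ _ f⟩
  obtain ⟨g, -, e⟩ := hf i j
  refine ⟨r * g, trivial, ?_⟩
  rw [Matrix.smul_apply, ← e, smul_eq_mul]
  exact map_mul (cS k) r g

theorem mulS_kill {r : R0 k} {J : Ideal (R0 k)} (hr : r ∈ J) :
    ∀ y ∈ M.YR J none, M.mulS (C r) y = 0 := by
  rintro _ ⟨f, -, rfl⟩
  rw [M.mulS_emb, ← map_zero M.inM]
  congr 1
  refine Matrix.ext fun i j => emb_eq_zero.2 (Ideal.mem_comap.2 ?_)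
  rw [Matrix.smul_apply, smul_eq_mul, map_mul, eS_C]
  exact J.mul_mem_right _ hr

theorem junction (hM : SMod) (hR : SRot) (hJ : SJun) {m : ℕ} {Ys : List (Submodule k A)}
    (hm : Ys.length = m + 1) (hYs : ∀ Y ∈ Ys, ∃ J', Y = M.YR J' none) (i : Fin (m + 1))
    {J : Ideal (R0 k)} (hj : Ys[(i + 1).val]'((i + 1).2.trans_eq hm.symm) = M.YR J none)
    {s l : Fin 3} (hl : l ≠ s) (hs : xv k s - 1 ∈ J) :
    Kill (bH β) (SW β M.σ Ys) ((psi β M (m + 1) i (yv k l) -
      psi β M (m + 1) (i + 1) (xv k l) * psi β M (m + 1) i (yv k s)) ^ 4) := by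
  obtain ⟨Z, Zs, e⟩ := List.exists_cons_of_length_eq_add_one (l := Ys.rotate (i + 1)) (n := m)
    (by simp [hm])
  have hv : (i + 1).val = (i + 1) % (m + 1) := by simp [Fin.val_add]
  have hZ : Z = M.YR J none := by
    have := List.getElem_rotate Ys (i + 1) 0 (by simp [hm])
    simp only [e, List.getElem_cons_zero, zero_add, hm, ← hv] at this
    exact this.trans hj
  have hlen : Zs.length = m := by simpa [hm] using (congrArg List.length e).symm
  have hmem : ∀ Y ∈ Z :: Zs, ∃ J', Y = M.YR J' none := fun Y hY =>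
    hYs Y (List.mem_rotate.1 (e ▸ hY))
  have K := hJ k A B β M J s l hl hs Zs fun Y hY => hmem Y (List.mem_cons_of_mem _ hY)
  have km : ∀ r, KMap M.σ (M.mulS r) := fun r => (M.bmap_mulS r).kmap
  rw [← hZ, hlen, junc, Sl_mul_Sl M.split _ _ _ _ (km _), Nat.add_sub_cancel, Sl] at K
  have K' := hR k A B β M.σ M.split (Z :: Zs) _ _ 4 (m - i)
    (fun Y hY => by obtain ⟨J', rfl⟩ := hmem Y hY; exact (hM k A M).2.1 _ _)
    (by simp [hlen]) (by simp [hlen]) (mem_set_one kmap_one (km _) _ _)
    (zip_mem (fun a b ha hb y hy => ha _ (hb y hy)) (mem_set_one kmap_one (km _) _ _)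
      (mem_set_one kmap_one (km _) _ _)) K
  have hi := i.2
  have e1 : (i + (m - i)) % (m + 1) = m := by
    rw [show i + (m - i) = m by omega]
    exact Nat.mod_eq_of_lt (by omega)
  have e2 : ((i + 1).val + (m - i)) % (m + 1) = 0 := by
    rw [hv, Nat.mod_add_mod, show i + 1 + (m - i) = m + 1 by omega, Nat.mod_self]
  rw [← e, List.rotate_rotate, show i + 1 + (m - i) = Ys.length by omega, List.rotate_length,
    List.zipWith_rotate_distrib _ _ _ _ (by simp), rot_set _ _ hi e1, rot_set _ _ hi e1,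
    rot_set _ _ (i + 1).2 e2] at K'
  rw [psi_apply, psi_apply, psi_apply, Sl_mul_Sl M.split _ _ _ _ (km _)]
  exact K'

end CycR

open CycR in
theorem cyc (hM : SMod) (hC : SComm) (hR : SRot) (hJ : SJun) : SCyc := by
  intro k A B _ _ _ β M I hI Ys hYs
  cases hm : Ys.length with
  | zero =>
    rw [List.length_eq_zero_iff.1 hm]
    exact ex_bot
  | succ m =>
    by_contra hn
    choose J s t h1 h2 h3 h4 using fun i : Fin (m + 1) =>
      hYs (Ys[i.val]'(i.2.trans_eq hm.symm)) (List.getElem_mem _)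
    have hb : ∀ Z ∈ Ys, Bim M.σ Z := fun Z hZ => by
      obtain ⟨J', -, -, -, -, -, rfl⟩ := hYs Z hZ
      exact (hM k A M).2.1 _ _
    have h0 : ∀ Z ∈ Ys, ∀ y ∈ Z, M.σ y = 0 := fun Z hZ y hy => (hb Z hZ y hy).1
    have km : ∀ r, KMap M.σ (M.mulS r) := fun r => (M.bmap_mulS r).kmap
    have kill : ∀ (i : Fin (m + 1)) (φ : End k A), (∀ y ∈ M.YR (J i) none, φ y = 0) →
        ∀ x ∈ SW β M.σ Ys, Sl β M.σ (m + 1) i φ x = 0 := fun i φ hφ x hx =>
      Op_kill β h0 (i := i) (by simpa using i.2) (i.2.trans_eq hm.symm)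
        (fun y hy => by rw [List.getElem_set_self]; exact hφ y (h4 i ▸ hy)) (SW_le_CW _ hx)
    obtain ⟨K, _, _, χ, c1, c2⟩ := hC k (WW k B) (R0 k) (Fin (m + 1)) (bH β) (SW β M.σ Ys)
      (psi β M (m + 1))
      (fun i r r' => by
        rw [psi_apply, psi_apply, psi_apply, Sl_mul_Sl M.split _ _ _ _ (km _), zip_same, map_mul,
          M.mulS_mul, Sl])
      (fun i j r r' => by
        rw [psi_apply, psi_apply, Sl_mul_Sl M.split _ _ _ _ (km _),
          Sl_mul_Sl M.split _ _ _ _ (km _),
          zip_comm _ _ _ (by rw [← M.mulS_mul, ← M.mulS_mul, mul_comm])])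
      (fun i r => by
        have := comm_Sl (β := β) M.split hb (M.bmap_mulS (C r)) i fun _ => by
          rw [h4 i]
          exact mulS_mem M r _
        rwa [hm] at this)
      (fun i x hx => by
        have e := LinearMap.congr_fun (Op_set_add β M.σ (List.replicate (m + 1) 1) (i := i)
          (by simpa using i.2) (M.mulS 1) (1 - M.mulS 1)) x
        have e0 := kill i (1 - M.mulS 1) (fun y hy => by
          rw [LinearMap.sub_apply, M.mulS_one ((hM k A M).2.1 _ _ y hy).1]
          exact sub_self y) x hx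
        have e1 := Op_one h0 (SW_le_CW _ hx)
        rw [hm] at e1
        rw [add_sub_cancel, List.set_replicate_self, e1, LinearMap.add_apply] at e
        rw [psi_apply, map_one]
        exact (e.trans ((congrArg _ e0).trans (add_zero _))).symm) hn
    have z : ∀ i, ∀ g ∈ J i, χ i g = 0 := fun i g hg => c1 i g (kill i _ (mulS_kill M hg))
    have one : ∀ i g, g - 1 ∈ J i → χ i g = 1 := fun i g hg => by
      have := z i _ hg
      rwa [map_sub, map_one, sub_eq_zero] at this
    refine hI K m (fun i l => χ i (xv k l)) (fun i l => χ i (yv k l))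
      (fun i e => one_ne_zero ((one i _ (h2 i)).symm.trans (congrFun e (s i))))
      (fun i e => one_ne_zero ((one i _ (h3 i)).symm.trans (congrFun e (t i))))
      (fun i g hg => ?_) fun i => ⟨χ i (yv k (s (i + 1))), funext fun l => ?_⟩
    · rw [← z i g (h1 i hg)]
      refine DFunLike.congr_fun (algHom_ext fun u => ?_) g
      cases u <;> simp [xv, yv]
    · rw [Pi.smul_apply, smul_eq_mul]
      by_cases hl : l = s (i + 1)
      · rw [hl, one _ _ (h2 (i + 1)), mul_one]
      · rw [mul_comm]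
        refine c2 i (i + 1) _ _ _ 4 (junction β M hM hR hJ hm (fun Y hY => ?_) i (h4 (i + 1)) hl
          (h2 (i + 1)))
        obtain ⟨J', -, -, -, -, -, e⟩ := hYs Y hY
        exact ⟨J', e⟩

end Pool.Agent.MP_92f1cb_al.H14C
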