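import Pool.Agent.MP_92f1cb_al.H14.Lift
import Pool.Agent.MP_92f1cb_al.H14.Stmt

set_option autoImplicit false

namespace Pool.Agent.MP_92f1cb_al.H14C

open Pool.Agent.MP_92f1cb_al.H14 Module MvPolynomial

section Lin

variable {k X : Type} [Field k] [AddCommGroup X] [Module k X]

/-- `t` sends every cycle of `S` to a boundary of `S`. -/
def Kill (b : End k X) (S : Submodule k X) (t : End k X) : Prop :=
  ∀ z ∈ S, b z = 0 → ∃ u ∈ S, b u = t z

/-- Every cycle of `S` is a boundary of `S`. -/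
def Ex (b : End k X) (S : Submodule k X) : Prop :=
  ∀ z ∈ S, b z = 0 → ∃ u ∈ S, b u = z

/-- `t` preserves `S` and commutes with `b` on `S`. -/
def Comm (b : End k X) (S : Submodule k X) (t : End k X) : Prop :=
  ∀ x ∈ S, t x ∈ S ∧ b (t x) = t (b x)

/-- A short exact sequence of subspaces `0 → S₁ → S₂ → S₃ → 0` given by `F` and `G`. -/
structure SES (F G : End k X) (S₁ S₂ S₃ : Submodule k X) : Prop where
  mapF : ∀ x ∈ S₁, F x ∈ S₂
  mapG : ∀ x ∈ S₂, G x ∈ S₃
  inj : ∀ x ∈ S₁, F x = 0 → x = 0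
  surj : ∀ x ∈ S₃, ∃ y ∈ S₂, G y = x
  ex : ∀ x ∈ S₂, G x = 0 ↔ ∃ y ∈ S₁, F y = x

/-- A short exact sequence of subcomplexes. -/
structure CSES (b F G : End k X) (S₁ S₂ S₃ : Submodule k X) : Prop where
  ses : SES F G S₁ S₂ S₃
  sq : ∀ x, b (b x) = 0
  b₁ : ∀ x ∈ S₁, b x ∈ S₁
  b₂ : ∀ x ∈ S₂, b x ∈ S₂
  b₃ : ∀ x ∈ S₃, b x ∈ S₃
  comF : ∀ x ∈ S₁, b (F x) = F (b x)
  comG : ∀ x ∈ S₂, b (G x) = G (b x)

end Lin

section Words

variable {k A B : Type} [Field k] [Ring A] [Algebra k A]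

/-- The span of all words. -/
abbrev WW (k : Type) [Field k] (B : Type) : Type := MM k 1 B

/-- The Hochschild differential on words. -/
noncomputable def bH (β : Basis B k A) : End k (WW k B) := bb β (fun _ => 0)

/-- The signed rotation of words. -/
noncomputable def TH (k : Type) [Field k] (B : Type) : End k (WW k B) := TT (fun _ => 0)

/-- A word in elements of the algebra. -/
noncomputable def ww (β : Basis B k A) (l : List A) : WW k B := wd β 1 l

/-- Head operator on basis words. -/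
noncomputable def hdf (β : Basis B k A) (F : A →ₗ[k] End k (WW k B)) : List B → WW k B
  | x :: w => F (β x) (ee (0, w))
  | [] => 0

/-- The operator sending `a W` to `F a W` and the empty word to zero. -/
noncomputable def HdT (β : Basis B k A) (F : A →ₗ[k] End k (WW k B)) : End k (WW k B) :=
  mk fun p => hdf β F p.2

/-- Apply `φ` to the first letter. -/
noncomputable def Hd (β : Basis B k A) (φ : End k A) : End k (WW k B) :=
  HdT β (cons β ∘ₗ φ)

/-- Slot operator on basis words. -/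
noncomputable def opf (β : Basis B k A) (σ : A →ₐ[k] A) : List B → List (End k A) → WW k B
  | [], [] => ee (0, [])
  | [], _ :: _ => 0
  | x :: w, [] => cons β (σ (β x)) (opf β σ w [])
  | x :: w, φ :: φs => cons β (φ (β x - σ (β x))) (opf β σ w φs) +
      cons β (σ (β x)) (opf β σ w (φ :: φs))

/-- Apply the `i`-th map of the list to the `i`-th letter killed by `σ`; words with another
number of such letters are sent to zero. -/
noncomputable def Op (β : Basis B k A) (σ : A →ₐ[k] A) (φs : List (End k A)) : End k (WW k B) :=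
  mk fun p => opf β σ p.2 φs

/-- Apply `φ` in slot `i` of `m` slots. -/
noncomputable def Sl (β : Basis B k A) (σ : A →ₐ[k] A) (m i : ℕ) (φ : End k A) :
    End k (WW k B) :=
  Op β σ ((List.replicate m 1).set i φ)

/-- Projection onto the words of length `n`. -/
noncomputable def piL (k : Type) [Field k] (B : Type) (n : ℕ) : End k (WW k B) :=
  mk fun p => if p.2.length = n then ee p else 0

/-- `σ` is an idempotent algebra endomorphism whose kernel has square zero. -/
structure Split (σ : A →ₐ[k] A) : Prop where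
  idem : ∀ a, σ (σ a) = σ a
  sq : ∀ a c, σ a = 0 → σ c = 0 → a * c = 0

/-- A list of letters fixed by `σ` and letters taken from the given subspaces, in this order. -/
inductive Shape (σ : A →ₐ[k] A) : List (Submodule k A) → List A → Prop
  | nil : Shape σ [] []
  | consL {Ys : List (Submodule k A)} {l : List A} {a : A} :
      σ a = a → Shape σ Ys l → Shape σ Ys (a :: l)
  | consM {Ys : List (Submodule k A)} {l : List A} {Y : Submodule k A} {y : A} :
      y ∈ Y → Shape σ Ys l → Shape σ (Y :: Ys) (y :: l)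

/-- The span of the words of a given shape. -/
noncomputable def CW (β : Basis B k A) (σ : A →ₐ[k] A) (Ys : List (Submodule k A)) :
    Submodule k (WW k B) :=
  Submodule.span k {W | ∃ l, Shape σ Ys l ∧ W = ww β l}

/-- The span of the words of a given shape that start in the first subspace. -/
noncomputable def SW (β : Basis B k A) (σ : A →ₐ[k] A) : List (Submodule k A) →
    Submodule k (WW k B)
  | [] => ⊥
  | Y :: Ys => Submodule.span k {W | ∃ y ∈ Y, ∃ l, Shape σ Ys l ∧ W = ww β (y :: l)}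

/-- A two-sided ideal contained in the kernel of `σ`. -/
def Bim (σ : A →ₐ[k] A) (Y : Submodule k A) : Prop :=
  ∀ y ∈ Y, σ y = 0 ∧ ∀ a, a * y ∈ Y ∧ y * a ∈ Y

/-- `φ` preserves the kernel of `σ`. -/
def KMap (σ : A →ₐ[k] A) (φ : End k A) : Prop := ∀ y, σ y = 0 → σ (φ y) = 0

/-- `φ` is a bimodule endomorphism of the kernel of `σ`. -/
def BMap (σ : A →ₐ[k] A) (φ : End k A) : Prop :=
  ∀ y, σ y = 0 → σ (φ y) = 0 ∧ ∀ a, φ (a * y) = a * φ y ∧ φ (y * a) = φ y * a

/-- `P` is free over the left ideal with basis `l`, with generating right module `G`. -/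
structure Free (σ : A →ₐ[k] A) {α : Type} [Fintype α] (P G : Submodule k A) (l : α → A) :
    Prop where
  fix : ∀ a, σ (l a) = l a
  le : G ≤ P
  span : ∀ p ∈ P, ∃ γ : α → A, (∀ a, γ a ∈ G) ∧ p = ∑ a, l a * γ a
  indep : ∀ γ : α → A, (∀ a, γ a ∈ G) → ∑ a, l a * γ a = 0 → ∀ a, γ a = 0
  lmul : ∀ c, σ c = c → ∀ a, c * l a ∈ Submodule.span k (Set.range l)
  rmul : ∀ γ ∈ G, ∀ c, σ c = c → γ * c ∈ G

/-- The junction operator between the last and the first of `m` slots. -/
noncomputable def junc (β : Basis B k A) (σ : A →ₐ[k] A) (m : ℕ) (Y₁ X Y₂ : End k A) :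
    End k (WW k B) :=
  Sl β σ m (m - 1) Y₁ - Sl β σ m 0 X * Sl β σ m (m - 1) Y₂

/-- The data of one step of the junction argument. -/
structure JData (σ : A →ₐ[k] A) {α α' : Type} [Fintype α] [Fintype α']
    (P G : Submodule k A) (l : α → A) (P' G' : Submodule k A) (l' : α' → A)
    (e e' l₁ l₂ : A) (ell u d r Y₁ X Y₂ : End k A) : Prop where
  bim : Bim σ P
  bim' : Bim σ P'
  free : Free σ P G l
  free' : Free σ P' G' l'
  fixe : σ e = e
  fixe' : σ e' = e'
  le : ∀ a, l a * e = l a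
  le' : ∀ a, l' a * e' = l' a
  l₁mem : l₁ ∈ Submodule.span k (Set.range l)
  l₂mem : l₂ ∈ Submodule.span k (Set.range l)
  bell : BMap σ ell
  bY₁ : BMap σ Y₁
  bX : BMap σ X
  bY₂ : BMap σ Y₂
  ellP : ∀ p ∈ P', ell p ∈ P
  mulP : ∀ p ∈ P, Y₁ p ∈ P ∧ X p ∈ P ∧ Y₂ p ∈ P
  mulP' : ∀ p ∈ P', Y₁ p ∈ P' ∧ X p ∈ P' ∧ Y₂ p ∈ P'
  XG : ∀ γ ∈ G, X γ ∈ G
  ulin : ∀ y, σ y = 0 → σ (u y) = 0 ∧ ∀ c, u (y * c) = u y * c
  rlin : ∀ y, σ y = 0 → σ (r y) = 0 ∧ ∀ c, r (c * y) = c * r y
  uG : ∀ γ ∈ G, u γ ∈ G' ∧ d (u γ) = γ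
  dG : ∀ γ ∈ G', d γ ∈ G ∧ u (d γ) = γ
  rG : ∀ γ ∈ G, r γ ∈ G
  ellG : ∀ γ ∈ G', ell γ = l₁ * d γ - l₂ * X (d γ)
  r₁ : ∀ y, σ y = 0 → r y * l₁ = Y₁ (y * e) ∧ r y * l₂ = Y₂ (y * e)
  r₂ : ∀ y, σ y = 0 → r (y * l₁) = Y₁ (y * e') ∧ r (y * l₂) = Y₂ (y * e')
  ur : ∀ y, σ y = 0 → u (r y) = r (u y)
  uX : ∀ y, σ y = 0 → u (X y) = X (u y)
  rX : ∀ y, σ y = 0 → r (X y) = X (r y)

end Words

section Poly

/-- Polynomials in three variables. -/
abbrev KX (k : Type) [Field k] : Type := MvPolynomial (Fin 3) k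

/-- Polynomials in `x` (left) and `y` (right). -/
abbrev R0 (k : Type) [Field k] : Type := MvPolynomial (Fin 3 ⊕ Fin 3) k

/-- Polynomials in `Z` over `R0`. -/
abbrev SS (k : Type) [Field k] : Type := MvPolynomial (Fin 3) (R0 k)

variable {k : Type} [Field k]

/-- The variable `x s`. -/
noncomputable def xv (k : Type) [Field k] (s : Fin 3) : R0 k := X (Sum.inl s)

/-- The variable `y t`. -/
noncomputable def yv (k : Type) [Field k] (t : Fin 3) : R0 k := X (Sum.inr t)

/-- The bidegree of the variables. -/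
def bw : Fin 3 ⊕ Fin 3 → ℕ × ℕ := Sum.elim (fun _ => (1, 0)) (fun _ => (0, 1))

/-- Bihomogeneous ideals. -/
def Bihom (I : Ideal (R0 k)) : Prop :=
  ∀ f ∈ I, ∀ d : ℕ × ℕ, weightedHomogeneousComponent bw d f ∈ I

/-- There is no cyclic chain of points of the correspondence. -/
def NoCycle (I : Ideal (R0 k)) : Prop :=
  ∀ (K : Type) [Field K] [Algebra k K] (m : ℕ) (x y : Fin (m + 1) → Fin 3 → K),
    (∀ i, x i ≠ 0) → (∀ i, y i ≠ 0) →
    (∀ i, ∀ g ∈ I, aeval (Sum.elim (x i) (y i)) g = 0) →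
    (∀ i, ∃ c : K, y i = c • x (i + 1)) → False

/-- There is an infinite chain of rational points of the correspondence. -/
def HasChain (I : Ideal (R0 k)) : Prop :=
  ∃ p : ℕ → Fin 3 → k, (∀ n, p n ≠ 0) ∧
    ∀ n, ∀ g ∈ I, aeval (Sum.elim (p n) (p (n + 1))) g = 0

/-- Entry patterns: everything, or bihomogeneous of bidegree `(a + i, b + 2 - j)`. -/
noncomputable def pat (k : Type) [Field k] : Option (ℕ × ℕ) → Fin 3 → Fin 3 → Submodule k (R0 k)
  | none => fun _ _ => ⊤
  | some d => fun i j => weightedHomogeneousSubmodule k bw (d.1 + i, d.2 + (2 - j))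

/-- Entrywise short exact sequence: multiplication by `h`, then projection. -/
structure PatSES {R : Type} [CommRing R] [Algebra k R] (h : R)
    (I₁ : Ideal R) (D₁ : Fin 3 → Fin 3 → Submodule k R)
    (I₂ : Ideal R) (D₂ : Fin 3 → Fin 3 → Submodule k R)
    (I₃ : Ideal R) (D₃ : Fin 3 → Fin 3 → Submodule k R) : Prop where
  id₁ : ∀ f ∈ I₁, h * f ∈ I₂
  id₂ : I₂ ≤ I₃
  map₁ : ∀ i j, ∀ f ∈ D₁ i j, ∃ g ∈ D₂ i j, h * f - g ∈ I₂
  map₂ : ∀ i j, ∀ f ∈ D₂ i j, ∃ g ∈ D₃ i j, f - g ∈ I₃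
  inj : ∀ i j, ∀ f ∈ D₁ i j, h * f ∈ I₂ → f ∈ I₁
  surj : ∀ i j, ∀ g ∈ D₃ i j, ∃ f ∈ D₂ i j, f - g ∈ I₃
  ex : ∀ i j, ∀ g ∈ D₂ i j, g ∈ I₃ ↔ ∃ f ∈ D₁ i j, h * f - g ∈ I₂

/-- A family of subcomplexes indexed by ideals and patterns, functorial for multiplication
followed by projection. -/
structure Fam {X : Type} [AddCommGroup X] [Module k X] (b : End k X)
    (S : Ideal (R0 k) → Option (ℕ × ℕ) → Submodule k X)
    (F : R0 k → Ideal (R0 k) → Ideal (R0 k) → End k X) : Prop where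
  ses : ∀ h I₁ d₁ I₂ d₂ I₃ d₃, PatSES h I₁ (pat k d₁) I₂ (pat k d₂) I₃ (pat k d₃) →
    CSES b (F h I₁ I₂) (F 1 I₂ I₃) (S I₁ d₁) (S I₂ d₂) (S I₃ d₃)
  comp : ∀ h h' h'' I₁ I₂ I₃ d, (∀ f ∈ I₁, h * f ∈ I₂) → (∀ f ∈ I₂, h' * f ∈ I₃) →
    h'' - h' * h ∈ I₃ → ∀ x ∈ S I₁ d, F h' I₂ I₃ (F h I₁ I₂ x) = F h'' I₁ I₃ x
  zero : ∀ I d, (∀ i j, ∀ f ∈ pat k d i j, f ∈ I) → S I d = ⊥
  mono : ∀ I d d', (∀ i j, ∀ f ∈ pat k d i j, ∃ g ∈ pat k d' i j, f - g ∈ I) → S I d ≤ S I d'
  union : ∀ I (d : ℕ → Option (ℕ × ℕ)) d',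
    (∀ n i j, ∀ f ∈ pat k (d n) i j, ∃ g ∈ pat k (d (n + 1)) i j, f - g ∈ I) →
    (∀ i j, ∀ f ∈ pat k d' i j, ∃ n, ∃ g ∈ pat k (d n) i j, f - g ∈ I) →
    ∀ x ∈ S I d', ∃ n, x ∈ S I (d n)

/-- The inclusion of coefficients. -/
noncomputable def cS (k : Type) [Field k] : R0 k →ₐ[k] SS k := IsScalarTower.toAlgHom k _ _

/-- The substitution `Z ↦ x`. -/
noncomputable def eS (k : Type) [Field k] : SS k →ₐ[k] R0 k :=
  (aeval (xv k) : SS k →ₐ[R0 k] R0 k).restrictScalars k

/-- The substitution `X ↦ Z`. -/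
noncomputable def zS (k : Type) [Field k] : KX k →ₐ[k] SS k := aeval X

/-- The substitution `X ↦ y`. -/
noncomputable def yS (k : Type) [Field k] : KX k →ₐ[k] SS k := aeval fun t => C (yv k t)

/-- The pattern over `SS` induced by a pattern over `R0`. -/
noncomputable def patS (k : Type) [Field k] (d : Option (ℕ × ℕ)) (i j : Fin 3) :
    Submodule k (SS k) :=
  (pat k d i j).map (cS k).toLinearMap

/-- Entry `(i, j)` is a form of degree `i - v` in `Z`. -/
noncomputable def zf (k : Type) [Field k] (v : ℕ) (i _j : Fin 3) : Submodule k (SS k) :=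
  if v ≤ i then (homogeneousSubmodule (Fin 3) (R0 k) (i - v)).restrictScalars k else ⊥

/-- The linear form `Z l - x l * Z s`. -/
noncomputable def lf (k : Type) [Field k] (s l : Fin 3) : SS k := X l - C (xv k l) * X s

/-- Lower triangular matrices whose entry `(i, j)` is a form of degree `i - j`. -/
def Lalg (k : Type) [Field k] : Subalgebra k (Matrix (Fin 3) (Fin 3) (KX k)) where
  carrier := {l | ∀ i j : Fin 3,
    (j ≤ i → (l i j).IsHomogeneous (i - j)) ∧ (i < j → l i j = 0)}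
  mul_mem' := by
    intro a b ha hb i j
    refine ⟨fun hij => ?_, fun hij => ?_⟩
    · rw [Matrix.mul_apply]
      refine IsHomogeneous.sum _ _ _ fun c _ => ?_
      by_cases h1 : c ≤ i
      · by_cases h2 : j ≤ c
        · have := ((ha i c).1 h1).mul ((hb c j).1 h2)
          have h3 : (i : ℕ) - c + (c - j) = i - j := by
            have := Fin.le_def.1 h1
            have := Fin.le_def.1 h2
            omega
          rwa [h3] at this
        · rw [(hb c j).2 (not_le.1 h2), mul_zero]; exact isHomogeneous_zero _ _ _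
      · rw [(ha i c).2 (not_le.1 h1), zero_mul]; exact isHomogeneous_zero _ _ _
    · rw [Matrix.mul_apply]
      refine Finset.sum_eq_zero fun c _ => ?_
      by_cases h1 : i < c
      · rw [(ha i c).2 h1, zero_mul]
      · rw [(hb c j).2 (lt_of_le_of_lt (not_lt.1 h1) hij), mul_zero]
  add_mem' := by
    intro a b ha hb i j
    exact ⟨fun h => ((ha i j).1 h).add ((hb i j).1 h), fun h => by
      rw [Matrix.add_apply, (ha i j).2 h, (hb i j).2 h, add_zero]⟩
  algebraMap_mem' := by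
    intro c i j
    rw [Matrix.algebraMap_matrix_apply]
    refine ⟨fun _ => ?_, fun h => if_neg h.ne⟩
    split_ifs with h
    · subst h; rw [Nat.sub_self]; exact isHomogeneous_C _ _
    · exact isHomogeneous_zero _ _ _

/-- The product of all quotients of a ring. -/
abbrev QU (R : Type) [CommRing R] : Type := (I : Ideal R) → R ⧸ I

/-- The product of all quotients of `SS`. -/
abbrev UU (k : Type) [Field k] : Type := QU (SS k)

/-- Matrices over `UU`. -/
abbrev Mat (k : Type) [Field k] : Type := Matrix (Fin 3) (Fin 3) (UU k)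

/-- The left action `l ↦ l(Z)`. -/
noncomputable def lam (k : Type) [Field k] : Lalg k →ₐ[k] Mat k :=
  (((IsScalarTower.toAlgHom k (SS k) (UU k)).comp (zS k)).mapMatrix).comp (Lalg k).val

/-- The right action `l ↦ l(y)`. -/
noncomputable def rgt (k : Type) [Field k] : Lalg k →ₐ[k] Mat k :=
  (((IsScalarTower.toAlgHom k (SS k) (UU k)).comp (yS k)).mapMatrix).comp (Lalg k).val

/-- `A` is the square-zero extension of `Lalg` by the bimodule `Mat`. -/
structure Model (k A : Type) [Field k] [Ring A] [Algebra k A] where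
  inL : Lalg k →ₐ[k] A
  prL : A →ₐ[k] Lalg k
  inM : Mat k →ₗ[k] A
  prM : A →ₗ[k] Mat k
  prL_inL : ∀ l, prL (inL l) = l
  prL_inM : ∀ μ, prL (inM μ) = 0
  prM_inL : ∀ l, prM (inL l) = 0
  prM_inM : ∀ μ, prM (inM μ) = μ
  decomp : ∀ a, inL (prL a) + inM (prM a) = a
  L_mul_M : ∀ l μ, inL l * inM μ = inM (lam k l * μ)
  M_mul_L : ∀ l μ, inM μ * inL l = inM (μ * rgt k l)
  M_mul_M : ∀ μ ν, inM μ * inM ν = 0

open Classical in
/-- The class of a ring element in the component `I`. -/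
noncomputable def emb {R : Type} [CommRing R] (I : Ideal R) : R →ₗ[R] QU R :=
  LinearMap.single R (fun J : Ideal R => R ⧸ J) I ∘ₗ I.mkQ

open Classical in
/-- Multiplication by `h` from the component `I₁` to the component `I₂`. -/
noncomputable def trU {R : Type} [CommRing R] (h : R) (I₁ I₂ : Ideal R) : QU R →ₗ[R] QU R :=
  if H : I₁ ≤ LinearMap.ker (emb I₂ ∘ₗ LinearMap.mulLeft R h) then
    I₁.liftQ _ H ∘ₗ LinearMap.proj (φ := fun J : Ideal R => R ⧸ J) I₁
  else 0

/-- The pattern is stable under both actions modulo `I`. -/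
def Closed (I : Ideal (SS k)) (D : Fin 3 → Fin 3 → Submodule k (SS k)) : Prop :=
  ∀ l ∈ Lalg k, ∀ f : Matrix (Fin 3) (Fin 3) (SS k), (∀ i j, f i j ∈ D i j) →
    (∀ i j, ∃ g ∈ D i j, (l.map (zS k) * f) i j - g ∈ I) ∧
    (∀ i j, ∃ g ∈ D i j, (f * l.map (yS k)) i j - g ∈ I)

namespace Model

variable {A : Type} [Ring A] [Algebra k A] (M : Model k A)

/-- The projection onto the triangular algebra. -/
noncomputable def σ : A →ₐ[k] A := M.inL.comp M.prL

/-- Matrices in the component `I` with entries in the pattern `D`. -/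
noncomputable def YY (I : Ideal (SS k)) (D : Fin 3 → Fin 3 → Submodule k (SS k)) : Submodule k A where
  carrier := {a | ∃ f : Matrix (Fin 3) (Fin 3) (SS k), (∀ i j, f i j ∈ D i j) ∧
    a = M.inM (f.map (emb I))}
  add_mem' := by
    rintro _ _ ⟨f, hf, rfl⟩ ⟨g, hg, rfl⟩
    exact ⟨f + g, fun i j => Submodule.add_mem _ (hf i j) (hg i j), by
      rw [← map_add, Matrix.map_add _ (map_add _)]⟩
  zero_mem' := ⟨0, fun _ _ => Submodule.zero_mem _, by
      rw [Matrix.map_zero _ (map_zero _), map_zero]⟩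
  smul_mem' := by
    rintro c _ ⟨f, hf, rfl⟩
    refine ⟨c • f, fun i j => Submodule.smul_mem _ c (hf i j), ?_⟩
    rw [← map_smul]
    congr 1
    refine Matrix.ext fun i j => ?_
    exact (LinearMap.map_smul_of_tower (emb I) c (f i j)).symm

/-- Apply a linear map to all entries. -/
noncomputable def onM (φ : UU k →ₗ[SS k] UU k) : End k A :=
  M.inM ∘ₗ (φ.restrictScalars k).mapMatrix ∘ₗ M.prM

/-- Multiplication by `h` from the component `I₁` to the component `I₂`. -/
noncomputable def tr (h : SS k) (I₁ I₂ : Ideal (SS k)) : End k A := M.onM (trU h I₁ I₂)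

/-- Multiplication of all entries by `r`. -/
noncomputable def mulS (r : SS k) : End k A := M.onM (r • LinearMap.id)

/-- The bimodule attached to an ideal of `R0` and a pattern. -/
noncomputable def YR (I : Ideal (R0 k)) (d : Option (ℕ × ℕ)) : Submodule k A :=
  M.YY (I.comap (eS k)) (patS k d)

end Model

end Poly

end Pool.Agent.MP_92f1cb_al.H14C
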