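import Pool.Agent.MP_92f1cb_al.H14C.Spec

set_option autoImplicit false

namespace Pool.Agent.MP_92f1cb_al.H14C

open Pool.Agent.MP_92f1cb_al.H14 Module MvPolynomial

namespace DevR

variable {k : Type} [Field k]

theorem comp_of {f : R0 k} {e : ℕ × ℕ} (hf : f.IsWeightedHomogeneous bw e) (d : ℕ × ℕ) :
    weightedHomogeneousComponent bw d f = if d = e then f else 0 :=
  weightedHomogeneousComponent_of_mem hf

theorem hom_mono (u : (Fin 3 ⊕ Fin 3) →₀ ℕ) (r : k) :
    (monomial u r : R0 k).IsWeightedHomogeneous bw (Finsupp.weight bw u) :=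
  isWeightedHomogeneous_monomial _ _ _ rfl

theorem comp_mul {h : R0 k} {e : ℕ × ℕ} (hh : h.IsWeightedHomogeneous bw e) (d : ℕ × ℕ)
    (f : R0 k) :
    weightedHomogeneousComponent bw (e + d) (h * f) = h * weightedHomogeneousComponent bw d f := by
  induction f using MvPolynomial.induction_on' with
  | monomial u r =>
    rw [comp_of (hh.mul (hom_mono u r)), comp_of (hom_mono u r)]
    by_cases e : d = Finsupp.weight bw u <;> simp [e]
  | add f g hf hg => rw [mul_add, map_add, map_add, hf, hg, mul_add]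

theorem comp_mul_mem {h : R0 k} {e : ℕ × ℕ} (hh : h.IsWeightedHomogeneous bw e) (d : ℕ × ℕ)
    (f : R0 k) : weightedHomogeneousComponent bw d (h * f) ∈ Ideal.span {h} := by
  induction f using MvPolynomial.induction_on' with
  | monomial u r =>
    rw [comp_of (hh.mul (hom_mono u r))]
    split_ifs
    · exact Ideal.mul_mem_right _ _ (Ideal.mem_span_singleton_self h)
    · exact zero_mem _
  | add f g hf hg => rw [mul_add, map_add]; exact add_mem hf hg

theorem hom_x (s : Fin 3) : (xv k s).IsWeightedHomogeneous bw (1, 0) :=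
  isWeightedHomogeneous_X _ _ _

theorem hom_y (t : Fin 3) : (yv k t).IsWeightedHomogeneous bw (0, 1) :=
  isWeightedHomogeneous_X _ _ _

theorem hom_xy (s t : Fin 3) : (xv k s * yv k t).IsWeightedHomogeneous bw (1, 1) :=
  (hom_x s).mul (hom_y t)

theorem hom_pow (s t : Fin 3) (a c : ℕ) :
    (xv k s ^ a * yv k t ^ c).IsWeightedHomogeneous bw (a, c) := by
  simpa using ((hom_x (k := k) s).pow a).mul ((hom_y (k := k) t).pow c)

/-- The colon ideal. -/
noncomputable def col (I : Ideal (R0 k)) (h : R0 k) : Ideal (R0 k) :=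
  Submodule.comap (LinearMap.mulLeft (R0 k) h) I

theorem mem_col {I : Ideal (R0 k)} {h f : R0 k} : f ∈ col I h ↔ h * f ∈ I := Iff.rfl

theorem mem_sup {I : Ideal (R0 k)} {h f : R0 k} :
    f ∈ I ⊔ Ideal.span {h} ↔ ∃ u, h * u - f ∈ I := by
  rw [Submodule.mem_sup]
  constructor
  · rintro ⟨i, hi, z, hz, rfl⟩
    obtain ⟨u, rfl⟩ := Ideal.mem_span_singleton'.1 hz
    exact ⟨u, by simpa [mul_comm] using hi⟩
  · rintro ⟨u, hu⟩
    exact ⟨_, neg_mem hu, h * u, Ideal.mul_mem_right _ _ (Ideal.mem_span_singleton_self h),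
      by ring⟩

theorem bihom_col {I : Ideal (R0 k)} (hI : Bihom I) {h : R0 k} {e : ℕ × ℕ}
    (hh : h.IsWeightedHomogeneous bw e) : Bihom (col I h) := fun f hf d => by
  rw [mem_col, ← comp_mul hh]
  exact hI _ hf _

theorem bihom_sup {I : Ideal (R0 k)} (hI : Bihom I) {h : R0 k} {e : ℕ × ℕ}
    (hh : h.IsWeightedHomogeneous bw e) : Bihom (I ⊔ Ideal.span {h}) := fun f hf d => by
  obtain ⟨u, hu⟩ := mem_sup.1 hf
  have := sub_mem (Ideal.mem_sup_right (S := I) (comp_mul_mem hh d u))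
    (Ideal.mem_sup_left (hI _ hu d))
  rwa [map_sub, sub_sub_cancel] at this

theorem mem_pat {a c : ℕ} {i j : Fin 3} {f : R0 k} :
    f ∈ pat k (some (a, c)) i j ↔ f.IsWeightedHomogeneous bw (a + i, c + (2 - j)) := Iff.rfl

theorem deg_succ (a c : ℕ) (i j : Fin 3) : ((a + 1 + i, c + 1 + (2 - j)) : ℕ × ℕ) =
    (1, 1) + (a + i, c + (2 - j)) := by
  rw [Prod.mk_add_mk, Prod.mk.injEq]; omega

theorem mul_mem_pat {h : R0 k} (hh : h.IsWeightedHomogeneous bw (1, 1)) {a c : ℕ} {i j : Fin 3}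
    {f : R0 k} (hf : f ∈ pat k (some (a, c)) i j) : h * f ∈ pat k (some (a + 1, c + 1)) i j := by
  rw [mem_pat, deg_succ]
  exact hh.mul hf

theorem ses_col {I : Ideal (R0 k)} (hI : Bihom I) {h : R0 k}
    (hh : h.IsWeightedHomogeneous bw (1, 1)) (a c : ℕ) :
    PatSES h (col I h) (pat k (some (a, c))) I (pat k (some (a + 1, c + 1)))
      (I ⊔ Ideal.span {h}) (pat k (some (a + 1, c + 1))) where
  id₁ _ hf := hf
  id₂ := le_sup_left
  map₁ _ _ f hf := ⟨h * f, mul_mem_pat hh hf, by simp⟩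
  map₂ _ _ f hf := ⟨f, hf, by simp⟩
  inj _ _ _ _ hf := hf
  surj _ _ f hf := ⟨f, hf, by simp⟩
  ex i j g hg := by
    rw [mem_sup]
    refine ⟨fun ⟨u, hu⟩ => ⟨_, weightedHomogeneousComponent_mem bw u (a + i, c + (2 - j)), ?_⟩,
      fun ⟨u, _, hu⟩ => ⟨u, hu⟩⟩
    have := hI _ hu ((1, 1) + (a + i, c + (2 - j)))
    rw [mem_pat, deg_succ] at hg
    rwa [map_sub, comp_mul hh, comp_of hg, if_pos rfl] at this

/-- Forms of positive bidegree lie in the ideal of the products. -/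
theorem mem_of_all {I : Ideal (R0 k)} (hI : ∀ s t, xv k s * yv k t ∈ I) {f : R0 k} {d : ℕ × ℕ}
    (hf : f.IsWeightedHomogeneous bw d) (h1 : d.1 ≠ 0) (h2 : d.2 ≠ 0) : f ∈ I := by
  induction hf using IsWeightedHomogeneous.induction_on with
  | zero => exact zero_mem _
  | add f g _ _ hf hg => exact add_mem hf hg
  | monomial u r hu =>
    rw [Finsupp.weight_apply, Finsupp.sum_fintype _ _ (by simp), Fintype.sum_sum_type] at hu
    simp only [bw, Sum.elim_inl, Sum.elim_inr] at hu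
    obtain ⟨s, hs⟩ : ∃ s, u (Sum.inl s) ≠ 0 := by
      by_contra hn
      push Not at hn
      exact h1 (by simp [← hu, hn, Prod.fst_sum])
    obtain ⟨t, ht⟩ : ∃ t, u (Sum.inr t) ≠ 0 := by
      by_contra hn
      push Not at hn
      exact h2 (by simp [← hu, hn, Prod.snd_sum])
    refine I.mem_of_dvd ?_ (hI s t)
    rw [xv, yv, X, X, monomial_mul, monomial_dvd_monomial]
    refine ⟨Or.inr fun v => ?_, by simp⟩
    rcases v with v | v
    · by_cases e : s = v
      · subst e; simpa [Nat.one_le_iff_ne_zero] using hs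
      · simp [e]
    · by_cases e : t = v
      · subst e; simpa [Nat.one_le_iff_ne_zero] using ht
      · simp [e]

/-- Homogenisation. -/
noncomputable def th (s t : Fin 3) (N : ℕ) : R0 k →ₗ[k] R0 k :=
  ∑ d ∈ Finset.range (N + 1) ×ˢ Finset.range (N + 1),
    LinearMap.mulLeft k (xv k s ^ (N - d.1) * yv k t ^ (N - d.2)) ∘ₗ
      weightedHomogeneousComponent bw d

theorem th_mem {I : Ideal (R0 k)} (hI : Bihom I) (s t : Fin 3) (N : ℕ) {f : R0 k} (hf : f ∈ I) :
    th s t N f ∈ I := by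
  rw [th, LinearMap.sum_apply]
  exact sum_mem fun d _ => I.mul_mem_left _ (hI f hf d)

theorem th_hom (s t : Fin 3) {N : ℕ} {f : R0 k} {e : ℕ × ℕ} (hf : f.IsWeightedHomogeneous bw e)
    (h1 : e.1 ≤ N) (h2 : e.2 ≤ N) :
    th s t N f = xv k s ^ (N - e.1) * yv k t ^ (N - e.2) * f := by
  rw [th, LinearMap.sum_apply, Finset.sum_eq_single e]
  · simp [comp_of hf, mul_assoc]
  · intro d _ hd
    simp [comp_of hf, hd]
  · intro h
    exact absurd (by simp; omega) h

theorem th_mul (s t : Fin 3) (u : R0 k) : ∃ N₀, ∀ N, N₀ ≤ N →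
    th s t N ((xv k s - 1) * u) = 0 ∧ th s t N ((yv k t - 1) * u) = 0 := by
  induction u using MvPolynomial.induction_on' with
  | monomial u r =>
    have hu := hom_mono u r
    generalize Finsupp.weight bw u = e at hu
    refine ⟨e.1 + e.2 + 1, fun N hN => ?_⟩
    rw [sub_mul, sub_mul, one_mul, map_sub, map_sub, th_hom s t hu (by omega) (by omega),
      th_hom s t ((hom_x s).mul hu) (by simp; omega) (by simp; omega),
      th_hom s t ((hom_y t).mul hu) (by simp; omega) (by simp; omega)]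
    simp only [Prod.fst_add, Prod.snd_add, zero_add]
    constructor
    · rw [show N - e.1 = N - (1 + e.1) + 1 by omega]; ring
    · rw [show N - e.2 = N - (1 + e.2) + 1 by omega]; ring
  | add f g hf hg =>
    obtain ⟨N₁, h1⟩ := hf
    obtain ⟨N₂, h2⟩ := hg
    refine ⟨N₁ + N₂, fun N hN => ?_⟩
    rw [mul_add, mul_add, map_add, map_add, (h1 N (by omega)).1, (h1 N (by omega)).2,
      (h2 N (by omega)).1, (h2 N (by omega)).2]
    simp

/-- The affine ideal. -/
noncomputable def aff (I : Ideal (R0 k)) (s t : Fin 3) : Ideal (R0 k) :=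
  I ⊔ Ideal.span {xv k s - 1} ⊔ Ideal.span {yv k t - 1}

theorem le_aff (I : Ideal (R0 k)) (s t : Fin 3) : I ≤ aff I s t := le_sup_left.trans le_sup_left

theorem x_aff (I : Ideal (R0 k)) (s t : Fin 3) : xv k s - 1 ∈ aff I s t :=
  Ideal.mem_sup_left (Ideal.mem_sup_right (Ideal.mem_span_singleton_self _))

theorem y_aff (I : Ideal (R0 k)) (s t : Fin 3) : yv k t - 1 ∈ aff I s t :=
  Ideal.mem_sup_right (Ideal.mem_span_singleton_self _)

theorem pow_aff (I : Ideal (R0 k)) (s t : Fin 3) (a c : ℕ) :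
    1 - xv k s ^ a * yv k t ^ c ∈ aff I s t := by
  rw [← Ideal.Quotient.eq, map_mul, map_pow, map_pow, Ideal.Quotient.eq.2 (x_aff I s t),
    Ideal.Quotient.eq.2 (y_aff I s t)]
  simp

theorem mem_of_aff {I : Ideal (R0 k)} (hI : Bihom I) {s t : Fin 3}
    (hr : ∀ f, xv k s * yv k t * f ∈ I → f ∈ I) {f : R0 k} {e : ℕ × ℕ}
    (hf : f.IsWeightedHomogeneous bw e) (h : f ∈ aff I s t) : f ∈ I := by
  obtain ⟨v, hv⟩ := mem_sup.1 h
  obtain ⟨u, hu⟩ := mem_sup.1 hv
  obtain ⟨N₁, h1⟩ := th_mul s t u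
  obtain ⟨N₂, h2⟩ := th_mul s t v
  have h3 := th_mem hI s t (N₁ + N₂ + e.1 + e.2) hu
  rw [map_sub, map_sub, (h1 _ (by omega)).1, (h2 _ (by omega)).2, zero_sub, zero_sub, neg_neg,
    th_hom s t hf (by omega) (by omega)] at h3
  generalize N₁ + N₂ + e.1 + e.2 - e.1 = a, N₁ + N₂ + e.1 + e.2 - e.2 = c at h3
  have h4 : ∀ n, (xv k s * yv k t) ^ n * f ∈ I → f ∈ I := fun n => by
    induction n with
    | zero => simp
    | succ n ih => exact fun h => ih (hr _ (by rwa [← mul_assoc, ← pow_succ']))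
  refine h4 (a + c) ?_
  convert I.mul_mem_left (xv k s ^ c * yv k t ^ a) h3 using 1
  ring

theorem exhaust (I : Ideal (R0 k)) (s t : Fin 3) (f : R0 k) : ∃ N₀, ∀ a c, N₀ ≤ a → N₀ ≤ c →
    ∃ g : R0 k, g.IsWeightedHomogeneous bw (a, c) ∧ f - g ∈ aff I s t := by
  induction f using MvPolynomial.induction_on' with
  | monomial u r =>
    have hu := hom_mono u r
    generalize Finsupp.weight bw u = e at hu
    refine ⟨e.1 + e.2, fun a c ha hc => ⟨xv k s ^ (a - e.1) * yv k t ^ (c - e.2) * monomial u r,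
      ?_, ?_⟩⟩
    · convert (hom_pow s t (a - e.1) (c - e.2)).mul hu using 1
      ext <;> simp <;> omega
    · rw [← one_sub_mul]
      exact Ideal.mul_mem_right _ _ (pow_aff I s t _ _)
  | add f g hf hg =>
    obtain ⟨N₁, h1⟩ := hf
    obtain ⟨N₂, h2⟩ := hg
    refine ⟨N₁ + N₂, fun a c ha hc => ?_⟩
    obtain ⟨f', a1, a2⟩ := h1 a c (by omega) (by omega)
    obtain ⟨g', b1, b2⟩ := h2 a c (by omega) (by omega)
    exact ⟨f' + g', a1.add b1, by rw [add_sub_add_comm]; exact add_mem a2 b2⟩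

theorem ses_aff {I : Ideal (R0 k)} (hI : Bihom I) {s t : Fin 3}
    (hr : ∀ f, xv k s * yv k t * f ∈ I → f ∈ I) (a c : ℕ) :
    PatSES 1 I (pat k (some (a, c))) (aff I s t) (pat k (some (a, c))) ⊤ (pat k (some (a, c))) where
  id₁ f hf := by rw [one_mul]; exact le_aff I s t hf
  id₂ := le_top
  map₁ _ _ f hf := ⟨f, hf, by simp⟩
  map₂ _ _ f hf := ⟨f, hf, by simp⟩
  inj _ _ f hf h := mem_of_aff hI hr hf (by rwa [one_mul] at h)
  surj _ _ f hf := ⟨f, hf, by simp⟩
  ex _ _ g hg := ⟨fun _ => ⟨g, hg, by simp⟩, fun _ => trivial⟩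

theorem regular {I : Ideal (R0 k)} (hI : Bihom I) {s t : Fin 3}
    (hr : col I (xv k s * yv k t) = I) {X : Type} [AddCommGroup X] [Module k X] {b : End k X}
    {S : Ideal (R0 k) → Option (ℕ × ℕ) → Submodule k X}
    {F : R0 k → Ideal (R0 k) → Ideal (R0 k) → End k X} (hF : Fam b S F) {a₀ : ℕ}
    (h₁ : ∀ a c, a₀ ≤ a → a₀ ≤ c → Ex b (S (I ⊔ Ideal.span {xv k s * yv k t}) (some (a, c))))
    (h₂ : Ex b (S (aff I s t) none)) {a c : ℕ} (ha : a₀ ≤ a) (hc : a₀ ≤ c) :
    Ex b (S I (some (a, c))) := by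
  have hr' : ∀ f, xv k s * yv k t * f ∈ I → f ∈ I := fun f hf => hr.le hf
  have hxy : 1 - xv k s * yv k t ∈ aff I s t := by simpa using pow_aff I s t 1 1
  have A := fun a c => hF.ses _ _ _ _ _ _ _ (ses_aff hI hr' a c)
  have B := fun a c => hF.ses _ _ _ _ _ _ _ (ses_col hI (hom_xy s t) a c)
  rw [hr] at B
  have key : ∀ n a c, a₀ ≤ a → a₀ ≤ c → ∀ z ∈ S I (some (a, c)),
      ∀ u ∈ S (aff I s t) (some (a + n, c + n)), b u = F 1 I (aff I s t) z →
        ∃ v ∈ S I (some (a, c)), b v = z := fun n => by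
    induction n with
    | zero =>
      intro a c _ _ z hz u hu e
      exact (A a c).inj (by rw [hF.zero ⊤ _ fun _ _ _ _ => trivial]; exact ex_bot) hz hu e
    | succ n ih =>
      intro a c ha hc z hz u hu e
      obtain ⟨v, hv, e'⟩ := ih (a + 1) (c + 1) (by omega) (by omega) _ ((B a c).ses.mapF z hz) u
        (by rwa [add_right_comm a, add_right_comm c]) (by
          rw [hF.comp _ 1 1 I I (aff I s t) _ (fun f hf => I.mul_mem_left _ hf)
            (fun f hf => by rw [one_mul]; exact le_aff I s t hf) (by rwa [one_mul]) z hz, e])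
      exact (B a c).inj (h₁ _ _ (by omega) (by omega)) hz hv e'
  intro z hz hb
  obtain ⟨u, hu, e⟩ := h₂ (F 1 I (aff I s t) z)
    (hF.mono _ _ none (fun _ _ f _ => ⟨f, trivial, by simp⟩) ((A a c).ses.mapF z hz))
    (by rw [(A a c).comF z hz, hb, map_zero])
  obtain ⟨n, hn⟩ := hF.union (aff I s t) (fun n => some (a + n, c + n)) none
    (fun n i j f hf => ⟨_, mul_mem_pat (hom_xy s t) hf, by
      rw [← one_sub_mul]; exact Ideal.mul_mem_right _ _ hxy⟩)
    (fun i j f _ => by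
      obtain ⟨N, hN⟩ := exhaust I s t f
      exact ⟨N, hN (a + N + i) (c + N + (2 - j)) (by omega) (by omega)⟩) u hu
  exact key n a c ha hc z hz u hn e

end DevR

open DevR in
theorem dev : SDev := by
  intro k _ I
  induction I using (wellFounded_gt (α := Ideal (R0 k))).induction with
  | _ I ih =>
  intro hI
  by_cases hall : ∀ s t, xv k s * yv k t ∈ I
  · refine ⟨1, fun a c ha hc X _ _ b S F hF _ => ?_⟩
    rw [hF.zero I _ fun i j f hf => mem_of_all hall (mem_pat.1 hf) (by simp; omega)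
      (by simp; omega)]
    exact ex_bot
  push Not at hall
  obtain ⟨s, t, hst⟩ := hall
  obtain ⟨a₁, h₁⟩ := ih (I ⊔ Ideal.span {xv k s * yv k t}) (lt_of_le_of_ne le_sup_left fun e =>
    hst (e.ge (Ideal.mem_sup_right (Ideal.mem_span_singleton_self _)))) (bihom_sup hI (hom_xy s t))
  by_cases hr : col I (xv k s * yv k t) = I
  · exact ⟨a₁, fun a c ha hc X _ _ b S F hF h => regular hI hr hF
      (fun a c ha hc => h₁ a c ha hc X b S F hF fun J s t hJ => h J s t (le_sup_left.trans hJ))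
      (h _ s t (le_aff I s t) (x_aff I s t) (y_aff I s t)) ha hc⟩
  have hle : I ≤ col I (xv k s * yv k t) := fun f hf => I.mul_mem_left _ hf
  obtain ⟨a₂, h₂⟩ := ih _ (lt_of_le_of_ne hle (Ne.symm hr)) (bihom_col hI (hom_xy s t))
  refine ⟨a₁ + a₂ + 1, fun a c ha hc X _ _ b S F hF h => ?_⟩
  obtain ⟨a, rfl⟩ : ∃ a', a = a' + 1 := ⟨a - 1, by omega⟩
  obtain ⟨c, rfl⟩ : ∃ c', c = c' + 1 := ⟨c - 1, by omega⟩
  exact (hF.ses _ _ _ _ _ _ _ (ses_col hI (hom_xy s t) a c)).mid
    (h₂ a c (by omega) (by omega) X b S F hF fun J s t hJ => h J s t (hle.trans hJ))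
    (h₁ _ _ (by omega) (by omega) X b S F hF fun J s t hJ => h J s t (le_sup_left.trans hJ))

end Pool.Agent.MP_92f1cb_al.H14C
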