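import Pool.Agent.MP_92f1cb_al.H14C.Spec

set_option autoImplicit false

namespace Pool.Agent.MP_92f1cb_al.H14C

open MvPolynomial WeierstrassCurve WeierstrassCurve.Projective

namespace EllR

noncomputable section

section Ideal

variable {k : Type} [Field k]

/-- Evaluation at a point with both halves scaled by indeterminates. -/
def psi (v : Fin 3 ⊕ Fin 3 → k) : R0 k →ₐ[k] AddMonoidAlgebra k (ℕ × ℕ) :=
  aeval fun i => AddMonoidAlgebra.single (bw i) (v i)

theorem psi_monomial (v : Fin 3 ⊕ Fin 3 → k) (m : Fin 3 ⊕ Fin 3 →₀ ℕ) (a : k) :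
    psi v (monomial m a) =
      AddMonoidAlgebra.single (Finsupp.weight bw m) (aeval v (monomial m a)) := by
  have h : psi v (monomial m 1) =
      AddMonoidAlgebra.single (Finsupp.weight bw m) (aeval v (monomial m (1 : k))) := by
    induction m using Finsupp.induction_linear with
    | zero => rw [monomial_zero', C_1, map_one, map_one, map_zero]; rfl
    | add m₁ m₂ h₁ h₂ =>
      rw [← one_mul (1 : k), ← monomial_mul, map_mul, map_mul, h₁, h₂, map_add,
        AddMonoidAlgebra.single_mul_single]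
    | single i e =>
      rw [← X_pow_eq_monomial, map_pow, map_pow, psi, aeval_X, aeval_X,
        AddMonoidAlgebra.single_pow, Finsupp.weight_single]
  have e : (monomial m a : R0 k) = a • monomial m 1 := by rw [smul_monomial, smul_eq_mul, mul_one]
  rw [e, map_smul, map_smul, h, AddMonoidAlgebra.smul_single]

theorem coeff_psi (v : Fin 3 ⊕ Fin 3 → k) (f : R0 k) (d : ℕ × ℕ) :
    (psi v f).coeff d = aeval v (weightedHomogeneousComponent bw d f) := by
  induction f using MvPolynomial.induction_on' with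
  | monomial m a =>
    rw [psi_monomial, AddMonoidAlgebra.coeff_single, Finsupp.single_apply,
      weightedHomogeneousComponent_of_mem (isWeightedHomogeneous_monomial bw m a rfl)]
    by_cases h : d = Finsupp.weight bw m
    · rw [if_pos h, if_pos h.symm]
    · rw [if_neg h, if_neg (Ne.symm h), map_zero]
  | add f g hf hg => rw [map_add, map_add, map_add, AddMonoidAlgebra.coeff_add,
      Finsupp.add_apply, hf, hg]

theorem psi_eq_zero {v : Fin 3 ⊕ Fin 3 → k} {f : R0 k} :
    psi v f = 0 ↔ ∀ d, aeval v (weightedHomogeneousComponent bw d f) = 0 := by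
  rw [← AddMonoidAlgebra.coeff_eq_zero, Finsupp.ext_iff]
  exact forall_congr' fun d => by rw [coeff_psi]; rfl

theorem aeval_of_psi {v : Fin 3 ⊕ Fin 3 → k} {f : R0 k} (h : psi v f = 0) : aeval v f = 0 := by
  have e : (AddMonoidAlgebra.lift k k (ℕ × ℕ) 1).comp (psi v) = aeval v :=
    algHom_ext fun i => by simp [psi]
  rw [← e, AlgHom.comp_apply, h, map_zero]

/-- The bihomogeneous ideal of a sequence of points. -/
def II (v : ℕ → Fin 3 ⊕ Fin 3 → k) : Ideal (R0 k) := ⨅ n, RingHom.ker (psi (v n))

theorem mem_II {v : ℕ → Fin 3 ⊕ Fin 3 → k} {f : R0 k} : f ∈ II v ↔ ∀ n, psi (v n) f = 0 :=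
  Ideal.mem_iInf

theorem bihom_II (v : ℕ → Fin 3 ⊕ Fin 3 → k) : Bihom (II v) := fun f hf d =>
  mem_II.2 fun n => psi_eq_zero.2 fun d' => by
    rw [weightedHomogeneousComponent_of_mem (weightedHomogeneousComponent_mem bw f d)]
    split_ifs
    · exact psi_eq_zero.1 (mem_II.1 hf n) d
    · exact map_zero _

end Ideal

section Equations

variable {B A K : Type} [CommRing B] [CommRing A] [CommRing K]

/-- Proportional vectors. -/
def Par (u v : Fin 3 → B) : Prop := ∀ i j, u i * v j = u j * v i

/-- The equations of the graph of a translation. -/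
def G (W : Projective B) (a b c x y : Fin 3 → B) : Prop :=
  W.Equation x ∧ W.Equation y ∧ Par y (W.addXYZ x a) ∧ Par x (W.addXYZ y b) ∧
    Par (W.addXYZ x c) (W.addXYZ y a)

theorem par_comp (f : B →+* A) (u v : Fin 3 → B) :
    Par (f ∘ u) (f ∘ v) ↔ ∀ i j, f (u i * v j - u j * v i) = 0 := by
  simp only [Par, Function.comp_apply, map_sub, map_mul, sub_eq_zero]

theorem eq_comp (W : Projective B) (f : B →+* A) (x : Fin 3 → B) :
    (W.map f).Equation (f ∘ x) ↔ f (eval x W.polynomial) = 0 := by
  rw [Equation, map_polynomial, eval_map, ← eval₂_comp]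

theorem G.transfer {ι : Type} {W : Projective B} {a b c x y : Fin 3 → B} (ψ : ι → B →+* A)
    (φ : B →+* K) (h : ∀ g, (∀ n, ψ n g = 0) → φ g = 0)
    (H : ∀ n, G (W.map (ψ n)) (ψ n ∘ a) (ψ n ∘ b) (ψ n ∘ c) (ψ n ∘ x) (ψ n ∘ y)) :
    G (W.map φ) (φ ∘ a) (φ ∘ b) (φ ∘ c) (φ ∘ x) (φ ∘ y) := by
  simp only [G, map_addXYZ, par_comp, eq_comp] at H ⊢
  exact ⟨h _ fun n => (H n).1, h _ fun n => (H n).2.1, fun i j => h _ fun n => (H n).2.2.1 i j,
    fun i j => h _ fun n => (H n).2.2.2.1 i j, fun i j => h _ fun n => (H n).2.2.2.2 i j⟩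

theorem G.map {W : Projective B} {a b c x y : Fin 3 → B} (φ : B →+* K) (H : G W a b c x y) :
    G (W.map φ) (φ ∘ a) (φ ∘ b) (φ ∘ c) (φ ∘ x) (φ ∘ y) :=
  G.transfer (fun _ : Unit => RingHom.id B) φ
    (fun g hg => by rw [show g = 0 from hg (), map_zero]) fun _ => H

theorem Par.smul {u v : Fin 3 → B} (h : Par u v) (s t : B) : Par (s • u) (t • v) := fun i j => by
  simp only [Pi.smul_apply, smul_eq_mul]
  linear_combination s * t * h i j

theorem eq_smul {W : Projective B} {x : Fin 3 → B} (h : W.Equation x) (s : B) :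
    W.Equation (s • x) := by
  rw [equation_iff] at h ⊢
  simp only [Pi.smul_apply, smul_eq_mul]
  linear_combination s ^ 3 * h

theorem add_smul_left (W : Projective B) (x a : Fin 3 → B) (s : B) :
    W.addXYZ (s • x) a = s ^ 2 • W.addXYZ x a := by
  rw [← mul_one s, ← addXYZ_smul, mul_one, one_smul]

theorem G.smul {W : Projective B} {a b c x y : Fin 3 → B} (H : G W a b c x y) (s t : B) :
    G W a b c (s • x) (t • y) := by
  simp only [G, add_smul_left]
  exact ⟨eq_smul H.1 s, eq_smul H.2.1 t, H.2.2.1.smul _ _, H.2.2.2.1.smul _ _,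
    H.2.2.2.2.smul _ _⟩

end Equations

section Points

variable {K : Type} [Field K] [DecidableEq K] {W : Projective K}

/-- The vector `u` represents the point `A`. -/
def Rep (W : Projective K) (u : Fin 3 → K) (A : W.toAffine.Point) : Prop :=
  W.Nonsingular u ∧ Point.toAffine W u = A

omit [DecidableEq K] in
theorem Rep.ne {u : Fin 3 → K} {A : W.toAffine.Point} (h : Rep W u A) : u ≠ 0 := by
  rintro rfl
  exact Y_ne_zero_of_Z_eq_zero h.1 rfl rfl

theorem Rep.equiv {u v : Fin 3 → K} {A : W.toAffine.Point} (h : Rep W u A) (h' : Rep W v A) :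
    u ≈ v := by
  have e : (⟨(nonsingularLift_iff u).2 h.1⟩ : W.Point) = ⟨(nonsingularLift_iff v).2 h'.1⟩ :=
    (Point.toAffineAddEquiv W).injective (h.2.trans h'.2.symm)
  exact Quotient.eq.1 (congrArg Point.point e)

omit [DecidableEq K] in
theorem Rep.eq_of_par {u v : Fin 3 → K} {A A' : W.toAffine.Point} (h : Rep W u A)
    (h' : Rep W v A') (hp : Par u v) : A = A' := by
  obtain ⟨j, hj⟩ := Function.ne_iff.1 h'.ne
  have hj' : v j ≠ 0 := hj
  have e : u = (u j / v j) • v := funext fun i => by
    rw [Pi.smul_apply, smul_eq_mul, div_mul_eq_mul_div, ← hp i j, mul_div_cancel_right₀ _ hj']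
  have h0 : u j / v j ≠ 0 := fun h0 => h.ne (by rw [e, h0, zero_smul])
  rw [← h.2, ← h'.2, e, Point.toAffine_smul _ h0.isUnit]

theorem Rep.par {u v : Fin 3 → K} {A : W.toAffine.Point} (h : Rep W u A) (h' : Rep W v A) :
    Par u v := by
  obtain ⟨c, rfl⟩ := h.equiv h'
  intro i j
  simp only [Pi.smul_apply, Units.smul_def, smul_eq_mul]
  ring

theorem Rep.add {u v : Fin 3 → K} {A A' : W.toAffine.Point} (h : Rep W u A) (h' : Rep W v A')
    (hn : A ≠ A') : Rep W (W.addXYZ u v) (A + A') := by
  have e : ¬u ≈ v := fun e => hn (h.2.symm.trans ((Point.toAffine_of_equiv e).trans h'.2))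
  rw [← add_of_not_equiv e]
  exact ⟨nonsingular_add h.1 h'.1, by rw [Point.toAffine_add h.1 h'.1, h.2, h'.2]⟩

theorem Rep.add_self {u v : Fin 3 → K} {A : W.toAffine.Point} (h : Rep W u A) (h' : Rep W v A) :
    W.addXYZ u v = 0 := by
  obtain ⟨c, rfl⟩ := h.equiv h'
  change W.addXYZ ((c : K) • v) v = 0
  rw [add_smul_left, addXYZ_self]
  funext i
  fin_cases i <;> simp

omit [DecidableEq K] in
theorem par_zero_right (u : Fin 3 → K) : Par u 0 := fun i j => by simp

omit [DecidableEq K] in
theorem par_zero_left (u : Fin 3 → K) : Par 0 u := fun i j => by simp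

theorem G.of_add {a b c x y : Fin 3 → K} {P X : W.toAffine.Point} (ha : Rep W a P)
    (hb : Rep W b (-P)) (hc : Rep W c (P + P)) (hx : Rep W x X) (hy : Rep W y (X + P)) :
    G W a b c x y := by
  refine ⟨hx.1.1, hy.1.1, ?_, ?_, ?_⟩
  · by_cases h : X = P
    · rw [hx.add_self (h ▸ ha)]; exact par_zero_right _
    · exact hy.par (hx.add ha h)
  · by_cases h : X + P = -P
    · rw [hy.add_self (h ▸ hb)]; exact par_zero_right _
    · have := hy.add hb h
      rw [add_neg_cancel_right] at this
      exact hx.par this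
  · by_cases h : X = P + P
    · rw [hx.add_self (h ▸ hc)]; exact par_zero_left _
    · by_cases h' : X + P = P
      · rw [hy.add_self (h'.symm ▸ ha)]; exact par_zero_right _
      · have := hy.add ha h'
        rw [add_assoc] at this
        exact (hx.add hc h).par this

theorem G.eq_add {a b c x y : Fin 3 → K} {P X Y : W.toAffine.Point}
    (hP : ∀ n : ℕ, 0 < n → n • P ≠ 0) (ha : Rep W a P) (hb : Rep W b (-P))
    (hc : Rep W c (P + P)) (hx : Rep W x X) (hy : Rep W y Y) (H : G W a b c x y) :
    Y = X + P := by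
  by_cases h : X = P
  swap
  · exact hy.eq_of_par (hx.add ha h) H.2.2.1
  by_cases h' : Y = -P
  swap
  · rw [hx.eq_of_par (hy.add hb h') H.2.2.2.1, neg_add_cancel_right]
  subst h h'
  have h1 : X ≠ X + X := fun e => hP 1 one_pos (by rw [one_nsmul]; exact left_eq_add.1 e)
  have h2 : -X ≠ X := fun e => hP 2 two_pos (by rw [two_nsmul]; exact neg_eq_iff_add_eq_zero.1 e)
  have := (hx.add hc h1).eq_of_par (hy.add ha h2) H.2.2.2.2
  exact (hP 3 three_pos (by rw [three_nsmul, this, neg_add_cancel])).elim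

omit [DecidableEq K] in
theorem rep_of_eq [W.IsElliptic] {x : Fin 3 → K} (h : W.Equation x) (h0 : x ≠ 0) :
    Rep W x (Point.toAffine W x) := by
  refine ⟨?_, rfl⟩
  by_cases hz : x 2 = 0
  · have hx := X_eq_zero_of_Z_eq_zero h hz
    have hy : x 1 ≠ 0 := fun hy => h0 (funext fun i => by fin_cases i <;> assumption)
    exact (nonsingular_of_Z_eq_zero hz).2 ⟨h, Or.inr (by simpa [hx] using hy)⟩
  · exact (nonsingular_of_Z_ne_zero hz).2
      (Affine.equation_iff_nonsingular.1 ((equation_of_Z_ne_zero hz).1 h))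

/-- The standard representative of a point. -/
def rep : W.toAffine.Point → Fin 3 → K
  | .zero => ![0, 1, 0]
  | .some x y _ => ![x, y, 1]

omit [DecidableEq K] in
theorem rep_rep (A : W.toAffine.Point) : Rep W (rep A) A := by
  cases A with
  | zero => exact ⟨nonsingular_zero, Point.toAffine_zero⟩
  | some x y h => exact ⟨(nonsingular_some x y).2 h,
      Point.toAffine_some ((nonsingular_some x y).2 h)⟩

end Points

theorem rep_map {k K : Type} [Field k] [DecidableEq k] [Field K] [DecidableEq K] [Algebra k K]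
    (W : Projective k) (A : (W.baseChange k).toAffine.Point) :
    algebraMap k K ∘ rep A =
      rep (W := W.baseChange K) (Affine.Point.baseChange (W' := W.toAffine) k K A) := by
  cases A with
  | zero =>
    change _ ∘ ![0, 1, 0] = ![0, 1, 0]
    rw [comp_fin3, map_zero, map_one]
  | some x y h =>
    change _ ∘ ![x, y, 1] = ![algebraMap k K x, algebraMap k K y, 1]
    rw [comp_fin3, map_one]

end

end EllR

open EllR

theorem ell : SEll := by
  classical
  rintro k _ _ ⟨W, _, P₀, hP₀⟩
  obtain ⟨P, hP⟩ : ∃ P : (W.toProjective.baseChange k).toAffine.Point,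
      ∀ n : ℕ, 0 < n → n • P ≠ 0 := ⟨P₀, hP₀⟩
  let v : ℕ → Fin 3 ⊕ Fin 3 → k := fun n => Sum.elim (rep (n • P)) (rep ((n + 1) • P))
  refine ⟨II v, bihom_II v, ?_, fun n => rep (n • P), fun n => (rep_rep _).ne,
    fun n g hg => aeval_of_psi (mem_II.1 hg n)⟩
  intro K _ _ m x y hx hy hI hc
  let β := Affine.Point.baseChange (W' := W.toProjective.toAffine) k K
  have hβ : ∀ n : ℕ, 0 < n → n • β P ≠ 0 := fun n hn e => hP n hn
    (Affine.Point.map_injective (Algebra.ofId k K) (by
      change β _ = β _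
      rw [map_nsmul, e, map_zero]))
  have hcomp : ∀ {B : Type} [CommRing B] [Algebra k B] (f : R0 k →ₐ[k] B) (u : Fin 3 → k),
      (f : R0 k →+* B) ∘ algebraMap k (R0 k) ∘ u = algebraMap k B ∘ u :=
    fun f u => funext fun i => f.commutes (u i)
  have hG : ∀ i, G (W.toProjective.baseChange K) (rep (β P)) (rep (β (-P))) (rep (β (P + P)))
      (x i) (y i) := fun i => by
    have h := G.transfer (W := W.toProjective.baseChange (R0 k))
      (a := algebraMap k _ ∘ rep P) (b := algebraMap k _ ∘ rep (-P))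
      (c := algebraMap k _ ∘ rep (P + P)) (x := xv k) (y := yv k)
      (fun n => (psi (v n) : R0 k →+* AddMonoidAlgebra k (ℕ × ℕ)))
      ((aeval (Sum.elim (x i) (y i)) : R0 k →ₐ[k] K) : R0 k →+* K)
      (fun g hg => hI i g (mem_II.2 hg)) fun n => by
        have h1 := ((G.of_add (rep_rep P) (rep_rep (-P)) (rep_rep (P + P)) (rep_rep (n • P))
          (succ_nsmul P n ▸ rep_rep ((n + 1) • P))).map
            (Algebra.ofId k (AddMonoidAlgebra k (ℕ × ℕ)) :
              k →+* AddMonoidAlgebra k (ℕ × ℕ))).smul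
          (AddMonoidAlgebra.single (1, 0) 1) (AddMonoidAlgebra.single (0, 1) 1)
        rw [Projective.map_baseChange] at h1
        rw [Projective.map_baseChange, hcomp, hcomp, hcomp]
        convert h1 using 1
        · rfl
        · rfl
        · rfl
        · funext s
          simp [psi, xv, bw, v, AddMonoidAlgebra.single_mul_single]
        · funext s
          simp [psi, yv, bw, v, AddMonoidAlgebra.single_mul_single, succ_nsmul]
    rw [Projective.map_baseChange, hcomp, hcomp, hcomp, rep_map, rep_map, rep_map] at h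
    convert h using 1
    · funext s; simp [xv]
    · funext s; simp [yv]
  have : (W.toProjective.baseChange K).IsElliptic :=
    inferInstanceAs (W.map (algebraMap k K)).IsElliptic
  let T := Point.toAffine (W.toProjective.baseChange K)
  have hT : ∀ i, T (x (i + 1)) = T (x i) + β P := fun i => by
    obtain ⟨c, e⟩ := hc i
    have h0 : c ≠ 0 := fun h0 => hy i (by rw [e, h0, zero_smul])
    have h := (hG i).eq_add hβ (rep_rep _) (map_neg β P ▸ rep_rep _) (map_add β P P ▸ rep_rep _)
      (rep_of_eq (hG i).1 (hx i)) (rep_of_eq (hG i).2.1 (hy i))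
    rw [e, Point.toAffine_smul _ h0.isUnit] at h
    exact h
  have hs : ∑ i, T (x (i + 1)) = ∑ i, T (x i) :=
    Equiv.sum_comp (Equiv.addRight (1 : Fin (m + 1))) fun i => T (x i)
  simp only [hT, Finset.sum_add_distrib, Finset.sum_const, Finset.card_univ, Fintype.card_fin,
    add_eq_left] at hs
  exact hβ _ m.succ_pos hs

end Pool.Agent.MP_92f1cb_al.H14C
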