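import Pool.Agent.MP_92f1cb_al.H14C.Base2

set_option autoImplicit false

namespace Pool.Agent.MP_92f1cb_al.H14C

open Pool.Agent.MP_92f1cb_al.H14 Module MvPolynomial

namespace FamRR

variable {k A : Type} [Field k] [Ring A] [Algebra k A] (M : Model k A)

theorem mul_mem {h : R0 k} {I₁ I₂ : Ideal (R0 k)} (H : ∀ f ∈ I₁, h * f ∈ I₂) :
    ∀ f ∈ I₁.comap (eS k), cS k h * f ∈ I₂.comap (eS k) := fun f hf => by
  rw [Ideal.mem_comap, map_mul, cS_apply, eS_C]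
  exact H _ hf

theorem mem_of {I : Ideal (R0 k)} {d : Option (ℕ × ℕ)} {y : A} (hy : y ∈ M.YR I d) :
    ∃ f : Fin 3 → Fin 3 → R0 k, (∀ i j, f i j ∈ pat k d i j) ∧
      ((∀ i j, f i j ∈ I) → y = 0) ∧ ∀ d', (∀ i j, ∃ g ∈ pat k d' i j, f i j - g ∈ I) →
        y ∈ M.YR I d' := by
  obtain ⟨F, hF, rfl⟩ := hy
  choose f h1 h2 using hF
  refine ⟨f, h1, fun h => ?_, fun d' h => ?_⟩
  · rw [← map_zero M.inM]
    refine congrArg _ (Matrix.ext fun i j => emb_eq_zero.2 ?_)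
    rw [← h2, Ideal.mem_comap]
    exact (eS_C (f i j)).symm ▸ h i j
  · choose g h3 h4 using h
    refine ⟨Matrix.of fun i j => cS k (g i j), fun i j => ⟨g i j, h3 i j, rfl⟩,
      congrArg _ (Matrix.ext fun i j => emb_eq_iff.2 ?_)⟩
    rw [← h2, Ideal.mem_comap, map_sub]
    change eS k (C (f i j)) - eS k (C (g i j)) ∈ I
    rw [eS_C, eS_C]
    exact h4 i j

theorem YR_le {I : Ideal (R0 k)} {d d' : Option (ℕ × ℕ)}
    (h : ∀ i j, ∀ f ∈ pat k d i j, ∃ g ∈ pat k d' i j, f - g ∈ I) : M.YR I d ≤ M.YR I d' :=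
  fun _ hy => by
    obtain ⟨f, h1, -, h2⟩ := mem_of M hy
    exact h2 d' fun i j => h i j _ (h1 i j)

theorem tr_tr {h h' h'' : R0 k} {I₁ I₂ I₃ : Ideal (R0 k)} {d : Option (ℕ × ℕ)}
    (H₁ : ∀ f ∈ I₁, h * f ∈ I₂) (H₂ : ∀ f ∈ I₂, h' * f ∈ I₃) (H₃ : h'' - h' * h ∈ I₃) {y : A}
    (hy : y ∈ M.YR I₁ d) :
    M.tr (cS k h') (I₂.comap (eS k)) (I₃.comap (eS k))
      (M.tr (cS k h) (I₁.comap (eS k)) (I₂.comap (eS k)) y) =
      M.tr (cS k h'') (I₁.comap (eS k)) (I₃.comap (eS k)) y := by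
  have H₄ : ∀ f ∈ I₁, h'' * f ∈ I₃ := fun f hf => by
    have : h'' * f = (h'' - h' * h) * f + h' * (h * f) := by ring
    rw [this]
    exact I₃.add_mem (I₃.mul_mem_right _ H₃) (H₂ _ (H₁ f hf))
  obtain ⟨F, -, rfl⟩ := hy
  rw [M.tr_emb (mul_mem H₁), M.tr_emb (mul_mem H₂), M.tr_emb (mul_mem H₄)]
  refine congrArg _ (Matrix.ext fun i j => (emb_eq_iff.2 ?_).symm)
  simp only [Matrix.smul_apply, smul_eq_mul]
  rw [← mul_assoc, ← sub_mul, ← map_mul, ← map_sub]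
  refine Ideal.mul_mem_right _ _ ?_
  rw [Ideal.mem_comap, cS_apply, eS_C]
  exact H₃

end FamRR

open FamRR in
theorem fam (hM : SMod) : SFam := by
  intro k A B _ _ _ β M Ys hYs
  obtain ⟨-, h2, h3, h4⟩ := hM k A M
  have hm : ∀ (I : Ideal (R0 k)) (d d' : Option (ℕ × ℕ)),
      (∀ i j, ∀ f ∈ pat k d i j, ∃ g ∈ pat k d' i j, f - g ∈ I) →
      SW β M.σ (M.YR I d :: Ys) ≤ SW β M.σ (M.YR I d' :: Ys) := fun I d d' h =>
    SW_mono (List.Forall₂.cons (YR_le M h) (List.forall₂_refl Ys))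
  refine ⟨fun h I₁ d₁ I₂ d₂ I₃ d₃ H => ?_, fun h h' h'' I₁ I₂ I₃ d H₁ H₂ H₃ x hx => ?_,
    fun I d h => ?_, hm, fun I d d' H₁ H₂ x hx => ?_⟩
  · refine ses k A B β M.σ M.split _ _ _ _ _ Ys (h2 _ _) (h2 _ _) (h2 _ _) hYs (M.bmap_tr _ _ _)
      (M.bmap_tr _ _ _) ?_
    rw [map_one]
    exact h3 _ _ _ _ _ _ _ (h4 _ _ _ _ _ _ _ H)
  · exact (Hd_Hd β _ _ x).trans (Hd_congr (fun y hy => tr_tr M H₁ H₂ H₃ hy) hx)
  · refine eq_bot_iff.2 fun x hx => SW_map LinearMap.id ⊥ (fun y hy l _ => ?_) hx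
    obtain ⟨f, a1, a2, -⟩ := mem_of M hy
    rw [a2 fun i j => h i j _ (a1 i j)]
    simp
  · have a1 : ∀ n m, n ≤ m → ∀ i j, ∀ f ∈ pat k (d n) i j, ∃ g ∈ pat k (d m) i j, f - g ∈ I := by
      intro n m hnm
      induction hnm with
      | refl => exact fun i j f hf => ⟨f, hf, by simp⟩
      | step _ ih =>
        intro i j f hf
        obtain ⟨g, b1, b2⟩ := ih i j f hf
        obtain ⟨g', b3, b4⟩ := H₁ _ i j g b1
        exact ⟨g', b3, by simpa using I.add_mem b2 b4⟩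
    have a2 : Monotone fun n => SW β M.σ (M.YR I (d n) :: Ys) :=
      fun n m hnm => hm I _ _ (a1 n m hnm)
    refine (Submodule.mem_iSup_of_directed _ a2.directed_le).1
      (SW_map LinearMap.id _ (fun y hy l hl => ?_) hx)
    obtain ⟨f, b1, -, b2⟩ := mem_of M hy
    choose n g b3 b4 using fun i j => H₂ i j _ (b1 i j)
    refine Submodule.mem_iSup_of_mem (Finset.univ.sup fun x : Fin 3 × Fin 3 => n x.1 x.2)
      (ww_mem_SW (b2 _ fun i j => ?_) hl)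
    obtain ⟨g', b5, b6⟩ := a1 _ _ (Finset.le_sup (f := fun x : Fin 3 × Fin 3 => n x.1 x.2)
      (Finset.mem_univ (i, j))) i j _ (b3 i j)
    exact ⟨g', b5, by simpa using I.add_mem (b4 i j) b6⟩

end Pool.Agent.MP_92f1cb_al.H14C
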