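import Pool.Agent.MP_92f1cb_al.H14C.Spec

set_option autoImplicit false

namespace Pool.Agent.MP_92f1cb_al.H14C

open Pool.Agent.MP_92f1cb_al.H14 Module MvPolynomial

namespace FinR

variable {k : Type} [Field k]

theorem fin_hom {σ : Type} [Finite σ] (n : ℕ) :
    FiniteDimensional k (homogeneousSubmodule σ k n) :=
  Module.Finite.iff_fg.2 (homogeneousSubmodule_fg ..)

theorem fin_bw (d : ℕ × ℕ) : FiniteDimensional k (weightedHomogeneousSubmodule k bw d) := by
  have := fin_hom (k := k) (σ := Fin 3 ⊕ Fin 3) (d.1 + d.2)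
  refine Submodule.finiteDimensional_of_le (S₂ := homogeneousSubmodule _ k (d.1 + d.2)) ?_
  intro f hf m hm
  rw [← hf hm]
  simp [Finsupp.weight_apply, Finsupp.sum_fintype, Fintype.sum_sum_type, bw, Prod.fst_sum,
    Prod.snd_sum]

theorem fin_L : FiniteDimensional k (Lalg k) := by
  have := fun n => fin_hom (k := k) (σ := Fin 3) n
  let F : Lalg k →ₗ[k] ∀ i j : Fin 3, homogeneousSubmodule (Fin 3) k ((i : ℕ) - j) :=
    { toFun := fun l i j => ⟨l.1 i j, (le_or_gt j i).elim (l.2 i j).1 fun h => by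
        rw [(l.2 i j).2 h]; exact zero_mem _⟩
      map_add' := fun _ _ => rfl
      map_smul' := fun _ _ => rfl }
  refine FiniteDimensional.of_injective F fun l l' h => Subtype.ext (Matrix.ext fun i j => ?_)
  exact congrArg Subtype.val (congrFun (congrFun h i) j)

variable {A : Type} [Ring A] [Algebra k A] (M : Model k A)

theorem fin_Y (I : Ideal (SS k)) (D : Fin 3 → Fin 3 → Submodule k (SS k))
    (hD : ∀ i j, FiniteDimensional k (D i j)) : FiniteDimensional k (M.YY I D) := by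
  let F : (∀ i j : Fin 3, D i j) →ₗ[k] Matrix (Fin 3) (Fin 3) (SS k) :=
    { toFun := fun f => Matrix.of fun i j => (f i j).1
      map_add' := fun _ _ => rfl
      map_smul' := fun _ _ => rfl }
  refine Submodule.finiteDimensional_of_le (S₂ := LinearMap.range
    (M.inM ∘ₗ ((emb I).restrictScalars k).mapMatrix ∘ₗ F)) ?_
  rintro _ ⟨f, hf, rfl⟩
  exact ⟨fun i j => ⟨f i j, hf i j⟩, rfl⟩

theorem prM_mul (x y : A) :
    M.prM (x * y) = lam k (M.prL x) * M.prM y + M.prM x * rgt k (M.prL y) := by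
  conv_lhs => rw [← M.decomp y, mul_add, M.mul_inM, ← M.decomp x, add_mul, ← map_mul, M.M_mul_L]
  simp only [map_add, M.prM_inL, M.prM_inM, M.prL_inL, M.prL_inM, zero_add, add_zero]
  exact add_comm _ _

/-- The subalgebra attached to an ideal. -/
def sub {σ : A →ₐ[k] A} {Y : Submodule k A} (hY : Bim σ Y) : Subalgebra k A where
  carrier := {x | x - σ x ∈ Y}
  mul_mem' := fun {x y} hx hy => by
    have := Y.add_mem ((hY _ hx).2 y).2 ((hY _ hy).2 (σ x)).1
    change x * y - σ (x * y) ∈ Y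
    rwa [sub_mul, mul_sub, sub_add_sub_cancel, ← map_mul] at this
  add_mem' := fun {x y} hx hy => by
    change x + y - σ (x + y) ∈ Y
    rw [map_add, add_sub_add_comm]
    exact Y.add_mem hx hy
  algebraMap_mem' c := by
    change _ - σ _ ∈ Y
    rw [σ.commutes, sub_self]
    exact Y.zero_mem

theorem mem_sub {σ : A →ₐ[k] A} {Y : Submodule k A} (hY : Bim σ Y) {x : A} :
    x ∈ sub hY ↔ x - σ x ∈ Y := Iff.rfl

theorem fix_mem {σ : A →ₐ[k] A} {Y : Submodule k A} (hY : Bim σ Y) {x : A} (h : σ x = x) :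
    x ∈ sub hY := by
  change _ - σ _ ∈ Y
  rw [h, sub_self]
  exact Y.zero_mem

/-- Evaluation on the product of all quotients. -/
noncomputable def ev (I : Ideal (R0 k)) (v : Fin 3 ⊕ Fin 3 → k) (h : ∀ g ∈ I, aeval v g = 0) :
    UU k →ₐ[k] k :=
  (Ideal.Quotient.liftₐ (I.comap (eS k)) ((aeval v).comp (eS k)) fun _ hg => h _ hg).comp
    (Pi.evalAlgHom k (fun J : Ideal (SS k) => SS k ⧸ J) (I.comap (eS k)))

theorem ev_alg (I : Ideal (R0 k)) (v : Fin 3 ⊕ Fin 3 → k) (h : ∀ g ∈ I, aeval v g = 0)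
    (f : SS k) : ev I v h (algebraMap (SS k) (UU k) f) = aeval v (eS k f) := rfl

theorem ev_emb (I : Ideal (R0 k)) (v : Fin 3 ⊕ Fin 3 → k) (h : ∀ g ∈ I, aeval v g = 0)
    (f : SS k) : ev I v h (emb (I.comap (eS k)) f) = aeval v (eS k f) := by
  change Ideal.Quotient.liftₐ (I.comap (eS k)) ((aeval v).comp (eS k)) (fun _ hg => h _ hg)
    (emb (I.comap (eS k)) f (I.comap (eS k))) = _
  rw [emb_self]
  rfl

theorem ev_z (x y : Fin 3 → k) (f : KX k) :
    aeval (Sum.elim x y) (eS k (zS k f)) = aeval x f := by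
  have : ((aeval (Sum.elim x y)).comp (eS k)).comp (zS k) = (aeval x : KX k →ₐ[k] k) := by
    ext i
    simp [zS, eS_X, xv]
  exact DFunLike.congr_fun this f

theorem ev_y (x y : Fin 3 → k) (f : KX k) :
    aeval (Sum.elim x y) (eS k (yS k f)) = aeval y f := by
  have : ((aeval (Sum.elim x y)).comp (eS k)).comp (yS k) = (aeval y : KX k →ₐ[k] k) := by
    ext i
    simp [yS, eS_C, yv]
  exact DFunLike.congr_fun this f

theorem mono_mem (a c : ℕ) (s t : Fin 3) :
    xv k s ^ a * yv k t ^ c ∈ weightedHomogeneousSubmodule k bw (a, c) := by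
  have := ((isWeightedHomogeneous_X k bw (Sum.inl s)).pow a).mul
    ((isWeightedHomogeneous_X k bw (Sum.inr t)).pow c)
  simpa [bw, xv, yv] using this

end FinR

open FinR in
theorem fin (h1 : SGld) (h2 : SGrd) (h3 : SIdem) : SFin := by
  intro k A _ _ _ M I a ⟨p, hp, hI⟩ hY
  obtain ⟨e, he⟩ := h3 k A M
  let σ₀ : sub hY →ₐ[k] sub hY :=
    (M.σ.comp (sub hY).val).codRestrict (sub hY) fun x => fix_mem hY (M.split.idem _)
  let e₀ : Fin 3 → sub hY := fun i => ⟨e i, fix_mem hY (he.fix i)⟩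
  obtain ⟨𝒜, _, h𝒜⟩ := h2 k (sub hY) σ₀ e₀
    ⟨fun x => Subtype.ext (M.split.idem _), fun x y hx hy =>
      Subtype.ext (M.split.sq _ _ (congrArg Subtype.val hx) (congrArg Subtype.val hy))⟩
    ⟨(CompleteOrthogonalIdempotents.map_injective_iff (f := (sub hY).val.toRingHom)
      Subtype.val_injective).1 he.coi, fun i h => he.ne i (congrArg Subtype.val h),
      fun i => Subtype.ext (he.fix i),
      fun x hx i j h => Subtype.ext (he.up x (congrArg Subtype.val hx) i j h),
      fun x hx i => (he.diag x (congrArg Subtype.val hx) i).imp fun _ h => Subtype.ext h⟩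
  have fd : FiniteDimensional k (sub hY) := by
    have := fin_L (k := k)
    have : FiniteDimensional k (M.YR I (some (a, a))) := fin_Y M _ _ fun i j =>
      have : FiniteDimensional k (pat k (some (a, a)) i j) := fin_bw _
      Module.Finite.map _ _
    refine FiniteDimensional.of_injective ((M.prL.comp (sub hY).val).toLinearMap.prod
      (((LinearMap.id - M.σ.toLinearMap) ∘ₗ (sub hY).val.toLinearMap).codRestrict
        (M.YR I (some (a, a))) fun x => (mem_sub hY).1 x.2)) fun x y h => Subtype.ext ?_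
    have e1 : M.prL x = M.prL y := congrArg Prod.fst h
    have e2 : x.1 - M.σ x = y.1 - M.σ y := congrArg (fun z => z.2.1) h
    rwa [M.σ_apply, M.σ_apply, e1, sub_left_inj] at e2
  refine ⟨sub hY, inferInstance, inferInstance, fd, (sub hY).val, 𝒜, inferInstance, e₀,
    Subtype.val_injective, fun x => ⟨fun ⟨y, h⟩ => h ▸ y.2, fun h => ⟨⟨x, h⟩, rfl⟩⟩, h𝒜, ?_⟩
  choose s hs using fun n => Function.ne_iff.1 (hp n)
  let g : ℕ → Matrix (Fin 3) (Fin 3) (SS k) := fun n =>
    Matrix.single 0 0 (C (xv k (s n) ^ a * yv k (s (n + 1)) ^ (a + 2)))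
  have hg : ∀ n, M.inM ((g n).map (emb (I.comap (eS k)))) ∈ M.YR I (some (a, a)) := fun n =>
    ⟨g n, fun i j => by
      by_cases h : 0 = i ∧ 0 = j
      · obtain ⟨rfl, rfl⟩ := h
        exact ⟨_, mono_mem a (a + 2) _ _, (Matrix.single_apply_same _ _ _).symm⟩
      · rw [show g n i j = 0 from Matrix.single_apply_of_ne _ _ _ _ _ h]
        exact zero_mem _, rfl⟩
  refine h1 k (sub hY) (Fin 3 → k)
    (fun n => Matrix.toLinAlgEquiv'.toAlgHom.comp ((aeval (p n) : KX k →ₐ[k] k).mapMatrix.comp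
      ((Lalg k).val.comp (M.prL.comp (sub hY).val))))
    (fun n => Matrix.toLinAlgEquiv'.toLinearMap ∘ₗ (ev I _ (hI n)).toLinearMap.mapMatrix ∘ₗ
      M.prM ∘ₗ (sub hY).val.toLinearMap)
    (fun n => ⟨M.inM ((g n).map (emb (I.comap (eS k)))), by
      rw [mem_sub, M.σ_inM, sub_zero]
      exact hg n⟩) (Pi.single 0 1) (fun n x y => ?_) (fun i j => Subtype.ext (M.M_mul_M _ _))
    (fun n i => ?_) (by simp) fun n => ⟨p n (s n) ^ a * p (n + 1) (s (n + 1)) ^ (a + 2),
      mul_ne_zero (pow_ne_zero _ (hs _)) (pow_ne_zero _ (hs _)), ?_⟩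
  · have e1 : ∀ l : Lalg k, (ev I _ (hI n)).mapMatrix (lam k l) =
        (aeval (p n) : KX k →ₐ[k] k).mapMatrix l.1 := fun l => Matrix.ext fun i j => ev_z _ _ _
    have e2 : ∀ l : Lalg k, (ev I _ (hI n)).mapMatrix (rgt k l) =
        (aeval (p (n + 1)) : KX k →ₐ[k] k).mapMatrix l.1 := fun l =>
      Matrix.ext fun i j => ev_y _ _ _
    change Matrix.toLinAlgEquiv' ((ev I _ (hI n)).mapMatrix (M.prM (x.1 * y.1))) = _
    rw [prM_mul, map_add, map_mul, map_mul, e1, e2, map_add, map_mul, map_mul]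
    rfl
  · change Matrix.toLinAlgEquiv' ((aeval (p n) : KX k →ₐ[k] k).mapMatrix
      ((Lalg k).val (M.prL (M.inM _)))) = 0
    rw [M.prL_inM, map_zero, map_zero, map_zero]
  · change Matrix.toLinAlgEquiv' ((ev I _ (hI n)).mapMatrix (M.prM (M.inM _))) _ = _
    rw [M.prM_inM, Matrix.toLinAlgEquiv'_apply, Matrix.mulVec_single_one]
    funext i
    change ev I _ (hI n) (emb _ (g n i 0)) = _
    rw [ev_emb]
    by_cases h : 0 = i
    · subst h
      simp [g, eS_C, xv, yv]
    · simp [g, h, Ne.symm h]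

end Pool.Agent.MP_92f1cb_al.H14C
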