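import Pool.Agent.MP_92f1cb_al.H14C.Spec

set_option autoImplicit false

namespace Pool.Agent.MP_92f1cb_al.H14C

open Pool.Agent.MP_92f1cb_al.H14 Module CategoryTheory

namespace GldR

variable {k A V : Type} [Field k] [Ring A] [Algebra k A] [AddCommGroup V] [Module k V]

/-- Lifting along the extension given by `ρ`. -/
theorem lift {P : Type} [AddCommGroup P] [Module A P] [Module.Projective A P]
    (φ ψ : A →ₐ[k] End k V) (ρ : A →ₗ[k] End k V) (h : ∀ a c, ρ (a * c) = φ a * ρ c + ρ a * ψ c)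
    (τ : P →+ V) (hτ : ∀ (a : A) y, τ (a • y) = ψ a (τ y)) :
    ∃ Θ : P →+ V, ∀ (a : A) y, Θ (a • y) = φ a (Θ y) + ρ a (τ y) := by
  obtain ⟨s, hs⟩ := Module.projective_def.1 (inferInstance : Module.Projective A P)
  let T : (P →₀ A) →+ V := Finsupp.liftAddHom fun z =>
    { toFun := fun a => ρ a (τ z), map_zero' := by simp, map_add' := fun a b => by simp }
  have hT : ∀ z a, T (Finsupp.single z a) = ρ a (τ z) := fun z a => by simp [T]
  have key : ∀ (a : A) (w : P →₀ A),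
      T (a • w) = φ a (T w) + ρ a (τ (Finsupp.linearCombination A id w)) := fun a w => by
    induction w using Finsupp.induction_linear with
    | zero => simp
    | add u w hu hw => simp only [smul_add, map_add, hu, hw]; abel
    | single z c =>
      rw [Finsupp.smul_single, hT, hT, Finsupp.linearCombination_single, hτ, smul_eq_mul, h]
      rfl
  refine ⟨T.comp s.toAddMonoidHom, fun a y => ?_⟩
  change T (s (a • y)) = φ a (T (s y)) + ρ a (τ y)
  rw [map_smul, key, hs]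

theorem main (φ : ℕ → A →ₐ[k] End k V) (ρ : ℕ → A →ₗ[k] End k V) (μ : ℕ → A) (v : V)
    (h1 : ∀ n a c, ρ n (a * c) = φ n a * ρ n c + ρ n a * φ (n + 1) c)
    (h2 : ∀ i j, μ i * μ j = 0) (h3 : ∀ n i, φ n (μ i) = 0)
    (h4 : ∀ n, ∃ c : k, c ≠ 0 ∧ ρ n (μ n) v = c • v)
    (P : ℕ → Type) [∀ n, AddCommGroup (P n)] [∀ n, Module A (P n)]
    [∀ n, Module.Projective A (P n)] (d : ∀ n, P (n + 1) →ₗ[A] P n)
    (dd : ∀ n x, d n (d (n + 1) x) = 0) (ex : ∀ n x, d n x = 0 → ∃ y, d (n + 1) y = x)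
    (D : ℕ) (ε : P 0 →+ V) (e1 : ∀ (a : A) y, ε (a • y) = φ D a (ε y))
    (e2 : ∀ x, ε (d 0 x) = 0) (e3 : ∀ x, ε x = 0 → ∃ y, d 0 y = x) (e4 : ∃ y, ε y = v)
    (i : ℕ) : ∀ m, i + m = D → ∃ (τ : P i →+ V) (y : P i) (c : k),
      (∀ (a : A) y, τ (a • y) = φ m a (τ y)) ∧ (∀ x, τ (d i x) = 0) ∧ c ≠ 0 ∧ τ y = c • v ∧
        ∀ j, ∃ z, d i z = μ j • y := by
  induction i with
  | zero =>
    intro m hm
    obtain rfl : m = D := by omega
    obtain ⟨y, hy⟩ := e4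
    exact ⟨ε, y, 1, e1, e2, one_ne_zero, by rw [one_smul, hy],
      fun j => e3 _ (by rw [e1, h3]; rfl)⟩
  | succ i ih =>
    intro m hm
    obtain ⟨τ, y, c, a1, a2, a3, a4, a5⟩ := ih (m + 1) (by omega)
    obtain ⟨Θ, hΘ⟩ := lift (φ m) (φ (m + 1)) (ρ m) (h1 m) τ a1
    obtain ⟨z, hz⟩ := a5 m
    obtain ⟨c', b1, b2⟩ := h4 m
    refine ⟨Θ.comp (d i).toAddMonoidHom, z, c * c', fun a x => ?_, fun x => ?_,
      mul_ne_zero a3 b1, ?_, fun j => ex _ _ ?_⟩
    · change Θ (d i (a • x)) = φ m a (Θ (d i x))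
      rw [map_smul, hΘ, a2, map_zero, add_zero]
    · change Θ (d i (d (i + 1) x)) = 0
      rw [dd, map_zero]
    · change Θ (d i z) = _
      rw [hz, hΘ, h3, a4, map_smul, b2, smul_smul]
      exact zero_add _
    · rw [map_smul, hz, smul_smul, h2, zero_smul]

end GldR

theorem gld : SGld := by
  rintro k A V _ _ _ _ _ φ ρ μ v h1 h2 h3 h0 h4 ⟨D, hD⟩
  let _ : Module A V := Module.compHom V (φ (D + 1)).toRingHom
  obtain ⟨Q, hQ⟩ := hD (ModuleCat.of A V)
  let ε : Q.complex.X 0 ⟶ ModuleCat.of A V := Q.π.f 0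
  have hε : Epi ε := inferInstanceAs (Epi (Q.π.f 0))
  obtain ⟨τ, y, c, -, -, a3, a4, -⟩ := GldR.main φ ρ μ v h1 h2 h3 h4 (fun n => Q.complex.X n)
    (fun n => (Q.complex.d (n + 1) n).hom)
    (fun n x => LinearMap.congr_fun (congrArg ModuleCat.Hom.hom (Q.complex.d_comp_d _ _ _)) x)
    (fun n => (ShortComplex.moduleCat_exact_iff _).1 (Q.exact_succ n)) (D + 1)
    ε.hom.toAddMonoidHom (fun a y => map_smul ε.hom a y)
    (fun x => LinearMap.congr_fun (congrArg ModuleCat.Hom.hom Q.complex_d_comp_π_f_zero) x)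
    ((ShortComplex.moduleCat_exact_iff _).1 Q.exact₀)
    ((ModuleCat.epi_iff_surjective ε).1 hε v) (D + 1) 0 rfl
  have := ModuleCat.subsingleton_of_isZero (hQ (D + 1) (Nat.lt_succ_self D))
  rw [Subsingleton.elim y 0, map_zero] at a4
  exact smul_ne_zero a3 h0 a4.symm

end Pool.Agent.MP_92f1cb_al.H14C
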