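import Pool.Agent.MP_92f1cb_al.H14C.Spec

/-! The grading of a split triangular algebra. -/

set_option autoImplicit false

namespace Pool.Agent.MP_92f1cb_al.H14C

open Pool.Agent.MP_92f1cb_al.H14

namespace GrdR

variable {k A : Type} [Field k] [Ring A] [Algebra k A] (σ : A →ₐ[k] A) (e : Fin 3 → A)

/-- Elements with prescribed vanishing Peirce components. -/
def Z (P Q : Fin 3 → Fin 3 → Prop) : Submodule k A where
  carrier := {a | ∀ i j, (P i j → e i * σ a * e j = 0) ∧ (Q i j → e i * (a - σ a) * e j = 0)}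
  add_mem' {a b} ha hb i j := ⟨fun h => by
    rw [map_add, mul_add, add_mul, (ha i j).1 h, (hb i j).1 h, add_zero], fun h => by
    rw [map_add, add_sub_add_comm, mul_add, add_mul, (ha i j).2 h, (hb i j).2 h, add_zero]⟩
  zero_mem' i j := by simp
  smul_mem' c a ha i j := ⟨fun h => by
    rw [map_smul, mul_smul_comm, smul_mul_assoc, (ha i j).1 h, smul_zero], fun h => by
    rw [map_smul, ← smul_sub, mul_smul_comm, smul_mul_assoc, (ha i j).2 h, smul_zero]⟩

/-- The homogeneous component of degree `d`. -/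
def G (d : ℕ) : Submodule k A :=
  Z σ e (fun i j => (i : ℕ) ≠ j + d) fun i j => (i : ℕ) + 3 ≠ j + d

variable {σ e}

theorem peirce (h : CompleteOrthogonalIdempotents e) (a : A) :
    a = ∑ i, ∑ j, e i * a * e j := by
  simp only [← Finset.mul_sum, ← Finset.sum_mul, h.complete, one_mul, mul_one]

theorem mid (h : CompleteOrthogonalIdempotents e) (x y : A) (i j : Fin 3)
    (H : ∀ c, e i * x * e c = 0 ∨ e c * y * e j = 0) : e i * (x * y) * e j = 0 := by
  have : e i * (x * y) * e j = ∑ c, e i * x * e c * (e c * y * e j) := by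
    have h1 : ∀ c, e i * x * e c * (e c * y * e j) = e i * x * e c * (y * e j) := fun c => by
      rw [mul_assoc (e c), ← mul_assoc _ (e c), mul_assoc _ (e c) (e c), (h.idem c).eq]
    simp only [h1]
    rw [← Finset.sum_mul, ← Finset.mul_sum, h.complete]
    simp only [mul_one, mul_assoc]
  rw [this]
  exact Finset.sum_eq_zero fun c _ => (H c).elim (fun h => by rw [h, zero_mul])
    fun h => by rw [h, mul_zero]

theorem corner (h : CompleteOrthogonalIdempotents e) (x : A) {i j i' j' : Fin 3}
    (H : ¬(i' = i ∧ j' = j)) : e i' * (e i * x * e j) * e j' = 0 := by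
  by_cases h1 : i' = i
  · have h2 : j ≠ j' := fun h2 => H ⟨h1, h2.symm⟩
    rw [mul_assoc, mul_assoc (e i * x), h.ortho h2, mul_zero, mul_zero]
  · rw [← mul_assoc, ← mul_assoc, h.ortho h1, zero_mul, zero_mul, zero_mul]

theorem mul_mem (hs : Split σ) (ht : Tri σ e) {d d' : ℕ} {a b : A} (ha : a ∈ G σ e d)
    (hb : b ∈ G σ e d') : a * b ∈ G σ e (d + d') := by
  intro i j
  refine ⟨fun h => ?_, fun h => ?_⟩
  · rw [map_mul]
    refine mid ht.coi _ _ i j fun c => ?_
    by_cases h1 : (i : ℕ) = c + d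
    · exact .inr ((hb c j).1 (by omega))
    · exact .inl ((ha i c).1 h1)
  · have h0 := hs.sq (a - σ a) (b - σ b) (by rw [map_sub, hs.idem, sub_self])
      (by rw [map_sub, hs.idem, sub_self])
    have e1 : a * b - σ (a * b) = σ a * (b - σ b) + (a - σ a) * σ b := by
      rw [map_mul, ← sub_eq_zero, ← h0]
      noncomm_ring
    rw [e1, mul_add, add_mul, mid ht.coi _ _ i j fun c => ?_, mid ht.coi _ _ i j fun c => ?_,
      add_zero]
    · by_cases h1 : (i : ℕ) + 3 = c + d
      · exact .inr ((hb c j).1 (by omega))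
      · exact .inl ((ha i c).2 h1)
    · by_cases h1 : (i : ℕ) = c + d
      · exact .inr ((hb c j).2 (by omega))
      · exact .inl ((ha i c).1 h1)

theorem memL (ht : Tri σ e) {a : A} (ha : σ a = a) {i j : Fin 3} (h : j ≤ i) :
    e i * a * e j ∈ G σ e (i - j) := by
  have h1 : σ (e i * a * e j) = e i * a * e j := by rw [map_mul, map_mul, ht.fix, ht.fix, ha]
  intro i' j'
  rw [h1]
  refine ⟨fun H => corner ht.coi _ ?_, fun _ => by simp⟩
  rintro ⟨rfl, rfl⟩
  have := Fin.le_def.1 h
  omega

theorem memM (ht : Tri σ e) {a : A} (ha : σ a = 0) (i j : Fin 3) :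
    e i * a * e j ∈ G σ e (i + 3 - j) := by
  have h1 : σ (e i * a * e j) = 0 := by rw [map_mul, map_mul, ha, mul_zero, zero_mul]
  intro i' j'
  rw [h1, sub_zero]
  refine ⟨fun _ => by simp, fun H => corner ht.coi _ ?_⟩
  rintro ⟨rfl, rfl⟩
  omega

theorem internal (hs : Split σ) (ht : Tri σ e) : DirectSum.IsInternal (G σ e) := by
  refine DirectSum.isInternal_submodule_of_iSupIndep_of_iSup_eq_top (fun d => ?_) ?_
  · refine Disjoint.mono_right (c := Z σ e (fun i j => (i : ℕ) = j + d)
      fun i j => (i : ℕ) + 3 = j + d) (iSup₂_le fun d' hd a ha i j =>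
        ⟨fun h => (ha i j).1 (by omega), fun h => (ha i j).2 (by omega)⟩) ?_
    refine Submodule.disjoint_def.2 fun a h1 h2 => ?_
    rw [peirce ht.coi a]
    refine Finset.sum_eq_zero fun i _ => Finset.sum_eq_zero fun j _ => ?_
    have a1 : e i * σ a * e j = 0 := (em _).elim (h2 i j).1 (h1 i j).1
    have a2 : e i * (a - σ a) * e j = 0 := (em _).elim (h2 i j).2 (h1 i j).2
    rwa [mul_sub, sub_mul, a1, sub_zero] at a2
  · refine eq_top_iff.2 fun a _ => ?_
    rw [← sub_add_cancel a (σ a), peirce ht.coi (a - σ a)]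
    refine add_mem (sum_mem fun i _ => sum_mem fun j _ => Submodule.mem_iSup_of_mem _
      (memM ht (by rw [map_sub, hs.idem, sub_self]) i j)) ?_
    rw [peirce ht.coi (σ a)]
    refine sum_mem fun i _ => sum_mem fun j _ => ?_
    rcases le_or_gt j i with h | h
    · exact Submodule.mem_iSup_of_mem _ (memL ht (hs.idem a) h)
    · rw [ht.up _ (hs.idem a) i j h]
      exact zero_mem _

theorem e_mem (ht : Tri σ e) (c : Fin 3) : e c ∈ G σ e 0 := by
  have := memL ht (map_one σ) (le_refl c)
  rwa [mul_one, (ht.coi.idem c).eq, Nat.sub_self] at this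

theorem zero_eq (ht : Tri σ e) : G σ e 0 = Submodule.span k (Set.range e) := by
  refine le_antisymm (fun a ha => ?_) (Submodule.span_le.2 ?_)
  · have h1 : σ a = a := by
      rw [eq_comm, ← sub_eq_zero, peirce ht.coi (a - σ a)]
      exact Finset.sum_eq_zero fun i _ => Finset.sum_eq_zero fun j _ => (ha i j).2 (by omega)
    rw [peirce ht.coi a]
    refine sum_mem fun i _ => sum_mem fun j _ => ?_
    by_cases h : i = j
    · subst h
      obtain ⟨c, hc⟩ := ht.diag a h1 i
      rw [hc]
      exact Submodule.smul_mem _ _ (Submodule.subset_span ⟨i, rfl⟩)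
    · have := (ha i j).1 (fun H => h (Fin.ext H))
      rw [h1] at this
      rw [this]
      exact zero_mem _
  · rintro _ ⟨c, rfl⟩
    exact e_mem ht c

end GrdR

open GrdR in
theorem grd : SGrd := by
  intro k A _ _ _ σ e hs ht
  refine ⟨G σ e, { (internal hs ht).chooseDecomposition with
    one_mem := ?_
    mul_mem := fun _ _ _ _ => mul_mem hs ht }, ht.coi, ht.ne, zero_eq ht⟩
  rw [← ht.coi.complete]
  exact sum_mem fun c _ => e_mem ht c

end Pool.Agent.MP_92f1cb_al.H14C
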