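import Pool.Agent.MP_92f1cb_al.H14C.Base2

set_option autoImplicit false

namespace Pool.Agent.MP_92f1cb_al.H14C

open Pool.Agent.MP_92f1cb_al.H14 Module

namespace H1R

/-- The vectors that are killed by a power of `T`. -/
def NilS {k X : Type} [Field k] [AddCommGroup X] [Module k X] (T : End k X) : Submodule k X where
  carrier := {x | ∃ n, (T ^ n) x = 0}
  zero_mem' := ⟨0, map_zero _⟩
  add_mem' := fun {x y} ⟨n, hn⟩ ⟨m, hm⟩ => ⟨n + m, by
    rw [map_add, pow_add, End.mul_apply, End.mul_apply, hm, ← End.mul_apply, pow_mul_comm,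
      End.mul_apply, hn, map_zero, map_zero, add_zero]⟩
  smul_mem' := fun c x ⟨n, hn⟩ => ⟨n, by rw [map_smul, hn, smul_zero]⟩

theorem chase {k X : Type} [Field k] [AddCommGroup X] [Module k X] {b bh bq T : End k X}
    {C S : Submodule k X} (hSC : S ≤ C) (hT : ∀ x ∈ C, T x ∈ C)
    (hn : ∀ x ∈ C, ∃ n, (T ^ n) x = 0) (hq : ∀ x ∈ C, bq x ∈ C)
    (hi : ∀ x, bh (x - T x) = bq x - T (bq x)) (hqq : ∀ x, bq (bq x) = 0) (hex : Ex bq C)
    (hS : ∀ x ∈ S, b x = bh x) (hd : ∀ x ∈ C, b x - bh x ∈ S) (hbb : ∀ x, b (b x) = 0)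
    (h : Ex b S) : Ex b C := by
  have hp : ∀ x ∈ C, ∀ j : ℕ, (T ^ j) x ∈ C := fun x hx j => by
    induction j with
    | zero => exact hx
    | succ j ih => rw [pow_succ', End.mul_apply]; exact hT _ ih
  have sur : ∀ x ∈ C, ∃ w ∈ C, w - T w = x := fun x hx => by
    obtain ⟨n, h1⟩ := hn x hx
    refine ⟨(∑ j ∈ Finset.range n, T ^ j) x, ?_, ?_⟩
    · rw [LinearMap.sum_apply]
      exact C.sum_mem fun j _ => hp x hx j
    · have := congrArg (fun φ : End k X => φ x) (mul_neg_geom_sum T n)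
      simpa only [End.mul_apply, LinearMap.sub_apply, End.one_apply, h1, sub_zero] using this
  have inj : ∀ x ∈ C, x - T x = 0 → x = 0 := fun x hx h0 => by
    obtain ⟨n, h1⟩ := hn x hx
    have h2 : ∀ j : ℕ, (T ^ j) x = x := fun j => by
      induction j with
      | zero => rfl
      | succ j ih => rw [pow_succ, End.mul_apply, ← sub_eq_zero.1 h0, ih]
    rw [← h2 n, h1]
  intro z hz hb
  have h1 : bh z ∈ S := by simpa [hb] using hd z hz
  obtain ⟨s, hs, h2⟩ := h _ h1 (by
    obtain ⟨w, -, rfl⟩ := sur z hz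
    rw [hS _ h1, hi, hi, hqq, map_zero, sub_zero])
  obtain ⟨w, hw, h3⟩ := sur _ (C.sub_mem hz (hSC hs))
  obtain ⟨v, hv, rfl⟩ := hex w hw (inj _ (hq w hw) (by
    rw [← hi, h3, map_sub, ← h2, hS s hs, sub_self]))
  rw [← hi] at h3
  have hu := C.sub_mem hv (hT v hv)
  obtain ⟨s', hs', h4⟩ := h (z - b (v - T v)) (by
    have := S.sub_mem hs (hd _ hu)
    rw [h3] at this
    convert this using 1
    abel) (by rw [map_sub, hb, hbb, sub_zero])
  exact ⟨v - T v + s', C.add_mem hu (hSC hs'), by rw [map_add, h4]; abel⟩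

variable {k A B : Type} [Field k] [Ring A] [Algebra k A] (β : Basis B k A) (σ : A →ₐ[k] A)

/-- The truncated rotation. -/
noncomputable def Tt : End k (WW k B) := Hd β σ.toLinearMap * TH k B

theorem Tt_snoc (a : A) (W : WW k B) : Tt β σ (snoc β a W) = cons β (σ a) (om W) := by
  rw [Tt, End.mul_apply, TH_snoc, Hd_cons]
  rfl

theorem Tt_nil : Tt β σ (ww β []) = 0 := by
  rw [Tt, End.mul_apply, TH_nil, map_neg, Hd_nil, neg_zero]

theorem Tt_concat (l : List A) (a : A) :
    Tt β σ (ww β (l ++ [a])) = (-1 : k) ^ l.length • ww β (σ a :: l) := by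
  rw [ww_concat, Tt_snoc, om_ww, map_smul, ww_cons]

theorem Tt_one (a : A) : Tt β σ (cons β a (ww β [])) = cons β (σ a) (ww β []) := by
  rw [cons_nil, Tt_snoc, om_ww, List.length_nil, pow_zero, one_smul]

theorem key (W : WW k B) :
    bp β (Tt β σ W) + d0 β (Tt β σ (Tt β σ W)) = d0 β (Tt β σ W) + Tt β σ (bp β W) := by
  refine ww_ext β (f := bp β ∘ₗ Tt β σ + d0 β ∘ₗ Tt β σ ∘ₗ Tt β σ)
    (g := d0 β ∘ₗ Tt β σ + Tt β σ ∘ₗ bp β) (fun l => ?_) W
  simp only [LinearMap.comp_apply, LinearMap.add_apply]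
  induction l using List.reverseRecOn with
  | nil => simp only [Tt_nil, bp_ww_nil, map_zero]
  | append_singleton l c _ =>
    induction l using List.reverseRecOn with
    | nil => simp only [List.nil_append, ww_cons, Tt_one, bp_one, d0_ww_one, map_zero]
    | append_singleton l a _ =>
      rw [ww_concat, ww_concat, bp_snoc_snoc, map_add, Tt_snoc, Tt_snoc, Tt_snoc, bp_cons, om_bp,
        om_om, om_snoc, map_neg (cons β (σ c)), map_neg (Tt β σ), cons_snoc, Tt_snoc, om_cons,
        om_om, map_neg (cons β (σ a)), neg_neg, d0_cons_cons, map_mul σ, map_neg (cons β (σ c))]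
      abel

theorem nil_pow {y : A} (hy : σ y = 0) (l v : List A) :
    (Tt β σ ^ (l.length + 1)) (ww β (v ++ y :: l)) = 0 := by
  induction l using List.reverseRecOn generalizing v with
  | nil => rw [List.length_nil, zero_add, pow_one, ww_concat, Tt_snoc, hy, map_zero]; rfl
  | append_singleton l a ih =>
    rw [List.length_append, List.length_singleton, pow_succ, End.mul_apply, ← List.cons_append,
      ← List.append_assoc, Tt_concat, map_smul, ← List.cons_append, ih, smul_zero]

end H1R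

open H1R in
theorem h1 : SH1 := by
  intro k A B _ _ _ β σ hσ Y m hY
  have hr : ∀ n, ∀ Z ∈ List.replicate n Y, Bim σ Z := fun n Z hZ => by
    rw [List.eq_of_mem_replicate hZ]; exact hY
  have hc : ∀ {l : List A} {a : A}, Shape σ (List.replicate (m + 1) Y) (l ++ [a]) →
      (σ a = a ∧ Shape σ (List.replicate (m + 1) Y) l) ∨
        (a ∈ Y ∧ Shape σ (List.replicate m Y) l) := fun h => by
    rcases h.of_concat with h | ⟨Zs, Z, he, ha, hl⟩
    · exact Or.inl h
    · rw [List.replicate_succ'] at he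
      obtain ⟨rfl, rfl⟩ := List.append_singleton_inj.1 he
      exact Or.inr ⟨ha, hl⟩
  refine chase (bh := bp β + d0 β * Tt β σ) (bq := bp β) (T := Tt β σ) (SW_le_CW _)
    (fun x hx => CW_map (Tt β σ) _ (fun l hl => ?_) hx) (fun x hx => ?_)
    (fun x hx => bp_mem_CW hσ (hr _) hx) (fun x => ?_) (bp_bp β) (fun z hz h0 => ?_)
    (fun x hx => ?_) (fun x hx => ?_) (bH_bH β)
  · induction l using List.reverseRecOn with
    | nil => rw [Tt_nil]; exact Submodule.zero_mem _
    | append_singleton l a _ =>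
      rcases hc hl with ⟨ha, hl⟩ | ⟨ha, -⟩
      · rw [Tt_concat, ha]
        exact Submodule.smul_mem _ _ (ww_mem_CW (Shape.consL ha hl))
      · rw [ww_concat, Tt_snoc, (hY a ha).1, map_zero]
        exact Submodule.zero_mem _
  · refine CW_map LinearMap.id (NilS (Tt β σ)) (fun l hl => ?_) hx
    rw [List.replicate_succ'] at hl
    obtain ⟨v, y, l, rfl, -, hy, -⟩ := hl.split_last
    exact ⟨_, nil_pow β σ (hY y hy).1 l v⟩
  · simp only [map_sub, LinearMap.add_apply, End.mul_apply]
    rw [key]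
    abel
  · refine ⟨cons β 1 z, cons_mem_CW (map_one σ) hz, ?_⟩
    rw [bp_cons, h0, map_zero, sub_zero]
    refine CW_ext (d0 β ∘ₗ cons β 1) LinearMap.id (fun l hl => ?_) hz
    cases l with
    | nil => simpa using hl.eq_nil
    | cons a l => rw [LinearMap.comp_apply, ww_cons, d0_cons_cons, one_mul]; rfl
  · refine SW_ext (Y := Y) (Ys := List.replicate m Y) (bH β) (bp β + d0 β * Tt β σ)
      (fun y hy l _ => ?_) hx
    rw [bH_apply, LinearMap.add_apply, End.mul_apply]
    congr 1
    induction l using List.reverseRecOn with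
    | nil => rw [d0_TH_one, Tt_one, d0_ww_one]
    | append_singleton l a _ =>
      have := hσ.sq _ _ (hσ.sub a) (hY y hy).1
      rw [sub_mul, sub_eq_zero] at this
      rw [ww_concat, d0_TH_cons_snoc, cons_snoc, Tt_snoc, om_cons, map_neg, map_neg, d0_cons_cons,
        this]
  · refine CW_map (bH β - (bp β + d0 β * Tt β σ)) _ (fun l hl => ?_) hx
    rw [LinearMap.sub_apply, bH_apply, LinearMap.add_apply, End.mul_apply, add_sub_add_left_eq_sub]
    induction l using List.reverseRecOn with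
    | nil => simpa using hl.eq_nil
    | append_singleton l a _ =>
      rw [ww_concat, TH_snoc, Tt_snoc]
      rcases hc hl with ⟨ha, -⟩ | ⟨ha, hl⟩
      · rw [ha, sub_self]
        exact Submodule.zero_mem _
      · rw [(hY a ha).1, map_zero, LinearMap.zero_apply, map_zero, sub_zero]
        exact d0_cons_mem_SW hσ hY (hr m) ha (om_mem_CW (ww_mem_CW hl))

end Pool.Agent.MP_92f1cb_al.H14C
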