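import Pool.Agent.MP_92f1cb_al.H14C.Base2

set_option autoImplicit false

namespace Pool.Agent.MP_92f1cb_al.H14C

open Pool.Agent.MP_92f1cb_al.H14 Module MvPolynomial

namespace JunR

variable {k A B : Type} [Field k] [Ring A] [Algebra k A] {β : Basis B k A}

theorem Hd_Op {σ : A →ₐ[k] A} {Y : Submodule k A} {Ys : List (Submodule k A)}
    (hY : ∀ y ∈ Y, σ y = 0) {φ χ : End k A} (hφ : KMap σ φ) (hc : χ * φ = φ * χ)
    (r : List (End k A)) {W : WW k B} (hW : W ∈ SW β σ (Y :: Ys)) :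
    Hd β φ (Op β σ (χ :: r) W) = Op β σ (χ :: r) (Hd β φ W) :=
  SW_ext (f := Hd β φ ∘ₗ Op β σ (χ :: r)) (g := Op β σ (χ :: r) ∘ₗ Hd β φ) (fun y hy l _ => by
    have e : χ (φ y) = φ (χ y) := LinearMap.congr_fun hc y
    rw [LinearMap.comp_apply, LinearMap.comp_apply, Op_cons_M β σ _ _ (hY y hy), Hd_cons, Hd_cons,
      Op_cons_M β σ _ _ (hφ y (hY y hy)), e]) hW

theorem Hd_Sl {σ : A →ₐ[k] A} {Y : Submodule k A} {Ys : List (Submodule k A)}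
    (hY : ∀ y ∈ Y, σ y = 0) {φ ψ : End k A} (hφ : KMap σ φ) (hc : ψ * φ = φ * ψ) (n i : ℕ)
    {W : WW k B} (hW : W ∈ SW β σ (Y :: Ys)) :
    Hd β φ (Sl β σ (n + 1) i ψ W) = Sl β σ (n + 1) i ψ (Hd β φ W) := by
  rw [Sl, List.replicate_succ]
  cases i with
  | zero => rw [List.set_cons_zero]; exact Hd_Op hY hφ hc _ hW
  | succ i => rw [List.set_cons_succ]; exact Hd_Op hY hφ (by rw [one_mul, mul_one]) _ hW

variable (M : Model k A)

/-- `Y` is a bimodule that is stable under multiplication by coefficients. -/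
def Ok (Y : Submodule k A) : Prop := Bim M.σ Y ∧ ∀ r : R0 k, ∀ y ∈ Y, M.mulS (C r) y ∈ Y

theorem mulS_mem {I : Ideal (SS k)} {D : Fin 3 → Fin 3 → Submodule k (SS k)} {r : SS k}
    (h : ∀ i j, ∀ f ∈ D i j, r * f ∈ D i j) {y : A} (hy : y ∈ M.YY I D) :
    M.mulS r y ∈ M.YY I D := by
  obtain ⟨f, hf, rfl⟩ := hy
  exact ⟨r • f, fun i j => h i j _ (hf i j), M.mulS_emb r I f⟩

theorem ok_zf (hM : SMod) (I : Ideal (SS k)) (v : ℕ) : Ok M (M.YY I (zf k v)) := by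
  refine ⟨(hM k A M).1 I v, fun r y hy => mulS_mem M (fun i j f hf => ?_) hy⟩
  unfold zf at hf ⊢
  split_ifs at hf ⊢
  · exact IsHomogeneous.C_mul hf r
  · rw [(Submodule.mem_bot k).1 hf, mul_zero]
    exact Submodule.zero_mem _

theorem ok_YR (hM : SMod) (I : Ideal (R0 k)) : Ok M (M.YR I none) := by
  refine ⟨(hM k A M).2.1 I none, fun r y hy => mulS_mem M ?_ hy⟩
  rintro i j _ ⟨g, -, rfl⟩
  exact ⟨r * g, Submodule.mem_top, C_mul⟩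

variable {M}

theorem comm_mulS {Zs : List (Submodule k A)} (h : ∀ Z ∈ Zs, Ok M Z) (i : ℕ) (r : R0 k) :
    Comm (bH β) (SW β M.σ Zs) (Sl β M.σ Zs.length i (M.mulS (C r))) :=
  comm_Sl M.split (fun Z hZ => (h Z hZ).1) (M.bmap_mulS _) i fun hi =>
    (h _ (List.getElem_mem hi)).2 r

theorem ok_cons {Y : Submodule k A} {Ys : List (Submodule k A)} (hY : Ok M Y)
    (h : ∀ Z ∈ Ys, Ok M Z) : ∀ Z ∈ Y :: Ys, Ok M Z := fun Z hZ => by
  rcases List.mem_cons.1 hZ with rfl | hZ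
  exacts [hY, h Z hZ]

theorem comm_junc {Y : Submodule k A} {Ys : List (Submodule k A)} (hY : Ok M Y)
    (h : ∀ Z ∈ Ys, Ok M Z) (a b c : R0 k) : Comm (bH β) (SW β M.σ (Y :: Ys))
      (junc β M.σ (Ys.length + 1) (M.mulS (C a)) (M.mulS (C b)) (M.mulS (C c))) :=
  (comm_mulS (ok_cons hY h) _ a).sub
    ((comm_mulS (ok_cons hY h) _ b).mul (comm_mulS (ok_cons hY h) _ c))

theorem Hd_junc {Y : Submodule k A} {Ys : List (Submodule k A)} (hY : Ok M Y)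
    (h : ∀ Z ∈ Ys, Ok M Z) (a b c : R0 k) (g : SS k) (I₁ I₂ : Ideal (SS k)) :
    ∀ W ∈ SW β M.σ (Y :: Ys), Hd β (M.tr g I₁ I₂)
      (junc β M.σ (Ys.length + 1) (M.mulS (C a)) (M.mulS (C b)) (M.mulS (C c)) W) =
    junc β M.σ (Ys.length + 1) (M.mulS (C a)) (M.mulS (C b)) (M.mulS (C c))
      (Hd β (M.tr g I₁ I₂) W) := fun W hW => by
  have h0 : ∀ y ∈ Y, M.σ y = 0 := fun y hy => (hY.1 y hy).1
  have hk := (M.bmap_tr g I₁ I₂).kmap
  have hc : ∀ r, M.mulS r * M.tr g I₁ I₂ = M.tr g I₁ I₂ * M.mulS r := fun r => M.mulS_onM r _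
  have hm : Sl β M.σ (Ys.length + 1) (Ys.length + 1 - 1) (M.mulS (C c)) W ∈
      SW β M.σ (Y :: Ys) := (comm_mulS (ok_cons hY h) _ c W hW).1
  simp only [junc, LinearMap.sub_apply, End.mul_apply, map_sub]
  rw [Hd_Sl h0 hk (hc _) _ _ hW, Hd_Sl h0 hk (hc _) _ _ hm, Hd_Sl h0 hk (hc _) _ _ hW]

theorem sq_comm {X : Type} [AddCommGroup X] [Module k X] {b F t : End k X} {S : Submodule k X}
    (hc : Comm b S t) (h : ∀ x ∈ S, F (t x) = t (F x)) :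
    ∀ x ∈ S, F ((t ^ 2) x) = (t ^ 2) (F x) := fun x hx => by
  rw [pow_two, End.mul_apply, End.mul_apply, h _ (hc x hx).1, h x hx]

end JunR

open JunR in
theorem jun (hM : SMod) (hP : SPat) (hC : SJunC) (hA : SJunA) : SJun := by
  intro k A B _ _ _ β M J s l hl hJ Ys hYs
  obtain ⟨l', h1, h2⟩ : ∃ l' : Fin 3, l' ≠ s ∧ l' ≠ l := by
    clear hJ
    revert s l
    decide
  obtain ⟨p1, p2⟩ := hP k J s l l' hl h1 h2 hJ
  have hok : ∀ Z ∈ Ys, Ok M Z := fun Z hZ => by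
    obtain ⟨J', rfl⟩ := hYs Z hZ
    exact ok_YR M hM J'
  have hb : ∀ Z ∈ Ys, Bim M.σ Z := fun Z hZ => (hok Z hZ).1
  have key : ∀ v : ℕ, v < 2 → Kill (bH β) (SW β M.σ (M.YY
      (J.map (C : R0 k →+* SS k) ⊔ Ideal.span {lf k s l}) (zf k v) :: Ys))
      (junc β M.σ (Ys.length + 1) (M.mulS (C (yv k l))) (M.mulS (C (xv k l)))
        (M.mulS (C (yv k s))) ^ 2) := fun v hv => by
    obtain ⟨α, α', _, _, G, G', p, p', e, e', l₁, l₂, u, d, r, hD, hr⟩ := hC k A M J s l v hv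
    obtain ⟨a1, a2⟩ := hA k A B β M.σ M.split α α' _ _ _ _ _ _ _ _ _ _ _ _ _ _ _ _ _ hD Ys hb
      fun Z hZ y hy => ⟨by
        obtain ⟨J', rfl⟩ := hYs Z hZ
        exact hr J' y hy, (hok Z hZ).2 _ y hy, (hok Z hZ).2 _ y hy⟩
    exact (ses k A B β M.σ M.split _ _ _ _ _ Ys (ok_zf M hM _ _).1 (ok_zf M hM _ _).1
      (ok_zf M hM _ _).1 hb (M.bmap_tr _ _ _) (M.bmap_tr _ _ _)
      ((hM k A M).2.2.1 _ _ _ _ _ _ _ (p1 v))).cone (comm_junc (ok_zf M hM _ _) hok _ _ _)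
      (Hd_junc (ok_zf M hM _ _) hok _ _ _ _ _ _) (Hd_junc (ok_zf M hM _ _) hok _ _ _ _ _ _) a1 a2
  have := (ses k A B β M.σ M.split _ _ _ _ _ Ys (ok_zf M hM _ _).1 (ok_zf M hM _ _).1
    (ok_YR M hM J).1 hb (M.bmap_tr _ _ _) (M.bmap_tr _ _ _)
    ((hM k A M).2.2.1 _ _ _ _ _ _ _ p2)).kill ((comm_junc (ok_zf M hM _ _) hok _ _ _).pow 2)
    (sq_comm (comm_junc (ok_zf M hM _ _) hok _ _ _) (Hd_junc (ok_zf M hM _ _) hok _ _ _ _ _ _))
    (sq_comm (comm_junc (ok_zf M hM _ _) hok _ _ _) (Hd_junc (ok_zf M hM _ _) hok _ _ _ _ _ _))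
    (key 0 (by omega)) (key 1 (by omega))
  rwa [← pow_mul] at this

end Pool.Agent.MP_92f1cb_al.H14C
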