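import Pool.Agent.MP_92f1cb_al.H14C.JunA1

set_option autoImplicit false

namespace Pool.Agent.MP_92f1cb_al.H14C

open Pool.Agent.MP_92f1cb_al.H14 Module

namespace JunAR

variable {k A B : Type} [Field k] [Ring A] [Algebra k A] (β : Basis B k A) {σ : A →ₐ[k] A}

theorem gen_map {X : Type} [AddCommGroup X] [Module k X] {P : Submodule k A}
    {Ys : List (Submodule k A)} (f : WW k B →ₗ[k] X) (S : Submodule k X)
    (h1 : Ys = [] → ∀ π ∈ P, f (cons β π (ww β [])) ∈ S)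
    (h2 : ∀ π ∈ P, ∀ c, σ c = c → ∀ V, f (cons β π (snoc β c V)) ∈ S)
    (h3 : ∀ Zs Y, Ys = Zs ++ [Y] → ∀ π ∈ P, ∀ c ∈ Y, ∀ V ∈ CW β σ Zs,
      f (cons β π (snoc β c V)) ∈ S)
    {W : WW k B} (hW : W ∈ SW β σ (P :: Ys)) : f W ∈ S := by
  refine SW_map f S (fun π hπ l hl => ?_) hW
  induction l using List.reverseRecOn with
  | nil => exact h1 hl.eq_nil π hπ
  | append_singleton l c _ =>
    rw [ww_concat]
    rcases hl.of_concat with ⟨hc, _⟩ | ⟨Zs, Y, he, hc, hl⟩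
    · exact h2 π hπ c hc _
    · exact h3 Zs Y he π hπ c hc _ (ww_mem_CW hl)

theorem gen_ext {X : Type} [AddCommGroup X] [Module k X] {P : Submodule k A}
    {Ys : List (Submodule k A)} (f g : WW k B →ₗ[k] X)
    (h1 : Ys = [] → ∀ π ∈ P, f (cons β π (ww β [])) = g (cons β π (ww β [])))
    (h2 : ∀ π ∈ P, ∀ c, σ c = c → ∀ V, f (cons β π (snoc β c V)) = g (cons β π (snoc β c V)))
    (h3 : ∀ Zs Y, Ys = Zs ++ [Y] → ∀ π ∈ P, ∀ c ∈ Y, ∀ V ∈ CW β σ Zs,
      f (cons β π (snoc β c V)) = g (cons β π (snoc β c V)))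
    {W : WW k B} (hW : W ∈ SW β σ (P :: Ys)) : f W = g W := by
  have := gen_map β (f - g) ⊥
    (fun h π hπ => by rw [LinearMap.sub_apply, h1 h π hπ, sub_self]; exact Submodule.zero_mem _)
    (fun π hπ c hc V => by
      rw [LinearMap.sub_apply, h2 π hπ c hc V, sub_self]; exact Submodule.zero_mem _)
    (fun Zs Y he π hπ c hc V hV => by
      rw [LinearMap.sub_apply, h3 Zs Y he π hπ c hc V hV, sub_self]
      exact Submodule.zero_mem _) hW
  rwa [Submodule.mem_bot, LinearMap.sub_apply, sub_eq_zero] at this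

section One

variable {α : Type} [Fintype α] {P G : Submodule k A} {p : α → A} {g : α → End k A}

theorem kap_L (hσ : Split σ) (hP : Bim σ P) (hF : Free σ P G p) (hg : GD P G p g)
    {π : A} (hπ : π ∈ P) {c : A} (hc : σ c = c) (V : WW k B) :
    kap β p g (cons β π (snoc β c V)) = 0 := by
  rw [kap_snoc β hσ hP hF hg hπ, hc, sub_self]
  simp only [zero_mul, map_zero, LinearMap.zero_apply, Finset.sum_const_zero]

theorem kap_M (hσ : Split σ) (hP : Bim σ P) (hF : Free σ P G p) (hg : GD P G p g)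
    {π : A} (hπ : π ∈ P) {c : A} (hc : σ c = 0) (V : WW k B) :
    kap β p g (cons β π (snoc β c V)) = ∑ a, cons β (g a π) (snoc β (c * p a) V) := by
  rw [kap_snoc β hσ hP hF hg hπ, hc, sub_zero]

end One

variable {α α' : Type} [Fintype α] [Fintype α'] {P G P' G' : Submodule k A} {p : α → A}
  {p' : α' → A} {e e' l₁ l₂ : A} {ell u d r Y₁ X Y₂ : End k A} {g : α → End k A}
  {g' : α' → End k A} {Ys : List (Submodule k A)}

theorem theta_mem (hσ : Split σ) (J : JData σ P G p P' G' p' e e' l₁ l₂ ell u d r Y₁ X Y₂)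
    (hg : GD P G p g) (hYs : ∀ Y ∈ Ys, Bim σ Y) (hr : ∀ Y ∈ Ys, ∀ y ∈ Y, r y ∈ Y)
    {W : WW k B} (hW : W ∈ SW β σ (P :: Ys)) :
    KK β u r (kap β p g W) ∈ SW β σ (P' :: Ys) := by
  refine gen_map β (KK β u r ∘ₗ kap β p g) _ (fun h π hπ => ?_) (fun π hπ c hc V => ?_)
    (fun Zs Y he π hπ c hc V hV => ?_) hW
  · subst h
    rw [LinearMap.comp_apply, kap_one β hg hπ, map_sum]
    refine Submodule.sum_mem _ fun a _ => ?_
    have hm : g a π * p a ∈ G := J.free.rmul _ (hg.mem a π) _ (J.free.fix a)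
    rw [KK_one, ← J.ur _ (J.bim _ (J.free.le hm)).1]
    exact cons_mem_SW (J.free'.le (J.uG _ (J.rG _ hm)).1) (ww_mem_CW Shape.nil)
  · rw [LinearMap.comp_apply, kap_L β hσ J.bim J.free hg hπ hc, map_zero]
    exact Submodule.zero_mem _
  · subst he
    have hY := hYs Y (by simp) c hc
    rw [LinearMap.comp_apply, kap_M β hσ J.bim J.free hg hπ hY.1, map_sum]
    refine Submodule.sum_mem _ fun a _ => ?_
    rw [KK_snoc]
    exact cons_mem_SW (J.free'.le (J.uG _ (hg.mem a π)).1)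
      (snoc_mem_CW_M (hr Y (by simp) _ (hY.2 _).2) hV)

theorem theta_bH (hσ : Split σ) (J : JData σ P G p P' G' p' e e' l₁ l₂ ell u d r Y₁ X Y₂)
    (hg : GD P G p g) {W : WW k B} (hW : W ∈ SW β σ (P :: Ys)) :
    bH β (KK β u r (kap β p g W)) = KK β u r (kap β p g (bH β W)) := by
  rw [← bH_kap]
  refine SW_ext (bH β ∘ₗ KK β u r ∘ₗ kap β p g) (KK β u r ∘ₗ bH β ∘ₗ kap β p g)
    (fun π hπ l _ => ?_) hW
  simp only [LinearMap.comp_apply]
  induction l using List.reverseRecOn with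
  | nil =>
    rw [kap_one β hg hπ]
    simp only [map_sum, bH_KK_one]
  | append_singleton l c _ =>
    rw [ww_concat, kap_snoc β hσ J.bim J.free hg hπ]
    simp only [map_sum]
    exact Finset.sum_congr rfl fun a _ => bH_KK_snoc β hσ J.ulin J.rlin
      (J.bim _ (J.free.le (hg.mem a π))).1 (by rw [map_mul, hσ.sub, zero_mul]) _

theorem kap_ell_one (J : JData σ P G p P' G' p' e e' l₁ l₂ ell u d r Y₁ X Y₂)
    (hg : GD P G p g) {γ : A} (hγ : γ ∈ G') :
    kap β p g (Hd β ell (cons β γ (ww β []))) =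
      cons β (d γ * l₁) (ww β []) - cons β (X (d γ) * l₂) (ww β []) := by
  rw [Hd_cons, J.ellG γ hγ, map_sub, LinearMap.sub_apply, map_sub,
    kap_span_one β J.bim J.free hg J.l₁mem (J.dG γ hγ).1,
    kap_span_one β J.bim J.free hg J.l₂mem (J.XG _ (J.dG γ hγ).1)]

theorem kap_ell_snoc (hσ : Split σ) (J : JData σ P G p P' G' p' e e' l₁ l₂ ell u d r Y₁ X Y₂)
    (hg : GD P G p g) {γ : A} (hγ : γ ∈ G') {y : A} (hy : σ y = 0) (V : WW k B) :
    kap β p g (Hd β ell (cons β γ (snoc β y V))) =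
      cons β (d γ) (snoc β (y * l₁) V) - cons β (X (d γ)) (snoc β (y * l₂) V) := by
  rw [Hd_cons, J.ellG γ hγ, map_sub, LinearMap.sub_apply, map_sub,
    kap_span_snoc β hσ J.bim J.free hg J.l₁mem (J.dG γ hγ).1 hy,
    kap_span_snoc β hσ J.bim J.free hg J.l₂mem (J.XG _ (J.dG γ hγ).1) hy]

theorem identA (hσ : Split σ) (J : JData σ P G p P' G' p' e e' l₁ l₂ ell u d r Y₁ X Y₂)
    (hg : GD P G p g) (hYs : ∀ Y ∈ Ys, Bim σ Y) {W : WW k B} (hW : W ∈ SW β σ (P :: Ys)) :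
    kap β p g (Hd β ell (KK β u r (kap β p g W))) =
      junc β σ (Ys.length + 1) Y₁ X Y₂ (kap β p g W) := by
  suffices H : (kap β p g ∘ₗ Hd β ell ∘ₗ KK β u r ∘ₗ kap β p g) W =
      (junc β σ (Ys.length + 1) Y₁ X Y₂ ∘ₗ kap β p g) W by
    simpa only [LinearMap.comp_apply] using H
  refine gen_ext β _ _ (fun h π hπ => ?_) (fun π hπ c hc V => ?_)
    (fun Zs Y he π hπ c hc V hV => ?_) hW
  · subst h
    simp only [LinearMap.comp_apply]
    rw [kap_one β hg hπ]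
    simp only [map_sum]
    refine Finset.sum_congr rfl fun a _ => ?_
    have hm : g a π * p a ∈ G := J.free.rmul _ (hg.mem a π) _ (J.free.fix a)
    have h0 := (J.bim _ (J.free.le hm)).1
    have he : g a π * p a * e = g a π * p a := by rw [mul_assoc, J.le]
    rw [KK_one, ← J.ur _ h0, kap_ell_one β J hg (J.uG _ (J.rG _ hm)).1, (J.uG _ (J.rG _ hm)).2,
      junc_one β J.bY₂ h0, ← ((J.bX _ (J.rlin _ h0).1).2 l₂).2, (J.r₁ _ h0).1, (J.r₁ _ h0).2, he]
  · simp only [LinearMap.comp_apply]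
    rw [kap_L β hσ J.bim J.free hg hπ hc]
    simp only [map_zero]
  · subst he
    have hY := hYs Y (by simp) c hc
    simp only [LinearMap.comp_apply]
    rw [kap_M β hσ J.bim J.free hg hπ hY.1]
    simp only [map_sum]
    refine Finset.sum_congr rfl fun a _ => ?_
    have h0 : σ (c * p a) = 0 := by rw [map_mul, hY.1, zero_mul]
    have he : c * p a * e = c * p a := by rw [mul_assoc, J.le]
    rw [KK_snoc, kap_ell_snoc β hσ J hg (J.uG _ (hg.mem a π)).1 (J.rlin _ h0).1,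
      (J.uG _ (hg.mem a π)).2,
      junc_snoc β J.bY₂ (fun Z hZ y hy => (hYs Z (by simp [hZ]) y hy).1) Y
        (J.bim _ (J.free.le (hg.mem a π))).1 h0 hV, (J.r₁ _ h0).1, (J.r₁ _ h0).2, he]

theorem identB (hσ : Split σ) (J : JData σ P G p P' G' p' e e' l₁ l₂ ell u d r Y₁ X Y₂)
    (hg : GD P G p g) (hg' : GD P' G' p' g') (hYs : ∀ Y ∈ Ys, Bim σ Y) {W : WW k B}
    (hW : W ∈ SW β σ (P' :: Ys)) :
    KK β u r (kap β p g (Hd β ell (kap β p' g' W))) =
      junc β σ (Ys.length + 1) Y₁ X Y₂ (kap β p' g' W) := by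
  suffices H : (KK β u r ∘ₗ kap β p g ∘ₗ Hd β ell ∘ₗ kap β p' g') W =
      (junc β σ (Ys.length + 1) Y₁ X Y₂ ∘ₗ kap β p' g') W by
    simpa only [LinearMap.comp_apply] using H
  refine gen_ext β _ _ (fun h π hπ => ?_) (fun π hπ c hc V => ?_)
    (fun Zs Y he π hπ c hc V hV => ?_) hW
  · subst h
    simp only [LinearMap.comp_apply]
    rw [kap_one β hg' hπ]
    simp only [map_sum]
    refine Finset.sum_congr rfl fun a _ => ?_
    have hm : g' a π * p' a ∈ G' := J.free'.rmul _ (hg'.mem a π) _ (J.free'.fix a)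
    have h0 := (J.bim' _ (J.free'.le hm)).1
    have hd := (J.bim _ (J.free.le (J.dG _ hm).1)).1
    have he : g' a π * p' a * e' = g' a π * p' a := by rw [mul_assoc, J.le']
    have h2 : σ (g' a π * p' a * l₂) = 0 := by rw [map_mul, h0, zero_mul]
    rw [kap_ell_one β J hg hm, map_sub, KK_one, KK_one, (J.ulin _ hd).2,
      (J.ulin _ (J.bX _ hd).1).2, J.uX _ hd, (J.dG _ hm).2, ← ((J.bX _ h0).2 l₂).2, J.rX _ h2,
      (J.r₂ _ h0).1, (J.r₂ _ h0).2, he, junc_one β J.bY₂ h0]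
  · simp only [LinearMap.comp_apply]
    rw [kap_L β hσ J.bim' J.free' hg' hπ hc]
    simp only [map_zero]
  · subst he
    have hY := hYs Y (by simp) c hc
    simp only [LinearMap.comp_apply]
    rw [kap_M β hσ J.bim' J.free' hg' hπ hY.1]
    simp only [map_sum]
    refine Finset.sum_congr rfl fun a _ => ?_
    have hm := hg'.mem a π
    have h0 : σ (c * p' a) = 0 := by rw [map_mul, hY.1, zero_mul]
    have hd := (J.bim _ (J.free.le (J.dG _ hm).1)).1
    have he : c * p' a * e' = c * p' a := by rw [mul_assoc, J.le']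
    rw [kap_ell_snoc β hσ J hg hm h0, map_sub, KK_snoc, KK_snoc, J.uX _ hd, (J.dG _ hm).2,
      (J.r₂ _ h0).1, (J.r₂ _ h0).2, he,
      junc_snoc β J.bY₂ (fun Z hZ y hy => (hYs Z (by simp [hZ]) y hy).1) Y
        (J.bim' _ (J.free'.le hm)).1 h0 hV]

end JunAR

open JunAR in
theorem junA : SJunA := by
  intro k A B _ _ _ β σ hσ α α' _ _ P G P' G' p p' e e' l₁ l₂ ell u d r Y₁ X Y₂ J Ys hYs hm
  obtain ⟨g, hg⟩ := exists_gd J.free
  obtain ⟨g', hg'⟩ := exists_gd J.free'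
  have c : ∀ {Y : Submodule k A}, Bim σ Y → ∀ Z ∈ Y :: Ys, Bim σ Z := fun hY Z hZ => by
    rcases List.mem_cons.1 hZ with rfl | hZ
    · exact hY
    · exact hYs Z hZ
  have cj : ∀ {Y : Submodule k A}, Bim σ Y → (∀ y ∈ Y, Y₁ y ∈ Y ∧ X y ∈ Y ∧ Y₂ y ∈ Y) →
      Comm (bH β) (SW β σ (Y :: Ys)) (junc β σ (Ys.length + 1) Y₁ X Y₂) := fun hY h =>
    comm_junc β hσ J.bY₁ J.bX J.bY₂ (c hY) (fun Z hZ y hy => by
      rcases List.mem_cons.1 hZ with rfl | hZ
      · exact ⟨(h y hy).1, (h y hy).2.2⟩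
      · exact (hm Z hZ y hy).2) fun y hy => (h y hy).2.1
  have hr : ∀ Y ∈ Ys, ∀ y ∈ Y, r y ∈ Y := fun Y hY y hy => (hm Y hY y hy).1
  refine ⟨fun z hz hb => ?_, fun z hz hb ⟨w, hw, hwz⟩ => ?_⟩
  · have hθ := theta_mem β hσ J hg hYs hr hz
    have hx : Hd β ell (KK β u r (kap β p g z)) ∈ SW β σ (P :: Ys) :=
      Hd_mem_SW (φ := ell) J.ellP hθ
    have hbx : bH β (Hd β ell (KK β u r (kap β p g z))) = 0 := by
      rw [Hd_bH hσ (c J.bim') J.bell hθ, theta_bH β hσ J hg hz, hb]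
      simp only [map_zero]
    have hs := sH_mem β J.free hg hz
    have hA := identA β hσ J hg hYs hz
    refine ⟨_, hθ, junc β σ (Ys.length + 1) Y₁ X Y₂ (sH β p g z) -
      sH β p g (Hd β ell (KK β u r (kap β p g z))),
      Submodule.sub_mem _ (cj J.bim J.mulP _ hs).1 (sH_mem β J.free hg hx), ?_⟩
    have e1 : kap β p g z = z - bH β (sH β p g z) := by rw [kap_apply, hb, map_zero, sub_zero]
    rw [kap_apply, hbx, map_zero, sub_zero] at hA
    conv_rhs at hA => rw [e1, map_sub]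
    rw [map_sub, (cj J.bim J.mulP _ hs).2, ← add_sub_assoc, add_sub_right_comm, hA,
      sub_add_cancel]
  · have hs := sH_mem β J.free' hg' hz
    have hx : Hd β ell (sH β p' g' z) ∈ SW β σ (P :: Ys) := Hd_mem_SW (φ := ell) J.ellP hs
    have hB := identB β hσ J hg hg' hYs hz
    have e1 : kap β p' g' z = z - bH β (sH β p' g' z) := by
      rw [kap_apply, hb, map_zero, sub_zero]
    refine ⟨KK β u r (kap β p g (w - Hd β ell (sH β p' g' z))) +
      junc β σ (Ys.length + 1) Y₁ X Y₂ (sH β p' g' z),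
      Submodule.add_mem _ (theta_mem β hσ J hg hYs hr (Submodule.sub_mem _ hw hx))
        (cj J.bim' J.mulP' _ hs).1, ?_⟩
    rw [e1, map_sub (Hd β ell), map_sub (junc β σ (Ys.length + 1) Y₁ X Y₂), hwz,
      ← Hd_bH hσ (c J.bim') J.bell hs, ← map_sub (bH β),
      ← theta_bH β hσ J hg (Submodule.sub_mem _ hw hx)] at hB
    rw [map_add, hB, (cj J.bim' J.mulP' _ hs).2, sub_add_cancel]

end Pool.Agent.MP_92f1cb_al.H14C
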