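import Pool.Agent.MP_92f1cb_al.H14C.Base2

set_option autoImplicit false

namespace Pool.Agent.MP_92f1cb_al.H14C

open Pool.Agent.MP_92f1cb_al.H14 Module

namespace JunAR

variable {k A B : Type} [Field k] [Ring A] [Algebra k A] (β : Basis B k A) {σ : A →ₐ[k] A}

theorem ext_cons {X : Type} [AddCommGroup X] [Module k X] (f g : WW k B →ₗ[k] X)
    (h0 : f (ww β []) = g (ww β []))
    (h : ∀ (a : A) (W : WW k B), f (cons β a W) = g (cons β a W)) (W : WW k B) : f W = g W := by
  refine ww_ext β (f := f) (g := g) (fun l => ?_) W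
  cases l with
  | nil => exact h0
  | cons a l => rw [ww_cons]; exact h _ _

theorem ext_snoc {X : Type} [AddCommGroup X] [Module k X] (f g : WW k B →ₗ[k] X)
    (h0 : f (ww β []) = g (ww β []))
    (h : ∀ (a : A) (W : WW k B), f (snoc β a W) = g (snoc β a W)) (W : WW k B) : f W = g W := by
  refine ww_ext β (f := f) (g := g) (fun l => ?_) W
  induction l using List.reverseRecOn with
  | nil => exact h0
  | append_singleton l a _ => rw [ww_concat]; exact h _ _

theorem ext_cons_snoc {X : Type} [AddCommGroup X] [Module k X] (f g : WW k B →ₗ[k] X)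
    (h : ∀ (a : A) (W : WW k B), f (cons β a W) = g (cons β a W)) (c : A) (V : WW k B) :
    f (snoc β c V) = g (snoc β c V) :=
  ext_cons β (f ∘ₗ snoc β c) (g ∘ₗ snoc β c)
    (by rw [LinearMap.comp_apply, LinearMap.comp_apply, ← cons_nil]; exact h _ _)
    (fun a W => by rw [LinearMap.comp_apply, LinearMap.comp_apply, ← cons_snoc]; exact h _ _) V

theorem bH_cons_snoc (γ q : A) (U : WW k B) :
    bH β (cons β γ (snoc β q U)) =
      d0 β (cons β γ (snoc β q U)) - cons β γ (bp β (snoc β q U)) - cons β (q * γ) (om U) := by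
  rw [bH_apply, bp_cons, d0_TH_cons_snoc, sub_eq_add_neg (_ - _)]

theorem om_nil : om (ww β [] : WW k B) = ww β [] := by rw [om_ww]; simp

theorem mul_eq_mul_σ (hσ : Split σ) {y : A} (hy : σ y = 0) (c : A) : y * c = y * σ c := by
  rw [← sub_eq_zero, ← mul_sub, hσ.sq _ _ hy (hσ.sub c)]

theorem σ_mul_eq_mul (hσ : Split σ) {y : A} (hy : σ y = 0) (c : A) : c * y = σ c * y := by
  rw [← sub_eq_zero, ← sub_mul, hσ.sq _ _ (hσ.sub c) hy]

/-- Coordinates with respect to a free generating family. -/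
structure GD {α : Type} [Fintype α] (P G : Submodule k A) (p : α → A) (g : α → End k A) :
    Prop where
  mem : ∀ a π, g a π ∈ G
  dec : ∀ π ∈ P, ∑ a, p a * g a π = π
  uniq : ∀ γ : α → A, (∀ a, γ a ∈ G) → ∀ a, g a (∑ c, p c * γ c) = γ a

section Coord

variable {α : Type} [Fintype α] {P G : Submodule k A} {p : α → A} {g : α → End k A}

theorem exists_gd (hF : Free σ P G p) : ∃ g : α → End k A, GD P G p g := by
  let L : (α → G) →ₗ[k] A :=
    ∑ a, LinearMap.mulLeft k (p a) ∘ₗ G.subtype ∘ₗ LinearMap.proj (φ := fun _ : α => G) a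
  have hL : ∀ γ : α → G, L γ = ∑ a, p a * (γ a : A) := fun γ => by
    simp [L, LinearMap.sum_apply]
  obtain ⟨R, hR⟩ := LinearMap.exists_leftInverse_of_injective L
    (LinearMap.ker_eq_bot'.2 fun γ hγ => funext fun a => Subtype.ext
      (hF.indep (fun a => (γ a : A)) (fun a => (γ a).2) (by rw [← hL, hγ]) a))
  have hu : ∀ γ : α → A, (∀ a, γ a ∈ G) → ∀ a, (R (∑ c, p c * γ c) a : A) = γ a :=
    fun γ hγ a => by
      have h1 := LinearMap.congr_fun hR (fun a => ⟨γ a, hγ a⟩)
      rw [LinearMap.comp_apply, hL, LinearMap.id_apply] at h1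
      exact congrArg (fun f : α → G => (f a : A)) h1
  refine ⟨fun a => G.subtype ∘ₗ LinearMap.proj (φ := fun _ : α => G) a ∘ₗ R,
    fun a π => (R π a).2, fun π hπ => ?_, hu⟩
  obtain ⟨γ, hγ, rfl⟩ := hF.span π hπ
  exact Finset.sum_congr rfl fun a _ => congrArg (fun x => p a * x) (hu γ hγ a)

theorem GD.mul_right (hσ : Split σ) (hP : Bim σ P) (hF : Free σ P G p) (hg : GD P G p g)
    {π : A} (hπ : π ∈ P) (c : A) (a : α) : g a (π * c) = g a π * c := by
  have h0 : ∀ b, σ (g b π) = 0 := fun b => (hP _ (hF.le (hg.mem b π))).1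
  rw [mul_eq_mul_σ hσ (hP π hπ).1, mul_eq_mul_σ hσ (h0 a),
    ← hg.uniq (fun b => g b π * σ c) (fun b => hF.rmul _ (hg.mem b π) _ (hσ.idem c)) a]
  congr 1
  conv_lhs => rw [← hg.dec π hπ, Finset.sum_mul]
  exact Finset.sum_congr rfl fun b _ => mul_assoc _ _ _

theorem GD.sum_span {X : Type} [AddCommGroup X] [Module k X] (hg : GD P G p g)
    (Bl : A →ₗ[k] A →ₗ[k] X) {lam : A} (hl : lam ∈ Submodule.span k (Set.range p))
    {γ : A} (hγ : γ ∈ G) : ∑ a, Bl (p a) (g a (lam * γ)) = Bl lam γ := by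
  classical
  induction hl using Submodule.span_induction with
  | mem x hx =>
    obtain ⟨c, rfl⟩ := hx
    have h1 : ∀ a, g a (p c * γ) = (Pi.single c γ : α → A) a := fun a => by
      rw [← hg.uniq (Pi.single c γ) (fun b => by
        by_cases hb : b = c
        · subst hb; rw [Pi.single_eq_same]; exact hγ
        · rw [Pi.single_eq_of_ne hb]; exact G.zero_mem) a]
      congr 1
      rw [Finset.sum_eq_single c (fun b _ hb => by rw [Pi.single_eq_of_ne hb, mul_zero])
        (fun h => absurd (Finset.mem_univ c) h), Pi.single_eq_same]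
    rw [Finset.sum_eq_single c (fun b _ hb => by rw [h1, Pi.single_eq_of_ne hb, map_zero])
      (fun h => absurd (Finset.mem_univ c) h), h1, Pi.single_eq_same]
  | zero => simp
  | add x y _ _ hx hy =>
    simp only [add_mul, map_add, Finset.sum_add_distrib, hx, hy, LinearMap.add_apply]
  | smul c x _ hx =>
    simp only [smul_mul_assoc, map_smul, ← Finset.smul_sum, hx, LinearMap.smul_apply]

theorem GD.sum_mul {X : Type} [AddCommGroup X] [Module k X] (hσ : Split σ) (hP : Bim σ P)
    (hF : Free σ P G p) (hg : GD P G p g) (Bl : A →ₗ[k] A →ₗ[k] X) {π : A} (hπ : π ∈ P)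
    (c : A) : ∑ a, Bl (p a) (g a (c * π)) = ∑ a, Bl (σ c * p a) (g a π) := by
  have h1 : c * π = ∑ b, (σ c * p b) * g b π := by
    rw [σ_mul_eq_mul hσ (hP π hπ).1]
    conv_lhs => rw [← hg.dec π hπ, Finset.mul_sum]
    exact Finset.sum_congr rfl fun b _ => (mul_assoc _ _ _).symm
  rw [h1]
  simp only [map_sum]
  rw [Finset.sum_comm]
  exact Finset.sum_congr rfl fun b _ =>
    hg.sum_span Bl (hF.lmul _ (hσ.idem c) b) (hg.mem b π)

end Coord

section Htp

variable {α : Type} [Fintype α]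

/-- The homotopy that moves the free generator from the head to the end of the word. -/
noncomputable def sH (p : α → A) (g : α → End k A) : End k (WW k B) :=
  ∑ a, snoc β (p a) ∘ₗ Hd β (g a) ∘ₗ om

/-- The chain map homotopic to the identity. -/
noncomputable def kap (p : α → A) (g : α → End k A) : End k (WW k B) :=
  LinearMap.id - bH β ∘ₗ sH β p g - sH β p g ∘ₗ bH β

variable {P G : Submodule k A} {p : α → A} {g : α → End k A}

theorem sH_cons (π : A) (W : WW k B) :
    sH β p g (cons β π W) = - ∑ a, cons β (g a π) (snoc β (p a) (om W)) := by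
  rw [sH, LinearMap.sum_apply, ← Finset.sum_neg_distrib]
  refine Finset.sum_congr rfl fun a _ => ?_
  rw [LinearMap.comp_apply, LinearMap.comp_apply, om_cons, map_neg, map_neg, Hd_cons, cons_snoc]

theorem kap_apply (W : WW k B) :
    kap β p g W = W - bH β (sH β p g W) - sH β p g (bH β W) := rfl

theorem bH_kap (W : WW k B) : bH β (kap β p g W) = kap β p g (bH β W) := by
  rw [kap_apply, kap_apply, map_sub, map_sub, bH_bH, bH_bH, map_zero, sub_zero, sub_zero]

theorem bH_sH_cons (hg : GD P G p g) {π : A} (hπ : π ∈ P) (W : WW k B) :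
    bH β (sH β p g (cons β π W)) = cons β π W -
      ∑ a, d0 β (cons β (g a π) (snoc β (p a) (om W))) +
      ∑ a, cons β (g a π) (bp β (snoc β (p a) (om W))) := by
  have h1 : cons β π W = ∑ a, cons β (p a * g a π) W := by
    conv_lhs => rw [← hg.dec π hπ, map_sum, LinearMap.sum_apply]
  rw [sH_cons, map_neg, map_sum, h1]
  simp only [bH_cons_snoc, om_om, Finset.sum_sub_distrib]
  abel

theorem kap_one (hg : GD P G p g) {π : A} (hπ : π ∈ P) :
    kap β p g (cons β π (ww β [])) = ∑ a, cons β (g a π * p a) (ww β []) := by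
  rw [kap_apply, bH_one, map_zero, sub_zero, bH_sH_cons β hg hπ, om_nil]
  simp only [← cons_nil, d0_cons_cons, bp_one, map_zero, Finset.sum_const_zero]
  abel

theorem kap_snoc (hσ : Split σ) (hP : Bim σ P) (hF : Free σ P G p) (hg : GD P G p g)
    {π : A} (hπ : π ∈ P) (c : A) (V : WW k B) :
    kap β p g (cons β π (snoc β c V)) =
      ∑ a, cons β (g a π) (snoc β ((c - σ c) * p a) V) := by
  have h1 : sH β p g (d0 β (cons β π (snoc β c V))) =
      ∑ a, d0 β (cons β (g a π) (snoc β (p a) (om (snoc β c V)))) := by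
    have := ext_cons_snoc β (sH β p g ∘ₗ d0 β ∘ₗ cons β π)
      (∑ a, d0 β ∘ₗ cons β (g a π) ∘ₗ snoc β (p a) ∘ₗ om) (fun w W => by
        simp only [LinearMap.comp_apply, LinearMap.sum_apply]
        rw [d0_cons_cons, sH_cons, ← Finset.sum_neg_distrib]
        refine Finset.sum_congr rfl fun a _ => ?_
        rw [om_cons, map_neg, map_neg, map_neg, ← cons_snoc, d0_cons_cons,
          hg.mul_right hσ hP hF hπ]) c V
    simpa only [LinearMap.comp_apply, LinearMap.sum_apply] using this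
  have h2 : sH β p g (cons β (c * π) (om V)) =
      - ∑ a, cons β (g a π) (snoc β (σ c * p a) V) := by
    rw [sH_cons, om_om]
    congr 1
    exact hg.sum_mul hσ hP hF
      (LinearMap.mk₂ k (fun q γ => cons β γ (snoc β q V))
        (fun _ _ _ => by simp only [map_add, LinearMap.add_apply])
        (fun _ _ _ => by simp only [map_smul, LinearMap.smul_apply])
        (fun _ _ _ => by simp only [map_add, LinearMap.add_apply])
        (fun _ _ _ => by simp only [map_smul, LinearMap.smul_apply])) hπ c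
  have h3 : sH β p g (cons β π (bp β (snoc β c V))) =
      - ∑ a, cons β (g a π) (snoc β (p a) (bp β (snoc β c (om V)))) := by
    rw [sH_cons, om_bp, om_snoc, map_neg, neg_neg]
  have h4 : ∀ a, cons β (g a π) (bp β (snoc β (p a) (om (snoc β c V)))) =
      - cons β (g a π) (snoc β (p a) (bp β (snoc β c (om V)))) -
        cons β (g a π) (snoc β (c * p a) V) := fun a => by
    rw [om_snoc, map_neg, map_neg, map_neg, bp_snoc_snoc, om_om, map_add]
    abel
  rw [kap_apply, bH_sH_cons β hg hπ, bH_cons_snoc, map_sub, map_sub, h1, h2, h3]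
  simp only [h4, sub_mul, map_sub, LinearMap.sub_apply, Finset.sum_sub_distrib,
    Finset.sum_neg_distrib]
  abel

theorem sH_mem (hF : Free σ P G p) (hg : GD P G p g) {Ys : List (Submodule k A)}
    {W : WW k B} (hW : W ∈ SW β σ (P :: Ys)) : sH β p g W ∈ SW β σ (P :: Ys) :=
  SW_map (sH β p g) _ (fun y _ l hl => by
    rw [sH_cons]
    exact Submodule.neg_mem _ (Submodule.sum_mem _ fun a _ => cons_mem_SW (hF.le (hg.mem a y))
      (snoc_mem_CW_L (hF.fix a) (om_mem_CW (ww_mem_CW hl))))) hW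

theorem kap_span_one (hP : Bim σ P) (hF : Free σ P G p) (hg : GD P G p g) {lam : A}
    (hl : lam ∈ Submodule.span k (Set.range p)) {γ : A} (hγ : γ ∈ G) :
    kap β p g (cons β (lam * γ) (ww β [])) = cons β (γ * lam) (ww β []) := by
  rw [kap_one β hg ((hP γ (hF.le hγ)).2 lam).1]
  exact hg.sum_span
    (LinearMap.mk₂ k (fun q γ => cons β (γ * q) (ww β []))
      (fun _ _ _ => by simp only [mul_add, map_add, LinearMap.add_apply])
      (fun _ _ _ => by simp only [mul_smul_comm, map_smul, LinearMap.smul_apply])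
      (fun _ _ _ => by simp only [add_mul, map_add, LinearMap.add_apply])
      (fun _ _ _ => by simp only [smul_mul_assoc, map_smul, LinearMap.smul_apply])) hl hγ

theorem kap_span_snoc (hσ : Split σ) (hP : Bim σ P) (hF : Free σ P G p) (hg : GD P G p g)
    {lam : A} (hl : lam ∈ Submodule.span k (Set.range p)) {γ : A} (hγ : γ ∈ G) {y : A}
    (hy : σ y = 0) (V : WW k B) :
    kap β p g (cons β (lam * γ) (snoc β y V)) = cons β γ (snoc β (y * lam) V) := by
  rw [kap_snoc β hσ hP hF hg ((hP γ (hF.le hγ)).2 lam).1, hy, sub_zero]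
  exact hg.sum_span
    (LinearMap.mk₂ k (fun q γ => cons β γ (snoc β (y * q) V))
      (fun _ _ _ => by simp only [mul_add, map_add, LinearMap.add_apply])
      (fun _ _ _ => by simp only [mul_smul_comm, map_smul, LinearMap.smul_apply])
      (fun _ _ _ => by simp only [map_add, LinearMap.add_apply])
      (fun _ _ _ => by simp only [map_smul, LinearMap.smul_apply])) hl hγ

end Htp

section KK

/-- Apply `φ` to the last letter. -/
noncomputable def Tl (φ : End k A) : End k (WW k B) :=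
  HdT β (LinearMap.mulRight k (om : End k (WW k B)) ∘ₗ snoc β ∘ₗ φ) ∘ₗ TH k B

theorem Tl_snoc (φ : End k A) (a : A) (W : WW k B) :
    Tl β φ (snoc β a W) = snoc β (φ a) W := by
  rw [Tl, LinearMap.comp_apply, TH_snoc, HdT_cons]
  simp only [LinearMap.comp_apply, LinearMap.mulRight_apply, End.mul_apply, om_om]

/-- Apply `u` to the first letter, then `r` to the last letter. -/
noncomputable def KK (u r : End k A) : End k (WW k B) := Tl β r ∘ₗ Hd β u

theorem KK_one (u r : End k A) (y : A) :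
    KK β u r (cons β y (ww β [])) = cons β (r (u y)) (ww β []) := by
  rw [KK, LinearMap.comp_apply, Hd_cons, cons_nil, Tl_snoc, cons_nil]

theorem KK_snoc (u r : End k A) (y c : A) (V : WW k B) :
    KK β u r (cons β y (snoc β c V)) = cons β (u y) (snoc β (r c) V) := by
  rw [KK, LinearMap.comp_apply, Hd_cons, cons_snoc, Tl_snoc, cons_snoc]

theorem bH_KK_one (u r : End k A) (y : A) :
    bH β (KK β u r (cons β y (ww β []))) = KK β u r (bH β (cons β y (ww β []))) := by
  rw [KK_one, bH_one, bH_one, map_zero]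

theorem bH_KK_snoc (hσ : Split σ) {u r : End k A}
    (hu : ∀ y, σ y = 0 → σ (u y) = 0 ∧ ∀ c, u (y * c) = u y * c)
    (hr : ∀ y, σ y = 0 → σ (r y) = 0 ∧ ∀ c, r (c * y) = c * r y)
    {y c : A} (hy : σ y = 0) (hc : σ c = 0) (V : WW k B) :
    bH β (KK β u r (cons β y (snoc β c V))) = KK β u r (bH β (cons β y (snoc β c V))) := by
  have h1 : KK β u r (d0 β (cons β y (snoc β c V))) =
      d0 β (cons β (u y) (snoc β (r c) V)) :=
    ext_cons β (KK β u r ∘ₗ d0 β ∘ₗ cons β y ∘ₗ snoc β c)
      (d0 β ∘ₗ cons β (u y) ∘ₗ snoc β (r c))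
      (by
        simp only [LinearMap.comp_apply]
        rw [← cons_nil, ← cons_nil, d0_cons_cons, d0_cons_cons, hσ.sq _ _ hy hc,
          hσ.sq _ _ (hu y hy).1 (hr c hc).1]
        simp only [map_zero, LinearMap.zero_apply])
      (fun w W => by
        simp only [LinearMap.comp_apply]
        rw [← cons_snoc, ← cons_snoc, d0_cons_cons, d0_cons_cons, KK_snoc, (hu y hy).2]) V
  have h2 : KK β u r (cons β y (bp β (snoc β c V))) =
      cons β (u y) (bp β (snoc β (r c) V)) :=
    ext_snoc β (KK β u r ∘ₗ cons β y ∘ₗ bp β ∘ₗ snoc β c)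
      (cons β (u y) ∘ₗ bp β ∘ₗ snoc β (r c))
      (by
        simp only [LinearMap.comp_apply]
        rw [← cons_nil, ← cons_nil, bp_one, bp_one]
        simp only [map_zero])
      (fun w W => by
        simp only [LinearMap.comp_apply]
        rw [bp_snoc_snoc, bp_snoc_snoc, map_add, map_add, map_add, KK_snoc, KK_snoc,
          (hr c hc).2]) V
  rw [KK_snoc, bH_cons_snoc, bH_cons_snoc, map_sub, map_sub, h1, h2, hσ.sq _ _ hc hy,
    hσ.sq _ _ (hr c hc).1 (hu y hy).1]
  simp only [map_zero, LinearMap.zero_apply]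

end KK

section Junc

theorem junc_one {Y₁ X Y₂ : End k A} (h₂ : BMap σ Y₂) {y : A} (hy : σ y = 0) :
    junc β σ (([] : List (Submodule k A)).length + 1) Y₁ X Y₂ (cons β y (ww β [])) =
      cons β (Y₁ y) (ww β []) - cons β (X (Y₂ y)) (ww β []) := by
  have h : ∀ (φ : End k A) {z : A}, σ z = 0 →
      Sl β σ 1 0 φ (cons β z (ww β [])) = cons β (φ z) (ww β []) := fun φ z hz => by
    change Op β σ [φ] _ = _
    rw [Op_cons_M β σ _ _ hz, Op_nil_nil]
  change (Sl β σ 1 0 Y₁ - Sl β σ 1 0 X * Sl β σ 1 0 Y₂) _ = _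
  rw [LinearMap.sub_apply, End.mul_apply, h _ hy, h _ hy, h _ (h₂ y hy).1]

theorem junc_snoc {Y₁ X Y₂ : End k A} (h₂ : BMap σ Y₂) {Zs : List (Submodule k A)}
    (hZs : ∀ Z ∈ Zs, ∀ y ∈ Z, σ y = 0) (Y : Submodule k A) {γ y : A} (hγ : σ γ = 0)
    (hy : σ y = 0) {V : WW k B} (hV : V ∈ CW β σ Zs) :
    junc β σ ((Zs ++ [Y]).length + 1) Y₁ X Y₂ (cons β γ (snoc β y V)) =
      cons β γ (snoc β (Y₁ y) V) - cons β (X γ) (snoc β (Y₂ y) V) := by
  have h : ∀ (φ ψ : End k A) {z : A}, σ z = 0 →
      Op β σ (φ :: (List.replicate Zs.length 1 ++ [ψ])) (cons β γ (snoc β z V)) =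
        cons β (φ γ) (snoc β (ψ z) V) := fun φ ψ z hz => by
    rw [Op_cons_M β σ _ _ hγ, Op_snoc_M β σ _ _ hz, Op_one hZs hV]
  have e1 : ∀ φ : End k A, Sl β σ (Zs.length + 1 + 1) (Zs.length + 1 + 1 - 1) φ =
      Op β σ (1 :: (List.replicate Zs.length 1 ++ [φ])) := fun φ => by
    rw [Sl, Nat.add_sub_cancel, List.replicate_succ, List.set_cons_succ, List.replicate_succ',
      List.set_append_right _ _ (by simp)]
    simp
  have e2 : ∀ φ : End k A, Sl β σ (Zs.length + 1 + 1) 0 φ =
      Op β σ (φ :: (List.replicate Zs.length 1 ++ [1])) := fun φ => by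
    rw [Sl, List.replicate_succ, List.set_cons_zero, List.replicate_succ']
  rw [List.length_append, List.length_singleton, junc, e1, e1, e2, LinearMap.sub_apply,
    End.mul_apply, h _ _ hy, h _ _ hy, End.one_apply, h _ _ (h₂ y hy).1, End.one_apply]

theorem comm_junc (hσ : Split σ) {Y₁ X Y₂ : End k A} (h₁ : BMap σ Y₁) (hX : BMap σ X)
    (h₂ : BMap σ Y₂) {P : Submodule k A} {Ys : List (Submodule k A)}
    (hYs : ∀ Z ∈ P :: Ys, Bim σ Z) (hm : ∀ Z ∈ P :: Ys, ∀ y ∈ Z, Y₁ y ∈ Z ∧ Y₂ y ∈ Z)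
    (hXP : ∀ y ∈ P, X y ∈ P) :
    Comm (bH β) (SW β σ (P :: Ys)) (junc β σ (Ys.length + 1) Y₁ X Y₂) :=
  Comm.sub
    (comm_Sl (β := β) hσ hYs h₁ _ fun hi y hy => (hm _ (List.getElem_mem hi) y hy).1)
    (Comm.mul (comm_Sl (β := β) hσ hYs hX 0 fun _ y hy => hXP y hy)
      (comm_Sl (β := β) hσ hYs h₂ _ fun hi y hy => (hm _ (List.getElem_mem hi) y hy).2))

end Junc

end JunAR

end Pool.Agent.MP_92f1cb_al.H14C
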