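import Pool.Agent.MP_92f1cb_al.H14C.Spec

set_option autoImplicit false

namespace Pool.Agent.MP_92f1cb_al.H14C

open Pool.Agent.MP_92f1cb_al.H14 Module MvPolynomial

namespace JunCR

variable {k : Type} [Field k]

theorem single_mem {i j : Fin 3} {q : KX k} (h : j ≤ i) (hq : q.IsHomogeneous (i - j)) :
    Matrix.single i j q ∈ Lalg k := by
  intro a b
  rw [Matrix.single_apply]
  split_ifs with hab
  · obtain ⟨rfl, rfl⟩ := hab
    exact ⟨fun _ => hq, fun h' => absurd h (not_le.2 h')⟩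
  · exact ⟨fun _ => isHomogeneous_zero _ _ _, fun _ => rfl⟩

/-- Pairs of a row and a monomial of the right degree. -/
abbrev Ix (w : Fin 3) : Type := {a : Fin 3 × (Fin 3 →₀ ℕ) // a.2.degree + (w : ℕ) = a.1}

instance (w : Fin 3) : Finite (Ix w) :=
  ((Set.finite_univ.prod (Finsupp.finite_of_degree_le (σ := Fin 3) 2)).subset
    (t := {a : Fin 3 × (Fin 3 →₀ ℕ) | a.2.degree + (w : ℕ) = a.1}) fun a ha =>
      ⟨trivial, by
        have h1 : a.2.degree + (w : ℕ) = a.1 := ha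
        have h2 := a.1.2
        show a.2.degree ≤ 2
        omega⟩).to_subtype

noncomputable instance (w : Fin 3) : Fintype (Ix w) := Fintype.ofFinite _

theorem coeff_ix {R : Type} [CommRing R] (w i : Fin 3) (c : Ix w → R) (m : Fin 3 →₀ ℕ) :
    coeff m (∑ a : Ix w, if a.1.1 = i then monomial a.1.2 (c a) else 0) =
      if h : m.degree + (w : ℕ) = i then c ⟨(i, m), h⟩ else 0 := by
  have h0 : ∀ a : Ix w, a.1 ≠ (i, m) →
      coeff m (if a.1.1 = i then monomial a.1.2 (c a) else 0) = 0 := fun a ha => by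
    split_ifs with h1
    · rw [coeff_monomial, if_neg fun h2 => ha (Prod.ext h1 h2)]
    · exact coeff_zero _
  rw [coeff_sum]
  split_ifs with h
  · rw [Finset.sum_eq_single ⟨(i, m), h⟩ (fun a _ ha => h0 a fun e => ha (Subtype.ext e))
      fun h1 => absurd (Finset.mem_univ _) h1]
    simp
  · exact Finset.sum_eq_zero fun a _ => h0 a fun e => h (by simpa only [e] using a.2)

theorem expand_ix {R : Type} [CommRing R] (w i : Fin 3) (F : Fin 3 → MvPolynomial (Fin 3) R)
    (h1 : w ≤ i → (F i).IsHomogeneous (i - w)) (h2 : i < w → F i = 0) :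
    F i = ∑ a : Ix w, if a.1.1 = i then monomial a.1.2 (coeff a.1.2 (F a.1.1)) else 0 := by
  ext m
  rw [coeff_ix w i fun a => coeff a.1.2 (F a.1.1)]
  split_ifs with h
  · rfl
  · by_cases hw : w ≤ i
    · have := Fin.le_def.1 hw
      exact (h1 hw).coeff_eq_zero (by omega)
    · rw [h2 (not_le.1 hw), coeff_zero]

/-- The basis of a column of the triangular algebra. -/
noncomputable def pL (k : Type) [Field k] (w : Fin 3) (a : Ix w) : Lalg k :=
  ⟨Matrix.single a.1.1 w (monomial a.1.2 1), single_mem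
    (Fin.le_def.2 (by have := a.2; omega)) (isHomogeneous_monomial _ (by have := a.2; omega))⟩

/-- The diagonal idempotents. -/
noncomputable def eL (k : Type) [Field k] (w : Fin 3) : Lalg k :=
  ⟨Matrix.single w w 1, single_mem le_rfl (by rw [Nat.sub_self]; exact isHomogeneous_one _ _)⟩

theorem col_span (w : Fin 3) (N : Lalg k) (h : ∀ i j, j ≠ w → N.1 i j = 0) :
    N ∈ Submodule.span k (Set.range (pL k w)) := by
  have e : N = ∑ a : Ix w, coeff a.1.2 (N.1 a.1.1 w) • pL k w a := by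
    refine Subtype.ext (Matrix.ext fun i j => ?_)
    simp only [AddSubmonoidClass.coe_finsetSum, SetLike.val_smul, pL, Matrix.sum_apply,
      Matrix.smul_apply, Matrix.single_apply]
    by_cases hj : j = w
    · subst hj
      rw [expand_ix j i (fun i => N.1 i j) (N.2 i j).1 (N.2 i j).2]
      exact Finset.sum_congr rfl fun a _ => by
        by_cases h1 : a.1.1 = i <;> simp [h1, smul_monomial]
    · rw [h i j hj]
      exact (Finset.sum_eq_zero fun a _ => by simp [Ne.symm hj]).symm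
  rw [e]
  exact Submodule.sum_mem _ fun a _ =>
    Submodule.smul_mem _ _ (Submodule.subset_span ⟨a, rfl⟩)

/-- Constant entries in one row. -/
noncomputable def rp (k : Type) [Field k] (w i _j : Fin 3) : Submodule k (SS k) :=
  if i = w then LinearMap.range (cS k).toLinearMap else ⊥

theorem mem_rp {w i j : Fin 3} {f : SS k} :
    f ∈ rp k w i j ↔ (∃ c, f = C c) ∧ (i ≠ w → f = 0) := by
  unfold rp
  split_ifs with h
  · exact ⟨fun ⟨c, hc⟩ => ⟨⟨c, hc.symm⟩, fun h1 => absurd h h1⟩, fun ⟨⟨c, hc⟩, _⟩ => ⟨c, hc.symm⟩⟩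
  · exact ⟨fun h1 => ⟨⟨0, h1.trans C_0.symm⟩, fun _ => h1⟩, fun h1 => h1.2 h⟩

theorem mem_zf {w : ℕ} {i j : Fin 3} {f : SS k} :
    f ∈ zf k w i j ↔ (w ≤ i → f.IsHomogeneous (i - w)) ∧ ((i : ℕ) < w → f = 0) := by
  unfold zf
  split_ifs with h
  · exact ⟨fun h1 => ⟨fun _ => h1, fun h2 => absurd h (not_le.2 h2)⟩, fun h1 => h1.1 h⟩
  · exact ⟨fun h1 => ⟨fun h2 => absurd h2 h, fun _ => h1⟩, fun h1 => h1.2 (not_le.1 h)⟩

theorem zS_mon (m : Fin 3 →₀ ℕ) : zS k (monomial m 1) = monomial m 1 := by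
  simp [zS, monomial_eq]

theorem yS_C (q : KX k) : ∃ c, yS k q = C c :=
  ⟨aeval (yv k) q, by
    have e : yS k = (cS k).comp (aeval (yv k)) := algHom_ext fun t => by simp [yS, cS_apply]
    rw [e]; rfl⟩

theorem single_row {R : Type} [CommRing R] {w : Fin 3} {f : Matrix (Fin 3) (Fin 3) R}
    (h : ∀ i j, i ≠ w → f i j = 0) (x : R) : Matrix.single w w x * f = x • f := by
  refine Matrix.ext fun i j => ?_
  by_cases hi : i = w
  · subst hi; simp
  · rw [Matrix.single_mul_apply_of_ne _ _ _ _ _ hi, Matrix.smul_apply, h i j hi, smul_zero]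

theorem one_mul_emb (a b : Fin 3) (I : Ideal (SS k)) (f : Matrix (Fin 3) (Fin 3) (SS k)) :
    (Matrix.single a b 1 : Mat k) * f.map (emb I) = (Matrix.single a b 1 * f).map (emb I) := by
  refine Matrix.ext fun i j => ?_
  by_cases hi : i = a
  · subst hi; simp
  · simp [Matrix.single_mul_apply_of_ne _ _ _ _ _ hi]

theorem emb_mul_one (a b : Fin 3) (I : Ideal (SS k)) (f : Matrix (Fin 3) (Fin 3) (SS k)) :
    f.map (emb I) * (Matrix.single a b 1 : Mat k) = (f * Matrix.single a b 1).map (emb I) := by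
  refine Matrix.ext fun i j => ?_
  by_cases hj : j = b
  · subst hj; simp
  · simp [Matrix.mul_single_apply_of_ne _ _ _ _ _ hj]

theorem rgt_single {a b : Fin 3} {q : KX k} (h : Matrix.single a b q ∈ Lalg k) :
    rgt k ⟨_, h⟩ = yS k q • Matrix.single a b 1 := by
  refine Matrix.ext fun i j => ?_
  rw [rgt_apply, Matrix.smul_apply, Matrix.single_apply]
  show algebraMap _ _ (yS k (Matrix.single a b q i j)) = _
  rw [Matrix.single_apply]
  split_ifs
  · exact Algebra.algebraMap_eq_smul_one _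
  · rw [map_zero, map_zero, smul_zero]

variable {A : Type} [Ring A] [Algebra k A] (M : Model k A)

/-- The class of a matrix. -/
noncomputable def EM (I : Ideal (SS k)) : Matrix (Fin 3) (Fin 3) (SS k) →+ A :=
  M.inM.toAddMonoidHom.comp (emb I).toAddMonoidHom.mapMatrix

theorem EM_apply (I : Ideal (SS k)) (f : Matrix (Fin 3) (Fin 3) (SS k)) :
    M.inM (f.map (emb I)) = EM M I f := rfl

theorem EM_zero {I : Ideal (SS k)} {f : Matrix (Fin 3) (Fin 3) (SS k)} :
    M.inM (f.map (emb I)) = 0 ↔ ∀ i j, f i j ∈ I := by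
  constructor
  · intro h i j
    exact emb_eq_zero.1 (congrFun (congrFun (M.inM_inj (h.trans (map_zero _).symm)) i) j)
  · intro h
    rw [← map_zero M.inM]
    exact congrArg _ (Matrix.ext fun i j => emb_eq_zero.2 (h i j))

theorem sum_p (w : Fin 3) (I : Ideal (SS k)) (g : Ix w → Matrix (Fin 3) (Fin 3) (SS k))
    (c : Ix w → Fin 3 → R0 k) (hc : ∀ a j, g a w j = C (c a j)) :
    ∑ a, M.inL (pL k w a) * M.inM ((g a).map (emb I)) = M.inM ((Matrix.of fun i j =>
      ∑ a : Ix w, if a.1.1 = i then monomial a.1.2 (c a j) else 0).map (emb I)) := by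
  simp only [M.L_mul_M, lam_mul_emb]
  simp only [EM_apply, ← map_sum]
  congr 1
  refine Matrix.ext fun i j => ?_
  rw [Matrix.sum_apply, Matrix.of_apply]
  refine Finset.sum_congr rfl fun a _ => ?_
  simp only [pL, Matrix.map_single, zS_mon]
  split_ifs with h
  · subst h
    rw [Matrix.single_mul_apply_same, hc, mul_comm, C_mul_monomial, mul_one]
  · exact Matrix.single_mul_apply_of_ne _ _ _ _ _ (Ne.symm h) _

theorem col_mem (w : Fin 3) (N : Lalg k) (h : ∀ i j, j ≠ w → N.1 i j = 0) :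
    M.inL N ∈ Submodule.span k (Set.range fun a => M.inL (pL k w a)) := by
  have := Submodule.mem_map_of_mem (f := M.inL.toLinearMap) (col_span w N h)
  rwa [Submodule.map_span, ← Set.range_comp] at this

theorem free (J : Ideal (R0 k)) (w : Fin 3) :
    Free M.σ (M.YY (J.map (C : R0 k →+* SS k)) (zf k w))
      (M.YY (J.map (C : R0 k →+* SS k)) (rp k w)) fun a => M.inL (pL k w a) where
  fix a := M.σ_inL _
  le := by
    rintro _ ⟨f, hf, rfl⟩
    refine ⟨f, fun i j => mem_zf.2 ⟨fun _ => ?_, fun h => (mem_rp.1 (hf i j)).2 ?_⟩, rfl⟩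
    · obtain ⟨⟨c, hc⟩, h0⟩ := mem_rp.1 (hf i j)
      by_cases hi : i = w
      · rw [hc, hi, Nat.sub_self]
        exact isHomogeneous_C _ _
      · rw [h0 hi]
        exact isHomogeneous_zero _ _ _
    · exact fun e => by simp [e] at h
  span := by
    rintro _ ⟨f, hf, rfl⟩
    refine ⟨fun a => M.inM ((Matrix.of fun i j =>
      if i = w then C (coeff a.1.2 (f a.1.1 j)) else 0).map (emb _)),
      fun a => ⟨_, fun i j => mem_rp.2 ?_, rfl⟩, ?_⟩
    · rw [Matrix.of_apply]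
      split_ifs with h
      · exact ⟨⟨_, rfl⟩, fun h1 => absurd h h1⟩
      · exact ⟨⟨0, C_0.symm⟩, fun _ => rfl⟩
    · rw [sum_p M w _ _ (fun a j => coeff a.1.2 (f a.1.1 j)) fun a j => by simp]
      congr 2
      exact Matrix.ext fun i j => expand_ix w i (fun i => f i j) (mem_zf.1 (hf i j)).1
        (mem_zf.1 (hf i j)).2
  indep γ hγ h a := by
    choose g hg e using hγ
    choose c hc using fun a j => (mem_rp.1 (hg a w j)).1
    simp only [e] at h
    rw [sum_p M w _ g c hc, EM_zero] at h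
    rw [e, EM_zero]
    intro i j
    by_cases hi : i = w
    · have h1 := MvPolynomial.mem_map_C_iff.1 (h a.1.1 j) a.1.2
      rw [Matrix.of_apply, coeff_ix w a.1.1 fun a => c a j, dif_pos a.2] at h1
      rw [hi, hc]
      exact Ideal.mem_map_of_mem _ h1
    · rw [(mem_rp.1 (hg a i j)).2 hi]
      exact zero_mem _
  lmul c hc a := by
    rw [M.eq_inL hc, ← map_mul]
    exact col_mem M w _ fun i j hj => Matrix.mul_single_apply_of_ne _ _ _ _ _ hj _
  rmul := by
    rintro _ ⟨f, hf, rfl⟩ c -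
    rw [M.inM_mul, emb_mul_rgt]
    refine ⟨_, fun i j => ?_, rfl⟩
    rw [Matrix.mul_apply]
    refine Submodule.sum_mem _ fun t _ => mem_rp.2 ?_
    obtain ⟨⟨a, ha⟩, h0⟩ := mem_rp.1 (hf i t)
    obtain ⟨b, hb⟩ := yS_C ((M.prL c).1 t j)
    exact ⟨⟨a * b, by rw [Matrix.map_apply, ha, hb, C_mul]⟩, fun hi => by rw [h0 hi, zero_mul]⟩

/-- Left multiplication by a matrix unit. -/
noncomputable def Lm (a b : Fin 3) : End k A :=
  M.inM ∘ₗ LinearMap.mulLeft k (Matrix.single a b 1 : Mat k) ∘ₗ M.prM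

/-- Right multiplication by a matrix unit. -/
noncomputable def Rm (a b : Fin 3) : End k A :=
  M.inM ∘ₗ LinearMap.mulRight k (Matrix.single a b 1 : Mat k) ∘ₗ M.prM

theorem Lm_inM (a b : Fin 3) (μ : Mat k) :
    Lm M a b (M.inM μ) = M.inM (Matrix.single a b 1 * μ) := by
  simp only [Lm, LinearMap.comp_apply, M.prM_inM, LinearMap.mulLeft_apply]

theorem Rm_inM (a b : Fin 3) (μ : Mat k) :
    Rm M a b (M.inM μ) = M.inM (μ * Matrix.single a b 1) := by
  simp only [Rm, LinearMap.comp_apply, M.prM_inM, LinearMap.mulRight_apply]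

theorem ker_ind {P : A → Prop} (h : ∀ μ, P (M.inM μ)) (y : A) (hy : M.σ y = 0) : P y :=
  M.eq_inM hy ▸ h _

theorem move (I : Ideal (SS k)) (a b : Fin 3) : ∀ γ ∈ M.YY I (rp k b),
    Lm M a b γ ∈ M.YY I (rp k a) ∧ Lm M b a (Lm M a b γ) = γ := by
  rintro _ ⟨f, hf, rfl⟩
  rw [Lm_inM, Lm_inM, ← mul_assoc, Matrix.single_mul_single_same, mul_one, one_mul_emb,
    one_mul_emb, single_row (fun i j => (mem_rp.1 (hf i j)).2), one_smul]
  refine ⟨⟨_, fun i j => mem_rp.2 ?_, rfl⟩, rfl⟩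
  by_cases hi : i = a
  · subst hi
    rw [Matrix.single_mul_apply_same, one_mul]
    exact ⟨(mem_rp.1 (hf b j)).1, fun h => absurd rfl h⟩
  · rw [Matrix.single_mul_apply_of_ne _ _ _ _ _ hi]
    exact ⟨⟨0, C_0.symm⟩, fun _ => rfl⟩

theorem Rm_mem (I : Ideal (SS k)) (D : Fin 3 → Fin 3 → Submodule k (SS k)) (a b : Fin 3)
    (h : ∀ i, D i a ≤ D i b) : ∀ γ ∈ M.YY I D, Rm M a b γ ∈ M.YY I D := by
  rintro _ ⟨f, hf, rfl⟩
  rw [Rm_inM, emb_mul_one]
  refine ⟨_, fun i j => ?_, rfl⟩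
  by_cases hj : j = b
  · subst hj
    rw [Matrix.mul_single_apply_same, mul_one]
    exact h i (hf i a)
  · rw [Matrix.mul_single_apply_of_ne _ _ _ _ _ hj]
    exact zero_mem _

theorem mulC_mem (I : Ideal (SS k)) (w : ℕ) (c : R0 k) :
    ∀ y ∈ M.YY I (zf k w), M.mulS (C c) y ∈ M.YY I (zf k w) := by
  rintro _ ⟨f, hf, rfl⟩
  rw [M.mulS_emb]
  refine ⟨_, fun i j => mem_zf.2 ⟨fun h => ?_, fun h => ?_⟩, rfl⟩
  · exact ((mem_zf.1 (hf i j)).1 h).C_mul c
  · rw [Matrix.smul_apply, (mem_zf.1 (hf i j)).2 h, smul_zero]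

end JunCR

open JunCR in
theorem junC (hM : SMod) : SJunC := by
  intro k A _ _ _ M J s l v hv
  let a : Fin 3 := ⟨v, by omega⟩
  let b : Fin 3 := ⟨v + 1, by omega⟩
  have hX : ∀ t : Fin 3, Matrix.single b a (X t : KX k) ∈ Lalg k := fun t =>
    single_mem (Fin.le_def.2 (Nat.le_succ v)) (by
      rw [show (b : ℕ) - a = 1 from Nat.add_sub_cancel_left ..]
      exact isHomogeneous_X _ _)
  have hJ : ∀ f ∈ J.map (C : R0 k →+* SS k), lf k s l * f ∈ J.map (C : R0 k →+* SS k) :=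
    fun f hf => Ideal.mul_mem_left _ _ hf
  have he : ∀ (w : Fin 3) (c : Ix w), M.inL (pL k w c) * M.inL (eL k w) = M.inL (pL k w c) :=
    fun w c => by
      rw [← map_mul]
      exact congrArg _ (Subtype.ext ((Matrix.single_mul_single_same ..).trans (by
        rw [mul_one]; rfl)))
  have hl : ∀ t, M.inL ⟨_, hX t⟩ ∈ Submodule.span k (Set.range fun c => M.inL (pL k a c)) :=
    fun t => col_mem M a _ fun i j hj => Matrix.single_apply_of_col_ne _ _ (Ne.symm hj) _
  have hy : ∀ t, yS k (X t) = C (yv k t) := fun t => aeval_X _ _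
  have hz : ∀ t, zS k (X t) = X t := fun t => aeval_X _ _
  have h1 : ∀ t (μ : Mat k), Rm M a b (M.inM μ) * M.inL ⟨_, hX t⟩ =
      M.mulS (C (yv k t)) (M.inM μ * M.inL (eL k a)) := fun t μ => by
    rw [Rm_inM, M.M_mul_L, M.M_mul_L, M.mulS_inM, eL, rgt_single, rgt_single, hy, map_one,
      one_smul, Matrix.mul_smul, mul_assoc, Matrix.single_mul_single_same, mul_one]
  have h2 : ∀ t (μ : Mat k), Rm M a b (M.inM μ * M.inL ⟨_, hX t⟩) =
      M.mulS (C (yv k t)) (M.inM μ * M.inL (eL k b)) := fun t μ => by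
    rw [M.M_mul_L, Rm_inM, M.M_mul_L, M.mulS_inM, eL, rgt_single, rgt_single, hy, map_one,
      one_smul, Matrix.mul_smul, Matrix.smul_mul, mul_assoc, Matrix.single_mul_single_same, mul_one]
  refine ⟨Ix a, Ix b, inferInstance, inferInstance, _, _, _, _, M.inL (eL k a), M.inL (eL k b),
    M.inL ⟨_, hX l⟩, M.inL ⟨_, hX s⟩, Lm M b a, Lm M a b, Rm M a b,
    { bim := (hM k A M).1 _ _
      bim' := (hM k A M).1 _ _
      free := free M J a
      free' := free M J b
      fixe := M.σ_inL _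
      fixe' := M.σ_inL _
      le := he a
      le' := he b
      l₁mem := hl l
      l₂mem := hl s
      bell := M.bmap_tr _ _ _
      bY₁ := M.bmap_mulS _
      bX := M.bmap_mulS _
      bY₂ := M.bmap_mulS _
      ellP := ?_
      mulP := fun y h => ⟨mulC_mem M _ _ _ y h, mulC_mem M _ _ _ y h, mulC_mem M _ _ _ y h⟩
      mulP' := fun y h => ⟨mulC_mem M _ _ _ y h, mulC_mem M _ _ _ y h, mulC_mem M _ _ _ y h⟩
      XG := ?_
      ulin := ker_ind M fun μ => ⟨by rw [Lm_inM, M.σ_inM], fun c => by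
        rw [M.inM_mul, Lm_inM, Lm_inM, M.inM_mul, mul_assoc]⟩
      rlin := ker_ind M fun μ => ⟨by rw [Rm_inM, M.σ_inM], fun c => by
        rw [M.mul_inM, Rm_inM, Rm_inM, M.mul_inM, mul_assoc]⟩
      uG := move M _ b a
      dG := move M _ a b
      rG := Rm_mem M _ _ a b fun _ => le_rfl
      ellG := ?_
      r₁ := ker_ind M fun μ => ⟨h1 l μ, h1 s μ⟩
      r₂ := ker_ind M fun μ => ⟨h2 l μ, h2 s μ⟩
      ur := ker_ind M fun μ => by rw [Rm_inM, Lm_inM, Lm_inM, Rm_inM, mul_assoc]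
      uX := ker_ind M fun μ => by
        rw [M.mulS_inM, Lm_inM, Lm_inM, M.mulS_inM, Matrix.mul_smul]
      rX := ker_ind M fun μ => by
        rw [M.mulS_inM, Rm_inM, Rm_inM, M.mulS_inM, Matrix.smul_mul] },
    fun I => Rm_mem M _ _ a b fun _ => le_rfl⟩
  · rintro _ ⟨f, hf, rfl⟩
    rw [M.tr_emb hJ]
    refine ⟨_, fun i j => ?_, rfl⟩
    rw [Matrix.smul_apply, smul_eq_mul]
    by_cases hi : v + 1 ≤ i
    · refine mem_zf.2 ⟨fun _ => ?_, fun h => by omega⟩
      have h3 : (lf k s l).IsHomogeneous 1 :=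
        (isHomogeneous_X _ _).sub ((isHomogeneous_X _ _).C_mul _)
      have h4 := h3.mul ((mem_zf.1 (hf i j)).1 hi)
      rwa [show 1 + ((i : ℕ) - (v + 1)) = i - v by omega] at h4
    · rw [(mem_zf.1 (hf i j)).2 (not_le.1 hi), mul_zero]
      exact zero_mem _
  · rintro _ ⟨f, hf, rfl⟩
    rw [M.mulS_emb]
    refine ⟨_, fun i j => mem_rp.2 ?_, rfl⟩
    obtain ⟨⟨c, hc⟩, h0⟩ := mem_rp.1 (hf i j)
    rw [Matrix.smul_apply, smul_eq_mul]
    exact ⟨⟨xv k l * c, by rw [hc, C_mul]⟩, fun hi => by rw [h0 hi, mul_zero]⟩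
  · rintro _ ⟨f, hf, rfl⟩
    have h0 := fun i j => (mem_rp.1 (hf i j)).2
    rw [M.tr_emb hJ, Lm_inM, one_mul_emb, M.mulS_emb, M.L_mul_M, M.L_mul_M, lam_mul_emb,
      lam_mul_emb, EM_apply, EM_apply, EM_apply, ← map_sub]
    congr 1
    simp only [Matrix.map_single, hz, Matrix.mul_smul, ← mul_assoc,
      Matrix.single_mul_single_same, mul_one, single_row h0, lf]
    refine Matrix.ext fun i j => ?_
    simp only [Matrix.smul_apply, Matrix.sub_apply, smul_eq_mul]
    ring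

end Pool.Agent.MP_92f1cb_al.H14C
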