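import Pool.Agent.MP_92f1cb_al.H14C.Defs

set_option autoImplicit false

namespace Pool.Agent.MP_92f1cb_al.H14C

open Module

variable {k X : Type} [Field k] [AddCommGroup X] [Module k X] {b F G : End k X}
  {S₁ S₂ S₃ : Submodule k X}

theorem ex_iff_kill {S : Submodule k X} : Ex b S ↔ Kill b S 1 := Iff.rfl

theorem ex_bot : Ex b ⊥ := fun z hz _ => ⟨0, Submodule.zero_mem _, by
  rw [map_zero, (Submodule.mem_bot k).1 hz]⟩

theorem Comm.mul {S : Submodule k X} {t t' : End k X} (h : Comm b S t) (h' : Comm b S t') :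
    Comm b S (t * t') := fun x hx =>
  ⟨(h _ (h' x hx).1).1, by
    rw [End.mul_apply, End.mul_apply, (h _ (h' x hx).1).2, (h' x hx).2]⟩

theorem Comm.sub {S : Submodule k X} {t t' : End k X} (h : Comm b S t) (h' : Comm b S t') :
    Comm b S (t - t') := fun x hx =>
  ⟨S.sub_mem (h x hx).1 (h' x hx).1, by
    rw [LinearMap.sub_apply, LinearMap.sub_apply, map_sub, (h x hx).2, (h' x hx).2]⟩

theorem Comm.pow {S : Submodule k X} {t : End k X} (h : Comm b S t) (n : ℕ) :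
    Comm b S (t ^ n) := by
  induction n with
  | zero => exact fun x hx => ⟨by simpa using hx, by simp⟩
  | succ n ih => rw [pow_succ]; exact ih.mul h

theorem CSES.mid (h : CSES b F G S₁ S₂ S₃) (h₁ : Ex b S₁) (h₃ : Ex b S₃) : Ex b S₂ := by
  intro z hz hb
  obtain ⟨u, hu, hbu⟩ := h₃ (G z) (h.ses.mapG z hz) (by rw [h.comG z hz, hb, map_zero])
  obtain ⟨v, hv, rfl⟩ := h.ses.surj u hu
  have hm : z - b v ∈ S₂ := S₂.sub_mem hz (h.b₂ v hv)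
  obtain ⟨y, hy, hFy⟩ := (h.ses.ex _ hm).1 (by rw [map_sub, ← h.comG v hv, hbu, sub_self])
  have hby : b y = 0 := h.ses.inj _ (h.b₁ y hy) (by
    rw [← h.comF y hy, hFy, map_sub, hb, h.sq, sub_self])
  obtain ⟨w, hw, hbw⟩ := h₁ y hy hby
  exact ⟨v + F w, S₂.add_mem hv (h.ses.mapF w hw), by
    rw [map_add, h.comF w hw, hbw, hFy]; abel⟩

theorem CSES.inj (h : CSES b F G S₁ S₂ S₃) (h₃ : Ex b S₃) {z : X} (hz : z ∈ S₁)
    {u : X} (hu : u ∈ S₂) (hbu : b u = F z) : ∃ v ∈ S₁, b v = z := by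
  obtain ⟨w, hw, hbw⟩ := h₃ (G u) (h.ses.mapG u hu) (by
    rw [h.comG u hu, hbu]; exact (h.ses.ex _ (h.ses.mapF z hz)).2 ⟨z, hz, rfl⟩)
  obtain ⟨v, hv, rfl⟩ := h.ses.surj w hw
  have hm : u - b v ∈ S₂ := S₂.sub_mem hu (h.b₂ v hv)
  obtain ⟨y, hy, hFy⟩ := (h.ses.ex _ hm).1 (by rw [map_sub, ← h.comG v hv, hbw, sub_self])
  refine ⟨y, hy, sub_eq_zero.1 (h.ses.inj _ (S₁.sub_mem (h.b₁ y hy) hz) ?_)⟩
  rw [map_sub, ← h.comF y hy, hFy, map_sub, h.sq, hbu]; abel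

theorem CSES.cone (h : CSES b F G S₁ S₂ S₃) {t : End k X} (c₂ : Comm b S₂ t)
    (hF : ∀ x ∈ S₁, F (t x) = t (F x)) (hG : ∀ x ∈ S₂, G (t x) = t (G x))
    (h₂ : ∀ z ∈ S₂, b z = 0 → ∃ z' ∈ S₁, ∃ u ∈ S₂, t z = F z' + b u)
    (h₁ : ∀ z ∈ S₁, b z = 0 → (∃ u ∈ S₂, F z = b u) → ∃ u ∈ S₁, t z = b u) :
    Kill b S₃ (t ^ 2) := by
  intro z hz hb
  obtain ⟨y, hy, rfl⟩ := h.ses.surj z hz
  obtain ⟨x, hx, hFx⟩ := (h.ses.ex _ (h.b₂ y hy)).1 (by rw [← h.comG y hy, hb])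
  have hbx : b x = 0 := h.ses.inj _ (h.b₁ x hx) (by rw [← h.comF x hx, hFx, h.sq])
  obtain ⟨u, hu, htu⟩ := h₁ x hx hbx ⟨y, hy, hFx⟩
  have hm : t y - F u ∈ S₂ := S₂.sub_mem (c₂ y hy).1 (h.ses.mapF u hu)
  obtain ⟨z', hz', u', hu', he⟩ := h₂ _ hm (by
    rw [map_sub, (c₂ y hy).2, h.comF u hu, ← htu, hF x hx, hFx, sub_self])
  refine ⟨G u', h.ses.mapG u' hu', ?_⟩
  have h0 : ∀ w ∈ S₁, G (F w) = 0 := fun w hw =>
    (h.ses.ex _ (h.ses.mapF w hw)).2 ⟨w, hw, rfl⟩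
  have := congrArg G he
  rw [hG _ hm, map_sub, h0 u hu, sub_zero, hG y hy, map_add, h0 z' hz', zero_add,
    ← h.comG u' hu'] at this
  rw [pow_two, End.mul_apply, this]

theorem CSES.kill (h : CSES b F G S₁ S₂ S₃) {t : End k X} (c₂ : Comm b S₂ t)
    (hF : ∀ x ∈ S₁, F (t x) = t (F x)) (hG : ∀ x ∈ S₂, G (t x) = t (G x))
    (h₂ : Kill b S₂ t) (h₁ : Kill b S₁ t) : Kill b S₃ (t ^ 2) :=
  h.cone c₂ hF hG
    (fun z hz hb => by
      obtain ⟨u, hu, he⟩ := h₂ z hz hb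
      exact ⟨0, S₁.zero_mem, u, hu, by rw [map_zero, zero_add, he]⟩)
    (fun z hz hb _ => by
      obtain ⟨u, hu, he⟩ := h₁ z hz hb
      exact ⟨u, hu, he.symm⟩)

end Pool.Agent.MP_92f1cb_al.H14C
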