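import Pool.Agent.MP_92f1cb_al.H14C.Spec

set_option autoImplicit false

namespace Pool.Agent.MP_92f1cb_al.H14C

open Module MvPolynomial

namespace ModR

variable {k A : Type} [Field k] [Ring A] [Algebra k A] (M : Model k A)

theorem map_emb_eq {I : Ideal (SS k)} {f g : Matrix (Fin 3) (Fin 3) (SS k)} :
    M.inM (f.map (emb I)) = M.inM (g.map (emb I)) ↔ ∀ i j, f i j - g i j ∈ I :=
  ⟨fun h i j => emb_eq_iff.1 (congrFun (congrFun (M.inM_inj h) i) j),
    fun h => congrArg _ (Matrix.ext fun i j => emb_eq_iff.2 (h i j))⟩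

theorem map_emb_zero {I : Ideal (SS k)} {f : Matrix (Fin 3) (Fin 3) (SS k)} :
    M.inM (f.map (emb I)) = 0 ↔ ∀ i j, f i j ∈ I := by
  have := map_emb_eq M (I := I) (f := f) (g := 0)
  rw [Matrix.map_zero _ (map_zero _), map_zero] at this
  simpa only [Matrix.zero_apply, sub_zero] using this

theorem mem {I : Ideal (SS k)} {D : Fin 3 → Fin 3 → Submodule k (SS k)}
    {f : Matrix (Fin 3) (Fin 3) (SS k)} (h : ∀ i j, ∃ g ∈ D i j, f i j - g ∈ I) :
    M.inM (f.map (emb I)) ∈ M.YY I D := by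
  choose g h1 h2 using h
  exact ⟨Matrix.of g, h1, (map_emb_eq M).2 h2⟩

theorem bim {I : Ideal (SS k)} {D : Fin 3 → Fin 3 → Submodule k (SS k)} (h : Closed I D) :
    Bim M.σ (M.YY I D) := by
  rintro _ ⟨f, hf, rfl⟩
  refine ⟨M.σ_inM _, fun a => ⟨?_, ?_⟩⟩
  · rw [M.mul_inM, lam_mul_emb]; exact mem M (h _ (M.prL a).2 f hf).1
  · rw [M.inM_mul, emb_mul_rgt]; exact mem M (h _ (M.prL a).2 f hf).2

theorem yS_eq (q : KX k) : yS k q = C (aeval (yv k) q) :=
  (comp_aeval_apply (yv k) (cS k) q).symm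

theorem eS_zS (q : KX k) : eS k (zS k q) = aeval (xv k) q := by
  rw [zS, comp_aeval_apply]; simp only [eS_X]

theorem closed_zf (I : Ideal (SS k)) (v : ℕ) : Closed I (zf k v) := by
  refine fun l hl f hf => ⟨fun i j => ⟨_, ?_, by rw [sub_self]; exact I.zero_mem⟩,
    fun i j => ⟨_, ?_, by rw [sub_self]; exact I.zero_mem⟩⟩ <;> rw [Matrix.mul_apply] <;>
    refine Submodule.sum_mem _ fun c _ => ?_ <;> rw [Matrix.map_apply]
  · have h := hf c j
    by_cases h1 : c ≤ i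
    · by_cases h2 : v ≤ c
      · have h3 := Fin.le_def.1 h1
        rw [zf, if_pos h2] at h
        rw [zf, if_pos (h2.trans h3)]
        have := (((hl i c).1 h1).aeval (X : Fin 3 → SS k) (isHomogeneous_X _)).mul h
        rwa [show 1 * ((i : ℕ) - c) + (c - v) = i - v by omega] at this
      · rw [zf, if_neg h2, Submodule.mem_bot] at h
        rw [h, mul_zero]; exact Submodule.zero_mem _
    · rw [(hl i c).2 (not_le.1 h1), map_zero, zero_mul]; exact Submodule.zero_mem _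
  · have h := hf i c
    rw [yS_eq]
    by_cases h2 : v ≤ i
    · rw [zf, if_pos h2] at h ⊢
      exact IsHomogeneous.mul h (isHomogeneous_C _ _)
    · rw [zf, if_neg h2, Submodule.mem_bot] at h
      rw [h, zero_mul]; exact Submodule.zero_mem _

theorem wh {q : KX k} {n : ℕ} (hq : q.IsHomogeneous n) {g : Fin 3 → R0 k} {w : ℕ × ℕ}
    (hg : ∀ s, IsWeightedHomogeneous bw (g s) w) :
    IsWeightedHomogeneous bw (aeval g q) (n • w) := by
  rw [aeval_def, eval₂_eq]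
  refine IsWeightedHomogeneous.sum _ _ _ fun d hd => IsWeightedHomogeneous.C_mul ?_ _
  have := IsWeightedHomogeneous.prod d.support (fun s => g s ^ d s) (fun s => d s • w)
    fun s _ => (hg s).pow _
  rwa [← Finset.sum_smul, ← hq.degree_eq_sum_deg_support hd] at this

theorem closed_pat (I : Ideal (R0 k)) (d : Option (ℕ × ℕ)) :
    Closed (I.comap (eS k)) (patS k d) := by
  intro l hl f hf
  choose f₀ h1 h2 using hf
  have h3 : ∀ i j, f i j = C (f₀ i j) := fun i j => (h2 i j).symm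
  refine ⟨fun i j => ⟨_, ⟨∑ c, aeval (xv k) (l i c) * f₀ c j, ?_, rfl⟩, ?_⟩,
    fun i j => ⟨_, ⟨∑ c, f₀ i c * aeval (yv k) (l c j), ?_, rfl⟩, ?_⟩⟩
  · refine Submodule.sum_mem _ fun c _ => ?_
    rcases d with _ | d
    · trivial
    by_cases h : c ≤ i
    · have := (wh ((hl i c).1 h) (g := xv k) (w := (1, 0))
        fun s => isWeightedHomogeneous_X _ _ _).mul (h1 c j)
      have h4 := Fin.le_def.1 h
      rwa [show ((i : ℕ) - c) • ((1, 0) : ℕ × ℕ) + (d.1 + c, d.2 + (2 - j)) =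
        (d.1 + i, d.2 + (2 - j)) by ext <;> simp; omega] at this
    · rw [(hl i c).2 (not_le.1 h), map_zero, zero_mul]; exact Submodule.zero_mem _
  · rw [Ideal.mem_comap, map_sub, Matrix.mul_apply, map_sum]
    simp only [Matrix.map_apply, map_mul, eS_zS, h3, eS_C, AlgHom.toLinearMap_apply, cS_apply,
      sub_self]
    exact I.zero_mem
  · refine Submodule.sum_mem _ fun c _ => ?_
    rcases d with _ | d
    · trivial
    by_cases h : j ≤ c
    · have := IsWeightedHomogeneous.mul (h1 i c) (wh ((hl c j).1 h) (g := yv k) (w := (0, 1))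
        fun s => isWeightedHomogeneous_X _ _ _)
      have h4 := Fin.le_def.1 h
      have h5 := c.2
      rwa [show (d.1 + i, d.2 + (2 - c)) + ((c : ℕ) - j) • ((0, 1) : ℕ × ℕ) =
        (d.1 + i, d.2 + (2 - j)) by ext <;> simp; omega] at this
    · rw [(hl c j).2 (not_le.1 h), map_zero, mul_zero]; exact Submodule.zero_mem _
  · rw [Ideal.mem_comap, map_sub, Matrix.mul_apply, map_sum]
    simp only [Matrix.map_apply, map_mul, yS_eq, h3, eS_C, AlgHom.toLinearMap_apply, cS_apply,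
      sub_self]
    exact I.zero_mem

theorem ses {h : SS k} {I₁ I₂ I₃ : Ideal (SS k)} {D₁ D₂ D₃ : Fin 3 → Fin 3 → Submodule k (SS k)}
    (P : PatSES h I₁ D₁ I₂ D₂ I₃ D₃) :
    SES (M.tr h I₁ I₂) (M.tr 1 I₂ I₃) (M.YY I₁ D₁) (M.YY I₂ D₂) (M.YY I₃ D₃) := by
  have H : ∀ f : Matrix (Fin 3) (Fin 3) (SS k),
      M.tr 1 I₂ I₃ (M.inM (f.map (emb I₂))) = M.inM (f.map (emb I₃)) := fun f => by
    rw [M.tr_emb fun f hf => by rw [one_mul]; exact P.id₂ hf, one_smul]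
  refine ⟨?_, ?_, ?_, ?_, ?_⟩ <;> rintro _ ⟨f, hf, rfl⟩
  · rw [M.tr_emb P.id₁]; exact mem M fun i j => P.map₁ i j _ (hf i j)
  · rw [H]; exact mem M fun i j => P.map₂ i j _ (hf i j)
  · rw [M.tr_emb P.id₁, map_emb_zero, map_emb_zero]
    exact fun e i j => P.inj i j _ (hf i j) (e i j)
  · choose g h1 h2 using fun i j => P.surj i j _ (hf i j)
    exact ⟨_, ⟨Matrix.of g, h1, rfl⟩, by rw [H, map_emb_eq]; exact h2⟩
  · rw [H, map_emb_zero]
    constructor
    · intro e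
      choose g h1 h2 using fun i j => (P.ex i j _ (hf i j)).1 (e i j)
      exact ⟨_, ⟨Matrix.of g, h1, rfl⟩, by rw [M.tr_emb P.id₁, map_emb_eq]; exact h2⟩
    · rintro ⟨_, ⟨g, hg, rfl⟩, e⟩ i j
      rw [M.tr_emb P.id₁, map_emb_eq] at e
      exact (P.ex i j _ (hf i j)).2 ⟨_, hg i j, e i j⟩

theorem cm {I : Ideal (R0 k)} {f : R0 k} : cS k f ∈ I.comap (eS k) ↔ f ∈ I := by
  rw [Ideal.mem_comap, cS_apply, eS_C]

theorem patses {h : R0 k} {I₁ I₂ I₃ : Ideal (R0 k)} {d₁ d₂ d₃ : Option (ℕ × ℕ)}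
    (P : PatSES h I₁ (pat k d₁) I₂ (pat k d₂) I₃ (pat k d₃)) :
    PatSES (cS k h) (I₁.comap (eS k)) (patS k d₁) (I₂.comap (eS k)) (patS k d₂)
      (I₃.comap (eS k)) (patS k d₃) := by
  have e1 : ∀ {I : Ideal (R0 k)} {f g : R0 k}, cS k h * (cS k).toLinearMap f -
      (cS k).toLinearMap g ∈ I.comap (eS k) ↔ h * f - g ∈ I := by
    intro I f g
    rw [← cm, map_sub, map_mul]; rfl
  have e2 : ∀ {I : Ideal (R0 k)} {f g : R0 k}, (cS k).toLinearMap f -
      (cS k).toLinearMap g ∈ I.comap (eS k) ↔ f - g ∈ I := by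
    intro I f g
    rw [← cm, map_sub]; rfl
  refine ⟨fun f hf => ?_, Ideal.comap_mono P.id₂, ?_, ?_, ?_, ?_, ?_⟩
  · rw [Ideal.mem_comap, map_mul, cS_apply, eS_C]; exact P.id₁ _ hf
  all_goals rintro i j _ ⟨f, hf, rfl⟩
  · obtain ⟨g, h1, h2⟩ := P.map₁ i j f hf
    exact ⟨_, ⟨g, h1, rfl⟩, e1.2 h2⟩
  · obtain ⟨g, h1, h2⟩ := P.map₂ i j f hf
    exact ⟨_, ⟨g, h1, rfl⟩, e2.2 h2⟩
  · exact fun e => cm.2 (P.inj i j f hf (cm.1 (by rw [map_mul]; exact e)))
  · obtain ⟨g, h1, h2⟩ := P.surj i j f hf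
    exact ⟨_, ⟨g, h1, rfl⟩, e2.2 h2⟩
  · refine cm.trans ((P.ex i j f hf).trans ⟨?_, ?_⟩)
    · rintro ⟨g, h1, h2⟩
      exact ⟨_, ⟨g, h1, rfl⟩, e1.2 h2⟩
    · rintro ⟨_, ⟨g, h1, rfl⟩, h2⟩
      exact ⟨g, h1, e1.1 h2⟩

end ModR

theorem mod : SMod := fun _ _ _ _ _ M =>
  ⟨fun I v => ModR.bim M (ModR.closed_zf I v), fun I d => ModR.bim M (ModR.closed_pat I d),
    fun _ _ _ _ _ _ _ P => ModR.ses M P, fun _ _ _ _ _ _ _ P => ModR.patses P⟩

end Pool.Agent.MP_92f1cb_al.H14C
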