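import Pool.Agent.MP_92f1cb_al.H14C.Spec

set_option autoImplicit false

namespace Pool.Agent.MP_92f1cb_al.H14C

open Pool.Agent.MP_92f1cb_al.H14 Module MvPolynomial

namespace ModelR

section Ext

variable {k L N : Type} [Field k] [Ring L] [Algebra k L] [Ring N] [Algebra k N]

/-- The square-zero extension of `L` by `N`, with actions through `f` and `g`. -/
def Tz (_f _g : L →ₐ[k] N) : Type := L × N

variable (f g : L →ₐ[k] N)

instance : AddCommGroup (Tz f g) := inferInstanceAs (AddCommGroup (L × N))

instance : Module k (Tz f g) := inferInstanceAs (Module k (L × N))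

instance : Mul (Tz f g) := ⟨fun x y => (x.1 * y.1, f x.1 * y.2 + x.2 * g y.1)⟩

instance : One (Tz f g) := ⟨(1, 0)⟩

variable {f g}

theorem ext' {x y : Tz f g} (h1 : x.1 = y.1) (h2 : x.2 = y.2) : x = y := Prod.ext h1 h2

theorem mul1 (x y : Tz f g) : (x * y).1 = x.1 * y.1 := rfl

theorem mul2 (x y : Tz f g) : (x * y).2 = f x.1 * y.2 + x.2 * g y.1 := rfl

theorem add1 (x y : Tz f g) : (x + y).1 = x.1 + y.1 := rfl

theorem add2 (x y : Tz f g) : (x + y).2 = x.2 + y.2 := rfl

theorem smul1 (c : k) (x : Tz f g) : (c • x).1 = c • x.1 := rfl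

theorem smul2 (c : k) (x : Tz f g) : (c • x).2 = c • x.2 := rfl

theorem one1 : (1 : Tz f g).1 = 1 := rfl

theorem one2 : (1 : Tz f g).2 = 0 := rfl

theorem zero1 : (0 : Tz f g).1 = 0 := rfl

theorem zero2 : (0 : Tz f g).2 = 0 := rfl

instance : Ring (Tz f g) where
  __ := (inferInstance : AddCommGroup (Tz f g))
  mul_assoc x y z := ext' (mul_assoc _ _ _) (by
    simp only [mul1, mul2, map_mul, mul_add, add_mul, mul_assoc, add_assoc])
  one_mul x := ext' (one_mul _) (by simp only [mul2, one1, one2, map_one, one_mul, zero_mul,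
    add_zero])
  mul_one x := ext' (mul_one _) (by simp only [mul2, one1, one2, map_one, mul_one, mul_zero,
    zero_add])
  left_distrib x y z := ext' (mul_add _ _ _) (by
    simp only [mul2, add1, add2, map_add, mul_add]; abel)
  right_distrib x y z := ext' (add_mul _ _ _) (by
    simp only [mul2, add1, add2, map_add, add_mul]; abel)
  zero_mul x := ext' (zero_mul _) (by simp only [mul2, zero1, zero2, map_zero, zero_mul, add_zero])
  mul_zero x := ext' (mul_zero _) (by simp only [mul2, zero1, zero2, map_zero, mul_zero, add_zero])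

instance : Algebra k (Tz f g) := Algebra.ofModule
  (fun c x y => ext' (smul_mul_assoc _ _ _) (by
    simp only [mul2, smul1, smul2, map_smul, smul_mul_assoc, smul_add]))
  fun c x y => ext' (mul_smul_comm _ _ _) (by
    simp only [mul2, smul1, smul2, map_smul, mul_smul_comm, smul_add])

variable (f g)

/-- The inclusion of the ring. -/
def iL : L →ₐ[k] Tz f g := AlgHom.ofLinearMap (LinearMap.inl k L N) rfl fun x y =>
  ext' rfl (show (0 : N) = f x * 0 + 0 * g y by rw [mul_zero, zero_mul, add_zero])

/-- The projection to the ring. -/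
def pL : Tz f g →ₐ[k] L := AlgHom.ofLinearMap (LinearMap.fst k L N) rfl fun _ _ => rfl

end Ext

variable {k : Type} [Field k]

/-- The diagonal idempotents. -/
noncomputable def dg (k : Type) [Field k] (i : Fin 3) : Lalg k := ⟨Matrix.single i i 1, fun a b => by
  rw [Matrix.single, Matrix.of_apply]
  refine ⟨fun _ => ?_, fun h => if_neg fun e => h.ne (e.1.symm.trans e.2)⟩
  split_ifs with h
  · rw [← h.1, ← h.2, Nat.sub_self]
    exact isHomogeneous_one _ _
  · exact isHomogeneous_zero _ _ _⟩

theorem dg_mul (l : Lalg k) (i j : Fin 3) :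
    (dg k i * l * dg k j).1 = Matrix.single i j (l.1 i j) := by
  have := Matrix.single_mul_mul_single i i j j (1 : KX k) l.1 1
  rwa [one_mul, mul_one] at this

end ModelR

open ModelR in
theorem model : SModel := fun k _ =>
  ⟨Tz (lam k) (rgt k), inferInstance, inferInstance, ⟨
    { inL := iL _ _
      prL := pL _ _
      inM := LinearMap.inr k _ _
      prM := LinearMap.snd k _ _
      prL_inL := fun _ => rfl
      prL_inM := fun _ => rfl
      prM_inL := fun _ => rfl
      prM_inM := fun _ => rfl
      decomp := fun a => ext' (add_zero a.1) (zero_add a.2)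
      L_mul_M := fun l μ => ext' (mul_zero l)
        (show lam k l * μ + 0 * rgt k 0 = lam k l * μ by rw [zero_mul, add_zero])
      M_mul_L := fun l μ => ext' (zero_mul l)
        (show lam k 0 * 0 + μ * rgt k l = μ * rgt k l by rw [mul_zero, zero_add])
      M_mul_M := fun μ ν => ext' (mul_zero (0 : Lalg k))
        (show lam k 0 * ν + μ * rgt k 0 = 0 by
          rw [map_zero, map_zero, zero_mul, mul_zero, add_zero]) }⟩⟩

open ModelR in
theorem idem : SIdem := by
  intro k A _ _ _ M
  have h0 : CompleteOrthogonalIdempotents (dg k) :=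
    ⟨⟨fun i => Subtype.ext (by
        have := Matrix.single_mul_single_same (1 : KX k) i i i 1
        rwa [one_mul] at this),
      fun i j h => Subtype.ext (Matrix.single_mul_single_of_ne (1 : KX k) i i j h 1)⟩,
      Subtype.ext (by
        rw [AddSubmonoidClass.coe_finsetSum]
        exact Matrix.sum_single_one)⟩
  refine ⟨fun i => M.inL (dg k i), h0.map M.inL.toRingHom, fun i h => ?_, fun i => M.σ_inL _,
    fun a ha i j h => ?_, fun a ha i => ?_⟩
  · have h1 := congrArg (fun a => (M.prL a).1 i i) h
    simp [M.prL_inL, dg] at h1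
  · rw [M.eq_inL ha, ← map_mul, ← map_mul, ← map_zero M.inL]
    congr 1
    exact Subtype.ext (by rw [dg_mul, ((M.prL a).2 i j).2 h, Matrix.single_zero]; rfl)
  · have h1 := ((M.prL a).2 i i).1 le_rfl
    rw [Nat.sub_self, ← totalDegree_zero_iff_isHomogeneous, totalDegree_eq_zero_iff_eq_C] at h1
    refine ⟨coeff 0 ((M.prL a).1 i i), ?_⟩
    conv_lhs => rw [M.eq_inL ha]
    rw [← map_mul, ← map_mul, ← map_smul]
    congr 1
    refine Subtype.ext ?_
    rw [dg_mul, h1, coeff_zero_C]
    exact (by rw [Matrix.smul_single, smul_eq_C_mul, mul_one] :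
      coeff 0 ((M.prL a).1 i i) • Matrix.single i i (1 : KX k) = _).symm

end Pool.Agent.MP_92f1cb_al.H14C
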