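import Pool.Agent.MP_92f1cb_al.H14C.Spec

/-! A rational point of infinite order over every field with a non-root of unity. -/

set_option autoImplicit false

namespace Pool.Agent.MP_92f1cb_al.H14C

open WeierstrassCurve

namespace NTR

theorem inj_of_tors {G : Type} [AddCommGroup G] (P : G) (n : ℕ) (hn : 0 < n) (h : n • P = 0) :
    ¬ Function.Injective fun j : ℕ => 2 ^ j • P := by
  intro hinj
  have hfin : (Set.range fun j : ℕ => 2 ^ j • P).Finite := by
    refine ((Set.finite_Iio n).image fun m : ℕ => m • P).subset ?_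
    rintro _ ⟨j, rfl⟩
    refine ⟨2 ^ j % n, Nat.mod_lt _ hn, ?_⟩
    show (2 ^ j % n) • P = 2 ^ j • P
    conv_rhs => rw [← Nat.mod_add_div (2 ^ j) n]
    rw [add_nsmul, mul_nsmul, h, nsmul_zero, add_zero]
  exact Set.infinite_range_of_injective hinj hfin

theorem key {k : Type} [Field k] [DecidableEq k] (W : WeierstrassCurve k) [hW : W.IsElliptic]
    (x : ℕ → k) (hx : Function.Injective x) (y₀ : k) (h₀ : W.toAffine.Equation (x 0) y₀)
    (hs : ∀ j y, W.toAffine.Equation (x j) y → y ≠ W.toAffine.negY (x j) y ∧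
      W.toAffine.addX (x j) (x j) ((3 * x j ^ 2 + 2 * W.a₂ * x j + W.a₄ - W.a₁ * y) /
        (y - W.toAffine.negY (x j) y)) = x (j + 1)) : NonTorsion k := by
  have hn₀ : W.toAffine.Nonsingular (x 0) y₀ := Affine.equation_iff_nonsingular.mp h₀
  have step : ∀ j : ℕ, ∃ (y : k) (h : W.toAffine.Nonsingular (x j) y),
      2 ^ j • (Affine.Point.some _ _ hn₀ : W.toAffine.Point) = Affine.Point.some _ _ h := by
    intro j
    induction j with
    | zero => exact ⟨y₀, hn₀, by simp⟩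
    | succ j ih =>
      obtain ⟨y, h, e⟩ := ih
      obtain ⟨h1, h2⟩ := hs j y h.1
      rw [← Affine.slope_of_Y_ne rfl h1] at h2
      rw [pow_succ, mul_nsmul, e, two_nsmul, Affine.Point.add_self_of_Y_ne h1, ← h2]
      exact ⟨_, _, rfl⟩
  refine ⟨W, hW, Affine.Point.some _ _ hn₀, fun n hn h => inj_of_tors _ n hn h ?_⟩
  intro i j hij
  obtain ⟨y, h, e⟩ := step i
  obtain ⟨y', h', e'⟩ := step j
  simp only [e, e', Affine.Point.some.injEq] at hij
  exact hx hij.1

theorem two {k : Type} [Field k] [DecidableEq k] (h2 : (2 : k) = 0) (h : NonRoot k) :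
    NonTorsion k := by
  obtain ⟨q, hq, hr⟩ := h
  let W : WeierstrassCurve k := ⟨0, 0, 1, 0, q ^ 3⟩
  have hD : W.Δ = 1 := by
    simp only [W, Δ, b₂, b₄, b₆, b₈]
    linear_combination (-14 - 108 * q ^ 3 - 216 * q ^ 6) * h2
  have : W.IsElliptic := ⟨by rw [hD]; exact isUnit_one⟩
  have hlt : ∀ i j : ℕ, i < j → q ^ 4 ^ i ≠ q ^ 4 ^ j := by
    intro i j hij e
    have h1 : 4 ^ i < 4 ^ j := Nat.pow_lt_pow_right (by norm_num) hij
    refine hr (4 ^ j - 4 ^ i) (by omega) ?_
    have h3 : q ^ 4 ^ j = q ^ 4 ^ i * q ^ (4 ^ j - 4 ^ i) := by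
      rw [← pow_add]; congr 1; omega
    rw [h3] at e
    exact (mul_left_cancel₀ (pow_ne_zero _ hq) ((mul_one _).trans e)).symm
  refine key W (fun j => q ^ 4 ^ j) ?_ 0 ?_ ?_
  · intro i j e
    rcases lt_trichotomy i j with h | h | h
    · exact absurd e (hlt i j h)
    · exact h
    · exact absurd e.symm (hlt j i h)
  · rw [Affine.equation_iff]
    simp only [W, pow_zero, pow_one]
    linear_combination (-q ^ 3) * h2
  · intro j y _
    have e : y - W.toAffine.negY (q ^ 4 ^ j) y = 1 := by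
      simp only [W, Affine.negY]
      linear_combination y * h2
    refine ⟨fun h => ?_, ?_⟩
    · rw [sub_eq_zero.2 h] at e
      exact zero_ne_one e
    · rw [e, pow_succ 4 j, pow_mul]
      simp only [W, Affine.addX, div_one]
      linear_combination (4 * (q ^ 4 ^ j) ^ 4 - q ^ 4 ^ j) * h2

theorem odd {k : Type} [Field k] [DecidableEq k] (h2 : (2 : k) ≠ 0) (u : ℕ → k)
    (h1 : ∀ j, u j ≠ 0 ∧ u j ^ 2 ≠ 1)
    (hu : ∀ j, u (j + 1) * (4 * u j * (u j ^ 2 - 1)) = (u j ^ 2 + 1) ^ 2)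
    (hi : Function.Injective u) : NonTorsion k := by
  have hc : ∀ j, u j * (u j ^ 2 - 1) ≠ 0 := fun j =>
    mul_ne_zero (h1 j).1 (sub_ne_zero.2 (h1 j).2)
  obtain ⟨d, hd⟩ : ∃ d, d = u 0 * (u 0 ^ 2 - 1) := ⟨_, rfl⟩
  have hd0 : d ≠ 0 := hd ▸ hc 0
  let W : WeierstrassCurve k := ⟨0, 0, 0, -d ^ 2, 0⟩
  have hD : W.Δ = 2 ^ 6 * d ^ 6 := by
    simp only [W, Δ, b₂, b₄, b₆, b₈]
    ring
  have : W.IsElliptic := ⟨by
    rw [hD]; exact (mul_ne_zero (pow_ne_zero _ h2) (pow_ne_zero _ hd0)).isUnit⟩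
  refine key W (fun j => d * u j) ?_ (d ^ 2) ?_ ?_
  · intro i j e
    exact hi (mul_left_cancel₀ hd0 e)
  · rw [Affine.equation_iff]
    simp only [W]
    linear_combination d ^ 3 * hd
  · intro j y hy
    rw [Affine.equation_iff] at hy
    simp only [W] at hy
    have hy2 : y ^ 2 = d ^ 3 * (u j * (u j ^ 2 - 1)) := by linear_combination hy
    have hy0 : y ≠ 0 := by
      intro h0
      rw [h0] at hy2
      exact mul_ne_zero (pow_ne_zero 3 hd0) (hc j) (by rw [← hy2]; ring)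
    have e : y - W.toAffine.negY (d * u j) y = 2 * y := by
      simp only [W, Affine.negY]
      ring
    have h2y : 2 * y ≠ 0 := mul_ne_zero h2 hy0
    refine ⟨fun h => ?_, ?_⟩
    · rw [sub_eq_zero.2 h] at e
      exact h2y e.symm
    · rw [e]
      simp only [W, Affine.addX]
      field_simp
      linear_combination (-8 * d * u j - 4 * d * u (j + 1)) * hy2 - d ^ 4 * hu j

end NTR

theorem nonTorsion (h : SOrb) : SNT := by
  intro k _ _ hk
  by_cases h2 : (2 : k) = 0
  · exact NTR.two h2 hk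
  · obtain ⟨u, h1, hu, hi⟩ := h k h2 hk
    exact NTR.odd h2 u h1 hu hi

end Pool.Agent.MP_92f1cb_al.H14C
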