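import Pool.Agent.MP_92f1cb_al.H14C.Spec

/-! An infinite orbit of the duplication map. -/

set_option autoImplicit false

namespace Pool.Agent.MP_92f1cb_al.H14C

open Polynomial

namespace OrbR

/-- The orbit in homogeneous coordinates. -/
def sq {R : Type} [CommRing R] (x : R × R) : ℕ → R × R
  | 0 => x
  | n + 1 => (((sq x n).1 ^ 2 + (sq x n).2 ^ 2) ^ 2,
      4 * (sq x n).1 * (sq x n).2 * ((sq x n).1 ^ 2 - (sq x n).2 ^ 2))

theorem main {R k : Type} [CommRing R] [Field k] (φ : R →+* k) (hφ : Function.Injective φ)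
    (x : R × R) (h1 : ∀ n, (sq x n).1 ≠ 0) (h2 : ∀ n, (sq x n).2 ≠ 0)
    (h3 : ∀ n, (sq x n).1 ^ 2 ≠ (sq x n).2 ^ 2)
    (h4 : ∀ i j, i < j → (sq x i).1 * (sq x j).2 ≠ (sq x j).1 * (sq x i).2) :
    ∃ u : ℕ → k, (∀ j, u j ≠ 0 ∧ u j ^ 2 ≠ 1) ∧
      (∀ j, u (j + 1) * (4 * u j * (u j ^ 2 - 1)) = (u j ^ 2 + 1) ^ 2) ∧ Function.Injective u := by
  have e1 : ∀ n, φ (sq x n).1 ≠ 0 := fun n => (map_ne_zero_iff φ hφ).2 (h1 n)
  have e2 : ∀ n, φ (sq x n).2 ≠ 0 := fun n => (map_ne_zero_iff φ hφ).2 (h2 n)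
  refine ⟨fun n => φ (sq x n).1 / φ (sq x n).2, fun j => ⟨div_ne_zero (e1 j) (e2 j), fun h => ?_⟩,
    fun j => ?_, fun i j h => ?_⟩
  · rw [div_pow, div_eq_one_iff_eq (pow_ne_zero _ (e2 j)), ← map_pow, ← map_pow] at h
    exact h3 j (hφ h)
  · have e3 := e2 (j + 1)
    have e4 := e2 j
    simp only [sq, map_mul, map_sub, map_pow, map_add, map_ofNat] at e3 ⊢
    rw [div_mul_eq_mul_div, div_eq_iff e3]
    field_simp
  · simp only at h
    rw [div_eq_div_iff (e2 i) (e2 j), ← map_mul, ← map_mul] at h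
    rcases lt_trichotomy i j with hl | hl | hl
    · exact absurd (hφ h) (h4 i j hl)
    · exact hl
    · exact absurd (hφ h).symm (h4 j i hl)

theorem int_inv (n : ℕ) : Odd (sq ((1 : ℤ), 2) n).1 ∧
    ∃ b, Odd b ∧ (sq ((1 : ℤ), 2) n).2 = 2 ^ (2 * n + 1) * b := by
  induction n with
  | zero => exact ⟨odd_one, 1, odd_one, rfl⟩
  | succ n ih =>
    obtain ⟨ha, b, hb, e⟩ := ih
    have he : Even ((sq ((1 : ℤ), 2) n).2 ^ 2) := by
      rw [e]
      exact ⟨2 ^ (4 * n + 1) * b ^ 2, by ring⟩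
    refine ⟨(ha.pow.add_even he).pow, (sq ((1 : ℤ), 2) n).1 * b *
      ((sq ((1 : ℤ), 2) n).1 ^ 2 - (sq ((1 : ℤ), 2) n).2 ^ 2),
      (ha.mul hb).mul (ha.pow.sub_even he), ?_⟩
    rw [sq]
    generalize (sq ((1 : ℤ), 2) n).1 ^ 2 - (sq ((1 : ℤ), 2) n).2 ^ 2 = c
    simp only
    rw [e]
    ring

theorem pol_inv {K : Type} [Field K] (h2 : (2 : K) ≠ 0) (n : ℕ) :
    (sq ((X : K[X]), 1) n).1.natDegree = 4 ^ n ∧ (sq ((X : K[X]), 1) n).2.natDegree < 4 ^ n ∧
      (sq ((X : K[X]), 1) n).2 ≠ 0 ∧ IsCoprime (sq ((X : K[X]), 1) n).1 (sq ((X : K[X]), 1) n).2 := by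
  induction n with
  | zero => exact ⟨natDegree_X, by simp [sq], one_ne_zero, isCoprime_one_right⟩
  | succ n ih =>
    rw [sq]
    generalize (sq ((X : K[X]), 1) n).1 = A at ih ⊢
    generalize (sq ((X : K[X]), 1) n).2 = B at ih ⊢
    obtain ⟨hA, hB, hB0, hc⟩ := ih
    have hlt : (B ^ 2).natDegree < (A ^ 2).natDegree := by
      rw [natDegree_pow, natDegree_pow]
      omega
    have hA0 : A ≠ 0 := fun e => by
      rw [e, natDegree_zero] at hA
      omega
    have hD : (A ^ 2 - B ^ 2).natDegree = 2 * 4 ^ n := by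
      rw [natDegree_sub_eq_left_of_natDegree_lt hlt, natDegree_pow, hA]
    have hD0 : A ^ 2 - B ^ 2 ≠ 0 := fun e => by
      rw [e, natDegree_zero] at hD
      omega
    have h4 : (4 : K[X]) = C 4 := rfl
    have h40 : (4 : K) ≠ 0 := by
      rw [show (4 : K) = 2 * 2 by norm_num]
      exact mul_ne_zero h2 h2
    have h41 : (4 : K[X]) ≠ 0 := by
      rw [h4]
      exact C_ne_zero.2 h40
    refine ⟨?_, ?_, mul_ne_zero (mul_ne_zero (mul_ne_zero h41 hA0) hB0) hD0, ?_⟩
    · simp only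
      rw [natDegree_pow, natDegree_add_eq_left_of_natDegree_lt hlt, natDegree_pow, hA]
      ring
    · simp only
      rw [natDegree_mul (mul_ne_zero (mul_ne_zero h41 hA0) hB0) hD0,
        natDegree_mul (mul_ne_zero h41 hA0) hB0, natDegree_mul h41 hA0, hD, hA, h4, natDegree_C]
      omega
    · refine IsCoprime.pow_left (IsCoprime.mul_right (IsCoprime.mul_right (IsCoprime.mul_right
        ?_ ?_) ?_) ?_)
      · rw [h4]
        exact ⟨0, C 4⁻¹, by rw [zero_mul, zero_add, ← C_mul, inv_mul_cancel₀ h40, C_1]⟩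
      · have := (hc.symm.pow_left (m := 2)).add_mul_left_left A
        rwa [add_comm, ← pow_two] at this
      · have := (hc.pow_left (m := 2)).add_mul_left_left B
        rwa [← pow_two] at this
      · obtain ⟨a, b, e⟩ := hc.pow (m := 2) (n := 2)
        have h5 : (C 2⁻¹ * 2 : K[X]) = 1 := by
          rw [show (2 : K[X]) = C 2 from rfl, ← C_mul, inv_mul_cancel₀ h2, C_1]
        exact ⟨C 2⁻¹ * (a + b), C 2⁻¹ * (a - b), by
          linear_combination (a * A ^ 2 + b * B ^ 2) * h5 + e⟩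

theorem transc {p : ℕ} [Fact p.Prime] {k : Type} [Field k] [Algebra (ZMod p) k] {q : k}
    (h0 : q ≠ 0) (h : ∀ n : ℕ, 0 < n → q ^ n ≠ 1) : Transcendental (ZMod p) q := by
  intro ha
  have := IntermediateField.adjoin.finiteDimensional ha.isIntegral
  have : Finite (IntermediateField.adjoin (ZMod p) {q}) := Module.finite_of_finite (ZMod p)
  have := Fintype.ofFinite (IntermediateField.adjoin (ZMod p) {q})
  have h1 := FiniteField.pow_card_sub_one_eq_one (IntermediateField.AdjoinSimple.gen (ZMod p) q)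
    fun e => h0 (congrArg Subtype.val e)
  exact h _ (Nat.sub_pos_of_lt Fintype.one_lt_card) (congrArg Subtype.val h1)

end OrbR

open OrbR in
theorem orb : SOrb := by
  rintro k _ h2 ⟨q, h0, hq⟩
  obtain ⟨p, hp⟩ := CharP.exists k
  rcases CharP.char_is_prime_or_zero k p with hpp | rfl
  · have := Fact.mk hpp
    let := ZMod.algebra k p
    have h3 : (2 : ZMod p) ≠ 0 := fun e => h2 (by
      rw [← map_ofNat (algebraMap (ZMod p) k) 2, e, map_zero])
    have hi := pol_inv h3
    refine main (aeval q : (ZMod p)[X] →ₐ[ZMod p] k).toRingHom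
      (transcendental_iff_injective.1 (transc h0 hq)) (X, 1) (fun n e => ?_)
      (fun n => (hi n).2.2.1) (fun n e => ?_) fun i j hl e => ?_
    · have := (hi n).1
      rw [e, natDegree_zero] at this
      exact absurd this (by positivity)
    · have h4 := congrArg natDegree e
      have h5 := (hi n).2.1
      rw [natDegree_pow, natDegree_pow, (hi n).1] at h4
      omega
    · have h4 := natDegree_le_of_dvd ((hi j).2.2.2.dvd_of_dvd_mul_right ⟨_, e⟩) fun e' => by
        have := (hi i).1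
        rw [e', natDegree_zero] at this
        exact absurd this (by positivity)
      rw [(hi i).1, (hi j).1] at h4
      exact h4.not_gt (Nat.pow_lt_pow_right (by norm_num) hl)
  · have := CharP.charP_to_charZero k
    refine main (Int.castRingHom k) Int.cast_injective (1, 2) (fun n e => ?_) (fun n e => ?_)
      (fun n e => ?_) fun i j hl e => ?_
    · have := (int_inv n).1
      rw [e] at this
      exact absurd this (by decide)
    · obtain ⟨-, b, hb, h⟩ := int_inv n
      rw [h, mul_eq_zero] at e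
      rcases e with e | e
      · exact absurd e (by positivity)
      · rw [e] at hb
        exact absurd hb (by decide)
    · obtain ⟨ha, b, -, h⟩ := int_inv n
      have h4 := ha.pow (n := 2)
      rw [e, h] at h4
      exact Int.not_even_iff_odd.2 h4 ⟨2 ^ (4 * n + 1) * b ^ 2, by ring⟩
    · obtain ⟨-, b, hb, h⟩ := int_inv i
      obtain ⟨ha, b', -, h'⟩ := int_inv j
      obtain ⟨d, rfl⟩ := Nat.exists_eq_add_of_lt hl
      rw [h, h'] at e
      refine Int.not_even_iff_odd.2 (ha.mul hb)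
        ⟨(sq ((1 : ℤ), 2) i).1 * 2 ^ (2 * d + 1) * b', ?_⟩
      refine mul_left_cancel₀ (show (2 : ℤ) ^ (2 * i + 1) ≠ 0 by positivity) ?_
      linear_combination -e

end Pool.Agent.MP_92f1cb_al.H14C
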