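import Pool.Agent.MP_92f1cb_al.H14C.Spec

/-! The Koszul sequences of the diagonal, entry by entry. -/

set_option autoImplicit false

namespace Pool.Agent.MP_92f1cb_al.H14C

open MvPolynomial

namespace PatR

section Gen

variable {R ι : Type} [CommRing R] [DecidableEq ι]

omit [DecidableEq ι] in
theorem sub_aeval_mem {I : Ideal (MvPolynomial ι R)} {f : ι → MvPolynomial ι R}
    (h : ∀ j, X j - f j ∈ I) (g : MvPolynomial ι R) : g - aeval f g ∈ I := by
  induction g using MvPolynomial.induction_on with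
  | C a => simp
  | add p q hp hq => rw [map_add, add_sub_add_comm]; exact add_mem hp hq
  | mul_X p j hp =>
    rw [map_mul, aeval_X, show p * X j - aeval f p * f j =
      X j * (p - aeval f p) + aeval f p * (X j - f j) by ring]
    exact add_mem (I.mul_mem_left _ hp) (I.mul_mem_left _ (h j))

omit [DecidableEq ι] in
theorem comp_mul {h : MvPolynomial ι R} (hh : h.IsHomogeneous 1) (n : ℕ) (c : MvPolynomial ι R) :
    homogeneousComponent n (h * c) =
      if n = 0 then 0 else h * homogeneousComponent (n - 1) c := by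
  induction c using MvPolynomial.induction_on' with
  | monomial u a =>
    have h1 := isHomogeneous_monomial (d := u) a rfl
    rw [homogeneousComponent_of_mem (hh.mul h1), homogeneousComponent_of_mem h1]
    split_ifs <;> first | rfl | omega | simp
  | add p q hp hq =>
    rw [mul_add, map_add, hp, hq, map_add]
    split_ifs <;> simp [mul_add]

omit [DecidableEq ι] in
theorem aeval_form (x : ι → R) (s : ι) {g : MvPolynomial ι R} {n : ℕ} (hg : g.IsHomogeneous n) :
    aeval (fun j => C (x j) * X s) g = (C (aeval x g) * X s ^ n : MvPolynomial ι R) := by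
  rw [g.as_sum, map_sum, map_sum, map_sum, Finset.sum_mul]
  refine Finset.sum_congr rfl fun u hu => ?_
  have h1 : u.degree = n := by_contra fun e => mem_support_iff.1 hu (hg.coeff_eq_zero e)
  rw [aeval_monomial, aeval_monomial, ← h1, Finsupp.degree_apply, ← Finset.prod_pow_eq_pow_sum]
  simp only [Finsupp.prod, mul_pow, Finset.prod_mul_distrib, map_mul, map_prod, map_pow,
    algebraMap_eq, Algebra.algebraMap_self, RingHom.id_apply, mul_assoc]

theorem reg0 {s l : ι} (h : l ≠ s) (c : R) {f : MvPolynomial ι R}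
    (e : (X l - C c * X s) * f = 0) : f = 0 := by
  let α : R → MvPolynomial ι R →ₐ[R] MvPolynomial ι R :=
    fun c => aeval (Function.update X l (X l + C c * X s))
  have h1 : (α (-c)).comp (α c) = AlgHom.id R _ := algHom_ext fun j => by
    by_cases e : j = l
    · simp [α, e, h.symm]
    · simp [α, e]
  have h2 := congrArg (α c) e
  rw [map_mul, map_zero, show α c (X l - C c * X s) = X l by simp [α, h.symm]] at h2
  have h3 : α c f = 0 := isRegular_X.left (h2.trans (mul_zero _).symm)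
  have h4 := AlgHom.congr_fun h1 f
  rwa [AlgHom.comp_apply, h3, map_zero, eq_comm] at h4

theorem reg1 (J : Ideal R) {s l : ι} (h : l ≠ s) (c : R) {f : MvPolynomial ι R}
    (e : (X l - C c * X s) * f ∈ J.map (C : R →+* MvPolynomial ι R)) :
    f ∈ J.map (C : R →+* MvPolynomial ι R) := by
  rw [← J.mk_ker, ← ker_map, RingHom.mem_ker] at e ⊢
  exact reg0 h (Ideal.Quotient.mk J c) (by simpa using e)

omit [DecidableEq ι] in
theorem mem_sup {I : Ideal R} {h g : R} :
    g ∈ I ⊔ Ideal.span {h} ↔ ∃ a ∈ I, ∃ c, g = a + h * c := by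
  rw [sup_comm, Ideal.mem_span_singleton_sup]
  exact ⟨fun ⟨c, a, ha, e⟩ => ⟨a, ha, c, by rw [← e]; ring⟩,
    fun ⟨a, ha, c, e⟩ => ⟨c, a, ha, by rw [e]; ring⟩⟩

theorem reg2 (J : Ideal R) {s l l' : ι} (h : l ≠ s) (h' : l' ≠ s) (h'' : l' ≠ l) (c c' : R)
    {f : MvPolynomial ι R} (e : (X l' - C c' * X s) * f ∈
      J.map (C : R →+* MvPolynomial ι R) ⊔ Ideal.span {X l - C c * X s}) :
    f ∈ J.map (C : R →+* MvPolynomial ι R) ⊔ Ideal.span {X l - C c * X s} := by
  let ε : MvPolynomial ι R →ₐ[R] MvPolynomial ι R := aeval (Function.update X l (C c * X s))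
  have h1 : f - ε f ∈ Ideal.span {(X l - C c * X s : MvPolynomial ι R)} :=
    sub_aeval_mem (fun j => by
      by_cases e : j = l
      · rw [e, Function.update_self]; exact Ideal.mem_span_singleton_self _
      · simp [e]) f
  obtain ⟨a, ha, b, e⟩ := mem_sup.1 e
  have h2 : ε a ∈ J.map (C : R →+* MvPolynomial ι R) :=
    (Ideal.map_le_iff_le_comap (K := Ideal.comap ε (J.map C))).2
      (fun r hr => by simpa [ε] using Ideal.mem_map_of_mem _ hr) ha
  have h3 := congrArg ε e
  rw [map_mul, map_add, map_mul, show ε (X l - C c * X s) = 0 by simp [ε, h.symm], zero_mul,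
    add_zero, show ε (X l' - C c' * X s) = X l' - C c' * X s by simp [ε, h.symm, h'']] at h3
  rw [← add_sub_cancel (ε f) f]
  exact Submodule.add_mem_sup (reg1 J h' c' (h3 ▸ h2)) h1

omit [DecidableEq ι] in
theorem hom0 (J : Ideal R) (n : ℕ) : ∀ f ∈ J.map (C : R →+* MvPolynomial ι R),
    homogeneousComponent n f ∈ J.map (C : R →+* MvPolynomial ι R) := fun f hf =>
  mem_map_C_iff.2 fun u => by
    rw [coeff_homogeneousComponent]
    split_ifs
    exacts [mem_map_C_iff.1 hf u, zero_mem _]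

omit [DecidableEq ι] in
theorem hom_sup {I : Ideal (MvPolynomial ι R)} {h : MvPolynomial ι R} (hh : h.IsHomogeneous 1)
    (hI : ∀ n, ∀ f ∈ I, homogeneousComponent n f ∈ I) (n : ℕ) :
    ∀ f ∈ I ⊔ Ideal.span {h}, homogeneousComponent n f ∈ I ⊔ Ideal.span {h} := fun f hf => by
  obtain ⟨a, ha, c, rfl⟩ := mem_sup.1 hf
  rw [map_add, comp_mul hh]
  refine Submodule.add_mem_sup (hI n a ha) ?_
  split_ifs
  exacts [zero_mem _, Ideal.mul_mem_right _ _ (Ideal.mem_span_singleton_self h)]

end Gen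

variable {k : Type} [Field k]

theorem mem_zf {v : ℕ} {i j : Fin 3} {f : SS k} :
    f ∈ zf k v i j ↔ (v ≤ i → f.IsHomogeneous (i - v)) ∧ (¬ v ≤ i → f = 0) := by
  unfold zf
  split_ifs with h <;> simp [h]

theorem lf_hom (s l : Fin 3) : (lf k s l).IsHomogeneous 1 :=
  (isHomogeneous_X _ l).sub ((isHomogeneous_X _ s).C_mul _)

theorem ses {I : Ideal (SS k)} {h : SS k} (hh : h.IsHomogeneous 1)
    (hI : ∀ n, ∀ f ∈ I, homogeneousComponent n f ∈ I) (hr : ∀ f, h * f ∈ I → f ∈ I) (v : ℕ) :
    PatSES h I (zf k (v + 1)) I (zf k v) (I ⊔ Ideal.span {h}) (zf k v) where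
  id₁ _ := I.mul_mem_left h
  id₂ := le_sup_left
  map₁ i j f hf := by
    refine ⟨h * f, ?_, by simp⟩
    by_cases e : v + 1 ≤ i
    · refine mem_zf.2 ⟨fun _ => ?_, fun e' => absurd (by omega) e'⟩
      rw [show i - v = 1 + (i - (v + 1)) by omega]
      exact hh.mul ((mem_zf.1 hf).1 e)
    · rw [(mem_zf.1 hf).2 e, mul_zero]; exact zero_mem _
  map₂ _ _ f hf := ⟨f, hf, by simp⟩
  inj _ _ f _ := hr f
  surj _ _ f hf := ⟨f, hf, by simp⟩
  ex i j g hg := by
    refine ⟨fun e => ?_, fun ⟨f, _, e⟩ => mem_sup.2 ⟨_, neg_mem e, f, by ring⟩⟩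
    by_cases hv : v ≤ i
    · obtain ⟨a, ha, c, e⟩ := mem_sup.1 e
      have e' := congrArg (homogeneousComponent (i - v)) e
      rw [homogeneousComponent_of_mem ((mem_zf.1 hg).1 hv), if_pos rfl, map_add, comp_mul hh] at e'
      split_ifs at e' with h0
      · exact ⟨0, zero_mem _, by rw [e']; simpa using hI _ a ha⟩
      · exact ⟨homogeneousComponent (i - v - 1) c, mem_zf.2
          ⟨fun _ => homogeneousComponent_isHomogeneous _ _, fun e => absurd (by omega) e⟩,
          by rw [e']; simpa using hI _ a ha⟩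
    · exact ⟨0, zero_mem _, by simp [(mem_zf.1 hg).2 hv]⟩

end PatR

open PatR in
theorem patS_ses : SPat := by
  intro k _ J s l l' h h' h'' hs
  refine ⟨ses (lf_hom s l) (hom0 J) fun _ => reg1 J h _, ?_⟩
  have H := ses (lf_hom (k := k) s l') (hom_sup (lf_hom s l) (hom0 J))
    (fun _ => reg2 J h h' h'' _ _) 0
  have h1 : ∀ t, lf k s t ∈ J.comap (eS k) := fun t => by
    rw [Ideal.mem_comap, lf, map_sub, map_mul, eS_C, eS_X, eS_X,
      show xv k t - xv k t * xv k s = -xv k t * (xv k s - 1) by ring]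
    exact J.mul_mem_left _ hs
  have h2 : J.map (C : R0 k →+* SS k) ⊔ Ideal.span {lf k s l} ≤ J.comap (eS k) :=
    sup_le (Ideal.map_le_iff_le_comap.2 fun r hr => by simpa [eS_C] using hr)
      ((Ideal.span_singleton_le_iff_mem _).2 (h1 l))
  refine ⟨H.id₁, h2, H.map₁, fun i j f _ => ⟨C (eS k f), ⟨_, trivial, rfl⟩, by simp [eS_C]⟩, H.inj,
    ?_, fun i j g hg => (Iff.intro (fun e => ?_) fun e => ?_).trans (H.ex i j g hg)⟩
  · rintro i j _ ⟨a, -, rfl⟩
    refine ⟨C a * X s ^ (i : ℕ), mem_zf.2 ⟨fun _ => (isHomogeneous_X_pow s _).C_mul a,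
      fun e => absurd (Nat.zero_le _) e⟩, ?_⟩
    change eS k (C a * X s ^ (i : ℕ) - C a) ∈ J
    rw [map_sub, map_mul, map_pow, eS_C, eS_X, ← mul_sub_one]
    exact J.mul_mem_left _ (by simpa using Ideal.mem_of_dvd J (sub_dvd_pow_sub_pow _ 1 i) hs)
  · have h3 := sub_aeval_mem (f := fun t => C (xv k t) * X s)
      (I := J.map (C : R0 k →+* SS k) ⊔ Ideal.span {lf k s l} ⊔ Ideal.span {lf k s l'})
      (fun t => by
        rcases (by omega : t = s ∨ t = l ∨ t = l') with rfl | rfl | rfl
        · rw [show X t - C (xv k t) * X t = -X t * (C (xv k t - 1) : SS k) by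
            rw [map_sub, map_one]; ring]
          exact Ideal.mem_sup_left (Ideal.mem_sup_left
            (Ideal.mul_mem_left _ _ (Ideal.mem_map_of_mem _ hs)))
        · exact Ideal.mem_sup_left (Ideal.mem_sup_right (Ideal.mem_span_singleton_self _))
        · exact Ideal.mem_sup_right (Ideal.mem_span_singleton_self _)) g
    rw [aeval_form _ s ((mem_zf.1 hg).1 (Nat.zero_le _))] at h3
    have h4 : (C (aeval (xv k) g) : SS k) ∈ J.map (C : R0 k →+* SS k) :=
      Ideal.mem_map_of_mem _ (show aeval (xv k) g ∈ J from e)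
    exact (Submodule.sub_mem_iff_left _ (Ideal.mem_sup_left (Ideal.mem_sup_left
      (Ideal.mul_mem_right _ _ h4)))).1 h3
  · exact sup_le h2 ((Ideal.span_singleton_le_iff_mem _).2 (h1 l')) e

end Pool.Agent.MP_92f1cb_al.H14C
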