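import Pool.Agent.MP_92f1cb_al.H14C.Base2

set_option autoImplicit false

namespace Pool.Agent.MP_92f1cb_al.H14C

open Pool.Agent.MP_92f1cb_al.H14 Module

namespace RotR

variable {k A B : Type} [Field k] [Ring A] [Algebra k A] (β : Basis B k A) (σ : A →ₐ[k] A)

/-- The rotation followed by `σ` on the moved letter. -/
noncomputable def Th : End k (WW k B) := Hd β σ.toLinearMap * TH k B

theorem Th_snoc (a : A) (W : WW k B) : Th β σ (snoc β a W) = cons β (σ a) (om W) := by
  rw [Th, End.mul_apply, TH_snoc, Hd_cons]; rfl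

theorem Th_nil : Th β σ (ww β []) = 0 := by
  rw [Th, End.mul_apply, TH_nil, map_neg, Hd_nil, neg_zero]

theorem Th_concat (l : List A) (a : A) :
    Th β σ (ww β (l ++ [a])) = (-1 : k) ^ l.length • ww β (σ a :: l) := by
  rw [ww_concat, Th_snoc, om_ww, map_smul, ww_cons]

theorem Th_one (a : A) : Th β σ (cons β a (ww β [])) = cons β (σ a) (ww β []) := by
  rw [cons_nil, Th_snoc, om_ww]; simp

theorem bp_Th (W : WW k B) : d0 β (Th β σ W) + Th β σ (bp β W) =
    bp β (Th β σ W) + d0 β (Th β σ (Th β σ W)) := by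
  refine ww_ext β (f := d0 β ∘ₗ Th β σ + Th β σ ∘ₗ bp β)
    (g := bp β ∘ₗ Th β σ + d0 β ∘ₗ Th β σ ∘ₗ Th β σ) (fun l => ?_) W
  simp only [LinearMap.comp_apply, LinearMap.add_apply]
  induction l using List.reverseRecOn with
  | nil => simp [Th_nil, bp_ww_nil]
  | append_singleton l c _ =>
    induction l using List.reverseRecOn with
    | nil => simp [ww_cons, Th_one, bp_one, d0_ww_one]
    | append_singleton l a _ =>
      have h1 : d0 β (Th β σ (Th β σ (snoc β c (snoc β a (ww β l))))) =
          cons β (σ (a * c)) (ww β l) := by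
        rw [Th_snoc, om_snoc, map_neg, cons_snoc, map_neg, Th_snoc, om_cons, om_om]
        simp only [map_neg, neg_neg, d0_cons_cons, map_mul]
      rw [ww_concat, ww_concat, h1, bp_snoc_snoc, map_add, Th_snoc, Th_snoc, Th_snoc, om_om, om_bp,
        bp_cons, map_neg]
      abel

/-- The span of the words with a letter killed by `σ`. -/
noncomputable def CP : Submodule k (WW k B) :=
  Submodule.span k {W | ∃ l, (∃ a ∈ l, σ a = 0) ∧ W = ww β l}

variable {β σ}

theorem ww_mem_CP {l : List A} (h : ∃ a ∈ l, σ a = 0) : ww β l ∈ CP β σ :=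
  Submodule.subset_span ⟨l, h, rfl⟩

theorem CP_map (f : End k (WW k B)) (V : Submodule k (WW k B))
    (h : ∀ l, (∃ a ∈ l, σ a = 0) → f (ww β l) ∈ V) {W : WW k B} (hW : W ∈ CP β σ) : f W ∈ V :=
  (Submodule.span_le (p := V.comap f)).2 (by rintro _ ⟨l, hl, rfl⟩; exact h l hl) hW

theorem CP_zero (f : End k (WW k B)) (h : ∀ l, (∃ a ∈ l, σ a = 0) → f (ww β l) = 0)
    {W : WW k B} (hW : W ∈ CP β σ) : f W = 0 :=
  (Submodule.mem_bot k).1 (CP_map f ⊥ (fun l hl => (Submodule.mem_bot k).2 (h l hl)) hW)

theorem cons_mem_CP {a : A} (ha : σ a = 0) (W : WW k B) : cons β a W ∈ CP β σ := by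
  induction W using ww_ind β with
  | hb l => exact ww_mem_CP (l := a :: l) ⟨a, by simp, ha⟩
  | h0 => simp
  | hadd x y hx hy => rw [map_add]; exact Submodule.add_mem _ hx hy
  | hsmul c x hx => rw [map_smul]; exact Submodule.smul_mem _ c hx

theorem cons_mem_CP' (a : A) {W : WW k B} (hW : W ∈ CP β σ) : cons β a W ∈ CP β σ :=
  CP_map (cons β a) _ (fun l ⟨c, h1, h2⟩ => ww_mem_CP (l := a :: l) ⟨c, by simp [h1], h2⟩) hW

theorem Th_mem {W : WW k B} (hW : W ∈ CP β σ) : Th β σ W ∈ CP β σ := by
  refine CP_map (Th β σ) _ (fun l hl => ?_) hW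
  induction l using List.reverseRecOn with
  | nil => simp at hl
  | append_singleton l a _ =>
    obtain ⟨c, h1, h2⟩ := hl
    rw [Th_concat]
    refine Submodule.smul_mem _ _ (ww_mem_CP ?_)
    rcases List.mem_append.1 h1 with h | h
    · exact ⟨c, by simp [h], h2⟩
    · rw [← List.mem_singleton.1 h, h2]
      exact ⟨0, by simp, map_zero σ⟩

theorem bp_mem {W : WW k B} (hW : W ∈ CP β σ) : bp β W ∈ CP β σ := by
  refine CP_map (bp β) _ (fun l hl => ?_) hW
  induction l with
  | nil => simp at hl
  | cons a l ih =>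
    obtain ⟨c, h1, h2⟩ := hl
    rw [ww_cons, bp_cons]
    refine Submodule.sub_mem _ ?_ ?_
    · cases l with
      | nil => rw [d0_ww_one]; exact Submodule.zero_mem _
      | cons x l =>
        rw [ww_cons, d0_cons_cons]
        rcases List.mem_cons.1 h1 with rfl | h
        · exact cons_mem_CP (by rw [map_mul, h2, zero_mul]) _
        rcases List.mem_cons.1 h with rfl | h
        · exact cons_mem_CP (by rw [map_mul, h2, mul_zero]) _
        · exact cons_mem_CP' _ (ww_mem_CP ⟨c, h, h2⟩)
    · rcases List.mem_cons.1 h1 with rfl | h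
      · exact cons_mem_CP h2 _
      · exact cons_mem_CP' _ (ih ⟨c, h, h2⟩)

theorem Th_pow (u : List A) {y : A} (hy : σ y = 0) (v : List A) :
    (Th β σ ^ (v.length + 1)) (ww β (u ++ y :: v)) = 0 := by
  induction v using List.reverseRecOn generalizing u with
  | nil => simp [Th_concat, hy, ww_cons]
  | append_singleton v a ih =>
    rw [List.length_append, List.length_singleton, pow_succ, End.mul_apply, ← List.cons_append,
      ← List.append_assoc, Th_concat, map_smul, ← List.cons_append, ih, smul_zero]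

theorem Th_nilp {l : List A} (h : ∃ a ∈ l, σ a = 0) : (Th β σ ^ l.length) (ww β l) = 0 := by
  obtain ⟨y, h1, h2⟩ := h
  obtain ⟨u, v, rfl⟩ := List.append_of_mem h1
  rw [List.length_append, List.length_cons, pow_add, End.mul_apply, Th_pow u h2, map_zero]

theorem zero_of_Th (f : End k (WW k B)) (h : ∀ W ∈ CP β σ, f (W - Th β σ W) = 0) {W : WW k B}
    (hW : W ∈ CP β σ) : f W = 0 := by
  have h1 : ∀ (n : ℕ), ∀ W ∈ CP β σ, f W = f ((Th β σ ^ n) W) := fun n => by
    induction n with
    | zero => simp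
    | succ n ih =>
      intro W hW
      rw [pow_succ, End.mul_apply, ← ih _ (Th_mem hW), ← sub_eq_zero, ← map_sub, h W hW]
  exact CP_zero f (fun l hl => by rw [h1 l.length _ (ww_mem_CP hl), Th_nilp hl, map_zero]) hW

variable (β σ) in
/-- The rotation to the previous letter killed by `σ`. -/
noncomputable def R : End k (WW k B) :=
  mk fun p => ((TH k B - Th β σ) * ∑ j ∈ Finset.range p.2.length, Th β σ ^ j) (ee p)

theorem R_ww (l : List A) : R β σ (ww β l) =
    ((TH k B - Th β σ) * ∑ j ∈ Finset.range l.length, Th β σ ^ j) (ww β l) :=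
  eq_of_supported _ _ _ (fun p hp => by
    have : p.2.length = l.length := hp
    rw [R, mk_ee, this]) (ww_mem_LL β l)

theorem R_rec {W : WW k B} (hW : W ∈ CP β σ) :
    R β σ W = TH k B W - Th β σ W + R β σ (Th β σ W) := by
  rw [← sub_eq_zero]
  refine CP_zero (R β σ - (TH k B - Th β σ + R β σ * Th β σ)) (fun l hl => ?_) hW
  have h1 : R β σ (Th β σ (ww β l)) =
      ((TH k B - Th β σ) * ∑ j ∈ Finset.range l.length, Th β σ ^ j) (Th β σ (ww β l)) := by
    induction l using List.reverseRecOn with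
    | nil => simp [Th_nil]
    | append_singleton l a _ => rw [Th_concat, map_smul, map_smul, R_ww]; simp
  have h2 := congrArg (fun φ : End k (WW k B) => (TH k B - Th β σ) (φ (ww β l)))
    (geom_sum_mul_neg (Th β σ) l.length)
  simp only [End.mul_apply, LinearMap.sub_apply, End.one_apply, Th_nilp hl, sub_zero,
    map_sub] at h2
  simp only [LinearMap.sub_apply, LinearMap.add_apply, End.mul_apply, h1, R_ww]
  rw [← h2]
  abel

theorem R_word (u : List A) {y : A} (hy : σ y = 0) {l : List A} (hl : ∀ a ∈ l, σ a = a) :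
    R β σ (ww β (u ++ y :: l)) =
      ((-1 : k) ^ (u.length + l.length)) ^ (l.length + 1) • ww β (y :: l ++ u) := by
  induction l using List.reverseRecOn generalizing u with
  | nil =>
    rw [R_rec (ww_mem_CP ⟨y, by simp, hy⟩), TH_concat, Th_concat, hy]
    simp [ww_cons]
  | append_singleton l a ih =>
    rw [R_rec (ww_mem_CP ⟨y, by simp, hy⟩), ← List.cons_append, ← List.append_assoc, TH_concat,
      Th_concat, hl a (by simp), sub_self, zero_add, map_smul, ← List.cons_append,
      ih _ fun c hc => hl c (by simp [hc]), smul_smul]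
    simp only [List.length_append, List.length_cons, List.length_nil, List.cons_append,
      List.append_assoc, List.nil_append]
    congr 1
    rw [show u.length + 1 + l.length = u.length + (l.length + 1) by omega, zero_add, ← pow_succ']

theorem SW_le_CP {Ys : List (Submodule k A)} (h : ∀ Y ∈ Ys, Bim σ Y) {W : WW k B}
    (hW : W ∈ SW β σ Ys) : W ∈ CP β σ := by
  cases Ys with
  | nil => rw [(Submodule.mem_bot k).1 hW]; exact Submodule.zero_mem _
  | cons Y Ys =>
    exact SW_map (f := LinearMap.id) (CP β σ)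
      (fun y hy l _ => cons_mem_CP (h Y (by simp) y hy).1 _) hW

theorem d0_Th (hσ : Split σ) {Ys : List (Submodule k A)} (h : ∀ Y ∈ Ys, Bim σ Y) {W : WW k B}
    (hW : W ∈ SW β σ Ys) : d0 β (Th β σ W) = d0 β (TH k B W) := by
  cases Ys with
  | nil => rw [(Submodule.mem_bot k).1 hW]; simp
  | cons Y Ys =>
    refine SW_ext (f := d0 β ∘ₗ Th β σ) (g := d0 β ∘ₗ TH k B) (fun y hy l hl => ?_) hW
    simp only [LinearMap.comp_apply]
    clear hl
    induction l using List.reverseRecOn with
    | nil => rw [Th_one, d0_ww_one, d0_TH_one]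
    | append_singleton l a _ =>
      have e : a * y = σ a * y := by
        rw [← sub_eq_zero, ← sub_mul, hσ.sq _ _ (hσ.sub a) (h Y (by simp) y hy).1]
      rw [ww_concat, d0_TH_cons_snoc, cons_snoc, Th_snoc, om_cons, map_neg, map_neg, d0_cons_cons,
        e]

theorem bH_R (hσ : Split σ) {Ys : List (Submodule k A)} (h : ∀ Y ∈ Ys, Bim σ Y) {W : WW k B}
    (hW : W ∈ SW β σ Ys) : bH β (R β σ W) = R β σ (bH β W) := by
  have h1 : ∀ X ∈ CP β σ, X - Th β σ X - R β σ (X - Th β σ X) = X - TH k B X := fun X hX => by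
    rw [map_sub, R_rec hX]
    abel
  have h2 := zero_of_Th (bH β * (1 - R β σ) - (1 - R β σ) * (bp β + d0 β * Th β σ))
    (fun X hX => by
      have h3 : (bp β + d0 β * Th β σ : End k (WW k B)) (X - Th β σ X) =
          bp β X - Th β σ (bp β X) := by
        simp only [LinearMap.add_apply, End.mul_apply, map_sub]
        linear_combination (norm := abel) bp_Th β σ X
      rw [LinearMap.sub_apply, End.mul_apply, End.mul_apply, h3, LinearMap.sub_apply,
        LinearMap.sub_apply, End.one_apply, End.one_apply, h1 X hX, h1 _ (bp_mem hX), bH_sub_TH,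
        sub_self]) (SW_le_CP h hW)
  simp only [LinearMap.sub_apply, LinearMap.add_apply, End.mul_apply, End.one_apply, map_sub,
    d0_Th hσ h hW, ← bH_apply] at h2
  linear_combination (norm := abel) -h2

theorem R_mem {Zs : List (Submodule k A)} {Y : Submodule k A} (hY : ∀ y ∈ Y, σ y = 0)
    {W : WW k B} (hW : W ∈ CW β σ (Zs ++ [Y])) : R β σ W ∈ SW β σ (Y :: Zs) := by
  refine CW_map (f := R β σ) _ (fun w hw => ?_) hW
  obtain ⟨u, y, l, rfl, h1, h2, h3⟩ := hw.split_last
  rw [R_word u (hY y h2) h3]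
  exact Submodule.smul_mem _ _ (ww_mem_SW h2 ((shape_nil_iff.2 h3).append h1))

theorem R_pow_mem (hσ : Split σ) (As Bs : List (Submodule k A)) (h : ∀ Y ∈ As ++ Bs, Bim σ Y)
    {W : WW k B} (hW : W ∈ SW β σ (As ++ Bs)) : (R β σ ^ Bs.length) W ∈ SW β σ (Bs ++ As) ∧
      bH β ((R β σ ^ Bs.length) W) = (R β σ ^ Bs.length) (bH β W) := by
  induction Bs using List.reverseRecOn generalizing As W with
  | nil => simpa using hW
  | append_singleton Bs Y ih =>
    rw [List.length_append, List.length_singleton, pow_succ, End.mul_apply, End.mul_apply,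
      ← bH_R hσ h hW, List.append_assoc]
    rw [← List.append_assoc] at hW
    exact ih (Y :: As) (fun Z hZ => h Z (by simp at hZ ⊢; tauto))
      (R_mem (fun y hy => (h Y (by simp) y hy).1) (SW_le_CW _ hW))

theorem R_pow_word (Zs : List (Submodule k A)) (h : ∀ Z ∈ Zs, ∀ z ∈ Z, σ z = 0) (u : List A)
    {y : A} (hy : σ y = 0) {v : List A} (hv : Shape σ Zs v) :
    (R β σ ^ (Zs.length + 1)) (ww β (u ++ y :: v)) =
      ((-1 : k) ^ (u.length + v.length)) ^ (v.length + 1) • ww β (y :: v ++ u) := by
  induction Zs using List.reverseRecOn generalizing u v with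
  | nil => simpa using R_word u hy (shape_nil_iff.1 hv)
  | append_singleton Zs Z ih =>
    obtain ⟨v', z, l, rfl, h1, h2, h3⟩ := hv.split_last
    rw [List.length_append, List.length_singleton, pow_succ, End.mul_apply, ← List.cons_append,
      ← List.append_assoc, R_word _ (h Z (by simp) z h2) h3, map_smul, ← List.append_assoc,
      ih (fun Y hY => h Y (by simp [hY])) _ h1, smul_smul]
    simp only [List.length_append, List.length_cons, List.cons_append, List.append_assoc]
    congr 1
    rw [show u.length + (v'.length + 1) + l.length = u.length + (v'.length + (l.length + 1)) by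
      omega, show l.length + u.length + 1 + v'.length = u.length + (v'.length + (l.length + 1)) by
      omega, ← pow_add]
    congr 1
    omega

theorem R_pow_self {Ys : List (Submodule k A)} (h : ∀ Y ∈ Ys, Bim σ Y) {W : WW k B}
    (hW : W ∈ SW β σ Ys) : (R β σ ^ Ys.length) W = W := by
  cases Ys with
  | nil => simp
  | cons Y Ys =>
    refine SW_ext (f := R β σ ^ (Y :: Ys).length) (g := LinearMap.id) (fun y hy l hl => ?_) hW
    have := R_pow_word (β := β) Ys (fun Z hZ z hz => (h Z (by simp [hZ]) z hz).1) []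
      (h Y (by simp) y hy).1 hl
    rw [List.length_nil, zero_add, ← pow_mul, (Nat.even_mul_succ_self _).neg_one_pow, one_smul,
      List.append_nil] at this
    exact this

theorem Op_fix {l : List A} (hl : ∀ a ∈ l, σ a = a) {gs : List (End k A)} {v v' : List A}
    (h : Op β σ gs (ww β v) = ww β v') : Op β σ gs (ww β (l ++ v)) = ww β (l ++ v') := by
  induction l with
  | nil => exact h
  | cons a l ih =>
    rw [List.cons_append, List.cons_append, ww_cons, ww_cons, Op_cons_L β σ _ (hl a (by simp)),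
      ih fun c hc => hl c (by simp [hc])]

theorem Op_word {Ys : List (Submodule k A)} {u : List A} (hu : Shape σ Ys u)
    (h : ∀ Z ∈ Ys, ∀ z ∈ Z, σ z = 0) {fs : List (End k A)} (hf : fs.length = Ys.length) :
    ∃ u' : List A, u'.length = u.length ∧ ∀ (gs : List (End k A)) (v v' : List A),
      Op β σ gs (ww β v) = ww β v' → Op β σ (fs ++ gs) (ww β (u ++ v)) = ww β (u' ++ v') := by
  induction hu generalizing fs with
  | nil =>
    obtain rfl := List.length_eq_zero_iff.1 hf
    exact ⟨[], rfl, fun _ _ _ e => e⟩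
  | @consL _ _ a ha _ ih =>
    obtain ⟨u', h1, h2⟩ := ih h hf
    exact ⟨a :: u', by simp [h1], fun gs v v' e => by
      rw [List.cons_append, List.cons_append, ww_cons, ww_cons, Op_cons_L β σ _ ha, h2 gs v v' e]⟩
  | @consM _ _ Y y hy _ ih =>
    match fs, hf with
    | f :: fs, hf =>
      obtain ⟨u', h1, h2⟩ := ih (fun Z hZ => h Z (by simp [hZ])) (fs := fs) (by simpa using hf)
      exact ⟨f y :: u', by simp [h1], fun gs v v' e => by
        rw [List.cons_append, List.cons_append, List.cons_append, ww_cons, ww_cons,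
          Op_cons_M β σ _ _ (h Y (by simp) y hy), h2 gs v v' e]⟩

variable (β σ) in
/-- Words with `m` letters killed by `σ`. -/
noncomputable abbrev CK (m : ℕ) : Submodule k (WW k B) :=
  CW β σ (List.replicate m (LinearMap.ker σ.toLinearMap))

theorem rep_ker (m : ℕ) :
    ∀ Z ∈ List.replicate m (LinearMap.ker σ.toLinearMap), ∀ z ∈ Z, σ z = 0 := fun Z hZ z hz => by
  rw [List.eq_of_mem_replicate hZ] at hz
  exact hz

theorem R_Op {fs : List (End k A)} {f : End k A} (hf : KMap σ f) {W : WW k B}
    (hW : W ∈ CK β σ (fs.length + 1)) :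
    R β σ (Op β σ (fs ++ [f]) W) = Op β σ (f :: fs) (R β σ W) := by
  refine CW_ext (f := R β σ ∘ₗ Op β σ (fs ++ [f])) (g := Op β σ (f :: fs) ∘ₗ R β σ)
    (fun w hw => ?_) hW
  rw [List.replicate_succ'] at hw
  obtain ⟨u, y, l, rfl, h1, h2, h3⟩ := hw.split_last
  obtain ⟨u', e1, e2⟩ := Op_word (β := β) h1 (rep_ker _) (fs := fs) (by simp)
  have h4 : σ y = 0 := h2
  have e3 := e2 [f] (y :: l) (f y :: l) (by
    have := Op_fix h3 (Op_nil_nil β σ)
    rw [List.append_nil] at this
    rw [ww_cons, ww_cons, Op_cons_M β σ _ _ h4, this])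
  have e4 := e2 [] [] [] (Op_nil_nil β σ)
  simp only [List.append_nil] at e4
  rw [LinearMap.comp_apply, LinearMap.comp_apply, e3, R_word _ (hf y h4) h3, R_word _ h4 h3,
    map_smul, List.cons_append, List.cons_append, ww_cons, ww_cons, Op_cons_M β σ _ _ h4,
    Op_fix h3 e4, e1]

theorem R_pow_Op (fa fb : List (End k A)) (h : ∀ f ∈ fb, KMap σ f) {W : WW k B}
    (hW : W ∈ CK β σ (fa.length + fb.length)) :
    (R β σ ^ fb.length) (Op β σ (fa ++ fb) W) = Op β σ (fb ++ fa) ((R β σ ^ fb.length) W) := by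
  induction fb using List.reverseRecOn generalizing fa W with
  | nil => simp
  | append_singleton fb f ih =>
    rw [List.length_append, List.length_singleton] at hW ⊢
    have h1 : W ∈ CK β σ ((fa ++ fb).length + 1) := by rw [List.length_append]; exact hW
    have h2 : R β σ W ∈ CK β σ ((f :: fa).length + fb.length) := by
      rw [CK, List.replicate_succ'] at h1
      have := SW_le_CW _ (R_mem (fun y hy => hy) h1)
      rwa [← List.replicate_succ, List.length_append, add_right_comm] at this
    rw [pow_succ, End.mul_apply, End.mul_apply, ← List.append_assoc, R_Op (h f (by simp)) h1,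
      ← List.cons_append, ih _ (fun g hg => h g (by simp [hg])) h2, List.append_assoc]
    rfl

theorem Op_mem_CK {fs : List (End k A)} (h : ∀ f ∈ fs, KMap σ f) {W : WW k B}
    (hW : W ∈ CK β σ fs.length) : Op β σ fs W ∈ CK β σ fs.length := by
  refine Op_mem_CW (rep_ker _) ?_ hW
  rw [List.forall₂_iff_get]
  refine ⟨by simp, fun i h1 h2 y hy => ?_⟩
  simp only [List.get_eq_getElem, List.getElem_replicate] at hy ⊢
  exact h _ (List.getElem_mem h1) y hy

theorem SW_le_CK {Ys : List (Submodule k A)} (h : ∀ Y ∈ Ys, Bim σ Y) {W : WW k B}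
    (hW : W ∈ SW β σ Ys) : W ∈ CK β σ Ys.length := by
  refine CW_mono ?_ (SW_le_CW _ hW)
  rw [List.forall₂_iff_get]
  refine ⟨by simp, fun i h1 h2 y hy => ?_⟩
  simp only [List.get_eq_getElem, List.getElem_replicate] at hy ⊢
  exact (h _ (List.getElem_mem h1) y hy).1

theorem swap (hσ : Split σ) (As Bs : List (Submodule k A)) (fa fb ga gb : List (End k A)) (N : ℕ)
    (h : ∀ Y ∈ As ++ Bs, Bim σ Y) (l1 : fa.length = As.length) (l2 : fb.length = Bs.length)
    (l3 : ga.length = As.length) (l4 : gb.length = Bs.length) (hf : ∀ f ∈ fa ++ fb, KMap σ f)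
    (hg : ∀ g ∈ ga ++ gb, KMap σ g)
    (H : Kill (bH β) (SW β σ (As ++ Bs)) ((Op β σ (fa ++ fb) - Op β σ (ga ++ gb)) ^ N)) :
    Kill (bH β) (SW β σ (Bs ++ As)) ((Op β σ (fb ++ fa) - Op β σ (gb ++ ga)) ^ N) := by
  have h' : ∀ Y ∈ Bs ++ As, Bim σ Y := fun Y hY => h Y (by simp at hY ⊢; tauto)
  have key : ∀ (n : ℕ), ∀ W ∈ CK β σ (As.length + Bs.length),
      (R β σ ^ Bs.length) (((Op β σ (fa ++ fb) - Op β σ (ga ++ gb)) ^ n) W) =
        ((Op β σ (fb ++ fa) - Op β σ (gb ++ ga)) ^ n) ((R β σ ^ Bs.length) W) := fun n => by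
    induction n with
    | zero => simp
    | succ n ih =>
      intro W hW
      have m1 := Op_mem_CK hf (W := W) (by rwa [List.length_append, l1, l2])
      have m2 := Op_mem_CK hg (W := W) (by rwa [List.length_append, l3, l4])
      rw [List.length_append, l1, l2] at m1
      rw [List.length_append, l3, l4] at m2
      have e1 := R_pow_Op fa fb (fun f hh => hf f (by simp [hh])) (W := W) (by rwa [l1, l2])
      have e2 := R_pow_Op ga gb (fun f hh => hg f (by simp [hh])) (W := W) (by rwa [l3, l4])
      rw [l2] at e1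
      rw [l4] at e2
      rw [pow_succ, pow_succ, End.mul_apply, End.mul_apply, LinearMap.sub_apply,
        ih _ (Submodule.sub_mem _ m1 m2), map_sub (R β σ ^ Bs.length), e1, e2, LinearMap.sub_apply]
  intro z hz hb
  obtain ⟨a1, a2⟩ := R_pow_mem hσ Bs As h' hz
  obtain ⟨u, hu, e⟩ := H _ a1 (by rw [a2, hb, map_zero])
  obtain ⟨b1, b2⟩ := R_pow_mem hσ As Bs h hu
  refine ⟨_, b1, ?_⟩
  rw [b2, e, key N _ (by rw [← List.length_append]; exact SW_le_CK h a1), ← End.mul_apply
    (R β σ ^ Bs.length), ← pow_add, ← List.length_append, R_pow_self h' hz]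

end RotR

theorem rot : SRot := by
  intro k A B _ _ _ β σ hσ Ys φs ψs N j hY l1 l2 hφ hψ H
  rw [List.rotate_eq_drop_append_take_mod, List.rotate_eq_drop_append_take_mod,
    List.rotate_eq_drop_append_take_mod, l1, l2]
  refine RotR.swap hσ _ _ _ _ _ _ N ?_ (by simp [l1]) (by simp [l1]) (by simp [l2]) (by simp [l2])
    ?_ ?_ ?_ <;> simp only [List.take_append_drop] <;> assumption

end Pool.Agent.MP_92f1cb_al.H14C
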