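import Pool.Agent.MP_92f1cb_al.H14C.Lin
import Pool.Agent.MP_92f1cb_al.H14C.Api

set_option autoImplicit false

namespace Pool.Agent.MP_92f1cb_al.H14C

open Pool.Agent.MP_92f1cb_al.H14 Module MvPolynomial

/-- Three idempotents for which the image of `σ` is lower triangular with scalar diagonal. -/
structure Tri {k A : Type} [Field k] [Ring A] [Algebra k A] (σ : A →ₐ[k] A) (e : Fin 3 → A) :
    Prop where
  coi : CompleteOrthogonalIdempotents e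
  ne : ∀ i, e i ≠ 0
  fix : ∀ i, σ (e i) = e i
  up : ∀ a, σ a = a → ∀ i j, i < j → e i * a * e j = 0
  diag : ∀ a, σ a = a → ∀ i, ∃ c : k, e i * a * e i = c • e i

/-- The field has a nonzero element that is not a root of unity. -/
def NonRoot (k : Type) [Field k] : Prop := ∃ q : k, q ≠ 0 ∧ ∀ n : ℕ, 0 < n → q ^ n ≠ 1

/-- Some elliptic curve has a rational point of infinite order. -/
def NonTorsion (k : Type) [Field k] [DecidableEq k] : Prop :=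
  ∃ (W : WeierstrassCurve k) (_ : W.IsElliptic) (P : W.toAffine.Point),
    ∀ n : ℕ, 0 < n → n • P ≠ 0

def SComm : Prop :=
  ∀ (k X R ι : Type) [Field k] [AddCommGroup X] [Module k X] [CommRing R] [Algebra k R]
    (b : End k X) (S : Submodule k X) (ψ : ι → R →ₗ[k] End k X),
    (∀ i r r', ψ i (r * r') = ψ i r * ψ i r') →
    (∀ i j r r', ψ i r * ψ j r' = ψ j r' * ψ i r) →
    (∀ i r, Comm b S (ψ i r)) → (∀ i, ∀ x ∈ S, ψ i 1 x = x) → ¬ Ex b S →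
    ∃ (K : Type) (_ : Field K) (_ : Algebra k K) (χ : ι → R →ₐ[k] K),
      (∀ i r, (∀ x ∈ S, ψ i r x = 0) → χ i r = 0) ∧
      ∀ i j r r' r'' (N : ℕ), Kill b S ((ψ i r - ψ j r' * ψ i r'') ^ N) →
        χ i r = χ j r' * χ i r''

def SDev : Prop :=
  ∀ (k : Type) [Field k] (I : Ideal (R0 k)), Bihom I → ∃ a₀ : ℕ, ∀ a c : ℕ, a₀ ≤ a → a₀ ≤ c →
    ∀ (X : Type) [AddCommGroup X] [Module k X] (b : End k X)
      (S : Ideal (R0 k) → Option (ℕ × ℕ) → Submodule k X)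
      (F : R0 k → Ideal (R0 k) → Ideal (R0 k) → End k X), Fam b S F →
      (∀ (J : Ideal (R0 k)) (s t : Fin 3), I ≤ J → xv k s - 1 ∈ J → yv k t - 1 ∈ J →
        Ex b (S J none)) → Ex b (S I (some (a, c)))

def SPat : Prop :=
  ∀ (k : Type) [Field k] (J : Ideal (R0 k)) (s l l' : Fin 3), l ≠ s → l' ≠ s → l' ≠ l →
    xv k s - 1 ∈ J →
    (∀ v : ℕ, PatSES (lf k s l) (J.map (C : R0 k →+* SS k)) (zf k (v + 1))
      (J.map (C : R0 k →+* SS k)) (zf k v)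
      (J.map (C : R0 k →+* SS k) ⊔ Ideal.span {lf k s l}) (zf k v)) ∧
    PatSES (lf k s l') (J.map (C : R0 k →+* SS k) ⊔ Ideal.span {lf k s l}) (zf k 1)
      (J.map (C : R0 k →+* SS k) ⊔ Ideal.span {lf k s l}) (zf k 0)
      (J.comap (eS k)) (patS k none)

def SModel : Prop :=
  ∀ (k : Type) [Field k], ∃ (A : Type) (_ : Ring A) (_ : Algebra k A), Nonempty (Model k A)

def SIdem : Prop :=
  ∀ (k A : Type) [Field k] [Ring A] [Algebra k A] (M : Model k A), ∃ e, Tri M.σ e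

def SMod : Prop :=
  ∀ (k A : Type) [Field k] [Ring A] [Algebra k A] (M : Model k A),
    (∀ I v, Bim M.σ (M.YY I (zf k v))) ∧ (∀ I d, Bim M.σ (M.YR I d)) ∧
    (∀ h I₁ D₁ I₂ D₂ I₃ D₃, PatSES h I₁ D₁ I₂ D₂ I₃ D₃ →
      SES (M.tr h I₁ I₂) (M.tr 1 I₂ I₃) (M.YY I₁ D₁) (M.YY I₂ D₂) (M.YY I₃ D₃)) ∧
    (∀ h I₁ d₁ I₂ d₂ I₃ d₃, PatSES h I₁ (pat k d₁) I₂ (pat k d₂) I₃ (pat k d₃) →
      PatSES (cS k h) (I₁.comap (eS k)) (patS k d₁) (I₂.comap (eS k)) (patS k d₂)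
        (I₃.comap (eS k)) (patS k d₃))

def SJunC : Prop :=
  ∀ (k A : Type) [Field k] [Ring A] [Algebra k A] (M : Model k A) (J : Ideal (R0 k))
    (s l : Fin 3) (v : ℕ), v < 2 →
    ∃ (α α' : Type) (_ : Fintype α) (_ : Fintype α') (G G' : Submodule k A) (p : α → A)
      (p' : α' → A) (e e' l₁ l₂ : A) (u d r : End k A),
      JData M.σ (M.YY (J.map (C : R0 k →+* SS k)) (zf k v)) G p
        (M.YY (J.map (C : R0 k →+* SS k)) (zf k (v + 1))) G' p' e e' l₁ l₂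
        (M.tr (lf k s l) (J.map (C : R0 k →+* SS k)) (J.map (C : R0 k →+* SS k))) u d r
        (M.mulS (C (yv k l))) (M.mulS (C (xv k l))) (M.mulS (C (yv k s))) ∧
      ∀ I, ∀ y ∈ M.YR I none, r y ∈ M.YR I none

def SGld : Prop :=
  ∀ (k A V : Type) [Field k] [Ring A] [Algebra k A] [AddCommGroup V] [Module k V]
    (φ : ℕ → A →ₐ[k] End k V) (ρ : ℕ → A →ₗ[k] End k V) (μ : ℕ → A) (v : V),
    (∀ n a c, ρ n (a * c) = φ n a * ρ n c + ρ n a * φ (n + 1) c) →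
    (∀ i j, μ i * μ j = 0) → (∀ n i, φ n (μ i) = 0) → v ≠ 0 →
    (∀ n, ∃ c : k, c ≠ 0 ∧ ρ n (μ n) v = c • v) → ¬ ∃ D, GlDimLE A D

def SGrd : Prop :=
  ∀ (k A : Type) [Field k] [Ring A] [Algebra k A] (σ : A →ₐ[k] A) (e : Fin 3 → A),
    Split σ → Tri σ e → ∃ (𝒜 : ℕ → Submodule k A) (_ : GradedAlgebra 𝒜), DegreeZeroSplit 𝒜 e

def SFin : Prop :=
  ∀ (k A : Type) [Field k] [Ring A] [Algebra k A] (M : Model k A) (I : Ideal (R0 k)) (a : ℕ),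
    HasChain I → Bim M.σ (M.YR I (some (a, a))) →
    ∃ (A₀ : Type) (_ : Ring A₀) (_ : Algebra k A₀) (_ : FiniteDimensional k A₀) (ι : A₀ →ₐ[k] A)
      (𝒜 : ℕ → Submodule k A₀) (_ : GradedAlgebra 𝒜) (e : Fin 3 → A₀),
      Function.Injective ι ∧ (∀ x, (∃ y, ι y = x) ↔ x - M.σ x ∈ M.YR I (some (a, a))) ∧
      DegreeZeroSplit 𝒜 e ∧ ¬ ∃ D, GlDimLE A₀ D

def SEll : Prop :=
  ∀ (k : Type) [Field k] [DecidableEq k], NonTorsion k →
    ∃ I : Ideal (R0 k), Bihom I ∧ NoCycle I ∧ HasChain I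

def SOrb : Prop :=
  ∀ (k : Type) [Field k], (2 : k) ≠ 0 → NonRoot k →
    ∃ u : ℕ → k, (∀ j, u j ≠ 0 ∧ u j ^ 2 ≠ 1) ∧
      (∀ j, u (j + 1) * (4 * u j * (u j ^ 2 - 1)) = (u j ^ 2 + 1) ^ 2) ∧ Function.Injective u

def SNT : Prop := ∀ (k : Type) [Field k] [DecidableEq k], NonRoot k → NonTorsion k

def SRot : Prop :=
  ∀ (k A B : Type) [Field k] [Ring A] [Algebra k A] (β : Basis B k A) (σ : A →ₐ[k] A), Split σ →
    ∀ (Ys : List (Submodule k A)) (φs ψs : List (End k A)) (N j : ℕ), (∀ Y ∈ Ys, Bim σ Y) →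
    φs.length = Ys.length → ψs.length = Ys.length → (∀ φ ∈ φs, KMap σ φ) → (∀ ψ ∈ ψs, KMap σ ψ) →
    Kill (bH β) (SW β σ Ys) ((Op β σ φs - Op β σ ψs) ^ N) →
    Kill (bH β) (SW β σ (Ys.rotate j)) ((Op β σ (φs.rotate j) - Op β σ (ψs.rotate j)) ^ N)

def SH1 : Prop :=
  ∀ (k A B : Type) [Field k] [Ring A] [Algebra k A] (β : Basis B k A) (σ : A →ₐ[k] A), Split σ →
    ∀ (Y : Submodule k A) (m : ℕ), Bim σ Y →
    Ex (bH β) (SW β σ (List.replicate (m + 1) Y)) → Ex (bH β) (CW β σ (List.replicate (m + 1) Y))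

def SSes : Prop :=
  ∀ (k A B : Type) [Field k] [Ring A] [Algebra k A] (β : Basis B k A) (σ : A →ₐ[k] A), Split σ →
    ∀ (f g : End k A) (Y₁ Y₂ Y₃ : Submodule k A) (Ys : List (Submodule k A)),
    Bim σ Y₁ → Bim σ Y₂ → Bim σ Y₃ → (∀ Y ∈ Ys, Bim σ Y) → BMap σ f → BMap σ g →
    SES f g Y₁ Y₂ Y₃ →
    CSES (bH β) (Hd β f) (Hd β g) (SW β σ (Y₁ :: Ys)) (SW β σ (Y₂ :: Ys)) (SW β σ (Y₃ :: Ys))

def SFam : Prop :=
  ∀ (k A B : Type) [Field k] [Ring A] [Algebra k A] (β : Basis B k A) (M : Model k A)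
    (Ys : List (Submodule k A)), (∀ Y ∈ Ys, Bim M.σ Y) →
    Fam (bH β) (fun I d => SW β M.σ (M.YR I d :: Ys))
      (fun h I₁ I₂ => Hd β (M.tr (cS k h) (I₁.comap (eS k)) (I₂.comap (eS k))))

def SW0 : Prop :=
  ∀ (k A B : Type) [Field k] [Ring A] [Algebra k A] (β : Basis B k A) (σ : A →ₐ[k] A)
    (e : Fin 3 → A), Tri σ e → ∀ n, ∀ z ∈ CW β σ [], z ∈ LL k 1 B (n + 2) → bH β z = 0 →
    ∃ u ∈ CW β σ [], bH β u = z

def STrans : Prop :=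
  ∀ (k A B : Type) [Field k] [Ring A] [Algebra k A] (β : Basis B k A) (σ : A →ₐ[k] A), Split σ →
    ∀ (Y : Submodule k A), Bim σ Y →
    ∀ (A₀ : Type) [Ring A₀] [Algebra k A₀] (ι : A₀ →ₐ[k] A), Function.Injective ι →
    (∀ x, (∃ y, ι y = x) ↔ x - σ x ∈ Y) →
    (∀ m, Ex (bH β) (CW β σ (List.replicate (m + 1) Y))) →
    (∀ n, ∀ z ∈ CW β σ [], z ∈ LL k 1 B (n + 2) → bH β z = 0 → ∃ u ∈ CW β σ [], bH β u = z) →
    HHVanishesAbove k A₀ 0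

def SJunA : Prop :=
  ∀ (k A B : Type) [Field k] [Ring A] [Algebra k A] (β : Basis B k A) (σ : A →ₐ[k] A), Split σ →
    ∀ (α α' : Type) [Fintype α] [Fintype α'] (P G P' G' : Submodule k A) (p : α → A)
      (p' : α' → A) (e e' l₁ l₂ : A) (ell u d r Y₁ X Y₂ : End k A),
      JData σ P G p P' G' p' e e' l₁ l₂ ell u d r Y₁ X Y₂ →
    ∀ Ys : List (Submodule k A), (∀ Y ∈ Ys, Bim σ Y) →
      (∀ Y ∈ Ys, ∀ y ∈ Y, r y ∈ Y ∧ Y₁ y ∈ Y ∧ Y₂ y ∈ Y) →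
      (∀ z ∈ SW β σ (P :: Ys), bH β z = 0 → ∃ z' ∈ SW β σ (P' :: Ys), ∃ w ∈ SW β σ (P :: Ys),
        junc β σ (Ys.length + 1) Y₁ X Y₂ z = Hd β ell z' + bH β w) ∧
      (∀ z ∈ SW β σ (P' :: Ys), bH β z = 0 → (∃ w ∈ SW β σ (P :: Ys), Hd β ell z = bH β w) →
        ∃ w ∈ SW β σ (P' :: Ys), junc β σ (Ys.length + 1) Y₁ X Y₂ z = bH β w)

/-- The affine bimodules over the ideal `I`. -/
def IsAff {k A : Type} [Field k] [Ring A] [Algebra k A] (M : Model k A) (I : Ideal (R0 k))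
    (Y : Submodule k A) : Prop :=
  ∃ (J : Ideal (R0 k)) (s t : Fin 3), I ≤ J ∧ xv k s - 1 ∈ J ∧ yv k t - 1 ∈ J ∧ Y = M.YR J none

def SJun : Prop :=
  ∀ (k A B : Type) [Field k] [Ring A] [Algebra k A] (β : Basis B k A) (M : Model k A)
    (J : Ideal (R0 k)) (s l : Fin 3), l ≠ s → xv k s - 1 ∈ J →
    ∀ Ys : List (Submodule k A), (∀ Y ∈ Ys, ∃ J', Y = M.YR J' none) →
    Kill (bH β) (SW β M.σ (M.YR J none :: Ys))
      (junc β M.σ (Ys.length + 1) (M.mulS (C (yv k l))) (M.mulS (C (xv k l)))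
        (M.mulS (C (yv k s))) ^ 4)

def SCyc : Prop :=
  ∀ (k A B : Type) [Field k] [Ring A] [Algebra k A] (β : Basis B k A) (M : Model k A)
    (I : Ideal (R0 k)), NoCycle I → ∀ Ys : List (Submodule k A), (∀ Y ∈ Ys, IsAff M I Y) →
    Ex (bH β) (SW β M.σ Ys)

end Pool.Agent.MP_92f1cb_al.H14C
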