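import Pool.Agent.MP_92f1cb_al.H14C.Base2

set_option autoImplicit false

namespace Pool.Agent.MP_92f1cb_al.H14C

open Pool.Agent.MP_92f1cb_al.H14 Module

namespace TransR

variable {k A B A₀ : Type} [Field k] [Ring A] [Algebra k A] [Ring A₀] [Algebra k A₀]
  (β : Basis B k A) (ι : A₀ →ₐ[k] A)

/-- Tensors over the subalgebra as words. -/
noncomputable def Φ (n : ℕ) : PiTensorProduct k (fun _ : Fin n => A₀) →ₗ[k] WW k B :=
  Phi β 1 n ∘ₗ PiTensorProduct.map fun _ => ι.toLinearMap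

theorem Φ_tprod (n : ℕ) (a : Fin n → A₀) :
    Φ β ι n (PiTensorProduct.tprod k a) = ww β (List.ofFn fun i => ι (a i)) := by
  rw [Φ, LinearMap.comp_apply, PiTensorProduct.map_tprod, Phi_tprod]
  rfl

theorem nu_one (W : WW k B) : nu k 1 B W = W := by
  rw [nu_apply, Finset.sum_range_one, Nat.cast_zero, sh_zero]

theorem Φ_inj (hι : Function.Injective ι) (n : ℕ) : LinearMap.ker (Φ β ι n) = ⊥ := by
  obtain ⟨g, hg⟩ := ι.toLinearMap.exists_leftInverse_of_injective (LinearMap.ker_eq_bot.2 hι)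
  refine LinearMap.ker_eq_bot'.2 fun z hz => ?_
  have h1 := nu_Phi_injective β (N := 1) n _ ((nu_one _).trans hz)
  have h2 := congrArg (PiTensorProduct.map fun _ : Fin n => g) h1
  rw [← LinearMap.comp_apply, ← PiTensorProduct.map_comp, map_zero] at h2
  simpa [hg] using h2

theorem bH_Φ (n : ℕ) (a : Fin (n + 1 + 1) → A₀) :
    bH β (Φ β ι (n + 1 + 1) (pureTensor k a)) = Φ β ι (n + 1) (hBoundary k a) := by
  have h1 : ∀ i : Fin (n + 1), (fun j => ι (innerFace i a j)) =
      Fin.contractNth i.castSucc (fun x y : A => x * y) fun j => ι (a j) := fun i => by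
    funext j
    simp only [innerFace, Fin.contractNth]
    split_ifs <;> simp
  have h2 : (fun j => ι (lastFace a j)) = lastFace fun j => ι (a j) := by
    funext j
    induction j using Fin.cases <;> simp [lastFace]
  have h3 := nu_last β (N := 1) (fun _ => 0) n fun j => ι (a j)
  rw [nu_one, nu_one] at h3
  have h4 : ww β (List.ofFn fun j => ι (a j)) ∈ LL k 1 B (n + 1 + 1) := by
    simpa using ww_mem_LL β (List.ofFn fun j => ι (a j))
  rw [hBoundary, pureTensor, Φ_tprod, bH_apply, bp_eq_sum h4, Finset.sum_range, map_add, map_sum]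
  simp only [pureTensor, map_smul, Φ_tprod, h1, h2]
  congr 1
  exact Finset.sum_congr rfl fun i _ => FF_wd β n _ i

variable {β ι} {σ : A →ₐ[k] A} {Y : Submodule k A}

theorem ww_mem (hσ : Split σ) (h : ∀ x, (∃ y, ι y = x) ↔ x - σ x ∈ Y) (l : List A₀) :
    ww β (l.map ι) ∈ ⨆ m, CW β σ (List.replicate m Y) := by
  induction l with
  | nil => exact Submodule.mem_iSup_of_mem 0 (ww_mem_CW Shape.nil)
  | cons a l ih =>
    have e : ww β ((a :: l).map ι) =
        cons β (σ (ι a)) (ww β (l.map ι)) + cons β (ι a - σ (ι a)) (ww β (l.map ι)) := by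
      rw [← LinearMap.add_apply, ← map_add, add_sub_cancel]
      rfl
    rw [e]
    have c : ∀ x, (∀ m, ∀ W ∈ CW β σ (List.replicate m Y),
        cons β x W ∈ ⨆ m, CW β σ (List.replicate m Y)) →
        cons β x (ww β (l.map ι)) ∈ ⨆ m, CW β σ (List.replicate m Y) := fun x hx =>
      (iSup_le hx : _ ≤ Submodule.comap (cons β x) (⨆ m, CW β σ (List.replicate m Y))) ih
    refine Submodule.add_mem _ (c _ fun m W hW => ?_) (c _ fun m W hW => ?_)
    · exact Submodule.mem_iSup_of_mem m (cons_mem_CW (hσ.idem _) hW)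
    · exact Submodule.mem_iSup_of_mem (m + 1)
        (SW_le_CW (Y :: List.replicate m Y) (cons_mem_SW ((h _).1 ⟨a, rfl⟩) hW))

theorem Φ_mem (hσ : Split σ) (h : ∀ x, (∃ y, ι y = x) ↔ x - σ x ∈ Y) (n : ℕ)
    (z : PiTensorProduct k fun _ : Fin n => A₀) :
    Φ β ι n z ∈ ⨆ m, CW β σ (List.replicate m Y) := by
  induction z using PiTensorProduct.induction_on with
  | smul_tprod r a =>
    rw [map_smul, Φ_tprod]
    refine Submodule.smul_mem _ _ ?_
    have := ww_mem (β := β) hσ h (List.ofFn a)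
    rwa [List.map_ofFn] at this
  | add x y hx hy => rw [map_add]; exact Submodule.add_mem _ hx hy

theorem lift_shape (hY : Bim σ Y) (h : ∀ x, (∃ y, ι y = x) ↔ x - σ x ∈ Y)
    {Ys : List (Submodule k A)} {l : List A} (hl : Shape σ Ys l) (hYs : ∀ Z ∈ Ys, Z = Y) :
    ∃ l' : List A₀, l'.map ι = l := by
  induction hl with
  | nil => exact ⟨[], rfl⟩
  | @consL Ys l a ha _ ih =>
    obtain ⟨l', rfl⟩ := ih hYs
    obtain ⟨y, rfl⟩ := (h a).2 (by rw [ha, sub_self]; exact Y.zero_mem)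
    exact ⟨y :: l', rfl⟩
  | @consM Ys l Z a ha _ ih =>
    obtain ⟨l', rfl⟩ := ih fun Z hZ => hYs Z (List.mem_cons_of_mem _ hZ)
    rw [hYs Z List.mem_cons_self] at ha
    obtain ⟨y, rfl⟩ := (h a).2 (by rwa [(hY a ha).1, sub_zero])
    exact ⟨y :: l', rfl⟩

theorem piL_mem (hY : Bim σ Y) (h : ∀ x, (∃ y, ι y = x) ↔ x - σ x ∈ Y) (n : ℕ) {m : ℕ}
    {W : WW k B} (hW : W ∈ CW β σ (List.replicate m Y)) :
    piL k B n W ∈ LinearMap.range (Φ β ι n) := by
  refine CW_map (piL k B n) _ (fun l hl => ?_) hW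
  obtain ⟨l', rfl⟩ := lift_shape hY h hl fun Z hZ => List.eq_of_mem_replicate hZ
  rw [piL_ww]
  split_ifs with e
  · rw [List.length_map] at e
    subst e
    refine ⟨PiTensorProduct.tprod k l'.get, ?_⟩
    rw [Φ_tprod]
    congr 1
    conv_rhs => rw [← List.ofFn_get l', List.map_ofFn]
    rfl
  · exact Submodule.zero_mem _

end TransR

open TransR

theorem trans : STrans := by
  intro k A B _ _ _ β σ hσ Y hY A₀ _ _ ι hι h hE h0
  choose Ψ hΨ using fun n => (Φ β ι n).exists_leftInverse_of_injective (Φ_inj β ι hι n)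
  have hΨ' : ∀ n z, Ψ n (Φ β ι n z) = z := fun n z => LinearMap.congr_fun (hΨ n) z
  have hc : ∀ n z, Φ β ι (n + 1) (Ψ (n + 1) (bH β (Φ β ι (n + 1 + 1) z))) =
      bH β (Φ β ι (n + 1 + 1) z) := fun n z => by
    induction z using PiTensorProduct.induction_on with
    | smul_tprod r a =>
      have := bH_Φ β ι n a
      rw [pureTensor] at this
      simp only [map_smul, this, hΨ']
    | add x y hx hy => simp only [map_add, hx, hy]
  refine ⟨fun n => Ψ (n + 1) ∘ₗ bH β ∘ₗ Φ β ι (n + 1 + 1), fun n a => ?_, fun n _ x hx => ?_⟩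
  · exact (congrArg (Ψ (n + 1)) (bH_Φ β ι n a)).trans (hΨ' _ _)
  have hz : bH β (Φ β ι (n + 1 + 1) x) = 0 := by
    rw [← hc]
    exact (congrArg (Φ β ι (n + 1)) hx).trans (map_zero _)
  obtain ⟨f, hf, hs⟩ := (Submodule.mem_iSup_iff_exists_finsupp _ _).1 (Φ_mem (β := β) hσ h _ x)
  have hb : ∀ m, ∀ Z ∈ List.replicate m Y, ∀ y ∈ Z, σ y = 0 := fun m Z hZ y hy =>
    (hY y (List.eq_of_mem_replicate hZ ▸ hy)).1
  have hcyc : ∀ m, bH β (f m) = 0 := fun m => by
    have e := congrArg (Op β σ (List.replicate m 1)) hz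
    rw [← hs, Finsupp.sum, map_sum, map_sum, map_zero, Finset.sum_eq_single m] at e
    · have e' := Op_one (hb m) (bH_mem_CW_replicate hσ hY (hf m))
      rw [List.length_replicate] at e'
      exact e'.symm.trans e
    · exact fun j _ hj => Op_eq_zero (hb j) (by simpa using hj.symm)
        (bH_mem_CW_replicate hσ hY (hf j))
    · intro hm
      rw [Finsupp.notMem_support_iff.1 hm, map_zero, map_zero]
  have hT : Φ β ι (n + 1 + 1) x ∈ (LinearMap.range (Φ β ι (n + 1 + 1 + 1))).map (bH β) := by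
    have e : Φ β ι (n + 1 + 1) x ∈ LL k 1 B (n + 1 + 1) := Phi_mem_LL β _ _
    rw [← piL_of_mem e, ← hs, Finsupp.sum, map_sum]
    refine Submodule.sum_mem _ fun m _ => ?_
    have h1 := piL_mem_CW (n + 1 + 1) (hf m)
    have h2 : bH β (piL k B (n + 1 + 1) (f m)) = 0 := by rw [← piL_bH, hcyc, map_zero]
    obtain ⟨u, hu, e'⟩ : ∃ u ∈ CW β σ (List.replicate m Y),
        bH β u = piL k B (n + 1 + 1) (f m) := by
      cases m with
      | zero => exact h0 n _ h1 (piL_mem_LL _ _) h2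
      | succ m => exact hE m _ h1 h2
    exact ⟨_, piL_mem hY h _ hu, by rw [← piL_bH, e', piL_of_mem (piL_mem_LL _ _)]⟩
  obtain ⟨_, ⟨y, rfl⟩, hy⟩ := hT
  exact ⟨y, (congrArg (Ψ (n + 1 + 1)) hy).trans (hΨ' _ _)⟩

end Pool.Agent.MP_92f1cb_al.H14C
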