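import Pool.Agent.MP_92f1cb_al.H14C.Base2

set_option autoImplicit false

namespace Pool.Agent.MP_92f1cb_al.H14C

open Pool.Agent.MP_92f1cb_al.H14 Module

namespace W0R

variable {k A B : Type} [Field k] [Ring A] [Algebra k A] (β : Basis B k A)

/-- The homotopy on words with a given head. -/
noncomputable def hF (e : Fin 3 → A) : A →ₗ[k] End k (WW k B) where
  toFun a := -∑ c, snoc β (a * e c) ∘ₗ cons β (e c) ∘ₗ om
  map_add' a a' := LinearMap.ext fun W => by
    simp only [add_mul, map_add, LinearMap.add_apply, LinearMap.neg_apply, LinearMap.sum_apply,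
      LinearMap.comp_apply, Finset.sum_add_distrib, neg_add]
  map_smul' t a := LinearMap.ext fun W => by
    simp only [smul_mul_assoc, map_smul, RingHom.id_apply, LinearMap.smul_apply,
      LinearMap.neg_apply, LinearMap.sum_apply, LinearMap.comp_apply, smul_neg, Finset.smul_sum]

/-- The homotopy. -/
noncomputable def sH (e : Fin 3 → A) : End k (WW k B) := HdT β (hF β e)

theorem sH_cons (e : Fin 3 → A) (a : A) (W : WW k B) :
    sH β e (cons β a W) = -∑ c, snoc β (a * e c) (cons β (e c) (om W)) := by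
  rw [sH, HdT_cons]
  simp [hF, LinearMap.sum_apply]

theorem hom1 {e : Fin 3 → A} (he : CompleteOrthogonalIdempotents e) (a x : A) (V : WW k B) :
    bH β (sH β e (cons β a (snoc β x V))) + sH β e (bH β (cons β a (snoc β x V))) =
      cons β a (snoc β x V) - ∑ c, snoc β (a * e c) (d0 β (cons β (e c) (om (snoc β x V)))) +
        sH β e (d0 β (cons β a (snoc β x V))) := by
  have h1 : ∀ c, bH β (snoc β (a * e c) (cons β (e c) (om (snoc β x V)))) =
      snoc β (a * e c) (d0 β (cons β (e c) (om (snoc β x V)))) -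
        snoc β (a * e c) (cons β (e c) (bp β (om (snoc β x V)))) +
        snoc β (x * a * e c) (cons β (e c) V) - cons β (a * e c) (snoc β x V) := by
    intro c
    have h2 : cons β (e c) (om (snoc β x V)) = -snoc β x (cons β (e c) (om V)) := by
      rw [om_snoc, map_neg, cons_snoc]
    have h3 : bp β (snoc β (a * e c) (cons β (e c) (om (snoc β x V)))) =
        snoc β (a * e c) (bp β (cons β (e c) (om (snoc β x V)))) +
          snoc β (x * a * e c) (cons β (e c) V) := by
      rw [h2, map_neg, map_neg, bp_snoc_snoc, om_cons, om_om, mul_assoc]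
      simp only [map_neg, neg_add, neg_neg]
    rw [bH_apply, h3, ← cons_snoc β (e c) (a * e c), d0_TH_cons_snoc, om_om, bp_cons, map_sub,
      mul_assoc a, (he.idem c).eq, ← sub_eq_add_neg]
  have h4 : ∑ c, cons β (a * e c) (snoc β x V) = cons β a (snoc β x V) := by
    rw [← LinearMap.sum_apply, ← map_sum, ← Finset.mul_sum, he.complete, mul_one]
  rw [sH_cons, map_neg, map_sum, bH_apply β (cons β a _), bp_cons, d0_TH_cons_snoc]
  simp only [h1, map_add, map_sub, map_neg, sH_cons, om_om, om_bp, Finset.sum_add_distrib,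
    Finset.sum_sub_distrib, Finset.sum_neg_distrib, h4]
  abel

theorem hom2 {e : Fin 3 → A} (he : CompleteOrthogonalIdempotents e) (a x : A) (l : List A) :
    (1 - (bH β * sH β e + sH β e * bH β) : End k (WW k B)) (cons β a (cons β x (ww β l))) =
      ∑ c, (snoc β (a * x * e c) (cons β (e c) (om (ww β l))) -
        snoc β (a * e c) (cons β (e c * x) (om (ww β l)))) := by
  obtain ⟨y, V, h⟩ : ∃ y V, cons β x (ww β l) = snoc β y V := by
    refine ⟨(x :: l).getLast (by simp), ww β (x :: l).dropLast, ?_⟩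
    rw [← ww_concat, List.dropLast_append_getLast, ww_cons]
  have h1 := hom1 β he a y V
  rw [← h] at h1
  simp only [LinearMap.sub_apply, LinearMap.add_apply, End.mul_apply, End.one_apply]
  rw [h1, d0_cons_cons, sH_cons, om_cons]
  simp only [map_neg, d0_cons_cons, Finset.sum_neg_distrib, Finset.sum_sub_distrib]
  abel

variable (σ : A →ₐ[k] A)

/-- The filtration by the columns of the head. -/
noncomputable def Fl (e : Fin 3 → A) (n c : ℕ) : Submodule k (WW k B) :=
  Submodule.span k {W | ∃ (a : A) (l : List A), l.length = n + 1 ∧ σ a = a ∧ (∀ x ∈ l, σ x = x) ∧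
    (∀ j : Fin 3, c ≤ j → a * e j = 0) ∧ W = cons β a (ww β l)}

variable {σ}

theorem mem_Fl {e : Fin 3 → A} {n c : ℕ} {a x : A} {l : List A} (hl : l.length = n)
    (ha : σ a = a) (hx : σ x = x) (h : ∀ y ∈ l, σ y = y) (h0 : ∀ j : Fin 3, c ≤ j → a * e j = 0) :
    snoc β x (cons β a (om (ww β l))) ∈ Fl β σ e n c := by
  rw [om_ww, map_smul, map_smul, ← cons_snoc, ← ww_concat]
  refine Submodule.smul_mem _ _ (Submodule.subset_span ⟨a, _, by simp [hl], ha, ?_, h0, rfl⟩)
  intro y hy
  rcases List.mem_append.1 hy with hy | hy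
  · exact h y hy
  · rw [List.mem_singleton.1 hy, hx]

theorem Fl_le (e : Fin 3 → A) (n c : ℕ) : Fl β σ e n c ≤ CW β σ [] := by
  refine Submodule.span_le.2 ?_
  rintro _ ⟨a, l, -, ha, hl, -, rfl⟩
  exact cons_mem_CW ha (ww_mem_CW (shape_nil_iff.2 hl))

theorem sH_mem {e : Fin 3 → A} (he : ∀ i, σ (e i) = e i) {W : WW k B} (hW : W ∈ CW β σ []) :
    sH β e W ∈ CW β σ [] := by
  refine CW_map (f := sH β e) _ (fun l hl => ?_) hW
  cases l with
  | nil => rw [sH, HdT_nil]; exact Submodule.zero_mem _
  | cons a l =>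
    have h := shape_nil_iff.1 hl
    rw [ww_cons, sH_cons]
    refine Submodule.neg_mem _ (Submodule.sum_mem _ fun c _ => snoc_mem_CW_L ?_
      (cons_mem_CW (he c) (om_mem_CW (ww_mem_CW (shape_nil_iff.2 fun y hy => h y (by simp [hy]))))))
    rw [map_mul, he, h a (by simp)]

theorem step {e : Fin 3 → A} (he : Tri σ e) (n : ℕ) (c : Fin 3) {W : WW k B}
    (hW : W ∈ Fl β σ e n (c + 1)) :
    (1 - (bH β * sH β e + sH β e * bH β) : End k (WW k B)) W ∈ Fl β σ e n c := by
  refine (Submodule.span_le (p := (Fl β σ e n c).comap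
    (1 - (bH β * sH β e + sH β e * bH β) : End k (WW k B)))).2 ?_ hW
  rintro _ ⟨a, l, hl, ha, hs, h0, rfl⟩
  obtain ⟨x, l, rfl⟩ : ∃ x l', l = x :: l' := by
    cases l with
    | nil => simp at hl
    | cons x l => exact ⟨x, l, rfl⟩
  have hx : σ x = x := hs x (by simp)
  have hs' : ∀ y ∈ l, σ y = y := fun y hy => hs y (by simp [hy])
  have hl' : l.length = n := by simpa using hl
  have hsum : ∀ j, a * x * e j = ∑ i, a * e i * (e i * x * e j) := fun j => by
    have : ∀ i, a * e i * (e i * x * e j) = a * e i * (x * e j) := fun i => by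
      rw [mul_assoc (e i), ← mul_assoc, mul_assoc a, (he.coi.idem i).eq]
    simp only [this]
    rw [← Finset.sum_mul, ← Finset.mul_sum, he.coi.complete, mul_one, mul_assoc]
  change (1 - (bH β * sH β e + sH β e * bH β) : End k (WW k B)) _ ∈ Fl β σ e n c
  rw [ww_cons, hom2 β he.coi]
  refine Submodule.sum_mem _ fun j _ => ?_
  rcases lt_trichotomy j c with h | rfl | h
  · refine Submodule.sub_mem _ (mem_Fl β hl' (he.fix j) ?_ hs' fun i hi => ?_)
      (mem_Fl β hl' ?_ ?_ hs' fun i hi => ?_)
    · rw [map_mul, map_mul, ha, hx, he.fix]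
    · exact he.coi.ortho (lt_of_lt_of_le h hi).ne
    · rw [map_mul, hx, he.fix]
    · rw [map_mul, ha, he.fix]
    · exact he.up x hx j i (lt_of_lt_of_le h hi)
  · obtain ⟨t, ht⟩ := he.diag x hx j
    have h1 : a * x * e j = t • (a * e j) := by
      rw [hsum, Finset.sum_eq_single j]
      · rw [ht, mul_smul_comm, mul_assoc, (he.coi.idem j).eq]
      · intro i _ hi
        rcases lt_or_gt_of_ne hi with h | h
        · rw [he.up x hx i j h, mul_zero]
        · rw [h0 i h, zero_mul]
      · simp
    have h2 : snoc β (a * x * e j) (cons β (e j) (om (ww β l))) -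
        snoc β (a * e j) (cons β (e j * x) (om (ww β l))) =
        snoc β (a * e j) (cons β (t • e j - e j * x) (om (ww β l))) := by
      simp only [h1, map_sub, map_smul, LinearMap.sub_apply, LinearMap.smul_apply]
    rw [h2]
    refine mem_Fl β hl' ?_ ?_ hs' fun i hi => ?_
    · rw [map_sub, map_smul, map_mul, hx, he.fix]
    · rw [map_mul, ha, he.fix]
    · rcases eq_or_lt_of_le (show j ≤ i from hi) with rfl | h
      · rw [sub_mul, smul_mul_assoc, (he.coi.idem j).eq, ht, sub_self]
      · rw [sub_mul, smul_mul_assoc, he.coi.ortho h.ne, he.up x hx j i h, smul_zero, sub_zero]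
  · have h1 : a * x * e j = 0 := by
      rw [hsum]
      refine Finset.sum_eq_zero fun i _ => ?_
      rcases lt_or_ge i j with h' | h'
      · rw [he.up x hx i j h', mul_zero]
      · rw [h0 i (lt_of_lt_of_le h h'), zero_mul]
    rw [h1, h0 j h]
    simp

theorem ex_Fl {e : Fin 3 → A} (he : Tri σ e) (n c : ℕ) (hc : c ≤ 3) :
    ∀ z ∈ Fl β σ e n c, bH β z = 0 → ∃ u ∈ CW β σ [], bH β u = z := by
  induction c with
  | zero =>
    intro z hz _
    have : Fl β σ e n 0 ≤ ⊥ := Submodule.span_le.2 (by
      rintro _ ⟨a, l, -, -, -, h0, rfl⟩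
      have : a = 0 := by
        rw [← mul_one a, ← he.coi.complete, Finset.mul_sum]
        exact Finset.sum_eq_zero fun j _ => h0 j (Nat.zero_le _)
      simp [this])
    exact ⟨0, Submodule.zero_mem _, by rw [map_zero, (Submodule.mem_bot k).1 (this hz)]⟩
  | succ c ih =>
    intro z hz hb
    have h1 := step β he n ⟨c, hc⟩ hz
    simp only [LinearMap.sub_apply, LinearMap.add_apply, End.mul_apply, End.one_apply, hb,
      map_zero, add_zero] at h1
    obtain ⟨u, hu, h2⟩ := ih (by omega) _ h1 (by rw [map_sub, hb, bH_bH, sub_zero])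
    exact ⟨u + sH β e z, Submodule.add_mem _ hu (sH_mem β he.fix (Fl_le β e n _ hz)), by
      rw [map_add, h2, sub_add_cancel]⟩

end W0R

theorem w0 : SW0 := by
  intro k A B _ _ _ β σ e he n z hz hL hb
  refine W0R.ex_Fl β he n 3 le_rfl z ?_ hb
  rw [← piL_of_mem hL]
  refine CW_map (f := piL k B (n + 2)) _ (fun l hl => ?_) hz
  rw [piL_ww]
  split_ifs with h
  · cases l with
    | nil => simp at h
    | cons a l =>
      have h' := shape_nil_iff.1 hl
      exact Submodule.subset_span ⟨a, l, by simpa using h, h' a (by simp),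
        fun y hy => h' y (by simp [hy]), fun j hj => absurd j.2 (by omega), rfl⟩
  · exact Submodule.zero_mem _

end Pool.Agent.MP_92f1cb_al.H14C
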